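import Pool.Agent.K1H13.G.Cd

/-!
# The coordinates on a tensor power
-/

set_option autoImplicit false
set_option linter.unusedSectionVars false

open Finset Matrix Module

universe v

namespace Pool.Agent.K1H13.G

/-- the group of the labels -/
abbrev LG (K : Type v) [Field K] : Type v :=
  (Kˣ ⧸ CommGroup.torsion Kˣ) × Multiplicative (ZMod 2)

section Mat

variable {K : Type v} [Field K] {I : Type v} [Fintype I] [DecidableEq I]

lemma powMat_mul_diagonal (P : Matrix I I K) (d : I → K) (n : ℕ) :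
    powMat (P * diagonal d) n = powMat P n * diagonal fun x => ∏ k, d (x k) := by
  ext y x
  rw [mul_diagonal]
  unfold powMat
  rw [← prod_mul_distrib]
  exact prod_congr rfl fun k _ => mul_diagonal _ _ _ _

end Mat

namespace JD

variable {K V : Type v} [Field K] [AddCommGroup V] [Module K V] {V₀ V₁ : Submodule K V}
  {F : Module.End K V} (D : JD V₀ V₁ F)

instance : Fintype (Σ j : D.B, Fin (D.s j)) := D.ft

noncomputable instance : DecidableEq D.B := Classical.decEq _

/-- the label of a block -/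
def lj (j : D.B) : LG K := (QuotientGroup.mk (D.ev j), D.par j)

/-- the label of a basis vector -/
def lab (i : Σ j : D.B, Fin (D.s j)) : LG K := D.lj i.1

variable [CharZero K]

lemma toMatrix_eq : LinearMap.toMatrix D.b D.b F =
    (1 + jN K D.s) * diagonal fun i => (D.ev i.1 : K) := by
  ext y x
  rw [LinearMap.toMatrix_apply, mul_diagonal]
  obtain ⟨j, p⟩ := x
  rw [D.hb j p, map_smul, Finsupp.smul_apply, smul_eq_mul, mul_comm, map_add, Finsupp.add_apply,
    Matrix.add_apply, Basis.repr_self]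
  congr 2
  · rw [Finsupp.single_apply, Matrix.one_apply]
    by_cases h : y = ⟨j, p⟩
    · rw [if_pos h, if_pos h.symm]
    · rw [if_neg h, if_neg (Ne.symm h)]
  · unfold jN
    by_cases h : p.1 + 1 < D.s j
    · rw [dif_pos h, Basis.repr_self, Finsupp.single_apply]
      by_cases h2 : (⟨j, ⟨p.1 + 1, h⟩⟩ : Σ j : D.B, Fin (D.s j)) = y
      · subst h2
        rw [if_pos rfl, if_pos ⟨rfl, rfl⟩]
      · rw [if_neg h2, if_neg]
        rintro ⟨h3, h4⟩
        exact h2 (sig_ext D.s h3.symm h4.symm)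
    · rw [dif_neg h, map_zero, Finsupp.zero_apply, if_neg]
      rintro ⟨h3, h4⟩
      have h5 := y.2.2
      have h6 : D.s y.1 = D.s j := by rw [h3]
      simp only at h4
      omega

/-- **The coordinates on a tensor power.** -/
theorem exists_cd {W : Type v} [AddCommGroup W] [Module K W] {W₀ : Submodule K W}
    {Φ : Module.End K W} {n : ℕ} (bn : Basis (Fin n → Σ j : D.B, Fin (D.s j)) K W)
    (hΦ : LinearMap.toMatrix bn bn Φ = powMat (LinearMap.toMatrix D.b D.b F) n)
    (h₀ : ∀ z, z ∈ W₀ ↔ ∀ x, bn.repr z x ≠ 0 → ∏ k, D.par (x k).1 = 1) :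
    ∃ C : CD W₀ Φ (Fin n → Σ j : D.B, Fin (D.s j)) (LG K), C.ω = wt (jw D.s) ∧
      C.lam = lb D.lab := by
  classical
  obtain ⟨M, f, hM, hU⟩ := exists_pow (jtrip (K := K) D.s D.lj) (juni (K := K) D.s D.lj) n
  obtain ⟨M', f', hM', hU'⟩ := exists_pow (jtrip (K := K) D.s (fun j => (D.ev j, D.par j)))
    (juni (K := K) D.s (fun j => (D.ev j, D.par j))) n
  set al : (Fin n → Σ j : D.B, Fin (D.s j)) → K := fun x => ∏ k, (D.ev (x k).1 : K) with hal
  have hev : ∀ x : Fin n → Σ j : D.B, Fin (D.s j), lb (fun i : Σ j : D.B, Fin (D.s j) => (D.ev i.1, D.par i.1)) x =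
      (∏ k, D.ev (x k).1, ∏ k, D.par (x k).1) := fun x => by
    unfold lb
    exact Prod.ext (Prod.fst_prod) (Prod.snd_prod)
  have hev2 : ∀ x : Fin n → Σ j : D.B, Fin (D.s j), lb D.lab x =
      (QuotientGroup.mk (∏ k, D.ev (x k).1), ∏ k, D.par (x k).1) := fun x => by
    unfold lb
    refine Prod.ext (Prod.fst_prod.trans ?_) (Prod.snd_prod)
    show ∏ k, QuotientGroup.mk' (CommGroup.torsion Kˣ) (D.ev (x k).1) =
      QuotientGroup.mk' (CommGroup.torsion Kˣ) (∏ k, D.ev (x k).1)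
    rw [map_prod]
  have hal2 : ∀ x, al x = ((∏ k, D.ev (x k).1 : Kˣ) : K) := fun x => by
    rw [hal, Units.coe_prod]
  have hpres : ∀ y x, powMat (1 + jN K D.s) n y x ≠ 0 → al y = al x ∧
      ∏ k, D.par (y k).1 = ∏ k, D.par (x k).1 := by
    intro y x hne
    have h1 := (hU'.low hM' hne).2
    rw [hev, hev] at h1
    obtain ⟨h2, h3⟩ := Prod.mk.inj h1
    exact ⟨by rw [hal2, hal2, h2], h3⟩
  have htor : ∀ (x : Fin n → Σ j : D.B, Fin (D.s j)) (m : ℕ), 0 < m → ∏ k, D.par (x k).1 = 1 → al x ^ m = 1 → lb D.lab x = 1 := by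
    intro x m hm h1 h2
    rw [hev2, h1]
    refine Prod.ext ?_ rfl
    show (QuotientGroup.mk (∏ k, D.ev (x k).1) : Kˣ ⧸ CommGroup.torsion Kˣ) = 1
    rw [QuotientGroup.eq_one_iff, CommGroup.mem_torsion, isOfFinOrder_iff_pow_eq_one]
    refine ⟨m, hm, ?_⟩
    rw [hal2] at h2
    apply Units.ext
    rw [Units.val_pow_eq_pow_val, Units.val_one]
    exact h2
  have htor2 : ∀ x : Fin n → Σ j : D.B, Fin (D.s j), lb D.lab x = 1 → ∏ k, D.par (x k).1 = 1 ∧
      IsOfFinOrder (∏ k, D.ev (x k).1) := by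
    intro x hx
    rw [hev2] at hx
    obtain ⟨h1, h2⟩ := Prod.mk.inj (show (QuotientGroup.mk (∏ k, D.ev (x k).1), ∏ k, D.par (x k).1)
      = ((1 : Kˣ ⧸ CommGroup.torsion Kˣ), (1 : Multiplicative (ZMod 2))) from hx)
    refine ⟨h2, ?_⟩
    rwa [QuotientGroup.eq_one_iff, CommGroup.mem_torsion] at h1
  set s : ℕ := ∏ x ∈ (univ : Finset (Fin n → Σ j : D.B, Fin (D.s j))).filter
    (fun x => lb D.lab x = 1), orderOf (∏ k, D.ev (x k).1) with hs
  have hs0 : 0 < s := by
    rw [hs]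
    refine prod_pos fun x hx => ?_
    rw [orderOf_pos_iff]
    exact (htor2 x (mem_filter.1 hx).2).2
  have hs1 : ∀ x : Fin n → Σ j : D.B, Fin (D.s j), lb D.lab x = 1 → al x ^ s = 1 := by
    intro x hx
    have h1 : orderOf (∏ k, D.ev (x k).1) ∣ s := dvd_prod_of_mem
      (fun x : Fin n → Σ j : D.B, Fin (D.s j) => orderOf (∏ k, D.ev (x k).1))
      (mem_filter.2 ⟨mem_univ _, hx⟩)
    have h2 := orderOf_dvd_iff_pow_eq_one.1 h1
    rw [hal2, ← Units.val_pow_eq_pow_val, h2, Units.val_one]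
  refine ⟨{
    c := bn
    ω := wt (jw D.s)
    lam := lb D.lab
    M := M
    f := f
    U := powMat (1 + jN K D.s) n
    al := al
    P := fun x => ∏ k, D.par (x k).1 = 1
    s := s
    trip := hM
    uni := hU
    pres := fun y x hne => (hpres y x hne).1
    hP := fun x y hne => by rw [(hpres y x hne).2]
    hs0 := hs0
    hs := fun x => ⟨fun h => ⟨(htor2 x h).1, hs1 x h⟩, fun h => htor x s hs0 h.1 h.2⟩
    htor := htor
    hΦ := ?_
    h₀ := h₀ }, rfl, rfl⟩
  rw [hΦ, D.toMatrix_eq, powMat_mul_diagonal]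

end JD

end Pool.Agent.K1H13.G
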