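import Pool.Agent.K1H13.G.Low4
import Pool.Agent.K1H13.G.Jdp

/-!
# The law for tensor powers
-/

set_option autoImplicit false
set_option linter.unusedSectionVars false

open Finset Matrix Module

universe v

namespace Pool.Agent.K1H13.G

open scoped Classical in
section

/-- **The counting law.** -/
theorem cnt_law (b : ℕ) : ∃ C : ℝ, 0 < C ∧ ∀ {B A : Type v} [DecidableEq B] {s : B → ℕ}
    [Fintype (Σ j : B, Fin (s j))] [CommGroup A] {ev : B → A}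
    {τ : (Σ j : B, Fin (s j)) → (Σ j : B, Fin (s j))}, Fintype.card (Σ j : B, Fin (s j)) = b →
    Function.Injective τ → (∀ i, ev (τ i).1 = (ev i.1)⁻¹) → (∀ i, jw s (τ i) = jw s i) →
    (∃ i, jw s i ≠ 0) → ∀ {j₀ : B}, s j₀ = 1 → ev j₀ = 1 → ∀ n : ℕ, 1 ≤ n →
    (#(OK (fun i : Σ j : B, Fin (s j) => ev i.1) n) : ℝ) ≤ C * Real.sqrt n *
      ((cnt (jw s) (fun i : Σ j : B, Fin (s j) => ev i.1) n 0 : ℝ) +
        cnt (jw s) (fun i : Σ j : B, Fin (s j) => ev i.1) n 1) ∧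
    ((cnt (jw s) (fun i : Σ j : B, Fin (s j) => ev i.1) n 0 : ℝ) +
        cnt (jw s) (fun i : Σ j : B, Fin (s j) => ev i.1) n 1) * Real.sqrt n ≤
      C * #(OK (fun i : Σ j : B, Fin (s j) => ev i.1) n) ∧
    (#(OK (fun i : Σ j : B, Fin (s j) => ev i.1) n) : ℝ) ≤ C * Real.sqrt n ^ 3 *
      ((cnt (jw s) (fun i : Σ j : B, Fin (s j) => ev i.1) n 0 : ℝ) -
        cnt (jw s) (fun i : Σ j : B, Fin (s j) => ev i.1) n 2) ∧
    ((cnt (jw s) (fun i : Σ j : B, Fin (s j) => ev i.1) n 0 : ℝ) -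
        cnt (jw s) (fun i : Σ j : B, Fin (s j) => ev i.1) n 2) * Real.sqrt n ^ 3 ≤
      C * #(OK (fun i : Σ j : B, Fin (s j) => ev i.1) n) := by
  obtain ⟨C₁, hC₁, h₁⟩ := upper.{v} b
  obtain ⟨C₃, hC₃, h₃⟩ := upper3.{v} b
  refine ⟨2 * C₁ + C₃ + (6 * b + 2) + 384 * b ^ 4, by positivity, ?_⟩
  intro B A _ s _ _ ev τ hI hτ hτe hτw hne j₀ hs he n hn
  have h1 : ∃ i : Σ j : B, Fin (s j), ev i.1 = 1 := ⟨⟨j₀, ⟨0, by omega⟩⟩, he⟩
  have hb : ∀ i, |jw s i| ≤ b := fun i => by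
    rw [← hI]
    exact abs_jw s i
  set g : ℝ := (#(OK (fun i : Σ j : B, Fin (s j) => ev i.1) n) : ℝ) with hg
  set c0 : ℝ := (cnt (jw s) (fun i : Σ j : B, Fin (s j) => ev i.1) n 0 : ℝ) with hc0
  set c1 : ℝ := (cnt (jw s) (fun i : Σ j : B, Fin (s j) => ev i.1) n 1 : ℝ) with hc1
  set c2 : ℝ := (cnt (jw s) (fun i : Σ j : B, Fin (s j) => ev i.1) n 2 : ℝ) with hc2
  have hg0 : 0 ≤ g := Nat.cast_nonneg _
  have hc00 : 0 ≤ c0 := Nat.cast_nonneg _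
  have hc10 : 0 ≤ c1 := Nat.cast_nonneg _
  have hsn := Real.sqrt_nonneg (n : ℝ)
  have hdiff : 0 ≤ c0 - c2 := by
    have := (cl_su (ev := ev) (s := s) n 1).mono 0 (by norm_num)
    rw [zero_add, ← cnt_eq_cl, ← cnt_eq_cl] at this
    linarith
  have hb4 : (0 : ℝ) ≤ 384 * b ^ 4 := by positivity
  refine ⟨?_, ?_, ?_, ?_⟩
  · have h := lower (w := jw s) (lab := fun i : Σ j : B, Fin (s j) => ev i.1) (σ := jrev s)
      (jrev_jrev s) (fun i => rfl) (jw_jrev s) hb hn (by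
        obtain ⟨M, f, hM, -⟩ := exists_pow (jtrip (K := ℚ) s ev) (juni (K := ℚ) s ev) n
        intro v
        have := hM.num_le 1 v
        rwa [num_eq_cnt, num_eq_cnt, num_eq_cnt] at this)
    push_cast at h
    refine h.trans ?_
    have : (6 * b + 2 : ℝ) ≤ 2 * C₁ + C₃ + (6 * b + 2) + 384 * b ^ 4 := by linarith
    gcongr
  · have e0 := h₁ hI (jrev_jrev s) (fun i => rfl) (jw_jrev s) hτ hτe h1 hne n 0
    have e1 := h₁ hI (jrev_jrev s) (fun i => rfl) (jw_jrev s) hτ hτe h1 hne n 1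
    have hbb : (0 : ℝ) ≤ b := Nat.cast_nonneg _
    nlinarith
  · have h := lower3 hI hτ hτe hτw hs he hn
    refine h.trans ?_
    have hbb : (0 : ℝ) ≤ b := Nat.cast_nonneg _
    have : (384 * b ^ 4 : ℝ) ≤ 2 * C₁ + C₃ + (6 * b + 2) + 384 * b ^ 4 := by linarith
    gcongr
  · have h := h₃ hI hτ hτe h1 hne n
    have hbb : (0 : ℝ) ≤ b := Nat.cast_nonneg _
    nlinarith

end

/-- **The law for the tensor powers of an operator.** -/
theorem jd_law (b : ℕ) : ∃ C : ℝ, 0 < C ∧ ∀ {K V : Type v} [Field K] [CharZero K] [AddCommGroup V]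
    [Module K V] {V₀ V₁ : Submodule K V} {F : Module.End K V} (D : JD V₀ V₁ F),
    Fintype.card (Σ j : D.B, Fin (D.s j)) = b → (∃ i, jw D.s i ≠ 0) →
    ∀ {j₀ : D.B}, D.s j₀ = 1 → D.lj j₀ = 1 → ∀ n : ℕ, 1 ≤ n → ∀ {W : Type v} [AddCommGroup W]
    [Module K W] {W₀ : Submodule K W} {Φ : Module.End K W} {β : W →ₗ[K] W →ₗ[K] K}
    (C' : CD W₀ Φ (Fin n → Σ j : D.B, Fin (D.s j)) (LG K)), C'.ω = wt (jw D.s) →
    C'.lam = lb D.lab → (∀ x y, β (Φ x) (Φ y) = β x y) →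
    (∀ z ∈ W₀, (∀ x ∈ W₀, β x z = 0) → z = 0) →
    (Set.finrank K (genS W₀ Φ) : ℝ) ≤ C * Real.sqrt n * Set.finrank K (tateS W₀ Φ) ∧
    (Set.finrank K (tateS W₀ Φ) : ℝ) * Real.sqrt n ≤ C * Set.finrank K (genS W₀ Φ) ∧
    (Set.finrank K (genS W₀ Φ) : ℝ) ≤ C * Real.sqrt n ^ 3 *
      ((Set.finrank K (tateS W₀ Φ) : ℝ) - Set.finrank K (radS W₀ Φ β)) ∧
    ((Set.finrank K (tateS W₀ Φ) : ℝ) - Set.finrank K (radS W₀ Φ β)) * Real.sqrt n ^ 3 ≤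
      C * Set.finrank K (genS W₀ Φ) := by
  obtain ⟨C, hC0, hC⟩ := cnt_law.{v} b
  refine ⟨C, hC0, ?_⟩
  intro K V _ _ _ _ V₀ V₁ F D hI hne j₀ hs he n hn W _ _ W₀ Φ β C' hω hlam hβ hnd
  have h1 := hC hI D.hτ (ev := D.lj) (fun i => Prod.ext (by
      show (QuotientGroup.mk (D.ev (D.τ i).1) : Kˣ ⧸ CommGroup.torsion Kˣ) = _
      rw [D.hτe]
      rfl) (D.hτp i)) D.hτw hne hs he n hn
  have e1 : (Set.finrank K (tateS W₀ Φ) : ℝ) =
      (cnt (jw D.s) (fun i : Σ j : D.B, Fin (D.s j) => D.lj i.1) n 0 : ℝ) +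
        cnt (jw D.s) (fun i : Σ j : D.B, Fin (D.s j) => D.lj i.1) n 1 := by
    rw [C'.finrank_tate, hω, hlam, num_eq_cnt, num_eq_cnt]
    push_cast
    rfl
  have e2 : (Set.finrank K (radS W₀ Φ β) : ℝ) =
      (cnt (jw D.s) (fun i : Σ j : D.B, Fin (D.s j) => D.lj i.1) n 1 : ℝ) +
        cnt (jw D.s) (fun i : Σ j : D.B, Fin (D.s j) => D.lj i.1) n 2 := by
    rw [C'.finrank_rad hβ hnd, hω, hlam, num_eq_cnt, num_eq_cnt]
    push_cast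
    rfl
  have e3 : (Set.finrank K (genS W₀ Φ) : ℝ) =
      (#(OK (fun i : Σ j : D.B, Fin (D.s j) => D.lj i.1) n) : ℝ) := by
    rw [C'.finrank_gen, hlam]
    congr 1
  have e4 : (Set.finrank K (tateS W₀ Φ) : ℝ) - Set.finrank K (radS W₀ Φ β) =
      (cnt (jw D.s) (fun i : Σ j : D.B, Fin (D.s j) => D.lj i.1) n 0 : ℝ) -
        cnt (jw D.s) (fun i : Σ j : D.B, Fin (D.s j) => D.lj i.1) n 2 := by
    rw [e1, e2]; ring
  rw [e4, e1, e3]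
  exact h1

end Pool.Agent.K1H13.G
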