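import Pool.Agent.K1H13.G.Kron

/-!
# Eigenvectors of the powers of a matrix with known Jordan decomposition
-/

set_option autoImplicit false
set_option linter.unusedSectionVars false

open Finset Matrix

namespace Pool.Agent.K1H13.G

section

variable {K : Type*} [Field K] [CharZero K] {J L : Type*} [Fintype J] [DecidableEq J]
  {ω : J → ℤ} {l : J → L} {V V' : Matrix J J K} {d d' : J → K}

/-- the matrix has leading part the diagonal matrix of `d`, and the rest raises the weights -/
def Lead (ω : J → ℤ) (V : Matrix J J K) (d : J → K) : Prop :=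
  ∀ y x, (V - diagonal d) y x ≠ 0 → ω x < ω y

/-- the matrix keeps the labels -/
def Pres (l : J → L) (V : Matrix J J K) : Prop := ∀ y x, V y x ≠ 0 → l y = l x

lemma Lead.low (h : Lead ω V d) {y x : J} (hne : V y x ≠ 0) : ω x ≤ ω y := by
  by_cases hyx : y = x
  · rw [hyx]
  · refine (h y x ?_).le
    rwa [Matrix.sub_apply, diagonal_apply_ne _ hyx, sub_zero]

lemma Lead.diag (d : J → K) : Lead ω (diagonal d) d := fun y x h => by
  rw [sub_self] at h
  exact absurd rfl h

lemma Lead.one : Lead ω (1 : Matrix J J K) 1 := by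
  have := Lead.diag (ω := ω) (1 : J → K)
  rwa [show diagonal (1 : J → K) = 1 from diagonal_one] at this

lemma Lead.mul (h : Lead ω V d) (h' : Lead ω V' d') : Lead ω (V * V') (d * d') := by
  intro y x hne
  have e : V * V' - diagonal (d * d') = (V - diagonal d) * V' + diagonal d * (V' - diagonal d') := by
    rw [sub_mul, mul_sub, diagonal_mul_diagonal]
    have : diagonal (d * d') = diagonal fun i => d i * d' i := rfl
    rw [this]
    abel
  rw [e, Matrix.add_apply] at hne
  by_cases h1 : ((V - diagonal d) * V') y x = 0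
  · rw [h1, zero_add, diagonal_mul] at hne
    exact h' y x (right_ne_zero_of_mul hne)
  · rw [Matrix.mul_apply] at h1
    obtain ⟨z, -, hz⟩ := exists_ne_zero_of_sum_ne_zero h1
    exact (h'.low (right_ne_zero_of_mul hz)).trans_lt (h y z (left_ne_zero_of_mul hz))

lemma Lead.pow (h : Lead ω V d) (s : ℕ) : Lead ω (V ^ s) (d ^ s) := by
  induction s with
  | zero => rw [pow_zero, pow_zero]; exact Lead.one
  | succ s ih => rw [pow_succ, pow_succ]; exact ih.mul h

lemma Lead.add (h : Lead ω V d) (h' : Lead ω V' d') : Lead ω (V + V') (d + d') := by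
  intro y x hne
  have e : V + V' - diagonal (d + d') = (V - diagonal d) + (V' - diagonal d') := by
    have : diagonal (d + d') = diagonal d + diagonal d' := (diagonal_add _ _).symm
    rw [this]
    abel
  rw [e, Matrix.add_apply] at hne
  by_cases h1 : (V - diagonal d) y x = 0
  · rw [h1, zero_add] at hne
    exact h' y x hne
  · exact h y x h1

lemma Lead.zero : Lead ω (0 : Matrix J J K) 0 := by
  have := Lead.diag (ω := ω) (0 : J → K)
  rwa [show diagonal (0 : J → K) = 0 from diagonal_zero] at this

lemma Lead.sub_scalar (h : Lead ω V d) (c : K) : Lead ω (V - c • (1 : Matrix J J K))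
    (d - fun _ => c) := by
  intro y x hne
  apply h y x
  have e : V - c • (1 : Matrix J J K) - diagonal (d - fun _ => c) = V - diagonal d := by
    have h1 : diagonal (d - fun _ => c) = diagonal d - diagonal fun _ => c :=
      (diagonal_sub _ _).symm
    have h2 : (diagonal fun _ : J => c) = c • (1 : Matrix J J K) := by
      rw [← diagonal_one, ← diagonal_smul]
      congr 1
      funext i
      simp
    rw [h1, h2]
    abel
  rwa [e] at hne

lemma Lead.inj (h : Lead ω V d) {z : J → K} (hd : ∀ j, z j ≠ 0 → d j ≠ 0)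
    (h0 : V *ᵥ z = 0) : z = 0 := by
  classical
  by_contra hz
  obtain ⟨j₀, hj₀⟩ := Function.ne_iff.1 hz
  obtain ⟨j, hj, hmin⟩ := exists_min_image (univ.filter fun j => z j ≠ 0) ω
    ⟨j₀, mem_filter.2 ⟨mem_univ _, hj₀⟩⟩
  have hjz := (mem_filter.1 hj).2
  have h1 : (V *ᵥ z) j = d j * z j := by
    have h2 : V = diagonal d + (V - diagonal d) := by abel
    rw [h2, add_mulVec, Pi.add_apply, mulVec_diagonal]
    have h3 : ((V - diagonal d) *ᵥ z) j = 0 := by
      rw [mulVec, dotProduct]
      refine sum_eq_zero fun i _ => ?_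
      by_contra hne
      have h4 := h j i (left_ne_zero_of_mul hne)
      have h5 := hmin i (mem_filter.2 ⟨mem_univ _, right_ne_zero_of_mul hne⟩)
      omega
    rw [h3, add_zero]
  rw [h0, Pi.zero_apply] at h1
  rcases mul_eq_zero.1 h1.symm with h2 | h2
  · exact hd j hjz h2
  · exact hjz h2

lemma Pres.mul (h : Pres l V) (h' : Pres l V') : Pres l (V * V') := by
  intro y x hne
  rw [Matrix.mul_apply] at hne
  obtain ⟨z, -, hz⟩ := exists_ne_zero_of_sum_ne_zero hne
  rw [h y z (left_ne_zero_of_mul hz), h' z x (right_ne_zero_of_mul hz)]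

lemma Pres.diag (d : J → K) : Pres l (diagonal d) := by
  intro y x hne
  by_contra hc
  exact hne (diagonal_apply_ne _ fun h => hc (by rw [h]))

lemma Pres.one : Pres l (1 : Matrix J J K) := by
  rw [← diagonal_one]; exact Pres.diag _

lemma Pres.pow (h : Pres l V) (s : ℕ) : Pres l (V ^ s) := by
  induction s with
  | zero => rw [pow_zero]; exact Pres.one
  | succ s ih => rw [pow_succ]; exact ih.mul h

lemma Pres.sub (h : Pres l V) (h' : Pres l V') : Pres l (V - V') := by
  intro y x hne
  rw [Matrix.sub_apply] at hne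
  by_cases h1 : V y x = 0
  · rw [h1, zero_sub, neg_ne_zero] at hne
    exact h' y x hne
  · exact h y x h1

lemma Pres.smul (h : Pres l V) (c : K) : Pres l (c • V) := by
  intro y x hne
  rw [Matrix.smul_apply, smul_eq_mul] at hne
  exact h y x (right_ne_zero_of_mul hne)

/-- restriction to a union of labels commutes with the matrices which keep the labels -/
lemma Pres.res_comm (h : Pres l V) (p : J → Prop) (hp : ∀ x y, l x = l y → (p x ↔ p y))
    (z : J → K) : V *ᵥ res p z = res p (V *ᵥ z) := by
  classical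
  funext y
  rw [mulVec, dotProduct]
  unfold res
  by_cases hy : p y
  · rw [if_pos hy, mulVec, dotProduct]
    refine sum_congr rfl fun x _ => ?_
    by_cases hne : V y x = 0
    · rw [hne, zero_mul, zero_mul]
    · rw [if_pos ((hp _ _ (h y x hne)).1 hy)]
  · rw [if_neg hy]
    refine sum_eq_zero fun x _ => ?_
    by_cases hne : V y x = 0
    · rw [hne, zero_mul]
    · rw [if_neg fun hx => hy ((hp _ _ (h y x hne)).2 hx), mul_zero]

lemma Pres.mem (h : Pres l V) {p : J → Prop} (hp : ∀ x y, l x = l y → (p x ↔ p y))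
    {z : J → K} (hz : z ∈ Sup K p) : V *ᵥ z ∈ Sup K p := by
  intro y hy
  rw [mulVec, dotProduct] at hy
  obtain ⟨x, -, hx⟩ := exists_ne_zero_of_sum_ne_zero hy
  exact (hp _ _ (h y x (left_ne_zero_of_mul hx))).2 (hz x (right_ne_zero_of_mul hx))

lemma res_eq_self {p : J → Prop} {z : J → K} (hz : z ∈ Sup K p) : res p z = z := by
  classical
  funext j
  unfold res
  by_cases h : p j
  · rw [if_pos h]
  · rw [if_neg h]
    by_contra hne
    exact h (hz j (Ne.symm hne))

lemma mem_of_res {p : J → Prop} {z : J → K} (hz : res (fun j => ¬ p j) z = 0) : z ∈ Sup K p := by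
  classical
  intro j hj
  by_contra hp
  have := congrFun hz j
  rw [res, if_pos hp] at this
  exact hj this

variable {U : Matrix J J K} {al : J → K}

/-- `U` and `D` commute -/
lemma comm_diag (hU : Pres al U) : U * diagonal al = diagonal al * U := by
  ext y x
  rw [mul_diagonal, diagonal_mul]
  by_cases h : U y x = 0
  · rw [h, zero_mul, mul_zero]
  · rw [hU y x h, mul_comm]

lemma pow_diag_mulVec {s : ℕ} {c : K} {z : J → K} (hz : z ∈ Sup K fun j => al j ^ s = c ^ s) :
    (diagonal al) ^ s *ᵥ z = c ^ s • z := by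
  rw [diagonal_pow]
  funext j
  rw [mulVec_diagonal, Pi.smul_apply, smul_eq_mul]
  by_cases h : z j = 0
  · rw [h, mul_zero, mul_zero]
  · have : al j ^ s = c ^ s := hz j h
    rw [Pi.pow_apply, this]

/-- **Eigenvectors of the powers.** -/
theorem eig_iff (hL : Lead ω U 1) (hU : Pres al U) {s : ℕ} (hs : 0 < s) {c : K} (hc : c ≠ 0)
    {z : J → K} : (U * diagonal al) ^ s *ᵥ z = c ^ s • z ↔
      z ∈ Sup K (fun j => al j ^ s = c ^ s) ∧ (U - 1) *ᵥ z = 0 := by
  have hcomm : Commute U (diagonal al) := comm_diag hU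
  have hF : Lead ω (U * diagonal al) al := by
    have := hL.mul (Lead.diag al)
    rwa [one_mul] at this
  have hP : Pres al (U * diagonal al) := hU.mul (Pres.diag al)
  constructor
  · intro h
    have h0 : ((U * diagonal al) ^ s - c ^ s • (1 : Matrix J J K)) *ᵥ z = 0 := by
      rw [sub_mulVec, h, smul_mulVec, one_mulVec, sub_self]
    have hp : ∀ x y : J, al x = al y →
        ((¬ al x ^ s = c ^ s) ↔ ¬ al y ^ s = c ^ s) := fun x y h => by rw [h]
    have h1 : res (fun j => ¬ al j ^ s = c ^ s) z = 0 := by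
      refine ((hF.pow s).sub_scalar (c ^ s)).inj (fun j hj => ?_) ?_
      · have := res_mem _ _ j hj
        rw [Pi.sub_apply, Pi.pow_apply, sub_ne_zero]
        exact this
      · rw [((hP.pow s).sub (Pres.one.smul _)).res_comm _ hp, h0]
        classical
        funext j
        simp [res]
    have h2 := mem_of_res h1
    refine ⟨h2, ?_⟩
    rw [hcomm.mul_pow, ← mulVec_mulVec, pow_diag_mulVec h2, mulVec_smul] at h
    have h3 : U ^ s *ᵥ z = z := by
      have := smul_right_injective _ (pow_ne_zero s hc) h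
      exact this
    -- the sum of the powers
    have h4 : (∑ i ∈ range s, U ^ i) *ᵥ ((U - 1) *ᵥ z) = 0 := by
      rw [mulVec_mulVec, geom_sum_mul, sub_mulVec, one_mulVec, h3, sub_self]
    have h5 : ∀ s : ℕ, Lead ω (∑ i ∈ range s, U ^ i) fun _ => (s : K) := by
      intro s
      induction s with
      | zero =>
        rw [sum_range_zero]
        have := Lead.zero (K := K) (ω := ω)
        convert this using 1
        funext j
        simp
      | succ s ih =>
        rw [sum_range_succ]
        have := ih.add (hL.pow s)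
        convert this using 1
        funext j
        simp
    exact (h5 s).inj (fun j _ => Nat.cast_ne_zero.2 hs.ne') h4
  · rintro ⟨h1, h2⟩
    have h3 : U *ᵥ z = z := by
      rw [sub_mulVec, one_mulVec, sub_eq_zero] at h2
      exact h2
    have h4 : ∀ m : ℕ, U ^ m *ᵥ z = z := by
      intro m
      induction m with
      | zero => rw [pow_zero, one_mulVec]
      | succ m ih => rw [pow_succ, ← mulVec_mulVec, h3, ih]
    rw [hcomm.mul_pow, ← mulVec_mulVec, pow_diag_mulVec h1, mulVec_smul, h4]

lemma Lead.raise (hL : Lead ω U 1) {v : ℤ} {z : J → K} (hz : z ∈ Sup K fun j => v ≤ ω j) :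
    (U - 1) *ᵥ z ∈ Sup K fun j => v + 1 ≤ ω j := by
  intro y hy
  rw [mulVec, dotProduct] at hy
  obtain ⟨x, -, hx⟩ := exists_ne_zero_of_sum_ne_zero hy
  have h1 : ω x < ω y := by
    apply hL y x
    have : diagonal (1 : J → K) = 1 := diagonal_one
    rw [this]
    exact left_ne_zero_of_mul hx
  have h2 : v ≤ ω x := hz x (right_ne_zero_of_mul hx)
  omega

/-- **Generalised eigenvectors of the powers.** -/
theorem gen_iff (hL : Lead ω U 1) (hU : Pres al U) {s : ℕ} {c : K}
    {z : J → K} : (∃ k : ℕ, ((U * diagonal al) ^ s - c ^ s • (1 : Matrix J J K)) ^ k *ᵥ z = 0) ↔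
      z ∈ Sup K (fun j => al j ^ s = c ^ s) := by
  have hcomm : Commute U (diagonal al) := comm_diag hU
  have hF : Lead ω (U * diagonal al) al := by
    have := hL.mul (Lead.diag al)
    rwa [one_mul] at this
  have hP : Pres al (U * diagonal al) := hU.mul (Pres.diag al)
  constructor
  · rintro ⟨k, hk⟩
    have hp : ∀ x y : J, al x = al y →
        ((¬ al x ^ s = c ^ s) ↔ ¬ al y ^ s = c ^ s) := fun x y h => by rw [h]
    apply mem_of_res
    refine (((hF.pow s).sub_scalar (c ^ s)).pow k).inj (fun j hj => ?_) ?_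
    · have := res_mem _ _ j hj
      rw [Pi.pow_apply, Pi.sub_apply, Pi.pow_apply]
      exact pow_ne_zero _ (sub_ne_zero.2 this)
    · rw [(((hP.pow s).sub (Pres.one.smul _)).pow k).res_comm _ hp, hk]
      classical
      funext j
      simp [res]
  · intro hz
    obtain ⟨B, hB⟩ : ∃ B : ℤ, ∀ j, ω j ≤ B := by
      rcases isEmpty_or_nonempty J with hJ | hJ
      · exact ⟨0, fun j => hJ.elim j⟩
      · obtain ⟨j, hj⟩ := Finite.exists_max ω
        exact ⟨ω j, hj⟩
    obtain ⟨B', hB'⟩ : ∃ B : ℤ, ∀ j, B ≤ ω j := by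
      rcases isEmpty_or_nonempty J with hJ | hJ
      · exact ⟨0, fun j => hJ.elim j⟩
      · obtain ⟨j, hj⟩ := Finite.exists_min ω
        exact ⟨ω j, hj⟩
    set G := (U * diagonal al) ^ s - c ^ s • (1 : Matrix J J K) with hG
    have hGp : Pres al G := (hP.pow s).sub (Pres.one.smul _)
    have hp : ∀ x y : J, al x = al y → ((al x ^ s = c ^ s) ↔ al y ^ s = c ^ s) :=
      fun x y h => by rw [h]
    have hstep : ∀ v : ℤ, ∀ x : J → K, x ∈ Sup K (fun j => al j ^ s = c ^ s) →
        x ∈ Sup K (fun j => v ≤ ω j) → G *ᵥ x ∈ Sup K fun j => v + 1 ≤ ω j := by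
      intro v x hx hxv
      have h1 : G *ᵥ x = c ^ s • ((U ^ s - 1) *ᵥ x) := by
        rw [hG, hcomm.mul_pow, sub_mulVec, ← mulVec_mulVec, pow_diag_mulVec hx, mulVec_smul,
          smul_mulVec, one_mulVec, sub_mulVec, one_mulVec, smul_sub]
      rw [h1]
      apply Submodule.smul_mem
      have h2 : Lead ω (U ^ s) 1 := by
        have := hL.pow s
        rwa [one_pow] at this
      exact h2.raise hxv
    have hk : ∀ k : ℕ, G ^ k *ᵥ z ∈ Sup K (fun j => al j ^ s = c ^ s) ∧
        G ^ k *ᵥ z ∈ Sup K fun j => B' + k ≤ ω j := by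
      intro k
      induction k with
      | zero =>
        rw [pow_zero, one_mulVec]
        exact ⟨hz, fun j _ => by push_cast; linarith [hB' j]⟩
      | succ k ih =>
        rw [pow_succ', ← mulVec_mulVec]
        refine ⟨hGp.mem hp ih.1, ?_⟩
        have := hstep _ _ ih.1 ih.2
        refine Sup_mono (fun j hj => ?_) this
        push_cast
        linarith
    refine ⟨(B - B' + 1).toNat, ?_⟩
    funext j
    by_contra hne
    have h1 := (hk (B - B' + 1).toNat).2 j hne
    have h2 := hB j
    omega

end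

end Pool.Agent.K1H13.G
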