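import Pool.Agent.K1H13.G.Rad
import Pool.Agent.K1H13.G.Spec

/-!
# Invariant forms on the fixed vectors
-/

set_option autoImplicit false
set_option linter.unusedSectionVars false

open Finset Matrix Module

universe v

namespace Pool.Agent.K1H13.G

section

variable {K : Type v} [Field K] [CharZero K] {J A : Type v} [Fintype J] [DecidableEq J] [CommGroup A]
  {ω : J → ℤ} {lam : J → A} {M f U : Matrix J J K} {al : J → K} {a : A} {s : ℕ}

lemma lead_sum (hL : Lead ω U 1) (s : ℕ) : Lead ω (∑ i ∈ range s, U ^ i) fun _ => (s : K) := by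
  induction s with
  | zero =>
    rw [sum_range_zero]
    have := Lead.zero (K := K) (ω := ω)
    have e : (fun _ : J => ((0 : ℕ) : K)) = 0 := by funext j; simp
    rw [e]
    exact this
  | succ s ih =>
    rw [sum_range_succ]
    have := ih.add (hL.pow s)
    have e : (fun _ : J => ((s + 1 : ℕ) : K)) = (fun _ => (s : K)) + 1 ^ s := by
      funext j; simp
    rw [e]
    exact this

lemma sum_preserves (hP : Pres lam U) (s : ℕ) : Pres lam (∑ i ∈ range s, U ^ i) := by
  induction s with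
  | zero =>
    rw [sum_range_zero]
    intro y x h
    exact absurd rfl h
  | succ s ih =>
    rw [sum_range_succ]
    intro y x h
    rw [Matrix.add_apply] at h
    by_cases h1 : (∑ i ∈ range s, U ^ i) y x = 0
    · rw [h1, zero_add] at h
      exact hP.pow s y x h
    · exact ih y x h1

lemma Uni.pres (hU : Uni ω lam M U) (h : MTrip ω lam M f) : Pres lam U :=
  fun _ _ hne => (hU.low h hne).2

lemma Uni.lead (hU : Uni ω lam M U) (h : MTrip ω lam M f) : Lead ω U 1 := by
  intro y x hne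
  rw [show (diagonal (1 : J → K)) = 1 from diagonal_one] at hne
  by_cases h1 : (U - 1 - M) y x = 0
  · rw [Matrix.sub_apply, sub_eq_zero] at h1
    rw [h1] at hne
    have := (h.hM y x hne).1
    omega
  · have := (hU.high y x h1).1
    omega

/-- the power of the operator on the vectors with a given label -/
lemma pow_apply_of_mem (hU : Pres al U) (hs : ∀ x, lam x = a → al x ^ s = 1) {y : J → K}
    (hy : y ∈ Sup K fun j => lam j = a) : (U * diagonal al) ^ s *ᵥ y = U ^ s *ᵥ y := by
  have h1 : y ∈ Sup K fun j => al j ^ s = 1 ^ s := fun j hj => by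
    show al j ^ s = 1 ^ s
    rw [one_pow]; exact hs j (hy j hj)
  rw [(show Commute U (diagonal al) from comm_diag hU).mul_pow, ← mulVec_mulVec,
    pow_diag_mulVec h1, one_pow, one_smul]

lemma mul_sum_apply (s : ℕ) (y : J → K) :
    (U - 1) *ᵥ ((∑ i ∈ range s, U ^ i) *ᵥ y) = U ^ s *ᵥ y - y := by
  rw [mulVec_mulVec, mul_geom_sum, sub_mulVec, one_mulVec]

lemma fix_pow {z : J → K} (h : (U - 1) *ᵥ z = 0) (m : ℕ) : U ^ m *ᵥ z = z := by
  have h3 : U *ᵥ z = z := by
    rw [sub_mulVec, one_mulVec, sub_eq_zero] at h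
    exact h
  induction m with
  | zero => rw [pow_zero, one_mulVec]
  | succ m ih => rw [pow_succ, ← mulVec_mulVec, h3, ih]

lemma iso_pow {β : (J → K) →ₗ[K] (J → K) →ₗ[K] K} {Φ : Matrix J J K}
    (hβ : ∀ x y, β (Φ *ᵥ x) (Φ *ᵥ y) = β x y) (s : ℕ) (x y : J → K) :
    β (Φ ^ s *ᵥ x) (Φ ^ s *ᵥ y) = β x y := by
  induction s with
  | zero => rw [pow_zero, one_mulVec, one_mulVec]
  | succ s ih => rw [pow_succ', ← mulVec_mulVec, ← mulVec_mulVec, hβ, ih]

/-- **The radical, first half.** -/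
theorem rad_upper (hU : Uni ω lam M U) (h : MTrip ω lam M f) (hal : Pres al U) (hs0 : 0 < s)
    (hs : ∀ x, lam x = a → al x ^ s = 1) {β : (J → K) →ₗ[K] (J → K) →ₗ[K] K}
    (hβ : ∀ x y, β ((U * diagonal al) *ᵥ x) ((U * diagonal al) *ᵥ y) = β x y) {x z : J → K}
    (hx : x ∈ Sup K fun j => 1 ≤ ω j ∧ lam j = a) (hz : z ∈ fixU U lam a) :
    β x z = 0 := by
  obtain ⟨y, hy, hyx⟩ := hU.surj h a le_rfl hx
  have hyG : y ∈ Sup K fun j => lam j = a := Sup_mono (fun j hj => hj.2) hy
  have hS := lead_sum (hU.lead h) s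
  have hSi : Function.Injective (∑ i ∈ range s, U ^ i).mulVecLin := by
    rw [injective_iff_map_eq_zero]
    intro z hz
    exact hS.inj (fun j _ => Nat.cast_ne_zero.2 hs0.ne') hz
  obtain ⟨y', hy'⟩ := LinearMap.surjective_of_injective hSi y
  have hpl : ∀ x y : J, lam x = lam y → (lam x = a ↔ lam y = a) := fun x y h => by rw [h]
  have h1 : (∑ i ∈ range s, U ^ i) *ᵥ (res (fun j => lam j = a) y') = y := by
    rw [(sum_preserves (hU.pres h) s).res_comm _ hpl]
    have : (∑ i ∈ range s, U ^ i) *ᵥ y' = y := hy'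
    rw [this, res_eq_self hyG]
  set y'' := res (fun j => lam j = a) y' with hy''
  have hy''G : y'' ∈ Sup K fun j => lam j = a := res_mem _ _
  have h2 : x = (U * diagonal al) ^ s *ᵥ y'' - y'' := by
    rw [pow_apply_of_mem hal hs hy''G, ← mul_sum_apply, h1, hyx]
  have h3 : (U * diagonal al) ^ s *ᵥ z = z := by
    rw [pow_apply_of_mem hal hs hz.2]
    exact fix_pow hz.1 s
  rw [h2, map_sub, LinearMap.sub_apply, sub_eq_zero, ← iso_pow hβ s y'' z, h3]

/-- **The radical, second half.** -/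
theorem rad_lower (hU : Uni ω lam M U) (h : MTrip ω lam M f) (hal : Pres al U) (hs0 : 0 < s)
    {P : J → Prop} (hP : ∀ x y, U y x ≠ 0 → (P x ↔ P y))
    (hs : ∀ x, lam x = a ↔ P x ∧ al x ^ s = 1) {β : (J → K) →ₗ[K] (J → K) →ₗ[K] K}
    (hβ : ∀ x y, β ((U * diagonal al) *ᵥ x) ((U * diagonal al) *ᵥ y) = β x y)
    (hnd : ∀ z ∈ Sup K P, (∀ x ∈ Sup K P, β x z = 0) → z = 0) {x : J → K}
    (hx : x ∈ fixU U lam a) (hxr : ∀ z ∈ fixU U lam a, β x z = 0) :
    x ∈ Sup K fun j => 1 ≤ ω j := by
  classical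
  set Φ : Matrix J J K := U * diagonal al with hΦ
  have hPresP : Pres P Φ := by
    intro y x hne
    rw [hΦ, mul_diagonal] at hne
    exact (propext (hP x y (left_ne_zero_of_mul hne))).symm
  have hPP : ∀ x y : J, P x = P y → (P x ↔ P y) := fun x y h => by rw [h]
  have hlamP : Pres lam Φ := (hU.pres h).mul (Pres.diag _)
  have hmap : ∀ z ∈ Sup K P, (Φ ^ s - 1).mulVecLin z ∈ Sup K P := by
    intro z hz
    show (Φ ^ s - 1) *ᵥ z ∈ Sup K P
    rw [sub_mulVec, one_mulVec]
    exact Submodule.sub_mem _ ((hPresP.pow s).mem hPP hz) hz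
  let L : Sup K P →ₗ[K] Sup K P := (Φ ^ s - 1).mulVecLin.restrict hmap
  have hL : ∀ z, (L z : J → K) = Φ ^ s *ᵥ (z : J → K) - z := fun z => by
    show (Φ ^ s - 1) *ᵥ (z : J → K) = _
    rw [sub_mulVec, one_mulVec]
  have hTP : fixU U lam a ≤ Sup K P := fun z hz j hj => ((hs j).1 (hz.2 j hj)).1
  -- the kernel of `L`
  have hker : (LinearMap.ker L).map (Sup K P).subtype = fixU U lam a := by
    ext z
    constructor
    · rintro ⟨z, hz, rfl⟩
      have h1 : Φ ^ s *ᵥ (z : J → K) - z = 0 := by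
        rw [← hL, show L z = 0 from hz]; rfl
      have h2 : Φ ^ s *ᵥ (z : J → K) = (1 : K) ^ s • (z : J → K) := by
        rw [one_pow, one_smul]; exact sub_eq_zero.1 h1
      obtain ⟨h3, h4⟩ := (eig_iff (hU.lead h) hal hs0 one_ne_zero).1 h2
      refine ⟨h4, fun j hj => (hs j).2 ⟨z.2 j hj, ?_⟩⟩
      have := h3 j hj
      simpa using this
    · intro hz
      refine ⟨⟨z, hTP hz⟩, ?_, rfl⟩
      apply Subtype.ext
      rw [hL]
      show Φ ^ s *ᵥ z - z = 0
      rw [pow_apply_of_mem hal (fun x hx => ((hs x).1 hx).2) hz.2, fix_pow hz.1, sub_self]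
  have hkerd : finrank K (LinearMap.ker L) = finrank K (fixU U lam a) := by
    rw [← hker, Submodule.finrank_map_subtype_eq]
  -- the pairing
  let Ψ : Sup K P →ₗ[K] Module.Dual K (fixU U lam a) := β.domRestrict₁₂ (Sup K P) (fixU U lam a)
  have hΨ : ∀ (x : Sup K P) (z : fixU U lam a), Ψ x z = β x z := fun x z => rfl
  have hflip : Function.Injective Ψ.flip := by
    rw [injective_iff_map_eq_zero]
    intro z hz
    apply Subtype.ext
    refine hnd z (hTP z.2) fun x hx => ?_
    have := congrArg (fun g => g ⟨x, hx⟩) hz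
    exact this
  have hΨr : finrank K (LinearMap.range Ψ) = finrank K (fixU U lam a) := by
    have e : Ψ = Ψ.flip.dualMap ∘ₗ (Module.evalEquiv K (Sup K P)).toLinearMap := by
      ext x z
      rfl
    have h1 : LinearMap.range Ψ = LinearMap.range Ψ.flip.dualMap := by
      conv_lhs => rw [e]
      rw [LinearMap.range_comp, LinearEquiv.range, Submodule.map_top]
    rw [h1, LinearMap.finrank_range_dualMap_eq_finrank_range,
      LinearMap.finrank_range_of_inj hflip]
  have hsub : LinearMap.range L ≤ LinearMap.ker Ψ := by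
    rintro _ ⟨y, rfl⟩
    rw [LinearMap.mem_ker]
    ext z
    rw [hΨ, hL, map_sub, LinearMap.sub_apply, LinearMap.zero_apply, sub_eq_zero,
      ← iso_pow hβ s y z]
    congr 1
    rw [pow_apply_of_mem hal (fun x hx => ((hs x).1 hx).2) z.2.2]
    exact (fix_pow z.2.1 s).symm
  have heq : LinearMap.range L = LinearMap.ker Ψ := by
    apply Submodule.eq_of_le_of_finrank_eq hsub
    have h1 := LinearMap.finrank_range_add_finrank_ker L
    have h2 := LinearMap.finrank_range_add_finrank_ker Ψ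
    omega
  have hxk : (⟨x, hTP hx⟩ : Sup K P) ∈ LinearMap.ker Ψ := by
    rw [LinearMap.mem_ker]
    ext z
    exact hxr z z.2
  rw [← heq] at hxk
  obtain ⟨y, hy⟩ := hxk
  have h1 : x = Φ ^ s *ᵥ (y : J → K) - y := by
    rw [← hL, hy]
  have hpl : ∀ x y : J, lam x = lam y → (lam x = a ↔ lam y = a) := fun x y h => by rw [h]
  have hres : ∀ u v : J → K, res (fun j => lam j = a) (u - v) =
      res (fun j => lam j = a) u - res (fun j => lam j = a) v := by
    intro u v
    funext j
    simp only [res, Pi.sub_apply]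
    split_ifs <;> simp
  set y' := res (fun j => lam j = a) (y : J → K) with hy'
  have hy'G : y' ∈ Sup K fun j => lam j = a := res_mem _ _
  have h2 : x = U ^ s *ᵥ y' - y' := by
    rw [← pow_apply_of_mem hal (fun x hx => ((hs x).1 hx).2) hy'G,
      (hlamP.pow s).res_comm _ hpl, ← hres, ← h1, res_eq_self hx.2]
  rw [← mul_sum_apply] at h2
  exact hU.rad h hx.1 h2.symm

end

end Pool.Agent.K1H13.G
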