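import Mathlib

/-!
# Jordan bases of nilpotent endomorphisms
-/

set_option autoImplicit false

open Polynomial

namespace Pool.Agent.K1H13.G

section

variable {K : Type*} [Field K]

/-- the classes of the powers of `X` -/
noncomputable def qv (K : Type*) [Field K] (k : ℕ) (p : Fin k) : K[X] ⧸ K[X] ∙ (X : K[X]) ^ k :=
  Submodule.Quotient.mk (X ^ p.1)

lemma qv_li (k : ℕ) : LinearIndependent K (qv K k) := by
  rw [Fintype.linearIndependent_iff]
  intro c hc i
  have h1 : (Submodule.Quotient.mk (∑ p : Fin k, c p • (X : K[X]) ^ p.1) :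
      K[X] ⧸ K[X] ∙ (X : K[X]) ^ k) = 0 := by
    rw [← hc]
    simp only [qv]
    rw [← Submodule.mkQ_apply, map_sum]
    rfl
  rw [Submodule.Quotient.mk_eq_zero, Submodule.mem_span_singleton] at h1
  obtain ⟨a, ha⟩ := h1
  have h2 : (X : K[X]) ^ k ∣ ∑ p : Fin k, c p • (X : K[X]) ^ p.1 := ⟨a, by
    rw [← ha, smul_eq_mul, mul_comm]⟩
  have h3 := X_pow_dvd_iff.1 h2 i.1 i.2
  rw [finsetSum_coeff] at h3
  rw [Finset.sum_eq_single i] at h3
  · simpa using h3
  · intro j _ hji
    rw [coeff_smul, coeff_X_pow, if_neg, smul_zero]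
    exact fun h => hji (Fin.ext h.symm)
  · intro h
    exact absurd (Finset.mem_univ _) h

lemma qv_sp (k : ℕ) : ⊤ ≤ Submodule.span K (Set.range (qv K k)) := by
  rintro x -
  obtain ⟨f, rfl⟩ := Submodule.Quotient.mk_surjective _ x
  induction f using Polynomial.induction_on' with
  | add f g hf hg =>
    rw [Submodule.Quotient.mk_add]
    exact Submodule.add_mem _ hf hg
  | monomial n a =>
    rw [← C_mul_X_pow_eq_monomial, ← smul_eq_C_mul]
    have h1 : (Submodule.Quotient.mk (a • (X : K[X]) ^ n) : K[X] ⧸ K[X] ∙ (X : K[X]) ^ k) =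
        a • Submodule.Quotient.mk ((X : K[X]) ^ n) := rfl
    rw [h1]
    apply Submodule.smul_mem
    by_cases hn : n < k
    · exact Submodule.subset_span ⟨⟨n, hn⟩, rfl⟩
    · have h2 : (Submodule.Quotient.mk ((X : K[X]) ^ n) : K[X] ⧸ K[X] ∙ (X : K[X]) ^ k) = 0 := by
        rw [Submodule.Quotient.mk_eq_zero, Submodule.mem_span_singleton]
        refine ⟨X ^ (n - k), ?_⟩
        rw [smul_eq_mul, ← pow_add, Nat.sub_add_cancel (not_lt.1 hn)]
      rw [h2]
      exact Submodule.zero_mem _

/-- the basis of the powers of `X` -/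
noncomputable def qb (K : Type*) [Field K] (k : ℕ) :
    Module.Basis (Fin k) K (K[X] ⧸ K[X] ∙ (X : K[X]) ^ k) :=
  Module.Basis.mk (qv_li k) (qv_sp k)

lemma X_smul_qb (k : ℕ) (p : Fin k) : (X : K[X]) • qb K k p =
    if h : p.1 + 1 < k then qb K k ⟨p.1 + 1, h⟩ else 0 := by
  rw [qb, Module.Basis.mk_apply, qv, ← Submodule.Quotient.mk_smul, smul_eq_mul, ← pow_succ']
  split_ifs with h
  · rw [Module.Basis.mk_apply]
    rfl
  · rw [Submodule.Quotient.mk_eq_zero, Submodule.mem_span_singleton]
    have : p.1 + 1 = k := by have := p.2; omega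
    exact ⟨1, by rw [one_smul, this]⟩

variable {V : Type*} [AddCommGroup V] [Module K V] [Module.Finite K V]

/-- **Jordan bases of nilpotent endomorphisms.** -/
theorem exists_jordan (T : Module.End K V) (hT : IsNilpotent T) :
    ∃ (d : ℕ) (s : Fin d → ℕ) (b : Module.Basis (Σ i : Fin d, Fin (s i)) K V),
      ∀ (i : Fin d) (p : Fin (s i)), T (b ⟨i, p⟩) =
        if h : p.1 + 1 < s i then b ⟨i, ⟨p.1 + 1, h⟩⟩ else 0 := by
  classical
  have htor : Module.IsTorsion' (Module.AEval' T) (Submonoid.powers (X : K[X])) := by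
    intro x
    obtain ⟨n, hn⟩ := hT
    obtain ⟨v, rfl⟩ := (Module.AEval'.of T).surjective x
    refine ⟨⟨X ^ n, n, rfl⟩, ?_⟩
    have h1 : ∀ m : ℕ, (X : K[X]) ^ m • Module.AEval'.of T v = Module.AEval'.of T ((T ^ m) v) := by
      intro m
      induction m with
      | zero => simp
      | succ m ih =>
        rw [pow_succ', mul_smul, ih, Module.AEval'.X_smul_of, pow_succ']
        rfl
    have h2 := h1 n
    rw [hn] at h2
    have h3 : (⟨X ^ n, n, rfl⟩ : Submonoid.powers (X : K[X])) • Module.AEval'.of T v =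
        (X : K[X]) ^ n • Module.AEval'.of T v := rfl
    rw [h3, h2]
    simp
  obtain ⟨d, s, ⟨e⟩⟩ := Module.torsion_by_prime_power_decomposition
    (irreducible_X (R := K)) htor
  let β : Module.Basis (Σ i : Fin d, Fin (s i)) K
      (Π₀ i : Fin d, K[X] ⧸ K[X] ∙ (X : K[X]) ^ s i) := DFinsupp.basis fun i => qb K (s i)
  have hβ : ∀ i p, β ⟨i, p⟩ = DFinsupp.single i (qb K (s i) p) := by
    intro i p
    apply β.repr.injective
    rw [Module.Basis.repr_self]
    show _ = (sigmaFinsuppLequivDFinsupp K).symm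
      ((DFinsupp.mapRange.linearEquiv fun i => (qb K (s i)).repr) (DFinsupp.single i (qb K (s i) p)))
    rw [LinearEquiv.eq_symm_apply]
    simp [sigmaFinsuppLequivDFinsupp]
  let eK : V ≃ₗ[K] (Π₀ i : Fin d, K[X] ⧸ K[X] ∙ (X : K[X]) ^ s i) :=
    { toFun := fun v => e (Module.AEval'.of T v)
      invFun := fun x => (Module.AEval'.of T).symm (e.symm x)
      left_inv := fun v => by simp
      right_inv := fun v => by simp
      map_add' := fun v w => by simp
      map_smul' := fun c v => by
        have h1 : Module.AEval'.of T (c • v) = (C c : K[X]) • Module.AEval'.of T v := by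
          rw [map_smul]
          simp
        rw [h1, map_smul]
        ext i
        simp only [RingHom.id_apply, DFinsupp.smul_apply]
        have h2 : ∀ z : K[X] ⧸ K[X] ∙ (X : K[X]) ^ s i, (C c : K[X]) • z = c • z := by
          intro z
          obtain ⟨f, rfl⟩ := Submodule.Quotient.mk_surjective _ z
          rw [← Submodule.Quotient.mk_smul, smul_eq_mul, ← smul_eq_C_mul]
          rfl
        exact h2 _ }
  refine ⟨d, s, β.map eK.symm, fun i p => ?_⟩
  have h1 : ∀ v : V, eK (T v) =
      (X : K[X]) • (eK v : Π₀ i : Fin d, K[X] ⧸ K[X] ∙ (X : K[X]) ^ s i) := by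
    intro v
    show e (Module.AEval'.of T (T v)) = _
    rw [← Module.AEval'.X_smul_of, map_smul]
    rfl
  apply eK.injective
  rw [h1, Module.Basis.map_apply, LinearEquiv.apply_symm_apply, hβ]
  have h2 : (X : K[X]) • (DFinsupp.single i (qb K (s i) p) :
      Π₀ i : Fin d, K[X] ⧸ K[X] ∙ (X : K[X]) ^ s i) =
      DFinsupp.single i ((X : K[X]) • qb K (s i) p) := (DFinsupp.single_smul _ _).symm
  refine h2.trans ?_
  rw [X_smul_qb]
  split_ifs with h
  · rw [Module.Basis.map_apply, LinearEquiv.apply_symm_apply, hβ]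
  · rw [map_zero, DFinsupp.single_zero]

end

end Pool.Agent.K1H13.G
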