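import Pool.Agent.K1H13.G.Spec
import Pool.Agent.K1H13.G.Jor

/-!
# The matrix data of an invertible operator
-/

set_option autoImplicit false
set_option linter.unusedSectionVars false

open Finset Matrix

universe v

namespace Pool.Agent.K1H13.G

section Blocks

variable {K : Type*} [Field K] [CharZero K] {B A : Type*} [DecidableEq B] (s : B → ℕ)
  [Fintype (Σ j : B, Fin (s j))]

/-- the Jordan matrix -/
def jN (K : Type*) [Field K] {B : Type*} [DecidableEq B] (s : B → ℕ) :
    Matrix (Σ j : B, Fin (s j)) (Σ j : B, Fin (s j)) K :=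
  fun y x => if y.1 = x.1 ∧ y.2.val = x.2.val + 1 then 1 else 0

/-- the lowering operator -/
def jg (K : Type*) [Field K] {B : Type*} [DecidableEq B] (s : B → ℕ) :
    Matrix (Σ j : B, Fin (s j)) (Σ j : B, Fin (s j)) K :=
  fun y x => if y.1 = x.1 ∧ x.2.val = y.2.val + 1 then
    (x.2.val : K) * ((s x.1 : K) - (x.2.val : K)) else 0

/-- the weights -/
def jw {B : Type*} (s : B → ℕ) (x : Σ j : B, Fin (s j)) : ℤ := 2 * x.2.val + 1 - s x.1

lemma sig_ext {x y : Σ j : B, Fin (s j)} (h1 : x.1 = y.1) (h2 : x.2.val = y.2.val) : x = y := by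
  obtain ⟨j, p⟩ := x
  obtain ⟨j', p'⟩ := y
  simp only at h1
  subst h1
  simp only at h2
  rw [Fin.ext h2]

lemma jN_g (y x : Σ j : B, Fin (s j)) : (jN K s * jg K s) y x =
    if y = x then (x.2.val : K) * ((s x.1 : K) - (x.2.val : K)) else 0 := by
  rw [Matrix.mul_apply]
  by_cases h0 : x.2.val = 0
  · rw [sum_eq_zero]
    · simp [h0]
    · intro z _
      have : jg K s z x = 0 := by
        rw [jg, if_neg]
        rintro ⟨-, h⟩
        omega
      rw [this, mul_zero]
  · have hlt : x.2.val - 1 < s x.1 := by have := x.2.2; omega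
    rw [sum_eq_single (⟨x.1, ⟨x.2.val - 1, hlt⟩⟩ : Σ j : B, Fin (s j))]
    · have h1 : jg K s ⟨x.1, ⟨x.2.val - 1, hlt⟩⟩ x =
          (x.2.val : K) * ((s x.1 : K) - (x.2.val : K)) := by
        rw [jg, if_pos]
        exact ⟨rfl, by simp only; omega⟩
      rw [h1]
      by_cases hyx : y = x
      · subst hyx
        rw [if_pos rfl, jN, if_pos, one_mul]
        exact ⟨rfl, by simp only; omega⟩
      · rw [if_neg hyx, jN, if_neg, zero_mul]
        rintro ⟨h2, h3⟩
        simp only at h2 h3
        exact hyx (sig_ext s h2 (by omega))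
    · intro z _ hz
      have : jg K s z x = 0 := by
        rw [jg, if_neg]
        rintro ⟨h2, h3⟩
        refine hz (sig_ext s (show z.1 = (⟨x.1, ⟨x.2.val - 1, hlt⟩⟩ : Σ j : B, Fin (s j)).1 from h2)
          ?_)
        simp only
        omega
      rw [this, mul_zero]
    · intro h
      exact absurd (mem_univ _) h

lemma jg_N (y x : Σ j : B, Fin (s j)) : (jg K s * jN K s) y x =
    if y = x then ((x.2.val : K) + 1) * ((s x.1 : K) - ((x.2.val : K) + 1)) else 0 := by
  rw [Matrix.mul_apply]
  by_cases h0 : x.2.val + 1 < s x.1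
  · rw [sum_eq_single (⟨x.1, ⟨x.2.val + 1, h0⟩⟩ : Σ j : B, Fin (s j))]
    · have h1 : jN K s ⟨x.1, ⟨x.2.val + 1, h0⟩⟩ x = 1 := by
        rw [jN, if_pos]
        exact ⟨rfl, rfl⟩
      rw [h1, mul_one]
      by_cases hyx : y = x
      · subst hyx
        rw [if_pos rfl, jg, if_pos]
        · push_cast; rfl
        · exact ⟨rfl, rfl⟩
      · rw [if_neg hyx, jg, if_neg]
        rintro ⟨h2, h3⟩
        simp only at h2 h3
        exact hyx (sig_ext s h2 (by omega))
    · intro z _ hz
      have : jN K s z x = 0 := by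
        rw [jN, if_neg]
        rintro ⟨h2, h3⟩
        refine hz (sig_ext s (show z.1 = (⟨x.1, ⟨x.2.val + 1, h0⟩⟩ : Σ j : B, Fin (s j)).1 from h2)
          ?_)
        simp only
        omega
      rw [this, mul_zero]
    · intro h
      exact absurd (mem_univ _) h
  · rw [sum_eq_zero]
    · have h1 : (x.2.val : K) + 1 = s x.1 := by
        have : x.2.val + 1 = s x.1 := by have := x.2.2; omega
        exact_mod_cast this
      rw [h1, sub_self, mul_zero]
      simp
    · intro z _
      have : jN K s z x = 0 := by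
        rw [jN, if_neg]
        rintro ⟨h2, h3⟩
        have h4 := z.2.2
        have h5 : s z.1 = s x.1 := by rw [h2]
        omega
      rw [this, mul_zero]

/-- The triple of the Jordan matrix. -/
lemma jtrip (ev : B → A) : MTrip (jw s) (fun x : Σ j : B, Fin (s j) => ev x.1) (jN K s)
    (jg K s) where
  hM := by
    intro y x hne
    rw [jN] at hne
    by_cases h : y.1 = x.1 ∧ y.2.val = x.2.val + 1
    · refine ⟨?_, congrArg ev h.1⟩
      unfold jw
      have h5 : s y.1 = s x.1 := by rw [h.1]
      have h6 := h.2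
      omega
    · rw [if_neg h] at hne
      exact absurd rfl hne
  hf := by
    intro y x hne
    rw [jg] at hne
    by_cases h : y.1 = x.1 ∧ x.2.val = y.2.val + 1
    · refine ⟨?_, congrArg ev h.1⟩
      unfold jw
      have h5 : s y.1 = s x.1 := by rw [h.1]
      have h6 := h.2
      omega
    · rw [if_neg h] at hne
      exact absurd rfl hne
  comm := by
    ext y x
    rw [Matrix.sub_apply, jN_g, jg_N]
    by_cases h : y = x
    · subst h
      rw [if_pos rfl, if_pos rfl, diagonal_apply_eq, jw]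
      push_cast
      ring
    · rw [if_neg h, if_neg h, diagonal_apply_ne _ h, sub_zero]

/-- The unipotent matrix. -/
lemma juni (ev : B → A) : Uni (jw s) (fun x : Σ j : B, Fin (s j) => ev x.1) (jN K s)
    (1 + jN K s) where
  high := by
    intro y x hne
    exfalso
    apply hne
    rw [add_sub_cancel_left, sub_self]
    rfl

/-- reversal of the Jordan chains -/
def jrev (x : Σ j : B, Fin (s j)) : Σ j : B, Fin (s j) := ⟨x.1, Fin.rev x.2⟩

lemma jrev_jrev (x : Σ j : B, Fin (s j)) : jrev s (jrev s x) = x := by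
  unfold jrev
  simp

lemma jw_jrev (x : Σ j : B, Fin (s j)) : jw s (jrev s x) = - jw s x := by
  unfold jw jrev
  rw [Fin.val_rev]
  have := x.2.2
  push_cast
  omega

lemma abs_jw (x : Σ j : B, Fin (s j)) : |jw s x| ≤ (Fintype.card (Σ j : B, Fin (s j)) : ℕ) := by
  have h1 : s x.1 ≤ Fintype.card (Σ j : B, Fin (s j)) := by
    have := Fintype.card_le_of_injective (fun p : Fin (s x.1) => (⟨x.1, p⟩ : Σ j : B, Fin (s j)))
      (fun p q h => by simpa using h)
    simpa using this
  have h2 := x.2.2
  unfold jw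
  rw [abs_le]
  omega

end Blocks

section Oper

open Module

variable {K V : Type v} [Field K] [CharZero K] [IsAlgClosed K] [AddCommGroup V] [Module K V]
  [Module.Finite K V]

/-- **The Jordan decomposition of an injective operator.** -/
theorem exists_data (F : Module.End K V) (hF : Function.Injective F) :
    ∃ (B : Type v) (s : B → ℕ) (_ : Fintype (Σ j : B, Fin (s j)))
      (b : Basis (Σ j : B, Fin (s j)) K V) (ev : B → K),
      (∀ x : Σ j : B, Fin (s j), ev x.1 ≠ 0) ∧
      (∀ (j : B) (p : Fin (s j)), F (b ⟨j, p⟩) =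
        ev j • (b ⟨j, p⟩ + if h : p.1 + 1 < s j then b ⟨j, ⟨p.1 + 1, h⟩⟩ else 0)) ∧
      ∀ α : K, Nat.card {x : Σ j : B, Fin (s j) // ev x.1 = α} =
        finrank K (F.maxGenEigenspace α) := by
  classical
  have hnil : ∀ α : K, IsNilpotent (α⁻¹ • ((F - algebraMap K (Module.End K V) α).restrict
      (Module.End.mapsTo_maxGenEigenspace_of_comm (Algebra.mul_sub_algebraMap_commutes F α) α) :
        Module.End K (F.maxGenEigenspace α))) := by
    intro α
    obtain ⟨n, hn⟩ := Module.End.isNilpotent_restrict_maxGenEigenspace_sub_algebraMap F α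
    refine ⟨n, ?_⟩
    rw [smul_pow, hn, smul_zero]
  choose d s b hb using fun α => exists_jordan _ (hnil α)
  have hint : DirectSum.IsInternal F.maxGenEigenspace :=
    DirectSum.isInternal_submodule_of_iSupIndep_of_iSup_eq_top
      F.independent_maxGenEigenspace F.iSup_maxGenEigenspace_eq_top
  let c := hint.collectedBasis b
  let e : (Σ j : (Σ α : K, Fin (d α)), Fin (s j.1 j.2)) ≃
      (Σ α : K, Σ i : Fin (d α), Fin (s α i)) := Equiv.sigmaAssoc fun α (i : Fin (d α)) => Fin (s α i)
  let c' : Basis (Σ j : (Σ α : K, Fin (d α)), Fin (s j.1 j.2)) K V := c.reindex e.symm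
  have hc' : ∀ (α : K) (i : Fin (d α)) (p : Fin (s α i)), c' ⟨⟨α, i⟩, p⟩ = (b α ⟨i, p⟩ : V) := by
    intro α i p
    rw [Basis.reindex_apply]
    show c (e ⟨⟨α, i⟩, p⟩) = _
    rw [hint.collectedBasis_coe b]
    rfl
  have hfin : Finite (Σ j : (Σ α : K, Fin (d α)), Fin (s j.1 j.2)) := Module.Finite.finite_basis c'
  refine ⟨Σ α : K, Fin (d α), fun j => s j.1 j.2, Fintype.ofFinite _, c', fun j => j.1,
    ?_, ?_, ?_⟩
  · rintro ⟨⟨α, i⟩, p⟩ (rfl : α = 0)
    have h1 : (b 0 ⟨i, p⟩ : V) ≠ 0 := by
      intro h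
      exact (b 0).ne_zero ⟨i, p⟩ (Subtype.ext h)
    apply h1
    have h2 := (b 0 ⟨i, p⟩).2
    rw [Module.End.mem_maxGenEigenspace] at h2
    obtain ⟨k, hk⟩ := h2
    rw [zero_smul, sub_zero] at hk
    have h3 : ∀ (k : ℕ) (v : V), (F ^ k) v = 0 → v = 0 := by
      intro k
      induction k with
      | zero => intro v hv; simpa using hv
      | succ k ih =>
        intro v hv
        rw [pow_succ', Module.End.mul_apply] at hv
        exact ih v (hF (by rw [hv, map_zero]))
    exact h3 k _ hk
  · rintro ⟨α, i⟩ p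
    have hα : α ≠ 0 ∨ α = 0 := ne_or_eq α 0
    rcases hα with hα | rfl
    · have h1 := congrArg Subtype.val (hb α i p)
      have h2 : ((α⁻¹ • ((F - algebraMap K (Module.End K V) α).restrict
          (Module.End.mapsTo_maxGenEigenspace_of_comm (Algebra.mul_sub_algebraMap_commutes F α) α) :
          Module.End K (F.maxGenEigenspace α))) (b α ⟨i, p⟩) : V) =
          α⁻¹ • (F (b α ⟨i, p⟩ : V) - α • (b α ⟨i, p⟩ : V)) := by
        rw [LinearMap.smul_apply, Submodule.coe_smul]
        rfl
      rw [h2] at h1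
      have h3 : F (b α ⟨i, p⟩ : V) = α • ((b α ⟨i, p⟩ : V) +
          α⁻¹ • (F (b α ⟨i, p⟩ : V) - α • (b α ⟨i, p⟩ : V))) := by
        rw [smul_add, smul_smul, mul_inv_cancel₀ hα, one_smul]
        abel
      simp only
      rw [hc', h3, h1]
      congr 2
      by_cases h : p.1 + 1 < s α i
      · rw [dif_pos h, dif_pos h, hc']
      · rw [dif_neg h, dif_neg h]
        rfl
    · exfalso
      have h1 : (b 0 ⟨i, p⟩ : V) ≠ 0 := by
        intro h
        exact (b 0).ne_zero ⟨i, p⟩ (Subtype.ext h)
      apply h1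
      have h2 := (b 0 ⟨i, p⟩).2
      rw [Module.End.mem_maxGenEigenspace] at h2
      obtain ⟨k, hk⟩ := h2
      rw [zero_smul, sub_zero] at hk
      have h3 : ∀ (k : ℕ) (v : V), (F ^ k) v = 0 → v = 0 := by
        intro k
        induction k with
        | zero => intro v hv; simpa using hv
        | succ k ih =>
          intro v hv
          rw [pow_succ', Module.End.mul_apply] at hv
          exact ih v (hF (by rw [hv, map_zero]))
      exact h3 k _ hk
  · intro α
    rw [finrank_eq_nat_card_basis (b α)]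
    refine Nat.card_congr
      { toFun := fun x => x.2 ▸ ⟨x.1.1.2, x.1.2⟩
        invFun := fun y => ⟨⟨⟨α, y.1⟩, y.2⟩, rfl⟩
        left_inv := ?_
        right_inv := fun y => rfl }
    rintro ⟨⟨⟨α', i⟩, p⟩, h⟩
    simp only at h
    subst h
    rfl

end Oper

end Pool.Agent.K1H13.G
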