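import Pool.Agent.K1H13.G.Count

/-!
# The order of magnitude of the number of tuples with given label and small weight
-/

set_option autoImplicit false
set_option linter.unusedSectionVars false

open Finset

universe v

namespace Pool.Agent.K1H13.G

open scoped Classical in
section

variable {I A : Type*} [Fintype I] [CommGroup A] {w : I → ℤ} {lab : I → A} {σ : I → I}

/-- the type of a tuple -/
noncomputable def tp {m : ℕ} (x : Fin m → I) : I → Fin (m + 1) :=
  fun i => ⟨#{j | x j = i}, Nat.lt_succ_of_le ((card_filter_le _ _).trans (by simp))⟩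

lemma lb_eq {m : ℕ} (x : Fin m → I) : lb lab x = ∏ i, lab i ^ (tp x i : ℕ) := by
  unfold lb tp
  rw [← Finset.prod_fiberwise' univ x lab]
  refine prod_congr rfl fun i _ => ?_
  rw [prod_const]

lemma growth_even {τ : I → I} (hτ : Function.Injective τ) (hτl : ∀ i, lab (τ i) = (lab i)⁻¹)
    (m : ℕ) : Fintype.card I ^ (2 * m) ≤ (m + 1) ^ Fintype.card I * #(OK lab (m + m)) := by
  have h1 : #({p : (Fin m → I) × (Fin m → I) | tp p.1 = tp p.2} : Finset _) ≤
      #(OK lab (m + m)) := by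
    refine card_le_card_of_injOn (fun p => Fin.append p.1 (τ ∘ p.2)) ?_ ?_
    · rintro ⟨x, y⟩ hp
      rw [mem_coe, mem_filter] at hp
      have h2 : lb lab x = lb lab y := by rw [lb_eq, lb_eq, hp.2]
      rw [OK, coe_filter, Set.mem_setOf_eq]
      refine ⟨mem_univ _, ?_⟩
      unfold lb at h2 ⊢
      rw [Fin.prod_univ_add]
      simp only [Fin.append_left, Fin.append_right, Function.comp, hτl]
      rw [h2, prod_inv_distrib, mul_inv_cancel]
    · rintro ⟨x, y⟩ - ⟨x', y'⟩ - h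
      have h3 : Fin.append x (τ ∘ y) = Fin.append x' (τ ∘ y') := h
      have h4 : x = x' := by
        funext j
        have := congrFun h3 (Fin.castAdd m j)
        simpa using this
      have h5 : y = y' := by
        funext j
        have := congrFun h3 (Fin.natAdd m j)
        simp only [Fin.append_right, Function.comp] at this
        exact hτ this
      rw [h4, h5]
  have h2 : #({p : (Fin m → I) × (Fin m → I) | tp p.1 = tp p.2} : Finset _) =
      ∑ t : I → Fin (m + 1), #({x : Fin m → I | tp x = t} : Finset _) ^ 2 := by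
    rw [card_eq_sum_card_fiberwise (f := fun p : (Fin m → I) × (Fin m → I) => tp p.1)
      (t := univ) fun _ _ => mem_univ _]
    refine sum_congr rfl fun t _ => ?_
    rw [sq, ← card_product]
    refine congrArg card ?_
    ext ⟨x, y⟩
    simp only [mem_filter, mem_univ, true_and, mem_product]
    constructor
    · rintro ⟨h, rfl⟩; exact ⟨rfl, h.symm⟩
    · rintro ⟨rfl, h⟩; exact ⟨h.symm, rfl⟩
  have h3 : ∑ t : I → Fin (m + 1), #({x : Fin m → I | tp x = t} : Finset _) =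
      Fintype.card I ^ m := by
    rw [← card_eq_sum_card_fiberwise (f := fun x : Fin m → I => tp x)
      (s := univ) (t := univ) fun _ _ => mem_univ _]
    simp
  have h4 := sq_sum_le_card_mul_sum_sq (s := (univ : Finset (I → Fin (m + 1))))
    (f := fun t => #({x : Fin m → I | tp x = t} : Finset _))
  rw [h3, ← h2, card_univ, Fintype.card_pi, prod_const, Fintype.card_fin, card_univ,
    ← pow_mul, mul_comm m 2] at h4
  exact h4.trans (Nat.mul_le_mul_left _ h1)

lemma OK_mono (h1 : ∃ i, lab i = 1) (n : ℕ) : #(OK lab n) ≤ #(OK lab (n + 1)) := by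
  obtain ⟨i₀, hi₀⟩ := h1
  refine card_le_card_of_injOn (fun x => (Fin.cons i₀ x : Fin (n + 1) → I)) ?_ ?_
  · intro x hx
    rw [mem_coe, OK, mem_filter] at hx
    rw [OK, coe_filter, Set.mem_setOf_eq]
    refine ⟨mem_univ _, ?_⟩
    have := hx.2
    unfold lb at this ⊢
    rw [Fin.prod_univ_succ]
    simp [hi₀, this]
  · intro x _ y _ h
    exact Fin.cons_right_injective (α := fun _ => I) i₀ h

lemma growth {τ : I → I} (hτ : Function.Injective τ) (hτl : ∀ i, lab (τ i) = (lab i)⁻¹)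
    (h1 : ∃ i, lab i = 1) (n : ℕ) :
    Fintype.card I ^ n ≤ Fintype.card I * (n + 1) ^ Fintype.card I * #(OK lab n) := by
  obtain ⟨i₀, -⟩ := id h1
  have hb1 : 1 ≤ Fintype.card I := Fintype.card_pos_iff.2 ⟨i₀⟩
  rcases Nat.even_or_odd' n with ⟨m, rfl | rfl⟩
  · have h2 := growth_even hτ hτl m
    rw [← two_mul] at h2
    refine h2.trans ?_
    calc (m + 1) ^ Fintype.card I * #(OK lab (2 * m))
        ≤ (2 * m + 1) ^ Fintype.card I * #(OK lab (2 * m)) := by
          gcongr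
          omega
      _ ≤ Fintype.card I * (2 * m + 1) ^ Fintype.card I * #(OK lab (2 * m)) := by
          gcongr
          exact Nat.le_mul_of_pos_left _ hb1
  · have h2 := growth_even hτ hτl m
    rw [← two_mul] at h2
    have h3 := OK_mono h1 (2 * m)
    calc Fintype.card I ^ (2 * m + 1) = Fintype.card I * Fintype.card I ^ (2 * m) := by ring
      _ ≤ Fintype.card I * ((m + 1) ^ Fintype.card I * #(OK lab (2 * m))) := by gcongr
      _ ≤ Fintype.card I * ((2 * m + 1 + 1) ^ Fintype.card I * #(OK lab (2 * m + 1))) := by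
          gcongr
          omega
      _ = _ := by ring

lemma OK_pos (h1 : ∃ i, lab i = 1) (n : ℕ) : 0 < #(OK lab n) := by
  obtain ⟨i₀, hi₀⟩ := h1
  refine card_pos.2 ⟨fun _ => i₀, ?_⟩
  rw [OK, mem_filter]
  exact ⟨mem_univ _, by simp [lb, hi₀]⟩

lemma exists_bound (b : ℕ) {ρ : ℝ} (h0 : 0 ≤ ρ) (h1 : ρ < 1) :
    ∃ D : ℝ, 0 < D ∧ ∀ n : ℕ, ((n : ℝ) + 1) ^ b * ρ ^ n ≤ D := by
  rcases h0.eq_or_lt with h | h
  · refine ⟨1, one_pos, fun n => ?_⟩
    rw [← h]
    rcases n with _ | n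
    · simp
    · simp
  · have h2 := tendsto_pow_const_mul_const_pow_of_abs_lt_one b
      (show |ρ| < 1 by rwa [abs_of_pos h])
    obtain ⟨D, hD⟩ := h2.bddAbove_range
    refine ⟨max D 1 / ρ, by positivity, fun n => ?_⟩
    have h3 : ((n + 1 : ℕ) : ℝ) ^ b * ρ ^ (n + 1) ≤ D := hD ⟨n + 1, rfl⟩
    rw [le_div_iff₀ h]
    push_cast at h3
    calc ((n : ℝ) + 1) ^ b * ρ ^ n * ρ = ((n : ℝ) + 1) ^ b * ρ ^ (n + 1) := by ring
      _ ≤ D := h3
      _ ≤ _ := le_max_left _ _

/-- **The upper bound.** -/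
theorem upper (b : ℕ) : ∃ C : ℝ, 0 < C ∧ ∀ {I A : Type v} [Fintype I] [CommGroup A] {w : I → ℤ}
    {lab : I → A} {σ τ : I → I}, Fintype.card I = b → (∀ i, σ (σ i) = i) →
    (∀ i, lab (σ i) = lab i) → (∀ i, w (σ i) = - w i) → Function.Injective τ →
    (∀ i, lab (τ i) = (lab i)⁻¹) → (∃ i, lab i = 1) → (∃ i, w i ≠ 0) →
    ∀ (n : ℕ) (v : ℤ), cnt w lab n v * Real.sqrt n ≤ C * #(OK lab n) := by
  rcases Nat.eq_zero_or_pos b with hb | hb
  · refine ⟨1, one_pos, fun {I A} _ _ {w lab σ τ} hI _ _ _ _ _ h1 => ?_⟩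
    obtain ⟨i, -⟩ := h1
    have := Fintype.card_pos_iff.2 ⟨i⟩
    omega
  have hbR : (1 : ℝ) ≤ b := by exact_mod_cast hb
  set ρ : ℝ := 1 - 1 / (4 * (b : ℝ) ^ 2) with hρ
  have hρ0 : 0 ≤ ρ := by
    rw [hρ, sub_nonneg, div_le_one (by positivity)]
    nlinarith
  have hρ1 : ρ < 1 := by
    have : 0 < 1 / (4 * (b : ℝ) ^ 2) := by positivity
    linarith
  obtain ⟨D, hD0, hD⟩ := exists_bound (b + 1) hρ0 hρ1
  refine ⟨Real.sqrt (2 * b) + b * D, by positivity, ?_⟩
  intro I A _ _ w lab σ τ hI hσ hl hw hτ hτl h1 hne n v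
  set g : ℕ := #(OK lab n) with hg
  have hsn : Real.sqrt n ≤ n + 1 := by
    rw [Real.sqrt_le_left (by positivity)]
    nlinarith [Nat.cast_nonneg (α := ℝ) n]
  have htail : ((#{x : Fin n → I | 2 * b * ms w x < n} : ℕ) : ℝ) ≤ (b * ρ) ^ n := by
    have := tail_le (w := w) hne n
    rwa [hI] at this
  have hgr : (b : ℝ) ^ n ≤ b * ((n : ℝ) + 1) ^ b * g := by
    have := growth hτ hτl h1 n
    rw [hI] at this
    exact_mod_cast this
  have hsum : ∑ x ∈ OK lab n, 1 / Real.sqrt (ms w x + 1) * Real.sqrt n ≤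
      ∑ x ∈ OK lab n, (Real.sqrt (2 * b) + if 2 * b * ms w x < n then Real.sqrt n else 0) := by
    refine sum_le_sum fun x _ => ?_
    have h9 : (1 : ℝ) ≤ Real.sqrt (ms w x + 1) := by
      rw [Real.one_le_sqrt]
      have := Nat.cast_nonneg (α := ℝ) (ms w x)
      linarith
    split_ifs with h
    · have h2 : 1 / Real.sqrt (ms w x + 1) * Real.sqrt n ≤ 1 * Real.sqrt n := by
        gcongr
        rw [div_le_one (by linarith)]
        exact h9
      have h3 := Real.sqrt_nonneg (2 * (b : ℝ))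
      linarith
    · rw [add_zero, one_div_mul_eq_div, div_le_iff₀ (by linarith), ← Real.sqrt_mul (by positivity)]
      apply Real.sqrt_le_sqrt
      have h2 : (n : ℝ) ≤ 2 * b * ms w x := by exact_mod_cast not_lt.1 h
      nlinarith
  have h2 := cnt_le (w := w) (lab := lab) hσ hl hw n v
  calc cnt w lab n v * Real.sqrt n
      ≤ (∑ x ∈ OK lab n, 1 / Real.sqrt (ms w x + 1)) * Real.sqrt n := by gcongr
    _ = ∑ x ∈ OK lab n, 1 / Real.sqrt (ms w x + 1) * Real.sqrt n := by rw [sum_mul]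
    _ ≤ _ := hsum
    _ = Real.sqrt (2 * b) * g + Real.sqrt n * #{x ∈ OK lab n | 2 * b * ms w x < n} := by
        rw [sum_add_distrib, sum_const, nsmul_eq_mul, ← sum_filter, sum_const, nsmul_eq_mul]
        ring
    _ ≤ Real.sqrt (2 * b) * g + Real.sqrt n * (b * ρ) ^ n := by
        gcongr
        refine le_trans ?_ htail
        exact_mod_cast card_le_card (filter_subset_filter _ (subset_univ _))
    _ ≤ Real.sqrt (2 * b) * g + ((n : ℝ) + 1) * (ρ ^ n * (b * ((n : ℝ) + 1) ^ b * g)) := by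
        rw [mul_pow, mul_comm ((b : ℝ) ^ n)]
        gcongr
    _ = Real.sqrt (2 * b) * g + b * (((n : ℝ) + 1) ^ (b + 1) * ρ ^ n) * g := by ring
    _ ≤ Real.sqrt (2 * b) * g + b * D * g := by
        gcongr
        exact hD n
    _ = _ := by ring

/-- the second moment of the weights -/
lemma second_moment (hσ : ∀ i, σ (σ i) = i) (hl : ∀ i, lab (σ i) = lab i)
    (hw : ∀ i, w (σ i) = - w i) (n : ℕ) :
    ∑ x ∈ OK lab n, (wt w x) ^ 2 = ∑ x ∈ OK lab n, ∑ j, w (x j) ^ 2 := by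
  have h1 : ∀ x : Fin n → I, (wt w x) ^ 2 = ∑ j, ∑ k, w (x j) * w (x k) := fun x => by
    rw [wt, sq, sum_mul_sum]
  simp only [h1]
  rw [sum_comm]
  have h2 : ∑ x ∈ OK lab n, ∑ j, w (x j) ^ 2 = ∑ j, ∑ x ∈ OK lab n, w (x j) ^ 2 := sum_comm
  rw [h2]
  refine sum_congr rfl fun j _ => ?_
  rw [sum_comm, ← add_sum_erase _ _ (mem_univ j)]
  have h3 : ∑ k ∈ univ.erase j, ∑ x ∈ OK lab n, w (x j) * w (x k) = 0 := by
    refine sum_eq_zero fun k hk => ?_
    have hkj : k ≠ j := ne_of_mem_erase hk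
    have h4 : ∑ x ∈ OK lab n, w (x j) * w (x k) =
        ∑ x ∈ OK lab n, -(w (x j) * w (x k)) := by
      refine sum_bij' (fun x _ => flip σ {j} x) (fun x _ => flip σ {j} x) ?_ ?_ ?_ ?_ ?_
      · intro x hx
        rw [OK, mem_filter] at hx ⊢
        exact ⟨mem_univ _, by rw [lb_flip hl]; exact hx.2⟩
      · intro x hx
        rw [OK, mem_filter] at hx ⊢
        exact ⟨mem_univ _, by rw [lb_flip hl]; exact hx.2⟩
      · intro x _; exact flip_flip hσ _ x
      · intro x _; exact flip_flip hσ _ x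
      · intro x _
        simp [flip, hkj, hw]
    rw [sum_neg_distrib] at h4
    omega
  rw [h3, add_zero]
  refine sum_congr rfl fun x _ => ?_
  ring

/-- **The lower bound.** -/
theorem lower {b : ℕ} (hσ : ∀ i, σ (σ i) = i) (hl : ∀ i, lab (σ i) = lab i)
    (hw : ∀ i, w (σ i) = - w i) (hb : ∀ i, |w i| ≤ b) {n : ℕ} (hn : 1 ≤ n)
    (hu : ∀ v, cnt w lab n v ≤ cnt w lab n 0 + cnt w lab n 1) :
    (#(OK lab n) : ℝ) ≤ (6 * b + 2) * Real.sqrt n * (cnt w lab n 0 + cnt w lab n 1 : ℕ) := by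
  set g : ℕ := #(OK lab n) with hg
  set z : ℕ := cnt w lab n 0 + cnt w lab n 1 with hz
  set R : ℕ := Nat.sqrt (2 * n * b ^ 2) with hR
  have h1 : ∑ x ∈ OK lab n, (wt w x) ^ 2 ≤ (g : ℤ) * (n * b ^ 2) := by
    rw [second_moment hσ hl hw]
    have h2 : ∀ x ∈ OK lab n, ∑ j, w (x j) ^ 2 ≤ (n * b ^ 2 : ℤ) := by
      intro x _
      have h3 : ∀ j ∈ (univ : Finset (Fin n)), w (x j) ^ 2 ≤ (b : ℤ) ^ 2 := fun j _ =>
        sq_le_sq' (by have := (abs_le.1 (hb (x j))).1; omega) (abs_le.1 (hb (x j))).2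
      refine (sum_le_sum h3).trans ?_
      rw [sum_const, card_univ, Fintype.card_fin, nsmul_eq_mul]
    refine (sum_le_sum h2).trans ?_
    rw [sum_const, nsmul_eq_mul]
  -- the tuples with large weight
  have h2 : 2 * #{x ∈ OK lab n | (2 * n * b ^ 2 : ℤ) < (wt w x) ^ 2} ≤ g := by
    by_contra hcon
    push Not at hcon
    have hb0 : b ≠ 0 := by
      rintro rfl
      have h3 : #{x ∈ OK lab n | (2 * n * (0 : ℕ) ^ 2 : ℤ) < (wt w x) ^ 2} = 0 := by
        rw [card_eq_zero, filter_eq_empty_iff]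
        intro x _
        have h4 : wt w x = 0 := by
          unfold wt
          refine sum_eq_zero fun j _ => ?_
          have := hb (x j)
          simpa using this
        simp [h4]
      omega
    have h3 : (#{x ∈ OK lab n | (2 * n * b ^ 2 : ℤ) < (wt w x) ^ 2} : ℤ) * (2 * n * b ^ 2) ≤
        ∑ x ∈ OK lab n, (wt w x) ^ 2 := by
      calc _ = ∑ x ∈ OK lab n with (2 * n * b ^ 2 : ℤ) < (wt w x) ^ 2, (2 * n * b ^ 2 : ℤ) := by
            rw [sum_const, nsmul_eq_mul]
        _ ≤ ∑ x ∈ OK lab n with (2 * n * b ^ 2 : ℤ) < (wt w x) ^ 2, (wt w x) ^ 2 :=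
            sum_le_sum fun x hx => (mem_filter.1 hx).2.le
        _ ≤ _ := sum_le_sum_of_subset_of_nonneg (filter_subset _ _) fun x _ _ => sq_nonneg _
    have h4 : (0 : ℤ) < n * b ^ 2 := by positivity
    have h5 : (g : ℤ) < 2 * #{x ∈ OK lab n | (2 * n * b ^ 2 : ℤ) < (wt w x) ^ 2} := by
      exact_mod_cast hcon
    nlinarith
  -- the tuples with small weight
  have h3 : #{x ∈ OK lab n | ¬ (2 * n * b ^ 2 : ℤ) < (wt w x) ^ 2} ≤ (2 * R + 1) * z := by
    have h4 : ∀ x ∈ (OK lab n).filter fun x => ¬ (2 * n * b ^ 2 : ℤ) < (wt w x) ^ 2,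
        wt w x ∈ Icc (-(R : ℤ)) R := by
      intro x hx
      have h5 := not_lt.1 (mem_filter.1 hx).2
      have h6 : (wt w x).natAbs ≤ R := by
        rw [hR, Nat.le_sqrt']
        zify
        rw [sq_abs]
        exact h5
      rw [mem_Icc]
      omega
    rw [card_eq_sum_card_fiberwise h4]
    calc ∑ v ∈ Icc (-(R : ℤ)) R, #{x ∈ (OK lab n).filter fun x =>
          ¬ (2 * n * b ^ 2 : ℤ) < (wt w x) ^ 2 | wt w x = v}
        ≤ ∑ v ∈ Icc (-(R : ℤ)) R, z := by
          refine sum_le_sum fun v _ => le_trans (card_le_card ?_) (hu v)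
          intro x hx
          rw [mem_filter] at hx ⊢
          exact ⟨(mem_filter.1 hx.1).1, hx.2⟩
      _ = (2 * R + 1) * z := by
          rw [sum_const, Int.card_Icc, smul_eq_mul]
          congr 1
          omega
  have h4 : #{x ∈ OK lab n | (2 * n * b ^ 2 : ℤ) < (wt w x) ^ 2} +
      #{x ∈ OK lab n | ¬ (2 * n * b ^ 2 : ℤ) < (wt w x) ^ 2} = g :=
    card_filter_add_card_filter_not _
  have h5 : g ≤ 2 * ((2 * R + 1) * z) := by omega
  have hn1 : 1 ≤ Real.sqrt n := by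
    rw [Real.one_le_sqrt]
    exact_mod_cast hn
  have h6 : (R : ℝ) ≤ 3 / 2 * b * Real.sqrt n := by
    have h7 : ((R : ℝ)) ^ 2 ≤ 2 * n * b ^ 2 := by
      have := Nat.sqrt_le' (2 * n * b ^ 2)
      rw [← hR] at this
      exact_mod_cast this
    have h8 : ((R : ℝ)) ^ 2 ≤ (3 / 2 * b * Real.sqrt n) ^ 2 := by
      rw [mul_pow, Real.sq_sqrt (by positivity)]
      nlinarith [show (0 : ℝ) ≤ n * b ^ 2 by positivity]
    exact (pow_le_pow_iff_left₀ (by positivity) (by positivity) two_ne_zero).1 h8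
  have h7 : (g : ℝ) ≤ 2 * ((2 * R + 1) * z) := by exact_mod_cast h5
  refine h7.trans ?_
  have h8 : (0 : ℝ) ≤ z := Nat.cast_nonneg _
  have h9 : (2 * ((2 * R + 1)) : ℝ) ≤ (6 * b + 2) * Real.sqrt n := by nlinarith
  calc (2 * ((2 * R + 1) * z) : ℝ) = (2 * (2 * R + 1)) * z := by ring
    _ ≤ (6 * b + 2) * Real.sqrt n * z := by gcongr

end

end Pool.Agent.K1H13.G
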