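import Pool.Agent.K1H13.G.Str3
import Pool.Agent.K1H13.G.Law
import Pool.Agent.K1H13.G.Data

/-!
# The number of the trivial constituents: the upper bound
-/

set_option autoImplicit false
set_option linter.unusedSectionVars false

open Finset

universe v

namespace Pool.Agent.K1H13.G

open scoped Classical in
section

variable {B A : Type v} [DecidableEq B] {s : B → ℕ} [Fintype (Σ j : B, Fin (s j))] [CommGroup A]
  {ev : B → A}

/-- the blocks of a tuple -/
def bl {n : ℕ} (x : Fin n → Σ j : B, Fin (s j)) : Fin n → B := fun k => (x k).1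

lemma lb_bl {n : ℕ} (x : Fin n → Σ j : B, Fin (s j)) :
    lb (fun i : Σ j : B, Fin (s j) => ev i.1) x = ∏ k, ev (bl x k) := rfl

/-- the tuples with given blocks -/
lemma card_fiber {n : ℕ} (y : Fin n → B) (v : ℤ) :
    (#{x : Fin n → Σ j : B, Fin (s j) | bl x = y ∧ wt (jw s) x = v} : ℝ) =
      mu (fun k => s (y k)) v := by
  unfold mu
  congr 1
  symm
  refine card_bij (fun p _ k => (⟨y k, p k⟩ : Σ j : B, Fin (s j))) ?_ ?_ ?_
  · intro p hp
    rw [mem_filter] at hp ⊢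
    exact ⟨mem_univ _, rfl, hp.2⟩
  · intro p _ q _ h
    funext k
    have := congrFun h k
    simpa using this
  · intro x hx
    rw [mem_filter] at hx
    obtain ⟨-, rfl, h⟩ := hx
    exact ⟨fun k => (x k).2, mem_filter.2 ⟨mem_univ _, h⟩, rfl⟩

lemma card_fiber' {n : ℕ} (y : Fin n → B) :
    (#{x : Fin n → Σ j : B, Fin (s j) | bl x = y} : ℝ) = ∏ k, (s (y k) : ℝ) := by
  have h : #{x : Fin n → Σ j : B, Fin (s j) | bl x = y} = Fintype.card (∀ k, Fin (s (y k))) := by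
    rw [← card_univ]
    symm
    refine card_bij (fun p _ k => (⟨y k, p k⟩ : Σ j : B, Fin (s j))) ?_ ?_ ?_
    · intro p _
      rw [mem_filter]
      exact ⟨mem_univ _, rfl⟩
    · intro p _ q _ h
      funext k
      have := congrFun h k
      simpa using this
    · intro x hx
      rw [mem_filter] at hx
      obtain ⟨-, rfl⟩ := hx
      exact ⟨fun k => (x k).2, mem_univ _, rfl⟩
  rw [h, Fintype.card_pi]
  simp

variable (ev)

/-- the blocks with label `1` -/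
noncomputable def OB (s : B → ℕ) [Fintype (Σ j : B, Fin (s j))] (n : ℕ) : Finset (Fin n → B) :=
  (OK (fun i : Σ j : B, Fin (s j) => ev i.1) n).image bl

variable {ev}

lemma mem_OK_of_bl {n : ℕ} {x : Fin n → Σ j : B, Fin (s j)} (h : bl x ∈ OB ev s n) :
    x ∈ OK (fun i : Σ j : B, Fin (s j) => ev i.1) n := by
  obtain ⟨z, hz, hzx⟩ := mem_image.1 h
  rw [OK, mem_filter] at hz ⊢
  refine ⟨mem_univ _, ?_⟩
  rw [lb_bl, ← hzx, ← lb_bl]
  exact hz.2

lemma cnt_eq_sum (n : ℕ) (v : ℤ) :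
    (cnt (jw s) (fun i : Σ j : B, Fin (s j) => ev i.1) n v : ℝ) =
      ∑ y ∈ OB ev s n, mu (fun k => s (y k)) v := by
  unfold cnt
  rw [card_eq_sum_card_fiberwise (f := bl) (t := OB ev s n)]
  · rw [Nat.cast_sum]
    refine sum_congr rfl fun y hy => ?_
    rw [← card_fiber]
    congr 2
    ext x
    simp only [mem_filter, mem_univ, true_and]
    constructor
    · rintro ⟨⟨-, h1⟩, h2⟩; exact ⟨h2, h1⟩
    · rintro ⟨h2, h1⟩
      exact ⟨⟨mem_OK_of_bl (by rw [h2]; exact hy), h1⟩, h2⟩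
  · intro x hx
    rw [mem_coe, mem_filter] at hx
    exact mem_image_of_mem _ hx.1

lemma sum_OK (n : ℕ) (φ : (Fin n → B) → ℝ) :
    ∑ x ∈ OK (fun i : Σ j : B, Fin (s j) => ev i.1) n, φ (bl x) =
      ∑ y ∈ OB ev s n, (∏ k, (s (y k) : ℝ)) * φ y := by
  rw [OB, Finset.sum_comp φ bl]
  refine sum_congr rfl fun y hy => ?_
  rw [nsmul_eq_mul, ← card_fiber']
  congr 3
  ext x
  simp only [mem_filter, mem_univ, true_and]
  constructor
  · rintro ⟨-, h⟩; exact h
  · intro h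
    exact ⟨mem_OK_of_bl (ev := ev) (by rw [h]; exact hy), h⟩

/-- the first bound for the number of the trivial constituents -/
lemma cnt_diff_le (n : ℕ) :
    (cnt (jw s) (fun i : Σ j : B, Fin (s j) => ev i.1) n 0 : ℝ) -
      cnt (jw s) (fun i : Σ j : B, Fin (s j) => ev i.1) n 2 ≤
      ∑ x ∈ OK (fun i : Σ j : B, Fin (s j) => ev i.1) n,
        42 / Real.sqrt (ms (jw s) x + 1) ^ 3 := by
  rw [cnt_eq_sum, cnt_eq_sum, ← sum_sub_distrib]
  have h1 : ∑ y ∈ OB ev s n, (mu (fun k => s (y k)) 0 - mu (fun k => s (y k)) 2) ≤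
      ∑ y ∈ OB ev s n, (∏ k, (s (y k) : ℝ)) *
        (42 / Real.sqrt (#{k | 2 ≤ s (y k)} + 1) ^ 3) := by
    refine sum_le_sum fun y _ => ?_
    have h2 := str3 fun k => s (y k)
    have h3 : (0 : ℝ) < Real.sqrt (#{k | 2 ≤ s (y k)} + 1) ^ 3 := by positivity
    rw [mul_div_assoc', le_div_iff₀ h3]
    linarith
  refine h1.trans ?_
  rw [← sum_OK n fun y => 42 / Real.sqrt (#{k | 2 ≤ s (y k)} + 1) ^ 3]
  refine sum_le_sum fun x _ => ?_
  have h4 : ms (jw s) x ≤ #{k | 2 ≤ s (bl x k)} := by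
    unfold ms
    refine card_le_card fun k hk => ?_
    rw [mem_filter] at hk ⊢
    refine ⟨mem_univ _, ?_⟩
    have h5 := hk.2
    have h6 := (x k).2.2
    unfold jw at h5
    unfold bl
    omega
  gcongr

/-- **The upper bound.** -/
theorem upper3 (b : ℕ) : ∃ C : ℝ, 0 < C ∧ ∀ {B A : Type v} [DecidableEq B] {s : B → ℕ}
    [Fintype (Σ j : B, Fin (s j))] [CommGroup A] {ev : B → A}
    {τ : (Σ j : B, Fin (s j)) → (Σ j : B, Fin (s j))}, Fintype.card (Σ j : B, Fin (s j)) = b →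
    Function.Injective τ → (∀ i, ev (τ i).1 = (ev i.1)⁻¹) →
    (∃ i : Σ j : B, Fin (s j), ev i.1 = 1) → (∃ i, jw s i ≠ 0) →
    ∀ n : ℕ, ((cnt (jw s) (fun i : Σ j : B, Fin (s j) => ev i.1) n 0 : ℝ) -
      cnt (jw s) (fun i : Σ j : B, Fin (s j) => ev i.1) n 2) * Real.sqrt n ^ 3 ≤
      C * #(OK (fun i : Σ j : B, Fin (s j) => ev i.1) n) := by
  rcases Nat.eq_zero_or_pos b with hb | hb
  · refine ⟨1, one_pos, fun {B A} _ {s} _ _ {ev τ} hI _ _ h1 => ?_⟩
    obtain ⟨i, -⟩ := h1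
    have := Fintype.card_pos_iff.2 ⟨i⟩
    omega
  have hbR : (1 : ℝ) ≤ b := by exact_mod_cast hb
  set ρ : ℝ := 1 - 1 / (4 * (b : ℝ) ^ 2) with hρ
  have hρ0 : 0 ≤ ρ := by
    rw [hρ, sub_nonneg, div_le_one (by positivity)]
    nlinarith
  have hρ1 : ρ < 1 := by
    have : 0 < 1 / (4 * (b : ℝ) ^ 2) := by positivity
    linarith
  obtain ⟨D, hD0, hD⟩ := exists_bound (b + 3) hρ0 hρ1
  refine ⟨42 * Real.sqrt (2 * b) ^ 3 + 42 * b * D, by positivity, ?_⟩
  intro B A _ s _ _ ev τ hI hτ hτl h1 hne n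
  set lab : (Σ j : B, Fin (s j)) → A := fun i => ev i.1 with hlab
  set w := jw s with hw
  set g : ℕ := #(OK lab n) with hg
  have hsn : Real.sqrt n ≤ n + 1 := by
    rw [Real.sqrt_le_left (by positivity)]
    nlinarith [Nat.cast_nonneg (α := ℝ) n]
  have hsn0 := Real.sqrt_nonneg (n : ℝ)
  have htail : ((#{x : Fin n → (Σ j : B, Fin (s j)) | 2 * b * ms w x < n} : ℕ) : ℝ) ≤
      (b * ρ) ^ n := by
    have := tail_le (w := w) hne n
    rwa [hI] at this
  have hgr : (b : ℝ) ^ n ≤ b * ((n : ℝ) + 1) ^ b * g := by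
    have := growth (lab := lab) hτ hτl h1 n
    rw [hI] at this
    exact_mod_cast this
  have hsum : ∑ x ∈ OK lab n, 42 / Real.sqrt (ms w x + 1) ^ 3 * Real.sqrt n ^ 3 ≤
      ∑ x ∈ OK lab n, (42 * Real.sqrt (2 * b) ^ 3 +
        if 2 * b * ms w x < n then 42 * Real.sqrt n ^ 3 else 0) := by
    refine sum_le_sum fun x _ => ?_
    have h9 : (1 : ℝ) ≤ Real.sqrt (ms w x + 1) := by
      rw [Real.one_le_sqrt]
      have := Nat.cast_nonneg (α := ℝ) (ms w x)
      linarith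
    have h9' : (1 : ℝ) ≤ Real.sqrt (ms w x + 1) ^ 3 := one_le_pow₀ h9
    split_ifs with h
    · have h2 : 42 / Real.sqrt (ms w x + 1) ^ 3 * Real.sqrt n ^ 3 ≤ 42 * Real.sqrt n ^ 3 := by
        gcongr
        rw [div_le_iff₀ (by linarith)]
        linarith
      have h3 := Real.sqrt_nonneg (2 * (b : ℝ))
      have h4 : 0 ≤ 42 * Real.sqrt (2 * (b : ℝ)) ^ 3 := by positivity
      linarith
    · rw [add_zero, div_mul_eq_mul_div, div_le_iff₀ (by linarith), mul_assoc, ← mul_pow,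
        ← Real.sqrt_mul (by positivity)]
      gcongr
      have h2 : (n : ℝ) ≤ 2 * b * ms w x := by exact_mod_cast not_lt.1 h
      nlinarith
  have h2 := cnt_diff_le (s := s) (ev := ev) n
  have h0 : (0 : ℝ) ≤ Real.sqrt n ^ 3 := by positivity
  calc ((cnt w lab n 0 : ℝ) - cnt w lab n 2) * Real.sqrt n ^ 3
      ≤ (∑ x ∈ OK lab n, 42 / Real.sqrt (ms w x + 1) ^ 3) * Real.sqrt n ^ 3 := by
        exact mul_le_mul_of_nonneg_right h2 h0
    _ = ∑ x ∈ OK lab n, 42 / Real.sqrt (ms w x + 1) ^ 3 * Real.sqrt n ^ 3 := by rw [sum_mul]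
    _ ≤ _ := hsum
    _ = 42 * Real.sqrt (2 * b) ^ 3 * g +
        42 * Real.sqrt n ^ 3 * #{x ∈ OK lab n | 2 * b * ms w x < n} := by
        rw [sum_add_distrib, sum_const, nsmul_eq_mul, ← sum_filter, sum_const, nsmul_eq_mul]
        ring
    _ ≤ 42 * Real.sqrt (2 * b) ^ 3 * g + 42 * Real.sqrt n ^ 3 * (b * ρ) ^ n := by
        gcongr
        refine le_trans ?_ htail
        exact_mod_cast card_le_card (filter_subset_filter _ (subset_univ _))
    _ ≤ 42 * Real.sqrt (2 * b) ^ 3 * g +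
        42 * ((n : ℝ) + 1) ^ 3 * (ρ ^ n * (b * ((n : ℝ) + 1) ^ b * g)) := by
        rw [mul_pow, mul_comm ((b : ℝ) ^ n)]
        gcongr
    _ = 42 * Real.sqrt (2 * b) ^ 3 * g + 42 * b * (((n : ℝ) + 1) ^ (b + 3) * ρ ^ n) * g := by ring
    _ ≤ 42 * Real.sqrt (2 * b) ^ 3 * g + 42 * b * D * g := by
        gcongr
        exact hD n
    _ = _ := by ring

end

end Pool.Agent.K1H13.G
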