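import Pool.Agent.K1H13.G.Sys
import Pool.Agent.K1H13.G.Frm
import Pool.Agent.K1H13.G.Law3

/-!
# The dimensions of the spaces of the Tate classes in coordinates
-/

set_option autoImplicit false
set_option linter.unusedSectionVars false

open Finset Matrix Module

universe v

namespace Pool.Agent.K1H13.G

section

variable {K W : Type v} [Field K] [AddCommGroup W] [Module K W]

/-- the vectors fixed by a power of the operator -/
def tateS (W₀ : Submodule K W) (Φ : Module.End K W) : Set W :=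
  {z | z ∈ W₀ ∧ ∃ m, 0 < m ∧ (Φ ^ m) z = z}

/-- the generalised eigenvectors of a power of the operator for the eigenvalue `1` -/
def genS (W₀ : Submodule K W) (Φ : Module.End K W) : Set W :=
  {z | z ∈ W₀ ∧ ∃ m, 0 < m ∧ ∃ k : ℕ, ((Φ ^ m - 1) ^ k) z = 0}

/-- the radical of a form -/
def radS (W₀ : Submodule K W) (Φ : Module.End K W) (β : W →ₗ[K] W →ₗ[K] K) : Set W :=
  {z | z ∈ tateS W₀ Φ ∧ ∀ y ∈ tateS W₀ Φ, β z y = 0}

/-- The coordinates. -/
structure CD [CharZero K] (W₀ : Submodule K W) (Φ : Module.End K W) (J A : Type v) [Fintype J]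
    [DecidableEq J] [CommGroup A] where
  /-- the basis -/
  c : Basis J K W
  /-- the weights -/
  ω : J → ℤ
  /-- the labels -/
  lam : J → A
  /-- the raising operator -/
  M : Matrix J J K
  /-- the lowering operator -/
  f : Matrix J J K
  /-- the unipotent matrix -/
  U : Matrix J J K
  /-- the eigenvalues -/
  al : J → K
  /-- even -/
  P : J → Prop
  /-- an exponent -/
  s : ℕ
  trip : MTrip ω lam M f
  uni : Uni ω lam M U
  pres : Pres al U
  hP : ∀ x y, U y x ≠ 0 → (P x ↔ P y)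
  hs0 : 0 < s
  hs : ∀ x, lam x = 1 ↔ P x ∧ al x ^ s = 1
  htor : ∀ x m, 0 < m → P x → al x ^ m = 1 → lam x = 1
  hΦ : LinearMap.toMatrix c c Φ = U * diagonal al
  h₀ : ∀ z, z ∈ W₀ ↔ ∀ x, c.repr z x ≠ 0 → P x

namespace CD

variable [CharZero K] {W₀ : Submodule K W} {Φ : Module.End K W} {J A : Type v} [Fintype J]
    [DecidableEq J] [CommGroup A] (C : CD W₀ Φ J A)

lemma rep (z : W) (x : J) : C.c.equivFun z x = C.c.repr z x := by
  rw [Basis.equivFun_apply]

lemma repr_apply (z : W) : C.c.equivFun (Φ z) = (C.U * diagonal C.al) *ᵥ C.c.equivFun z := by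
  rw [← C.hΦ, Basis.equivFun_apply, Basis.equivFun_apply, LinearMap.toMatrix_mulVec_repr]

lemma repr_pow (m : ℕ) (z : W) :
    C.c.equivFun ((Φ ^ m) z) = (C.U * diagonal C.al) ^ m *ᵥ C.c.equivFun z := by
  induction m generalizing z with
  | zero => rw [pow_zero, pow_zero, one_mulVec, Module.End.one_apply]
  | succ m ih => rw [pow_succ, Module.End.mul_apply, ih, repr_apply, pow_succ, mulVec_mulVec]

lemma mem_iff (z : W) : z ∈ W₀ ↔ C.c.equivFun z ∈ Sup K C.P := by
  rw [C.h₀]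
  exact forall_congr' fun x => by rw [rep]

lemma tate_iff (z : W) : z ∈ tateS W₀ Φ ↔ C.c.equivFun z ∈ fixU C.U C.lam 1 := by
  constructor
  · rintro ⟨h1, m, hm, h2⟩
    rw [C.mem_iff] at h1
    have h3 : (C.U * diagonal C.al) ^ m *ᵥ C.c.equivFun z = (1 : K) ^ m • C.c.equivFun z := by
      rw [one_pow, one_smul, ← C.repr_pow, h2]
    obtain ⟨h4, h5⟩ := (eig_iff (C.uni.lead C.trip) C.pres hm one_ne_zero).1 h3
    refine ⟨h5, fun j hj => C.htor j m hm (h1 j hj) ?_⟩
    have := h4 j hj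
    simpa using this
  · intro h
    refine ⟨(C.mem_iff z).2 fun j hj => ((C.hs j).1 (h.2 j hj)).1, C.s, C.hs0, ?_⟩
    apply C.c.equivFun.injective
    rw [C.repr_pow, pow_apply_of_mem C.pres (fun x hx => ((C.hs x).1 hx).2) h.2, fix_pow h.1]

lemma repr_gen (m k : ℕ) (z : W) : C.c.equivFun (((Φ ^ m - 1) ^ k) z) =
    ((C.U * diagonal C.al) ^ m - (1 : K) ^ m • (1 : Matrix J J K)) ^ k *ᵥ C.c.equivFun z := by
  induction k generalizing z with
  | zero => rw [pow_zero, pow_zero, one_mulVec, Module.End.one_apply]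
  | succ k ih =>
    rw [pow_succ, Module.End.mul_apply, ih, pow_succ, ← mulVec_mulVec, LinearMap.sub_apply,
      map_sub, C.repr_pow, sub_mulVec, one_pow, one_smul, one_mulVec, Module.End.one_apply]

lemma gen_iff (z : W) : z ∈ genS W₀ Φ ↔ C.c.equivFun z ∈ Sup K fun x => C.lam x = 1 := by
  constructor
  · rintro ⟨h1, m, hm, k, h2⟩
    rw [C.mem_iff] at h1
    have h3 := (G.gen_iff (C.uni.lead C.trip) C.pres (s := m) (c := (1 : K))
      (z := C.c.equivFun z)).1 ⟨k, by rw [← C.repr_gen, h2, map_zero]⟩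
    intro j hj
    refine C.htor j m hm (h1 j hj) ?_
    have := h3 j hj
    simpa using this
  · intro h
    refine ⟨(C.mem_iff z).2 fun j hj => ((C.hs j).1 (h j hj)).1, C.s, C.hs0, ?_⟩
    obtain ⟨k, hk⟩ := (G.gen_iff (C.uni.lead C.trip) C.pres (s := C.s) (c := (1 : K))
      (z := C.c.equivFun z)).2 fun j hj => by
        show C.al j ^ C.s = 1 ^ C.s
        rw [one_pow]
        exact ((C.hs j).1 (h j hj)).2
    refine ⟨k, C.c.equivFun.injective ?_⟩
    rw [C.repr_gen, hk, map_zero]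

lemma finrank_of {S : Set W} {L : Submodule K (J → K)} (h : ∀ z, z ∈ S ↔ C.c.equivFun z ∈ L) :
    Set.finrank K S = finrank K L := by
  have e : S = (L.map (C.c.equivFun.symm : (J → K) →ₗ[K] W) : Set W) := by
    ext z
    rw [h]
    constructor
    · intro hz
      exact ⟨C.c.equivFun z, hz, C.c.equivFun.symm_apply_apply z⟩
    · rintro ⟨y, hy, rfl⟩
      rwa [show C.c.equivFun ((C.c.equivFun.symm : (J → K) →ₗ[K] W) y) = y from
        C.c.equivFun.apply_symm_apply y]
  rw [Set.finrank, e, Submodule.span_eq, LinearEquiv.finrank_map_eq]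

/-- the dimension of the space of the Tate classes -/
theorem finrank_tate : Set.finrank K (tateS W₀ Φ) = num C.ω C.lam 1 0 + num C.ω C.lam 1 1 := by
  rw [C.finrank_of C.tate_iff, C.uni.finrank_fix C.trip]

/-- the dimension of the space of the generalised Tate classes -/
theorem finrank_gen : Set.finrank K (genS W₀ Φ) = nS fun x => C.lam x = 1 := by
  rw [C.finrank_of C.gen_iff, finrank_Sup]

/-- the dimension of the radical -/
theorem finrank_rad {β : W →ₗ[K] W →ₗ[K] K} (hβ : ∀ x y, β (Φ x) (Φ y) = β x y)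
    (hnd : ∀ z ∈ W₀, (∀ x ∈ W₀, β x z = 0) → z = 0) :
    Set.finrank K (radS W₀ Φ β) = num C.ω C.lam 1 1 + num C.ω C.lam 1 2 := by
  have h1 := C.uni.finrank_ge C.trip 1 (v := 1) (by norm_num)
  have h2 : (1 : ℤ) + 1 = 2 := rfl
  rw [h2] at h1
  rw [← h1]
  apply C.finrank_of
  set β' : (J → K) →ₗ[K] (J → K) →ₗ[K] K :=
    β.compl₁₂ (C.c.equivFun.symm : (J → K) →ₗ[K] W) (C.c.equivFun.symm : (J → K) →ₗ[K] W) with hβ'
  have hb : ∀ x y, β' (C.c.equivFun x) (C.c.equivFun y) = β x y := by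
    intro x y
    show β (C.c.equivFun.symm (C.c.equivFun x)) (C.c.equivFun.symm (C.c.equivFun y)) = _
    rw [C.c.equivFun.symm_apply_apply, C.c.equivFun.symm_apply_apply]
  have hiso : ∀ x y, β' ((C.U * diagonal C.al) *ᵥ x) ((C.U * diagonal C.al) *ᵥ y) = β' x y := by
    intro x y
    obtain ⟨x, rfl⟩ := C.c.equivFun.surjective x
    obtain ⟨y, rfl⟩ := C.c.equivFun.surjective y
    rw [← C.repr_apply, ← C.repr_apply, hb, hb, hβ]
  intro z
  constructor
  · rintro ⟨hz, hz2⟩
    have hz' := (C.tate_iff z).1 hz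
    refine ⟨hz'.1, fun j hj => ⟨?_, hz'.2 j hj⟩⟩
    refine rad_lower C.uni C.trip C.pres C.hs0 C.hP C.hs hiso ?_ hz' ?_ j hj
    · intro w hw hw2
      obtain ⟨w, rfl⟩ := C.c.equivFun.surjective w
      rw [← C.mem_iff] at hw
      rw [hnd w hw fun x hx => ?_, map_zero]
      rw [← hb]
      exact hw2 _ ((C.mem_iff x).1 hx)
    · intro w hw
      obtain ⟨w, rfl⟩ := C.c.equivFun.surjective w
      rw [hb]
      exact hz2 w ((C.tate_iff w).2 hw)
  · rintro ⟨hz1, hz2⟩
    refine ⟨(C.tate_iff z).2 ⟨hz1, fun j hj => (hz2 j hj).2⟩, fun y hy => ?_⟩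
    rw [← hb]
    exact rad_upper C.uni C.trip C.pres C.hs0 (fun x hx => ((C.hs x).1 hx).2) hiso hz2
      ((C.tate_iff y).1 hy)

end CD

end

end Pool.Agent.K1H13.G
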