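import Mathlib

/-!
# Counting tuples with given label and small weight: the upper bound

`I` is a finite set with weights `w : I → ℤ` and labels `lab : I → A` in a commutative group, `σ` is
an involution of `I` which changes the sign of the weights and keeps the labels.
-/

set_option autoImplicit false

open Finset

namespace Pool.Agent.K1H13.G

/-! ### The theorem of Littlewood-Offord-Erdős -/

/-- Sperner's theorem for subsets of a given finite set. -/
lemma sperner_sub {α : Type*} [DecidableEq α] {N : Finset α} {𝒜 : Finset (Finset α)}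
    (hN : ∀ s ∈ 𝒜, s ⊆ N) (h : IsAntichain (· ⊆ ·) (𝒜 : Set (Finset α))) :
    #𝒜 ≤ (#N).choose (#N / 2) := by
  classical
  have hinj : Set.InjOn (fun s : Finset α => s.subtype (· ∈ N)) (𝒜 : Set (Finset α)) := by
    intro s hs t ht hst
    have h1 := hN s hs
    have h2 := hN t ht
    ext x
    constructor
    · intro hx
      have : (⟨x, h1 hx⟩ : {x // x ∈ N}) ∈ s.subtype (· ∈ N) := by simpa using hx
      rw [show s.subtype (· ∈ N) = t.subtype (· ∈ N) from hst] at this
      simpa using this
    · intro hx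
      have : (⟨x, h2 hx⟩ : {x // x ∈ N}) ∈ t.subtype (· ∈ N) := by simpa using hx
      rw [← show s.subtype (· ∈ N) = t.subtype (· ∈ N) from hst] at this
      simpa using this
  have h1 : IsAntichain (· ⊆ ·)
      ((𝒜.image fun s : Finset α => s.subtype (· ∈ N)) : Set (Finset {x // x ∈ N})) := by
    intro s hs t ht hne hst
    rw [mem_coe, mem_image] at hs ht
    obtain ⟨s, hs, rfl⟩ := hs
    obtain ⟨t, ht, rfl⟩ := ht
    refine h hs ht (fun e => hne (by rw [e])) fun x hx => ?_
    have : (⟨x, hN s hs hx⟩ : {x // x ∈ N}) ∈ s.subtype (· ∈ N) := by simpa using hx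
    simpa using hst this
  have h2 := h1.sperner
  rw [card_image_of_injOn hinj] at h2
  simpa using h2

/-- **Littlewood-Offord-Erdős** for one value: the number of choices of signs with a given value of
the sum. -/
lemma signs_le {α : Type*} [Fintype α] [DecidableEq α] (a : α → ℤ) (v : ℤ) :
    #{ε : Finset α | ∑ j, (if j ∈ ε then -a j else a j) = v} ≤
      2 ^ (Fintype.card α - #{j | a j ≠ 0}) *
        (#{j | a j ≠ 0}).choose (#{j | a j ≠ 0} / 2) := by
  classical
  set N : Finset α := {j | a j ≠ 0} with hNdef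
  set P : Finset α := {j | 0 < a j} with hPdef
  set 𝓔 : Finset (Finset α) := {ε : Finset α | ∑ j, (if j ∈ ε then -a j else a j) = v} with h𝓔
  -- the part of `ε` outside of `N`
  have hmap : ∀ ε ∈ 𝓔, ε \ N ∈ (univ \ N).powerset := fun ε _ => by
    rw [mem_powerset]
    exact sdiff_subset_sdiff (subset_univ _) le_rfl
  have hcardp : #(univ \ N).powerset = 2 ^ (Fintype.card α - #N) := by
    rw [card_powerset, card_sdiff_of_subset (subset_univ _), card_univ]
  have hfib : ∀ B ∈ (univ \ N).powerset, #{ε ∈ 𝓔 | ε \ N = B} ≤ (#N).choose (#N / 2) := by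
    intro B hB
    -- `A = {j ∈ N | j ∈ ε ↔ 0 < a j}`
    set φ : Finset α → Finset α := fun ε => {j ∈ N | (j ∈ ε ↔ 0 < a j)} with hφ
    have hinj : Set.InjOn φ ({ε ∈ 𝓔 | ε \ N = B} : Finset (Finset α)) := by
      intro s hs t ht hst
      rw [mem_coe, mem_filter] at hs ht
      ext x
      by_cases hx : x ∈ N
      · have h1 : x ∈ φ s ↔ x ∈ φ t := by rw [hst]
        simp only [hφ, mem_filter, hx, true_and] at h1
        tauto
      · have h1 : x ∈ s \ N ↔ x ∈ t \ N := by rw [hs.2, ht.2]
        simpa [hx] using h1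
    rw [← card_image_of_injOn hinj]
    apply sperner_sub
    · intro s hs
      rw [mem_image] at hs
      obtain ⟨ε, -, rfl⟩ := hs
      exact filter_subset _ _
    · intro s hs t ht hne hst
      rw [mem_coe, mem_image] at hs ht
      obtain ⟨ε, hε, rfl⟩ := hs
      obtain ⟨ε', hε', rfl⟩ := ht
      rw [mem_filter] at hε hε'
      apply hne
      -- the sum over `φ ε` of `|a j|`
      have key : ∀ ε : Finset α, ∑ j, (if j ∈ ε then -a j else a j) =
          ∑ j ∈ N, |a j| - 2 * ∑ j ∈ φ ε, |a j| := by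
        intro ε
        have h1 : ∑ j, (if j ∈ ε then -a j else a j) =
            ∑ j ∈ N, (if j ∈ ε then -a j else a j) := by
          symm
          apply sum_subset (subset_univ _)
          intro j _ hj
          have : a j = 0 := by simpa [hNdef] using hj
          simp [this]
        have h2 : 2 * ∑ j ∈ φ ε, |a j| = ∑ j ∈ N, (if (j ∈ ε ↔ 0 < a j) then 2 * |a j| else 0) := by
          rw [mul_sum]
          exact sum_filter _ _
        rw [h1, h2, ← sum_sub_distrib]
        apply sum_congr rfl
        intro j hj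
        have hj' : a j ≠ 0 := by simpa [hNdef] using hj
        rcases lt_or_gt_of_ne hj' with h | h
        · by_cases hje : j ∈ ε
          · simp [hje, not_lt.2 h.le, abs_of_neg h]
          · simp [hje, not_lt.2 h.le, abs_of_neg h]; ring
        · by_cases hje : j ∈ ε
          · simp [hje, h, abs_of_pos h]; ring
          · simp [hje, h, abs_of_pos h]
      have h1 := (mem_filter.1 hε.1).2
      have h2 := (mem_filter.1 hε'.1).2
      rw [key] at h1 h2
      have h3 : ∑ j ∈ φ ε, |a j| = ∑ j ∈ φ ε', |a j| := by linarith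
      by_contra hne'
      have hss : φ ε ⊂ φ ε' := lt_of_le_of_ne hst hne'
      obtain ⟨x, hx, hx'⟩ := exists_of_ssubset hss
      have h4 : ∑ j ∈ φ ε, |a j| < ∑ j ∈ φ ε', |a j| := by
        apply sum_lt_sum_of_subset hst hx hx'
        · have : a x ≠ 0 := by
            have := (mem_filter.1 hx).1
            simpa [hNdef] using this
          exact abs_pos.2 this
        · intro j _ _
          exact abs_nonneg _
      omega
  calc #𝓔 = ∑ B ∈ (univ \ N).powerset, #{ε ∈ 𝓔 | ε \ N = B} :=
        card_eq_sum_card_fiberwise hmap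
    _ ≤ ∑ B ∈ (univ \ N).powerset, (#N).choose (#N / 2) := sum_le_sum hfib
    _ = _ := by rw [sum_const, hcardp, smul_eq_mul]

/-- the central binomial coefficients -/
lemma centralBinom_sq_le (k : ℕ) : (Nat.centralBinom k) ^ 2 * (2 * k + 1) ≤ 16 ^ k := by
  induction k with
  | zero => simp
  | succ k ih =>
    have h1 : (k + 1) * Nat.centralBinom (k + 1) = 2 * (2 * k + 1) * Nat.centralBinom k :=
      Nat.succ_mul_centralBinom_succ k
    have h2 : (k + 1) ^ 2 * (Nat.centralBinom (k + 1) ^ 2 * (2 * (k + 1) + 1)) ≤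
        (k + 1) ^ 2 * 16 ^ (k + 1) := by
      calc (k + 1) ^ 2 * (Nat.centralBinom (k + 1) ^ 2 * (2 * (k + 1) + 1))
          = ((k + 1) * Nat.centralBinom (k + 1)) ^ 2 * (2 * k + 3) := by ring
        _ = (Nat.centralBinom k ^ 2 * (2 * k + 1)) * (4 * ((2 * k + 1) * (2 * k + 3))) := by
            rw [h1]; ring
        _ ≤ 16 ^ k * (4 * ((2 * k + 1) * (2 * k + 3))) := Nat.mul_le_mul_right _ ih
        _ ≤ 16 ^ k * (16 * (k + 1) ^ 2) := Nat.mul_le_mul_left _ (by nlinarith)
        _ = (k + 1) ^ 2 * 16 ^ (k + 1) := by ring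
    exact Nat.le_of_mul_le_mul_left h2 (by positivity)

lemma choose_half_le (m : ℕ) : (m.choose (m / 2) : ℝ) * Real.sqrt (m + 1) ≤ 2 ^ m := by
  have key : ∀ k : ℕ, (Nat.centralBinom k : ℝ) * Real.sqrt (2 * k + 1) ≤ 4 ^ k := by
    intro k
    have h1 : ((Nat.centralBinom k : ℝ)) ^ 2 * (2 * k + 1) ≤ 16 ^ k := by
      exact_mod_cast centralBinom_sq_le k
    have h2 : ((Nat.centralBinom k : ℝ) * Real.sqrt (2 * k + 1)) ^ 2 ≤ ((4 : ℝ) ^ k) ^ 2 := by
      rw [mul_pow, Real.sq_sqrt (by positivity), ← pow_mul, mul_comm k 2, pow_mul]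
      norm_num
      exact h1
    exact (pow_le_pow_iff_left₀ (by positivity) (by positivity) two_ne_zero).1 h2
  rcases Nat.even_or_odd' m with ⟨k, rfl | rfl⟩
  · have h1 : 2 * k / 2 = k := by omega
    rw [h1, ← Nat.centralBinom_eq_two_mul_choose]
    have := key k
    push_cast
    calc _ ≤ (4 : ℝ) ^ k := this
      _ = 2 ^ (2 * k) := by rw [pow_mul]; norm_num
  · have h1 : (2 * k + 1) / 2 = k := by omega
    have h2 : 2 * (2 * k + 1).choose k = Nat.centralBinom (k + 1) := by
      rw [Nat.centralBinom_eq_two_mul_choose, show 2 * (k + 1) = (2 * k + 1) + 1 by ring,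
        Nat.choose_succ_succ]
      have : (2 * k + 1).choose (k + 1) = (2 * k + 1).choose k := by
        have := Nat.choose_symm_half k
        exact this
      rw [this]; ring
    have h3 := key (k + 1)
    rw [← h2] at h3
    push_cast at h3
    rw [h1]
    have h4 : Real.sqrt (((2 * k + 1 : ℕ) : ℝ) + 1) ≤ Real.sqrt (2 * (k + 1) + 1) := by
      apply Real.sqrt_le_sqrt
      push_cast
      linarith
    have h5 : (0 : ℝ) ≤ ((2 * k + 1).choose k : ℝ) := Nat.cast_nonneg _
    calc ((2 * k + 1).choose k : ℝ) * Real.sqrt (((2 * k + 1 : ℕ) : ℝ) + 1)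
        ≤ ((2 * k + 1).choose k : ℝ) * Real.sqrt (2 * (k + 1) + 1) := by gcongr
      _ ≤ 4 ^ (k + 1) / 2 := by linarith
      _ = 2 ^ (2 * k + 1) := by
          rw [pow_succ, pow_succ, pow_mul]; norm_num; ring

end Pool.Agent.K1H13.G
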