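import Pool.Agent.K1H13.G.Comb

/-!
# Counting tuples with given label and small weight
-/

set_option autoImplicit false

open Finset

namespace Pool.Agent.K1H13.G

open scoped Classical in
section

variable {I A : Type*} [Fintype I] [CommGroup A] (w : I → ℤ) (lab : I → A)

/-- the weight of a tuple -/
def wt {n : ℕ} (x : Fin n → I) : ℤ := ∑ j, w (x j)

/-- the label of a tuple -/
def lb {n : ℕ} (x : Fin n → I) : A := ∏ j, lab (x j)

/-- the tuples with label `1` -/
noncomputable def OK (n : ℕ) : Finset (Fin n → I) := {x | lb lab x = 1}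

/-- the number of the coordinates with nonzero weight -/
noncomputable def ms {n : ℕ} (x : Fin n → I) : ℕ := #{j | w (x j) ≠ 0}

/-- the number of the tuples with label `1` and weight `v` -/
noncomputable def cnt (n : ℕ) (v : ℤ) : ℕ := #{x ∈ OK lab n | wt w x = v}

variable {w lab} {σ : I → I}

/-- the changes of signs -/
noncomputable def flip (σ : I → I) {n : ℕ} (ε : Finset (Fin n)) (x : Fin n → I) : Fin n → I :=
  fun j => if j ∈ ε then σ (x j) else x j

lemma flip_flip (hσ : ∀ i, σ (σ i) = i) {n : ℕ} (ε : Finset (Fin n)) (x : Fin n → I) :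
    flip σ ε (flip σ ε x) = x := by
  funext j
  unfold flip
  by_cases h : j ∈ ε <;> simp [h, hσ]

lemma lb_flip (hl : ∀ i, lab (σ i) = lab i) {n : ℕ} (ε : Finset (Fin n)) (x : Fin n → I) :
    lb lab (flip σ ε x) = lb lab x := by
  unfold lb flip
  refine prod_congr rfl fun j _ => ?_
  by_cases h : j ∈ ε <;> simp [h, hl]

lemma wt_flip (hw : ∀ i, w (σ i) = - w i) {n : ℕ} (ε : Finset (Fin n)) (x : Fin n → I) :
    wt w (flip σ ε x) = ∑ j, (if j ∈ ε then -(w (x j)) else w (x j)) := by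
  unfold wt flip
  refine sum_congr rfl fun j _ => ?_
  by_cases h : j ∈ ε <;> simp [h, hw]

lemma cnt_flip (hσ : ∀ i, σ (σ i) = i) (hl : ∀ i, lab (σ i) = lab i) {n : ℕ}
    (ε : Finset (Fin n)) (v : ℤ) :
    cnt w lab n v = #{x ∈ OK lab n | wt w (flip σ ε x) = v} := by
  unfold cnt
  refine card_bij' (fun x _ => flip σ ε x) (fun x _ => flip σ ε x) ?_ ?_ ?_ ?_
  · intro x hx
    rw [mem_filter, OK, mem_filter] at hx ⊢
    exact ⟨⟨mem_univ _, by rw [lb_flip hl]; exact hx.1.2⟩, by rw [flip_flip hσ]; exact hx.2⟩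
  · intro x hx
    rw [mem_filter, OK, mem_filter] at hx ⊢
    exact ⟨⟨mem_univ _, by rw [lb_flip hl]; exact hx.1.2⟩, hx.2⟩
  · intro x _; exact flip_flip hσ ε x
  · intro x _; exact flip_flip hσ ε x

/-- the first bound -/
lemma cnt_le (hσ : ∀ i, σ (σ i) = i) (hl : ∀ i, lab (σ i) = lab i) (hw : ∀ i, w (σ i) = - w i)
    (n : ℕ) (v : ℤ) :
    (cnt w lab n v : ℝ) ≤ ∑ x ∈ OK lab n, 1 / Real.sqrt (ms w x + 1) := by
  have h1 : 2 ^ n * cnt w lab n v =
      ∑ x ∈ OK lab n, #{ε : Finset (Fin n) | ∑ j, (if j ∈ ε then -(w (x j)) else w (x j)) = v} := by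
    have h2 : ∑ ε : Finset (Fin n), cnt w lab n v = 2 ^ n * cnt w lab n v := by
      rw [sum_const, card_univ, Fintype.card_finset, Fintype.card_fin, smul_eq_mul]
    rw [← h2]
    have h3 : ∀ ε ∈ (univ : Finset (Finset (Fin n))), cnt w lab n v =
        ∑ x ∈ OK lab n, (if ∑ j, (if j ∈ ε then -(w (x j)) else w (x j)) = v then 1 else 0) := by
      intro ε _
      rw [cnt_flip hσ hl ε v, card_filter]
      refine sum_congr rfl fun x _ => ?_
      rw [wt_flip hw]
    rw [sum_congr rfl h3, sum_comm]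
    refine sum_congr rfl fun x _ => ?_
    rw [card_filter]
  have h4 : (2 : ℝ) ^ n * cnt w lab n v ≤
      ∑ x ∈ OK lab n, 2 ^ n * (1 / Real.sqrt (ms w x + 1)) := by
    have h5 : (2 : ℝ) ^ n * cnt w lab n v = ((2 ^ n * cnt w lab n v : ℕ) : ℝ) := by push_cast; rfl
    rw [h5, h1, Nat.cast_sum]
    refine sum_le_sum fun x _ => ?_
    have h6 := signs_le (fun j => w (x j)) v
    rw [Fintype.card_fin] at h6
    have h7 : ms w x ≤ n := by
      unfold ms
      exact (card_filter_le _ _).trans (by simp)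
    have h8 := choose_half_le (ms w x)
    have h9 : (0 : ℝ) < Real.sqrt (ms w x + 1) := Real.sqrt_pos.2 (by positivity)
    rw [mul_one_div, le_div_iff₀ h9]
    calc _ ≤ ((2 ^ (n - ms w x) * (ms w x).choose (ms w x / 2) : ℕ) : ℝ) *
          Real.sqrt (ms w x + 1) := by
          gcongr
          exact h6
      _ = 2 ^ (n - ms w x) * (((ms w x).choose (ms w x / 2) : ℝ) * Real.sqrt (ms w x + 1)) := by
          push_cast; ring
      _ ≤ 2 ^ (n - ms w x) * 2 ^ (ms w x) := by gcongr
      _ = 2 ^ n := by rw [← pow_add, Nat.sub_add_cancel h7]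
  rw [← mul_sum] at h4
  exact le_of_mul_le_mul_left h4 (by positivity)

/-- the tail bound -/
lemma tail_le (hne : ∃ i, w i ≠ 0) (n : ℕ) :
    ((#{x : Fin n → I | 2 * Fintype.card I * ms w x < n} : ℕ) : ℝ) ≤
      (Fintype.card I * (1 - 1 / (4 * (Fintype.card I : ℝ) ^ 2))) ^ n := by
  obtain ⟨i₀, hi₀⟩ := hne
  set b : ℕ := Fintype.card I with hb
  have hb1 : 1 ≤ b := Fintype.card_pos_iff.2 ⟨i₀⟩
  have hbR : (1 : ℝ) ≤ b := by exact_mod_cast hb1
  set r : ℝ := 1 + 1 / (2 * b) with hr
  have hr1 : 1 ≤ r := by rw [hr]; have : (0 : ℝ) ≤ 1 / (2 * b) := by positivity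
                         linarith
  have hr0 : 0 < r := by linarith
  have hr2 : 2 ≤ r ^ (2 * b) := by
    have h1 := one_add_mul_le_pow (a := 1 / (2 * (b : ℝ))) (by
      have : (0 : ℝ) ≤ 1 / (2 * b) := by positivity
      linarith) (2 * b)
    have h2 : 1 + ((2 * b : ℕ) : ℝ) * (1 / (2 * (b : ℝ))) = 2 := by
      push_cast
      rw [mul_one_div, div_self (by positivity)]
      norm_num
    rw [h2] at h1
    exact h1
  set f : I → ℝ := fun i => r * (if w i ≠ 0 then 1 / 2 else 1) with hf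
  have hf0 : ∀ i, 0 ≤ f i := fun i => by
    rw [hf]; dsimp only; split_ifs <;> positivity
  have h1 : ((#{x : Fin n → I | 2 * b * ms w x < n} : ℕ) : ℝ) ≤ ∑ x : Fin n → I, ∏ j, f (x j) := by
    rw [card_filter, Nat.cast_sum]
    refine sum_le_sum fun x _ => ?_
    split_ifs with h
    · have h2 : ∏ j, f (x j) = r ^ n * (1 / 2) ^ ms w x := by
        rw [hf]
        simp only
        rw [prod_mul_distrib, prod_const, card_univ, Fintype.card_fin, prod_ite, prod_const_one,
          mul_one, prod_const]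
        rfl
      rw [h2]
      have h3 : r ^ (2 * b * ms w x) ≤ r ^ n := pow_le_pow_right₀ hr1 h.le
      have h4 : (2 : ℝ) ^ ms w x ≤ r ^ (2 * b * ms w x) := by
        rw [pow_mul]
        exact pow_le_pow_left₀ (by norm_num) hr2 _
      have h5 : (2 : ℝ) ^ ms w x * (1 / 2) ^ ms w x = 1 := by
        rw [← mul_pow]; norm_num
      have h6 : (0 : ℝ) < (1 / 2) ^ ms w x := by positivity
      push_cast
      nlinarith [mul_le_mul_of_nonneg_right (h4.trans h3) h6.le]
    · push_cast
      exact prod_nonneg fun j _ => hf0 _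
  refine h1.trans ?_
  rw [← Fintype.sum_pow]
  refine pow_le_pow_left₀ (sum_nonneg fun i _ => hf0 i) ?_ n
  have h2 : ∑ i, f i ≤ r * (b - 1 / 2) := by
    rw [hf]
    simp only
    rw [← mul_sum]
    gcongr
    have h3 : ∑ i, (if w i ≠ 0 then (1 : ℝ) / 2 else 1) ≤
        ∑ i, (if i = i₀ then (1 : ℝ) / 2 else 1) := by
      refine sum_le_sum fun i _ => ?_
      by_cases h : i = i₀
      · subst h; simp [hi₀]
      · by_cases h' : w i ≠ 0 <;> simp [h, h']
        norm_num
    refine h3.trans ?_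
    rw [← add_sum_erase _ _ (mem_univ i₀)]
    have h4 : ∑ x ∈ univ.erase i₀, (if x = i₀ then (1 : ℝ) / 2 else 1) = b - 1 := by
      rw [sum_congr rfl (g := fun _ => (1 : ℝ)) fun x hx => by simp [ne_of_mem_erase hx]]
      rw [sum_const, card_erase_of_mem (mem_univ _), card_univ, nsmul_eq_mul, mul_one,
        Nat.cast_sub hb1]
      push_cast
      rfl
    rw [h4]
    simp
    linarith
  refine h2.trans (le_of_eq ?_)
  rw [hr]
  field_simp
  ring

end

end Pool.Agent.K1H13.G
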