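import Pool.Agent.K1H13.G.Data

/-!
# The matrix data of an invertible operator, with the sizes of the blocks
-/

set_option autoImplicit false
set_option linter.unusedSectionVars false

open Finset Matrix

universe v

namespace Pool.Agent.K1H13.G

section Tau

variable {B E : Type*} {s : B → ℕ} [Fintype (Σ j : B, Fin (s j))] {ev : B → E} {iv : E → E}

/-- the blocks -/
abbrev PB (s : B → ℕ) := {j : B // 0 < s j}

lemma PB_finite (s : B → ℕ) [Fintype (Σ j : B, Fin (s j))] : Finite (PB s) :=
  Finite.of_injective (fun j : PB s => (⟨j.1, ⟨0, j.2⟩⟩ : Σ j : B, Fin (s j)))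
    fun j j' h => Subtype.ext (congrArg Sigma.fst h)

open scoped Classical in
/-- the numbers of the blocks -/
lemma card_blocks [Fintype (PB s)] (a : E) (k : ℕ) (hk : 1 ≤ k) :
    #{j : PB s | ev j.1 = a ∧ s j.1 = k} +
      #{x : Σ j : B, Fin (s j) | ev x.1 = a ∧ s x.1 ≤ x.2.val + (k + 1)} +
      #{x : Σ j : B, Fin (s j) | ev x.1 = a ∧ s x.1 ≤ x.2.val + (k - 1)} =
      #{x : Σ j : B, Fin (s j) | ev x.1 = a ∧ s x.1 ≤ x.2.val + k} +
        #{x : Σ j : B, Fin (s j) | ev x.1 = a ∧ s x.1 ≤ x.2.val + k} := by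
  -- the number of the blocks of size at least `m`
  have h1 : ∀ m : ℕ, 1 ≤ m →
      #{x : Σ j : B, Fin (s j) | ev x.1 = a ∧ s x.1 ≤ x.2.val + m} =
      #{x : Σ j : B, Fin (s j) | ev x.1 = a ∧ s x.1 ≤ x.2.val + (m - 1)} +
        #{j : PB s | ev j.1 = a ∧ m ≤ s j.1} := by
    intro m hm
    have h2 : #{j : PB s | ev j.1 = a ∧ m ≤ s j.1} =
        #{x : Σ j : B, Fin (s j) | ev x.1 = a ∧ s x.1 = x.2.val + m} := by
      refine card_bij' (fun j hj => ⟨j.1, ⟨s j.1 - m, by have := j.2; omega⟩⟩)
        (fun x _ => ⟨x.1, by have := x.2.2; omega⟩) ?_ ?_ ?_ ?_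
      · intro j hj
        rw [mem_filter] at hj ⊢
        refine ⟨mem_univ _, hj.2.1, ?_⟩
        have := hj.2.2
        simp only
        omega
      · intro x hx
        rw [mem_filter] at hx ⊢
        refine ⟨mem_univ _, hx.2.1, ?_⟩
        have := hx.2.2
        simp only
        omega
      · intro j hj; rfl
      · intro x hx
        rw [mem_filter] at hx
        have h3 := hx.2.2
        refine sig_ext s rfl ?_
        simp only
        omega
    rw [h2, ← card_union_of_disjoint]
    · congr 1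
      ext x
      simp only [mem_filter, mem_univ, true_and, mem_union]
      constructor
      · rintro ⟨h3, h4⟩
        by_cases h5 : s x.1 ≤ x.2.val + (m - 1)
        · exact Or.inl ⟨h3, h5⟩
        · exact Or.inr ⟨h3, by omega⟩
      · rintro (⟨h3, h4⟩ | ⟨h3, h4⟩)
        · exact ⟨h3, by omega⟩
        · exact ⟨h3, by omega⟩
    · rw [Finset.disjoint_left]
      intro x hx hx'
      rw [mem_filter] at hx hx'
      have h3 := hx.2.2
      have h4 := hx'.2.2
      omega
  have h2 : #{j : PB s | ev j.1 = a ∧ k ≤ s j.1} =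
      #{j : PB s | ev j.1 = a ∧ s j.1 = k} + #{j : PB s | ev j.1 = a ∧ k + 1 ≤ s j.1} := by
    rw [← card_union_of_disjoint]
    · congr 1
      ext j
      simp only [mem_filter, mem_univ, true_and, mem_union]
      constructor
      · rintro ⟨h3, h4⟩
        by_cases h5 : s j.1 = k
        · exact Or.inl ⟨h3, h5⟩
        · exact Or.inr ⟨h3, by omega⟩
      · rintro (⟨h3, h4⟩ | ⟨h3, h4⟩)
        · exact ⟨h3, by omega⟩
        · exact ⟨h3, by omega⟩
    · rw [Finset.disjoint_left]
      intro x hx hx'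
      rw [mem_filter] at hx hx'
      have h3 := hx.2.2
      have h4 := hx'.2.2
      omega
  have h3 := h1 k hk
  have h4 := h1 (k + 1) (by omega)
  rw [Nat.add_sub_cancel] at h4
  omega

open scoped Classical in
/-- **The duality of the blocks.** -/
theorem exists_tau (hiv : Function.Injective iv)
    (hD : ∀ (a : E) (k : ℕ), Nat.card {x : Σ j : B, Fin (s j) // ev x.1 = a ∧ s x.1 ≤ x.2.val + k} =
      Nat.card {x : Σ j : B, Fin (s j) // ev x.1 = iv a ∧ s x.1 ≤ x.2.val + k}) :
    ∃ τ : (Σ j : B, Fin (s j)) → (Σ j : B, Fin (s j)), Function.Injective τ ∧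
      (∀ i, ev (τ i).1 = iv (ev i.1)) ∧ ∀ i, jw s (τ i) = jw s i := by
  have hfin := PB_finite s
  have hfin' := Fintype.ofFinite (PB s)
  have hD' : ∀ (a : E) (k : ℕ),
      #{x : Σ j : B, Fin (s j) | ev x.1 = a ∧ s x.1 ≤ x.2.val + k} =
      #{x : Σ j : B, Fin (s j) | ev x.1 = iv a ∧ s x.1 ≤ x.2.val + k} := by
    intro a k
    have := hD a k
    rwa [Nat.card_eq_fintype_card, Nat.card_eq_fintype_card, Fintype.card_subtype,
      Fintype.card_subtype] at this
  have hE : ∀ (a : E) (k : ℕ), 1 ≤ k → #{j : PB s | ev j.1 = a ∧ s j.1 = k} =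
      #{j : PB s | ev j.1 = iv a ∧ s j.1 = k} := by
    intro a k hk
    have h1 := card_blocks (s := s) (ev := ev) a k hk
    have h2 := card_blocks (s := s) (ev := ev) (iv a) k hk
    rw [← hD', ← hD', ← hD'] at h2
    omega
  have hE' : ∀ (a : E) (k : ℕ), 1 ≤ k →
      Nonempty ({j : PB s // ev j.1 = a ∧ s j.1 = k} ≃ {j : PB s // ev j.1 = iv a ∧ s j.1 = k}) := by
    intro a k hk
    refine ⟨Fintype.equivOfCardEq ?_⟩
    rw [Fintype.card_subtype, Fintype.card_subtype]
    exact hE a k hk
  let e := fun (a : E) (k : ℕ) (hk : 1 ≤ k) => Classical.choice (hE' a k hk)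
  let θ : PB s → PB s := fun j => ((e (ev j.1) (s j.1) j.2) ⟨j, rfl, rfl⟩).1
  have hθ : ∀ j : PB s, ev (θ j).1 = iv (ev j.1) ∧ s (θ j).1 = s j.1 := fun j =>
    ((e (ev j.1) (s j.1) j.2) ⟨j, rfl, rfl⟩).2
  have hθi : Function.Injective θ := by
    intro j j' h
    have h1 : ev j.1 = ev j'.1 := by
      apply hiv
      rw [← (hθ j).1, ← (hθ j').1, h]
    have h2 : s j.1 = s j'.1 := by rw [← (hθ j).2, ← (hθ j').2, h]
    have key : ∀ (a : E) (k : ℕ) (hk : 1 ≤ k) (h3 : ev j.1 = a) (h4 : s j.1 = k),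
        θ j = ((e a k hk) ⟨j, h3, h4⟩).1 := by
      intro a k hk h3 h4
      subst h3
      subst h4
      rfl
    have h5 := key (ev j'.1) (s j'.1) j'.2 h1 h2
    rw [h5] at h
    have h6 := (e (ev j'.1) (s j'.1) j'.2).injective (Subtype.ext h)
    exact congrArg Subtype.val h6
  have hpos : ∀ i : Σ j : B, Fin (s j), 0 < s i.1 := fun i => by have := i.2.2; omega
  refine ⟨fun i => ⟨(θ ⟨i.1, hpos i⟩).1, Fin.cast (hθ ⟨i.1, hpos i⟩).2.symm i.2⟩, ?_, ?_, ?_⟩
  · rintro i i' h
    have h1 : θ ⟨i.1, hpos i⟩ = θ ⟨i'.1, hpos i'⟩ := Subtype.ext (congrArg Sigma.fst h)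
    have h2 : i.1 = i'.1 := congrArg Subtype.val (hθi h1)
    refine sig_ext s h2 ?_
    have h3 : ∀ y z : Σ j : B, Fin (s j), y = z → y.2.val = z.2.val := by
      rintro y z rfl; rfl
    have h4 := h3 _ _ h
    simpa using h4
  · intro i
    exact (hθ ⟨i.1, hpos i⟩).1
  · intro i
    unfold jw
    simp only [Fin.val_cast, (hθ ⟨i.1, hpos i⟩).2]

end Tau

section Oper

open Module

variable {K V : Type v} [Field K] [AddCommGroup V] [Module K V]

/-- the kernels of the powers of a shift -/
theorem shift_finrank [CharZero K] {B : Type*} {s : B → ℕ} [Fintype (Σ j : B, Fin (s j))]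
    (b : Basis (Σ j : B, Fin (s j)) K V) (ν : Module.End K V)
    (hν : ∀ (j : B) (p : Fin (s j)), ν (b ⟨j, p⟩) =
      if h : p.1 + 1 < s j then b ⟨j, ⟨p.1 + 1, h⟩⟩ else 0) (k : ℕ) :
    finrank K (LinearMap.ker (ν ^ k)) =
      Nat.card {x : Σ j : B, Fin (s j) // s x.1 ≤ x.2.val + k} := by
  classical
  have hpow : ∀ (k : ℕ) (j : B) (p : Fin (s j)), (ν ^ k) (b ⟨j, p⟩) =
      if h : p.1 + k < s j then b ⟨j, ⟨p.1 + k, h⟩⟩ else 0 := by
    intro k
    induction k with
    | zero => intro j p; simp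
    | succ k ih =>
      intro j p
      rw [pow_succ', Module.End.mul_apply, ih]
      by_cases h : p.1 + k < s j
      · rw [dif_pos h, hν]
        by_cases h2 : p.1 + k + 1 < s j
        · rw [dif_pos h2, dif_pos (by omega)]
          rfl
        · rw [dif_neg h2, dif_neg (by omega)]
      · rw [dif_neg h, map_zero, dif_neg (by omega)]
  have hker : LinearMap.ker (ν ^ k) =
      (Sup K fun x : Σ j : B, Fin (s j) => s x.1 ≤ x.2.val + k).map
        (b.equivFun.symm : _ →ₗ[K] V) := by
    ext z
    constructor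
    · intro hz
      refine ⟨b.equivFun z, ?_, b.equivFun.symm_apply_apply z⟩
      intro x hx
      by_contra hc
      rw [not_le] at hc
      apply hx
      have h1 : (b.coord ⟨x.1, ⟨x.2.val + k, hc⟩⟩) ∘ₗ (ν ^ k) = b.coord x := by
        refine b.ext fun y => ?_
        obtain ⟨j, p⟩ := y
        rw [LinearMap.comp_apply, hpow]
        by_cases h : p.1 + k < s j
        · rw [dif_pos h, Basis.coord_apply, Basis.coord_apply, Basis.repr_self,
            Basis.repr_self]
          by_cases hxy : (⟨j, p⟩ : Σ j : B, Fin (s j)) = x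
          · subst hxy
            rw [Finsupp.single_eq_same, Finsupp.single_eq_same]
          · rw [Finsupp.single_eq_of_ne, Finsupp.single_eq_of_ne (Ne.symm hxy)]
            intro h2
            apply hxy
            refine sig_ext s (congrArg Sigma.fst h2).symm ?_
            have h3 : ∀ y z : Σ j : B, Fin (s j), y = z → y.2.val = z.2.val := by
              rintro y z rfl; rfl
            have h4 := h3 _ _ h2
            simp only at h4
            show p.val = x.2.val
            omega
        · rw [dif_neg h, map_zero, Basis.coord_apply, Basis.repr_self,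
            Finsupp.single_eq_of_ne]
          rintro rfl
          exact h hc
      have h2 : b.coord x z = 0 := by
        rw [← h1, LinearMap.comp_apply, show (ν ^ k) z = 0 from hz, map_zero]
      exact h2
    · rintro ⟨c, hc, rfl⟩
      rw [LinearMap.mem_ker]
      have h1 : (b.equivFun.symm : _ →ₗ[K] V) c = ∑ x, c x • b x := b.equivFun_symm_apply c
      rw [h1, map_sum]
      refine sum_eq_zero fun x _ => ?_
      rw [map_smul]
      by_cases h0 : c x = 0
      · rw [h0, zero_smul]
      · have h2 : s x.1 ≤ x.2.val + k := hc x h0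
        obtain ⟨j, p⟩ := x
        rw [hpow, dif_neg (by simpa using h2), smul_zero]
  rw [hker, LinearEquiv.finrank_map_eq, finrank_Sup, nS]
  rw [Nat.card_eq_fintype_card, Fintype.card_subtype]
  refine congrArg card ?_
  ext x
  simp only [mem_filter]

variable [CharZero K] [IsAlgClosed K] [Module.Finite K V]

/-- **The Jordan decomposition of an injective operator, with the sizes of the blocks.** -/
theorem exists_dat (F : Module.End K V) (hF : Function.Injective F) :
    ∃ (B : Type v) (s : B → ℕ) (_ : Fintype (Σ j : B, Fin (s j)))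
      (b : Basis (Σ j : B, Fin (s j)) K V) (ev : B → Kˣ),
      (∀ (j : B) (p : Fin (s j)), F (b ⟨j, p⟩) =
        (ev j : K) • (b ⟨j, p⟩ + if h : p.1 + 1 < s j then b ⟨j, ⟨p.1 + 1, h⟩⟩ else 0)) ∧
      ∀ (α : Kˣ) (k : ℕ), Nat.card {x : Σ j : B, Fin (s j) // ev x.1 = α ∧ s x.1 ≤ x.2.val + k} =
        finrank K (LinearMap.ker ((F - (α : K) • (1 : Module.End K V)) ^ k)) := by
  classical
  set ν : ∀ α : Kˣ, Module.End K (F.maxGenEigenspace (α : K)) := fun α =>
    (α : K)⁻¹ • ((F - algebraMap K (Module.End K V) α).restrict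
      (Module.End.mapsTo_maxGenEigenspace_of_comm
        (Algebra.mul_sub_algebraMap_commutes F (α : K)) α)) with hν
  have hνv : ∀ (α : Kˣ) (x : F.maxGenEigenspace (α : K)),
      (ν α x : V) = (α : K)⁻¹ • (F (x : V) - (α : K) • (x : V)) := fun α x => rfl
  have hnil : ∀ α : Kˣ, IsNilpotent (ν α) := by
    intro α
    obtain ⟨n, hn⟩ := Module.End.isNilpotent_restrict_maxGenEigenspace_sub_algebraMap F (α : K)
    refine ⟨n, ?_⟩
    rw [hν]
    simp only
    rw [smul_pow, hn, smul_zero]
  choose d s b hb using fun α => exists_jordan _ (hnil α)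
  -- the generalized eigenspaces for the units
  have h0 : F.maxGenEigenspace 0 = ⊥ := by
    rw [eq_bot_iff]
    intro x hx
    rw [Module.End.mem_maxGenEigenspace] at hx
    obtain ⟨k, hk⟩ := hx
    rw [zero_smul, sub_zero] at hk
    have h3 : ∀ (k : ℕ) (v : V), (F ^ k) v = 0 → v = 0 := by
      intro k
      induction k with
      | zero => intro v hv; simpa using hv
      | succ k ih =>
        intro v hv
        rw [pow_succ', Module.End.mul_apply] at hv
        exact ih v (hF (by rw [hv, map_zero]))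
    exact h3 k _ hk
  have hind : iSupIndep fun α : Kˣ => F.maxGenEigenspace (α : K) :=
    F.independent_maxGenEigenspace.comp Units.val_injective
  have htop : ⨆ α : Kˣ, F.maxGenEigenspace (α : K) = ⊤ := by
    rw [eq_top_iff, ← F.iSup_maxGenEigenspace_eq_top]
    refine iSup_le fun α => ?_
    by_cases hα : α = 0
    · rw [hα, h0]; exact bot_le
    · exact le_iSup (fun α : Kˣ => F.maxGenEigenspace (α : K)) (Units.mk0 α hα)
  have hint : DirectSum.IsInternal fun α : Kˣ => F.maxGenEigenspace (α : K) :=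
    DirectSum.isInternal_submodule_of_iSupIndep_of_iSup_eq_top hind htop
  let c := hint.collectedBasis b
  let e : (Σ j : (Σ α : Kˣ, Fin (d α)), Fin (s j.1 j.2)) ≃
      (Σ α : Kˣ, Σ i : Fin (d α), Fin (s α i)) :=
    Equiv.sigmaAssoc fun α (i : Fin (d α)) => Fin (s α i)
  let c' : Basis (Σ j : (Σ α : Kˣ, Fin (d α)), Fin (s j.1 j.2)) K V := c.reindex e.symm
  have hc' : ∀ (α : Kˣ) (i : Fin (d α)) (p : Fin (s α i)),
      c' ⟨⟨α, i⟩, p⟩ = (b α ⟨i, p⟩ : V) := by
    intro α i p
    rw [Basis.reindex_apply]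
    show c (e ⟨⟨α, i⟩, p⟩) = _
    rw [hint.collectedBasis_coe b]
    rfl
  have hfin : Finite (Σ j : (Σ α : Kˣ, Fin (d α)), Fin (s j.1 j.2)) := Module.Finite.finite_basis c'
  refine ⟨Σ α : Kˣ, Fin (d α), fun j => s j.1 j.2, Fintype.ofFinite _, c', fun j => j.1, ?_, ?_⟩
  · rintro ⟨α, i⟩ p
    have h1 := congrArg Subtype.val (hb α i p)
    rw [hνv] at h1
    have h3 : F (b α ⟨i, p⟩ : V) = (α : K) • ((b α ⟨i, p⟩ : V) +
        (α : K)⁻¹ • (F (b α ⟨i, p⟩ : V) - (α : K) • (b α ⟨i, p⟩ : V))) := by
      rw [smul_add, smul_smul, mul_inv_cancel₀ α.ne_zero, one_smul]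
      abel
    simp only
    rw [hc', h3, h1]
    congr 2
    by_cases h : p.1 + 1 < s α i
    · rw [dif_pos h, dif_pos h, hc']
    · rw [dif_neg h, dif_neg h]
      rfl
  · intro α k
    have h1 := shift_finrank (b α) (ν α) (hb α) k
    have h2 : finrank K (LinearMap.ker ((F - (α : K) • (1 : Module.End K V)) ^ k)) =
        finrank K (LinearMap.ker (ν α ^ k)) := by
      have hpow : ∀ (k : ℕ) (x : F.maxGenEigenspace (α : K)), ((ν α ^ k) x : V) =
          ((α : K)⁻¹) ^ k • ((F - (α : K) • (1 : Module.End K V)) ^ k) (x : V) := by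
        intro k
        induction k with
        | zero => intro x; simp
        | succ k ih =>
          intro x
          rw [pow_succ, Module.End.mul_apply, ih, hνv, map_smul, smul_smul, pow_succ, pow_succ,
            Module.End.mul_apply]
          rfl
      have e1 : LinearMap.ker ((F - (α : K) • (1 : Module.End K V)) ^ k) =
          (LinearMap.ker (ν α ^ k)).map (F.maxGenEigenspace (α : K)).subtype := by
        ext x
        constructor
        · intro hx
          have hx' : ((F - (α : K) • (1 : Module.End K V)) ^ k) x = 0 := hx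
          have hm : x ∈ F.maxGenEigenspace (α : K) := by
            rw [Module.End.mem_maxGenEigenspace]
            exact ⟨k, hx'⟩
          refine ⟨⟨x, hm⟩, ?_, rfl⟩
          apply Subtype.ext
          rw [hpow, hx', smul_zero]
          rfl
        · rintro ⟨x, hx, rfl⟩
          have hx' : (ν α ^ k) x = 0 := hx
          have h3 := hpow k x
          rw [hx'] at h3
          have h4 := (smul_eq_zero.1 h3.symm).resolve_left (pow_ne_zero k (inv_ne_zero α.ne_zero))
          exact h4
      rw [e1, Submodule.finrank_map_subtype_eq]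
    rw [h2, h1]
    refine Nat.card_congr
      { toFun := fun x => ⟨x.2.1 ▸ ⟨x.1.1.2, x.1.2⟩, ?_⟩
        invFun := fun y => ⟨⟨⟨α, y.1.1⟩, y.1.2⟩, rfl, y.2⟩
        left_inv := ?_
        right_inv := fun y => rfl }
    · obtain ⟨⟨⟨α', i⟩, p⟩, h, h'⟩ := x
      simp only at h
      subst h
      exact h'
    · rintro ⟨⟨⟨α', i⟩, p⟩, h, h'⟩
      simp only at h
      subst h
      rfl

end Oper

end Pool.Agent.K1H13.G
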