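import Pool.Agent.K1H13.G.Mat
import Pool.Agent.K1H13.G.Law

/-!
# Kronecker powers of matrices with an `sl₂`-triple
-/

set_option autoImplicit false
set_option linter.unusedSectionVars false

open Finset Matrix Kronecker

universe v

namespace Pool.Agent.K1H13.G

section

variable {K : Type*} [Field K] [CharZero K] {J J' A : Type*} [Fintype J] [DecidableEq J]
  [Fintype J'] [DecidableEq J'] [CommGroup A]
  {ω : J → ℤ} {lam : J → A} {M f U : Matrix J J K} {ω' : J' → ℤ} {lam' : J' → A}
  {M' f' U' : Matrix J' J' K}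

lemma one_apply_ne' {x y : J} (h : (1 : Matrix J J K) y x ≠ 0) : y = x := by
  by_contra hc
  exact h (one_apply_ne hc)

lemma sub_kron (P Q : Matrix J J K) (R : Matrix J' J' K) : (P - Q) ⊗ₖ R = P ⊗ₖ R - Q ⊗ₖ R := by
  ext ⟨a, b⟩ ⟨c, d⟩
  simp [sub_mul]

lemma kron_sub (P : Matrix J J K) (Q R : Matrix J' J' K) : P ⊗ₖ (Q - R) = P ⊗ₖ Q - P ⊗ₖ R := by
  ext ⟨a, b⟩ ⟨c, d⟩
  simp [mul_sub]

/-- The product of two triples. -/
lemma MTrip.kron (h : MTrip ω lam M f) (h' : MTrip ω' lam' M' f') :
    MTrip (fun p : J × J' => ω p.1 + ω' p.2) (fun p => lam p.1 * lam' p.2)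
      (M ⊗ₖ (1 : Matrix J' J' K) + (1 : Matrix J J K) ⊗ₖ M')
      (f ⊗ₖ (1 : Matrix J' J' K) + (1 : Matrix J J K) ⊗ₖ f') where
  hM := by
    rintro ⟨y, y'⟩ ⟨x, x'⟩ hne
    rw [Matrix.add_apply, kroneckerMap_apply, kroneckerMap_apply] at hne
    by_cases h1 : M y x * (1 : Matrix J' J' K) y' x' = 0
    · rw [h1, zero_add] at hne
      have h2 := one_apply_ne' (left_ne_zero_of_mul hne)
      have h3 := h'.hM y' x' (right_ne_zero_of_mul hne)
      subst h2
      have h3a : ω' y' = ω' x' + 2 := h3.1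
      exact ⟨by dsimp only; omega, by dsimp only; rw [h3.2]⟩
    · have h2 := one_apply_ne' (right_ne_zero_of_mul h1)
      have h3 := h.hM _ _ (left_ne_zero_of_mul h1)
      subst h2
      have h3a := h3.1
      exact ⟨by dsimp only; omega, by dsimp only; rw [h3.2]⟩
  hf := by
    rintro ⟨y, y'⟩ ⟨x, x'⟩ hne
    rw [Matrix.add_apply, kroneckerMap_apply, kroneckerMap_apply] at hne
    by_cases h1 : f y x * (1 : Matrix J' J' K) y' x' = 0
    · rw [h1, zero_add] at hne
      have h2 := one_apply_ne' (left_ne_zero_of_mul hne)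
      have h3 := h'.hf y' x' (right_ne_zero_of_mul hne)
      subst h2
      have h3a : ω' y' = ω' x' - 2 := h3.1
      exact ⟨by dsimp only; omega, by dsimp only; rw [h3.2]⟩
    · have h2 := one_apply_ne' (right_ne_zero_of_mul h1)
      have h3 := h.hf _ _ (left_ne_zero_of_mul h1)
      subst h2
      have h3a := h3.1
      exact ⟨by dsimp only; omega, by dsimp only; rw [h3.2]⟩
  comm := by
    have e : (M ⊗ₖ (1 : Matrix J' J' K) + (1 : Matrix J J K) ⊗ₖ M') *
        (f ⊗ₖ (1 : Matrix J' J' K) + (1 : Matrix J J K) ⊗ₖ f') -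
        (f ⊗ₖ (1 : Matrix J' J' K) + (1 : Matrix J J K) ⊗ₖ f') *
        (M ⊗ₖ (1 : Matrix J' J' K) + (1 : Matrix J J K) ⊗ₖ M') =
        (M * f - f * M) ⊗ₖ (1 : Matrix J' J' K) +
          (1 : Matrix J J K) ⊗ₖ (M' * f' - f' * M') := by
      simp only [add_mul, mul_add, ← mul_kronecker_mul, one_mul, mul_one, sub_kron,
        kron_sub]
      abel
    rw [e, h.comm, h'.comm, ← diagonal_one, ← diagonal_one, diagonal_kronecker_diagonal,
      diagonal_kronecker_diagonal, diagonal_add]
    congr 1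
    funext p
    push_cast
    ring

/-- the entries of a unipotent matrix raise the weights -/
lemma Uni.low (hU : Uni ω lam M U) (h : MTrip ω lam M f) {y x : J} (hne : U y x ≠ 0) :
    ω x ≤ ω y ∧ lam y = lam x := by
  by_cases h1 : (U - 1 - M) y x = 0
  · by_cases h2 : M y x = 0
    · have h3 : (1 : Matrix J J K) y x ≠ 0 := by
        intro h4
        rw [Matrix.sub_apply, Matrix.sub_apply, h4, h2, sub_zero, sub_zero] at h1
        exact hne h1
      have := one_apply_ne' h3
      subst this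
      exact ⟨le_rfl, rfl⟩
    · have := h.hM y x h2
      exact ⟨by omega, this.2⟩
  · have := hU.high y x h1
    exact ⟨by omega, this.2⟩

/-- The product of two unipotent matrices. -/
lemma Uni.kron (hU : Uni ω lam M U) (h : MTrip ω lam M f) (hU' : Uni ω' lam' M' U')
    (h' : MTrip ω' lam' M' f') :
    Uni (fun p : J × J' => ω p.1 + ω' p.2) (fun p => lam p.1 * lam' p.2)
      (M ⊗ₖ (1 : Matrix J' J' K) + (1 : Matrix J J K) ⊗ₖ M') (U ⊗ₖ U') where
  high := by
    have e : U ⊗ₖ U' - 1 - (M ⊗ₖ (1 : Matrix J' J' K) + (1 : Matrix J J K) ⊗ₖ M') =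
        M ⊗ₖ M' + (U - 1 - M) ⊗ₖ U' + (1 : Matrix J J K) ⊗ₖ (U' - 1 - M') +
          M ⊗ₖ (U' - 1 - M') := by
      simp only [sub_kron, kron_sub, one_kronecker_one]
      abel
    rintro ⟨y, y'⟩ ⟨x, x'⟩ hne
    rw [e] at hne
    simp only [Matrix.add_apply, kroneckerMap_apply] at hne
    by_cases h1 : M y x * M' y' x' = 0
    · by_cases h2 : (U - 1 - M) y x * U' y' x' = 0
      · by_cases h3 : (1 : Matrix J J K) y x * (U' - 1 - M') y' x' = 0
        · rw [h1, h2, h3] at hne
          simp only [zero_add] at hne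
          have h4 := h.hM _ _ (left_ne_zero_of_mul hne)
          have h5 := hU'.high _ _ (right_ne_zero_of_mul hne)
          exact ⟨by dsimp only; omega, by dsimp only; rw [h4.2, h5.2]⟩
        · have h4 := one_apply_ne' (left_ne_zero_of_mul h3)
          have h5 := hU'.high _ _ (right_ne_zero_of_mul h3)
          subst h4
          exact ⟨by dsimp only; omega, by dsimp only; rw [h5.2]⟩
      · have h4 := hU.high _ _ (left_ne_zero_of_mul h2)
        have h5 := hU'.low h' (right_ne_zero_of_mul h2)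
        exact ⟨by dsimp only; omega, by dsimp only; rw [h4.2, h5.2]⟩
    · have h4 := h.hM _ _ (left_ne_zero_of_mul h1)
      have h5 := h'.hM _ _ (right_ne_zero_of_mul h1)
      exact ⟨by dsimp only; omega, by dsimp only; rw [h4.2, h5.2]⟩

lemma MTrip.reindex {L : Type*} [Fintype L] [DecidableEq L] (h : MTrip ω lam M f) (e : L ≃ J) :
    MTrip (fun l => ω (e l)) (fun l => lam (e l)) (M.submatrix e e) (f.submatrix e e) where
  hM := fun y x hne => h.hM _ _ hne
  hf := fun y x hne => h.hf _ _ hne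
  comm := by
    rw [submatrix_mul_equiv, submatrix_mul_equiv]
    ext y x
    have h1 := congrFun (congrFun h.comm (e y)) (e x)
    rw [Matrix.sub_apply, submatrix_apply, submatrix_apply, ← Matrix.sub_apply, h1]
    by_cases hyx : y = x
    · subst hyx; rw [diagonal_apply_eq, diagonal_apply_eq]
    · rw [diagonal_apply_ne _ hyx, diagonal_apply_ne _ fun h2 => hyx (e.injective h2)]

lemma Uni.reindex {L : Type*} [Fintype L] [DecidableEq L] (hU : Uni ω lam M U) (e : L ≃ J) :
    Uni (fun l => ω (e l)) (fun l => lam (e l)) (M.submatrix e e) (U.submatrix e e) where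
  high := by
    intro y x hne
    apply hU.high (e y) (e x)
    have h1 : (1 : Matrix L L K) y x = (1 : Matrix J J K) (e y) (e x) := by
      by_cases hyx : y = x
      · subst hyx; rw [one_apply_eq, one_apply_eq]
      · rw [one_apply_ne hyx, one_apply_ne fun h2 => hyx (e.injective h2)]
    rwa [Matrix.sub_apply, Matrix.sub_apply, submatrix_apply, submatrix_apply,
      h1, ← Matrix.sub_apply, ← Matrix.sub_apply] at hne

/-! ### Powers -/

variable {I : Type*} [Fintype I] [DecidableEq I] {w : I → ℤ} {lab : I → A} {N g V : Matrix I I K}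

/-- the Kronecker power -/
def powMat (V : Matrix I I K) (n : ℕ) : Matrix (Fin n → I) (Fin n → I) K :=
  fun x y => ∏ j, V (x j) (y j)

/-- splitting off the last coordinate -/
def sn (I : Type*) (n : ℕ) : (Fin (n + 1) → I) ≃ (Fin n → I) × I where
  toFun x := (Fin.init x, x (Fin.last n))
  invFun p := Fin.snoc p.1 p.2
  left_inv x := Fin.snoc_init_self x
  right_inv p := by simp

lemma powMat_succ (V : Matrix I I K) (n : ℕ) :
    powMat V (n + 1) = (powMat V n ⊗ₖ V).submatrix (sn I n) (sn I n) := by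
  ext x y
  rw [submatrix_apply, kroneckerMap_apply, powMat, Fin.prod_univ_castSucc]
  rfl

lemma wt_sn {n : ℕ} (x : Fin (n + 1) → I) :
    wt w x = wt w (sn I n x).1 + w (sn I n x).2 := by
  unfold wt
  rw [Fin.sum_univ_castSucc]
  rfl

lemma lb_sn {n : ℕ} (x : Fin (n + 1) → I) :
    lb lab x = lb lab (sn I n x).1 * lab (sn I n x).2 := by
  unfold lb
  rw [Fin.prod_univ_castSucc]
  rfl

/-- **The Kronecker powers.** -/
theorem exists_pow (h : MTrip w lab N g) (hV : Uni w lab N V) (n : ℕ) :
    ∃ M f : Matrix (Fin n → I) (Fin n → I) K, MTrip (wt w) (lb lab) M f ∧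
      Uni (wt w) (lb lab) M (powMat V n) := by
  induction n with
  | zero =>
    refine ⟨0, 0, ⟨fun y x h => absurd rfl h, fun y x h => absurd rfl h, ?_⟩, ⟨?_⟩⟩
    · rw [mul_zero, sub_zero]
      symm
      rw [diagonal_eq_zero]
      funext x
      simp [wt]
    · intro y x hne
      exfalso
      apply hne
      have h1 : powMat V 0 = 1 := by
        ext y x
        rw [powMat, Subsingleton.elim x y, one_apply_eq]
        simp
      rw [h1, sub_self, zero_sub, neg_zero]
      rfl
  | succ n ih =>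
    obtain ⟨M, f, h1, h2⟩ := ih
    have e1 : wt w = fun x : Fin (n + 1) → I =>
        (fun p : (Fin n → I) × I => wt w p.1 + w p.2) (sn I n x) := funext fun x => wt_sn x
    have e2 : lb lab = fun x : Fin (n + 1) → I =>
        (fun p : (Fin n → I) × I => lb lab p.1 * lab p.2) (sn I n x) := funext fun x => lb_sn x
    refine ⟨_, _, by rw [e1, e2]; exact (h1.kron h).reindex (sn I n), ?_⟩
    rw [e1, e2, powMat_succ]
    exact (h2.kron h1 hV h).reindex (sn I n)

/-- the number of the tuples -/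
lemma num_eq_cnt (n : ℕ) (v : ℤ) :
    num (wt w : (Fin n → I) → ℤ) (lb lab) 1 v = cnt w lab n v := by
  classical
  unfold num nS cnt OK
  rw [filter_filter]
  congr 1
  ext x
  simp only [mem_filter, mem_univ, true_and]
  exact and_comm

/-- **The dimension of the space of the fixed vectors with label `1` and the number of the tuples
with label `1`.** -/
theorem fix_law (b : ℕ) : ∃ C : ℝ, 0 < C ∧ ∀ {K : Type v} [Field K] [CharZero K] {I A : Type v}
    [Fintype I] [DecidableEq I] [CommGroup A] {w : I → ℤ} {lab : I → A} {N g V : Matrix I I K}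
    {σ τ : I → I}, Fintype.card I = b → (∀ i, σ (σ i) = i) → (∀ i, lab (σ i) = lab i) →
    (∀ i, w (σ i) = - w i) → (∀ i, |w i| ≤ b) → Function.Injective τ →
    (∀ i, lab (τ i) = (lab i)⁻¹) → (∃ i, lab i = 1) → (∃ i, w i ≠ 0) → MTrip w lab N g →
    Uni w lab N V → ∀ n : ℕ, 1 ≤ n →
    (#(OK lab n) : ℝ) ≤ C * Real.sqrt n * Module.finrank K (fixU (powMat V n) (lb lab) 1) ∧
    (Module.finrank K (fixU (powMat V n) (lb lab) 1) : ℝ) * Real.sqrt n ≤ C * #(OK lab n) := by
  obtain ⟨C, hC0, hC⟩ := upper b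
  refine ⟨max (2 * C) (6 * b + 2), by positivity, ?_⟩
  intro K _ _ I A _ _ _ w lab N g V σ τ hI hσ hl hw hb hτ hτl h1 hne h hV n hn
  obtain ⟨M, f, hM, hU⟩ := exists_pow h hV n
  have h2 := hU.finrank_fix hM 1
  rw [num_eq_cnt, num_eq_cnt] at h2
  rw [h2]
  constructor
  · have h3 := lower hσ hl hw hb hn fun v => by
      have := hM.num_le 1 v
      rwa [num_eq_cnt, num_eq_cnt, num_eq_cnt] at this
    refine h3.trans ?_
    gcongr
    exact le_max_right _ _
  · have h3 := hC hI hσ hl hw hτ hτl h1 hne n 0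
    have h4 := hC hI hσ hl hw hτ hτl h1 hne n 1
    push_cast
    calc _ = (cnt w lab n 0 : ℝ) * Real.sqrt n + cnt w lab n 1 * Real.sqrt n := by ring
      _ ≤ (2 * C) * #(OK lab n) := by linarith
      _ ≤ _ := by
        gcongr
        exact le_max_left _ _

end

end Pool.Agent.K1H13.G
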