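import Pool.Agent.K1H13.G.Law3

/-!
# The number of the trivial constituents: the lower bound
-/

set_option autoImplicit false
set_option linter.unusedSectionVars false

open Finset

universe v

namespace Pool.Agent.K1H13.G

section One

lemma SU.sgn {f : ℤ → ℝ} (h : SU f) (u : ℤ) : 0 ≤ ((u : ℝ) + 1) * (f u - f (u + 2)) := by
  rcases lt_or_ge u (-1) with h1 | h1
  · have h3 := h.mono (-u - 2) (by omega)
    have h4 : f (-u - 2 + 2) = f u := by rw [sub_add_cancel, h.symm]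
    have h5 : f (-u - 2) = f (u + 2) := by rw [← h.symm (u + 2)]; congr 1; ring
    rw [h4, h5] at h3
    have h6 : (u : ℝ) + 1 ≤ 0 := by
      have : u + 1 ≤ 0 := by omega
      exact_mod_cast this
    exact mul_nonneg_of_nonpos_of_nonpos h6 (by linarith)
  · have h3 := h.mono u h1
    have h6 : (0 : ℝ) ≤ (u : ℝ) + 1 := by
      have : 0 ≤ u + 1 := by omega
      exact_mod_cast this
    exact mul_nonneg h6 (by linarith)

/-- **The key inequality.** -/
theorem key {f : ℤ → ℝ} (h : SU f) (hf0 : ∀ u, 0 ≤ f u) {V : ℝ}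
    (hV : ∑' u : ℤ, (u : ℝ) ^ 2 * f u ≤ V * ∑' u, f u) {S : ℕ} (hS : 6 * V + 2 ≤ (S : ℝ) ^ 2) :
    (∑' u, f u) ^ 2 ≤ 3 * (S : ℝ) ^ 3 * ∑' u, (f u - f (u + 2)) ^ 2 := by
  set G : ℝ := ∑' u, f u with hG
  set d : ℤ → ℝ := fun u => f u - f (u + 2) with hd
  set Q : ℝ := ∑' u, d u ^ 2 with hQ
  have hG0 : 0 ≤ G := tsum_nonneg hf0
  have hQ0 : 0 ≤ Q := tsum_nonneg fun u => sq_nonneg _
  rcases hG0.eq_or_lt with h0 | hGpos
  · rw [← h0, zero_pow two_ne_zero]; positivity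
  have hdf : d.support.Finite := fs_sub h.fin (fs_shift h.fin 2)
  have hd2 : (fun u => d u ^ 2).support.Finite := by
    refine hdf.subset fun u hu => ?_
    rw [Function.mem_support] at hu ⊢
    exact fun h0 => hu (by simp only [h0]; norm_num)
  have hV0 : 0 ≤ V := by
    have h1 : 0 ≤ ∑' u : ℤ, (u : ℝ) ^ 2 * f u :=
      tsum_nonneg fun u => mul_nonneg (sq_nonneg _) (hf0 u)
    by_contra hneg
    have := mul_neg_of_neg_of_pos (not_le.1 hneg) hGpos
    linarith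
  have hS1 : 1 ≤ S := by
    by_contra hc
    have : S = 0 := by omega
    rw [this] at hS
    norm_num at hS
    linarith
  have hSR : (1 : ℝ) ≤ S := by exact_mod_cast hS1
  have hS2 : (0 : ℝ) < (S : ℝ) ^ 2 := by positivity
  -- the first moment
  have e1 : ∑' u : ℤ, ((u : ℝ) + 1) * d u = 2 * G := by
    rw [abel (fun u : ℤ => (u : ℝ) + 1) h.fin, ← tsum_mul_left]
    refine tsum_congr fun u => ?_
    push_cast
    ring
  -- the third moment
  have e3 : ∑' u : ℤ, ((u : ℝ) + 1) ^ 3 * d u ≤ (S : ℝ) ^ 2 * G := by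
    rw [abel (fun u : ℤ => ((u : ℝ) + 1) ^ 3) h.fin]
    have h1 : ∑' u : ℤ, (((u : ℝ) + 1) ^ 3 - (((u - 2 : ℤ) : ℝ) + 1) ^ 3) * f u =
        6 * ∑' u : ℤ, (u : ℝ) ^ 2 * f u + 2 * G := by
      rw [← tsum_mul_left, hG, ← tsum_mul_left, ← (sm (fs_mul (fs_mul h.fin
        fun u : ℤ => (u : ℝ) ^ 2) fun _ => 6)).tsum_add (sm (fs_mul h.fin fun _ => 2))]
      refine tsum_congr fun u => ?_
      push_cast
      ring
    rw [h1]
    nlinarith
  set l : ℝ := 3 * (S : ℝ) ^ 3 / G with hl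
  have hl0 : 0 < l := by positivity
  set ρ : ℤ → ℝ := fun u => if u ∈ Icc (-(S : ℤ) - 1) (S - 1) then ((u : ℝ) + 1) ^ 2 / (2 * l)
    else 0 with hρ
  have hρs : ρ.support.Finite := by
    refine (Icc (-(S : ℤ) - 1) (S - 1)).finite_toSet.subset fun u hu => ?_
    rw [Function.mem_support] at hu
    by_contra hc
    apply hu
    rw [hρ]
    exact if_neg hc
  have hρsum : ∑' u, ρ u ≤ 3 * (S : ℝ) ^ 3 / (2 * l) := by
    rw [tsum_eq_sum (s := Icc (-(S : ℤ) - 1) (S - 1)) fun u hu => if_neg hu]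
    have h1 : ∀ u ∈ Icc (-(S : ℤ) - 1) (S - 1), ρ u ≤ (S : ℝ) ^ 2 / (2 * l) := by
      intro u hu
      simp only [hρ]
      rw [if_pos hu]
      rw [mem_Icc] at hu
      have h2 : ((u : ℝ) + 1) ^ 2 ≤ (S : ℝ) ^ 2 := by
        have h3 : (u + 1) ^ 2 ≤ (S : ℤ) ^ 2 := by
          apply sq_le_sq' <;> omega
        exact_mod_cast h3
      gcongr
    refine (sum_le_sum h1).trans ?_
    rw [sum_const, Int.card_Icc, nsmul_eq_mul]
    have h2 : (((S : ℤ) - 1 + 1 - (-(S : ℤ) - 1)).toNat : ℝ) = 2 * S + 1 := by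
      have : ((S : ℤ) - 1 + 1 - (-(S : ℤ) - 1)).toNat = 2 * S + 1 := by omega
      rw [this]; push_cast; ring
    rw [h2, ← mul_div_assoc]
    apply div_le_div_of_nonneg_right _ (by positivity)
    nlinarith
  have hpt : ∀ u : ℤ, ((u : ℝ) + 1) * d u ≤
      (((u : ℝ) + 1) ^ 3 * d u) / (S : ℝ) ^ 2 + (ρ u + l / 2 * d u ^ 2) := by
    intro u
    have hs := h.sgn u
    have hs3 : 0 ≤ ((u : ℝ) + 1) ^ 3 * d u := by
      have : ((u : ℝ) + 1) ^ 3 * d u = ((u : ℝ) + 1) ^ 2 * (((u : ℝ) + 1) * d u) := by ring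
      rw [this]
      exact mul_nonneg (sq_nonneg _) hs
    by_cases hu : u ∈ Icc (-(S : ℤ) - 1) (S - 1)
    · have h1 : ρ u = ((u : ℝ) + 1) ^ 2 / (2 * l) := if_pos hu
      have h2 : ((u : ℝ) + 1) * d u ≤ ((u : ℝ) + 1) ^ 2 / (2 * l) + l / 2 * d u ^ 2 := by
        have h3 : ((u : ℝ) + 1) ^ 2 / (2 * l) + l / 2 * d u ^ 2 - ((u : ℝ) + 1) * d u =
            (((u : ℝ) + 1) - l * d u) ^ 2 / (2 * l) := by
          field_simp
          ring
        have h4 : 0 ≤ (((u : ℝ) + 1) - l * d u) ^ 2 / (2 * l) := by positivity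
        linarith
      have h5 : 0 ≤ ((u : ℝ) + 1) ^ 3 * d u / (S : ℝ) ^ 2 := by positivity
      rw [h1]
      linarith
    · have h1 : ρ u = 0 := if_neg hu
      have h2 : (S : ℝ) ^ 2 ≤ ((u : ℝ) + 1) ^ 2 := by
        rw [mem_Icc, not_and_or] at hu
        have h3 : (S : ℤ) ^ 2 ≤ (u + 1) ^ 2 := by
          rcases hu with hu | hu
          · nlinarith
          · nlinarith
        exact_mod_cast h3
      have h3 : ((u : ℝ) + 1) * d u ≤ ((u : ℝ) + 1) ^ 3 * d u / (S : ℝ) ^ 2 := by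
        rw [le_div_iff₀ hS2]
        have : ((u : ℝ) + 1) ^ 3 * d u = (((u : ℝ) + 1) * d u) * ((u : ℝ) + 1) ^ 2 := by ring
        rw [this]
        exact mul_le_mul_of_nonneg_left h2 hs
      have h4 : 0 ≤ l / 2 * d u ^ 2 := by positivity
      rw [h1]
      linarith
  have hf1 : (fun u : ℤ => ((u : ℝ) + 1) * d u).support.Finite := fs_mul hdf _
  have hf3 : (fun u : ℤ => ((u : ℝ) + 1) ^ 3 * d u / (S : ℝ) ^ 2).support.Finite := by
    refine (fs_mul hdf (fun u : ℤ => ((u : ℝ) + 1) ^ 3)).subset fun u hu => ?_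
    rw [Function.mem_support] at hu ⊢
    intro h0
    apply hu
    rw [h0, zero_div]
  have hsum := (sm hf1).tsum_le_tsum hpt ((sm hf3).add ((sm hρs).add (sm (fs_mul hd2
    fun _ => l / 2))))
  rw [(sm hf3).tsum_add ((sm hρs).add (sm (fs_mul hd2 fun _ => l / 2))),
    (sm hρs).tsum_add (sm (fs_mul hd2 fun _ => l / 2)), tsum_mul_left, tsum_div_const, e1] at hsum
  have h5 : (∑' u : ℤ, ((u : ℝ) + 1) ^ 3 * d u) / (S : ℝ) ^ 2 ≤ G := by
    rw [div_le_iff₀ hS2]
    linarith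
  have h6 : G ≤ 3 * (S : ℝ) ^ 3 / (2 * l) + l / 2 * Q := by linarith
  have h7 : 3 * (S : ℝ) ^ 3 / (2 * l) = G / 2 := by
    rw [hl]
    field_simp
  have h8 : l / 2 * Q = 3 * (S : ℝ) ^ 3 * Q / (2 * G) := by
    rw [hl]
    field_simp
  rw [h7, h8] at h6
  have h9 : G / 2 ≤ 3 * (S : ℝ) ^ 3 * Q / (2 * G) := by linarith
  rw [le_div_iff₀ (by positivity)] at h9
  nlinarith

end One

open scoped Classical in
section

variable {B A : Type v} [DecidableEq B] {s : B → ℕ} [Fintype (Σ j : B, Fin (s j))] [CommGroup A]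
  {ev : B → A} {τ : (Σ j : B, Fin (s j)) → (Σ j : B, Fin (s j))}

/-- the number of the tuples with given label and weight -/
noncomputable def cl (ev : B → A) (s : B → ℕ) [Fintype (Σ j : B, Fin (s j))] (m : ℕ) (a : A)
    (v : ℤ) : ℝ :=
  (#{x : Fin m → Σ j : B, Fin (s j) | lb (fun i : Σ j : B, Fin (s j) => ev i.1) x = a ∧
    wt (jw s) x = v} : ℕ)

/-- the number of the tuples with given label -/
noncomputable def gl (ev : B → A) (s : B → ℕ) [Fintype (Σ j : B, Fin (s j))] (m : ℕ) (a : A) : ℝ :=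
  (#{x : Fin m → Σ j : B, Fin (s j) | lb (fun i : Σ j : B, Fin (s j) => ev i.1) x = a} : ℕ)

lemma cl_nonneg (m : ℕ) (a : A) (v : ℤ) : 0 ≤ cl ev s m a v := Nat.cast_nonneg _

lemma gl_nonneg (m : ℕ) (a : A) : 0 ≤ gl ev s m a := Nat.cast_nonneg _

lemma sum_fib' {X : Type*} (T : Finset X) (φ : X → ℤ) (g : ℤ → ℝ) :
    ∑ x ∈ T, g (φ x) = ∑' u, ((#{x ∈ T | φ x = u} : ℕ) : ℝ) * g u := by
  rw [tsum_eq_sum (s := T.image φ), Finset.sum_comp g φ]
  · exact sum_congr rfl fun u _ => by rw [nsmul_eq_mul]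
  · intro u hu
    have : #{x ∈ T | φ x = u} = 0 := by
      rw [card_eq_zero, filter_eq_empty_iff]
      intro x hx h
      exact hu (mem_image.2 ⟨x, hx, h⟩)
    rw [this, Nat.cast_zero, zero_mul]

lemma cl_eq (m : ℕ) (a : A) (v : ℤ) : cl ev s m a v =
    (#{x ∈ ({x : Fin m → Σ j : B, Fin (s j) | lb (fun i : Σ j : B, Fin (s j) => ev i.1) x = a} :
      Finset _) | wt (jw s) x = v} : ℕ) := by
  unfold cl
  rw [filter_filter]

lemma cnt_eq_cl (m : ℕ) (v : ℤ) :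
    (cnt (jw s) (fun i : Σ j : B, Fin (s j) => ev i.1) m v : ℝ) = cl ev s m 1 v := by
  rw [cl_eq]
  rfl

lemma sum_cl (m : ℕ) (a : A) (g : ℤ → ℝ) :
    ∑ x : Fin m → Σ j : B, Fin (s j) with lb (fun i : Σ j : B, Fin (s j) => ev i.1) x = a,
      g (wt (jw s) x) = ∑' u, cl ev s m a u * g u := by
  rw [sum_fib']
  exact tsum_congr fun u => by rw [cl_eq]

lemma tsum_cl (m : ℕ) (a : A) : ∑' u, cl ev s m a u = gl ev s m a := by
  have := sum_cl (ev := ev) (s := s) m a fun _ => 1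
  simp only [mul_one, sum_const, nsmul_eq_mul] at this
  rw [← this]
  rfl

lemma cl_fin (m : ℕ) (a : A) : (cl ev s m a).support.Finite := by
  refine (Set.finite_range (wt (jw s) (n := m))).subset fun v hv => ?_
  rw [Function.mem_support] at hv
  by_contra hc
  apply hv
  unfold cl
  rw [Nat.cast_eq_zero, card_eq_zero, filter_eq_empty_iff]
  intro x _ h
  exact hc ⟨x, h.2⟩

lemma cl_su (m : ℕ) (a : A) : SU (cl ev s m a) := by
  refine ⟨cl_fin m a, fun v => ?_, fun v hv => ?_⟩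
  · unfold cl
    congr 1
    have h : ∀ x : Fin m → Σ j : B, Fin (s j), wt (jw s) (fun k => jrev s (x k)) = - wt (jw s) x := by
      intro x
      unfold wt
      rw [← sum_neg_distrib]
      exact sum_congr rfl fun k _ => jw_jrev s _
    have h' : ∀ x : Fin m → Σ j : B, Fin (s j),
        lb (fun i : Σ j : B, Fin (s j) => ev i.1) (fun k => jrev s (x k)) =
          lb (fun i : Σ j : B, Fin (s j) => ev i.1) x := fun x => rfl
    refine card_bij' (fun x _ k => jrev s (x k)) (fun x _ k => jrev s (x k)) ?_ ?_ ?_ ?_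
    · intro x hx
      rw [mem_filter] at hx ⊢
      exact ⟨mem_univ _, by rw [h']; exact hx.2.1, by rw [h, hx.2.2, neg_neg]⟩
    · intro x hx
      rw [mem_filter] at hx ⊢
      exact ⟨mem_univ _, by rw [h']; exact hx.2.1, by rw [h, hx.2.2]⟩
    · intro x _; funext k; exact jrev_jrev s _
    · intro x _; funext k; exact jrev_jrev s _
  · obtain ⟨M, f, hM, -⟩ := exists_pow (jtrip (K := ℚ) s ev) (juni (K := ℚ) s ev) m
    have h1 := hM.num_le_down hv a
    have h2 : ∀ u, cl ev s m a u = (num (wt (jw s) : (Fin m → Σ j : B, Fin (s j)) → ℤ)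
        (lb fun i : Σ j : B, Fin (s j) => ev i.1) a u : ℕ) := by
      intro u
      unfold cl num nS
      congr 2
      ext x
      simp only [mem_filter, mem_univ, true_and]
      exact and_comm
    rw [h2, h2]
    exact_mod_cast h1

lemma lb_τ (hτe : ∀ i, ev (τ i).1 = (ev i.1)⁻¹) {m : ℕ} (x : Fin m → Σ j : B, Fin (s j)) :
    lb (fun i : Σ j : B, Fin (s j) => ev i.1) (fun k => τ (x k)) =
      (lb (fun i : Σ j : B, Fin (s j) => ev i.1) x)⁻¹ := by
  unfold lb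
  rw [← prod_inv_distrib]
  exact prod_congr rfl fun k _ => hτe _

lemma cl_inv (hτ : Function.Injective τ) (hτe : ∀ i, ev (τ i).1 = (ev i.1)⁻¹)
    (hτw : ∀ i, jw s (τ i) = jw s i) (m : ℕ) (a : A) (v : ℤ) :
    cl ev s m a⁻¹ v = cl ev s m a v := by
  have h : ∀ a : A, cl ev s m a v ≤ cl ev s m a⁻¹ v := by
    intro a
    unfold cl
    rw [Nat.cast_le]
    refine card_le_card_of_injOn (fun x k => τ (x k)) ?_ ?_
    · intro x hx
      rw [mem_coe, mem_filter] at hx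
      rw [mem_coe, mem_filter]
      refine ⟨mem_univ _, by rw [lb_τ hτe, hx.2.1], ?_⟩
      rw [← hx.2.2]
      exact sum_congr rfl fun k _ => hτw _
    · intro x _ y _ hxy
      funext k
      exact hτ (congrFun hxy k)
  refine le_antisymm ?_ (h a)
  have := h a⁻¹
  rwa [inv_inv] at this

lemma gl_inv (hτ : Function.Injective τ) (hτe : ∀ i, ev (τ i).1 = (ev i.1)⁻¹)
    (hτw : ∀ i, jw s (τ i) = jw s i) (m : ℕ) (a : A) : gl ev s m a⁻¹ = gl ev s m a := by
  rw [← tsum_cl, ← tsum_cl]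
  exact tsum_congr fun u => cl_inv hτ hτe hτw m a u

/-- the second moment -/
lemma second (m : ℕ) (a : A) {b : ℕ} (hb : ∀ i, |jw s i| ≤ b) :
    ∑' u : ℤ, (u : ℝ) ^ 2 * cl ev s m a u ≤ (m * b ^ 2 : ℝ) * ∑' u, cl ev s m a u := by
  set T : Finset (Fin m → Σ j : B, Fin (s j)) :=
    {x | lb (fun i : Σ j : B, Fin (s j) => ev i.1) x = a} with hT
  have h1 : ∑' u : ℤ, (u : ℝ) ^ 2 * cl ev s m a u = ∑ x ∈ T, ((wt (jw s) x : ℤ) : ℝ) ^ 2 := by
    have := sum_cl (ev := ev) (s := s) m a fun u => ((u : ℤ) : ℝ) ^ 2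
    rw [this]
    exact tsum_congr fun u => mul_comm _ _
  rw [h1, tsum_cl]
  have h2 : ∀ x : Fin m → (Σ j : B, Fin (s j)), (wt (jw s) x) ^ 2 =
      ∑ j, ∑ k, jw s (x j) * jw s (x k) := fun x => by
    rw [wt, sq, sum_mul_sum]
  have h3 : ∑ x ∈ T, (wt (jw s) x) ^ 2 = ∑ x ∈ T, ∑ j, jw s (x j) ^ 2 := by
    simp only [h2]
    rw [sum_comm]
    have h4 : ∑ x ∈ T, ∑ j, jw s (x j) ^ 2 = ∑ j, ∑ x ∈ T, jw s (x j) ^ 2 := sum_comm
    rw [h4]
    refine sum_congr rfl fun j _ => ?_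
    rw [sum_comm, ← add_sum_erase _ _ (mem_univ j)]
    have h5 : ∑ k ∈ univ.erase j, ∑ x ∈ T, jw s (x j) * jw s (x k) = 0 := by
      refine sum_eq_zero fun k hk => ?_
      have hkj : k ≠ j := ne_of_mem_erase hk
      have h6 : ∑ x ∈ T, jw s (x j) * jw s (x k) = ∑ x ∈ T, -(jw s (x j) * jw s (x k)) := by
        have hfl : ∀ x ∈ T, flip (jrev s) {j} x ∈ T := by
          intro x hx
          rw [hT, mem_filter] at hx ⊢
          exact ⟨mem_univ _, by rw [lb_flip (σ := jrev s) fun i => rfl]; exact hx.2⟩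
        refine sum_bij' (fun x _ => flip (jrev s) {j} x) (fun x _ => flip (jrev s) {j} x) hfl hfl
          ?_ ?_ ?_
        · intro x _; exact flip_flip (jrev_jrev s) _ x
        · intro x _; exact flip_flip (jrev_jrev s) _ x
        · intro x _
          simp [flip, hkj, jw_jrev]
      rw [sum_neg_distrib] at h6
      omega
    rw [h5, add_zero]
    refine sum_congr rfl fun x _ => ?_
    ring
  have h4 : ∑ x ∈ T, (wt (jw s) x) ^ 2 ≤ (#T : ℤ) * (m * b ^ 2) := by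
    rw [h3]
    have h5 : ∀ x ∈ T, ∑ j, jw s (x j) ^ 2 ≤ (m * b ^ 2 : ℤ) := by
      intro x _
      have h6 : ∀ j ∈ (univ : Finset (Fin m)), jw s (x j) ^ 2 ≤ (b : ℤ) ^ 2 := fun j _ =>
        sq_le_sq' (by have := (abs_le.1 (hb (x j))).1; omega) (abs_le.1 (hb (x j))).2
      refine (sum_le_sum h6).trans ?_
      rw [sum_const, card_univ, Fintype.card_fin, nsmul_eq_mul]
    refine (sum_le_sum h5).trans ?_
    rw [sum_const, nsmul_eq_mul]
  have h5 : (∑ x ∈ T, ((wt (jw s) x : ℤ) : ℝ) ^ 2) ≤ (#T : ℝ) * (m * b ^ 2) := by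
    exact_mod_cast h4
  refine h5.trans (le_of_eq ?_)
  rw [mul_comm]
  rfl

end

end Pool.Agent.K1H13.G
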