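import Pool.Agent.K1H13.G.Low3

/-!
# The number of the trivial constituents: the lower bound, conclusion
-/

set_option autoImplicit false
set_option linter.unusedSectionVars false

open Finset

universe v

namespace Pool.Agent.K1H13.G

open scoped Classical in
section

variable {B A : Type v} [DecidableEq B] {s : B → ℕ} [Fintype (Σ j : B, Fin (s j))] [CommGroup A]
  {ev : B → A} {τ : (Σ j : B, Fin (s j)) → (Σ j : B, Fin (s j))}

/-- the halves of a tuple -/
def halves (I : Type*) (m : ℕ) : (Fin (m + m) → I) ≃ (Fin m → I) × (Fin m → I) where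
  toFun z := (fun k => z (Fin.castAdd m k), fun k => z (Fin.natAdd m k))
  invFun p := Fin.append p.1 p.2
  left_inv z := by
    funext k
    refine Fin.addCases (fun k => ?_) (fun k => ?_) k
    · exact Fin.append_left _ _ k
    · exact Fin.append_right _ _ k
  right_inv p := by
    refine Prod.ext (funext fun k => ?_) (funext fun k => ?_)
    · exact Fin.append_left _ _ k
    · exact Fin.append_right _ _ k

/-- the tuples of even length -/
lemma cl_double (m : ℕ) (a : A) (v : ℤ) : cl ev s (m + m) a v =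
    ∑ x : Fin m → Σ j : B, Fin (s j),
      cl ev s m (a * (lb (fun i : Σ j : B, Fin (s j) => ev i.1) x)⁻¹) (v - wt (jw s) x) := by
  unfold cl
  rw [← Nat.cast_sum, ← card_sigma]
  congr 1
  refine card_bij' (fun z _ => ⟨(halves _ m z).1, (halves _ m z).2⟩)
    (fun q _ => (halves _ m).symm (q.1, q.2)) ?_ ?_ ?_ ?_
  · intro z hz
    rw [mem_filter] at hz
    simp only [mem_sigma, mem_univ, mem_filter, true_and]
    have h1 : lb (fun i : Σ j : B, Fin (s j) => ev i.1) z =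
        lb (fun i : Σ j : B, Fin (s j) => ev i.1) (halves _ m z).1 *
          lb (fun i : Σ j : B, Fin (s j) => ev i.1) (halves _ m z).2 := Fin.prod_univ_add _
    have h2 : wt (jw s) z = wt (jw s) (halves _ m z).1 + wt (jw s) (halves _ m z).2 :=
      Fin.sum_univ_add _
    rw [← hz.2.1, ← hz.2.2, h1, h2]
    refine ⟨?_, by ring⟩
    rw [mul_comm (lb _ (halves _ m z).1), mul_inv_cancel_right]
  · rintro ⟨x, y⟩ hq
    simp only [mem_sigma, mem_univ, mem_filter, true_and] at hq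
    rw [mem_filter]
    refine ⟨mem_univ _, ?_, ?_⟩
    · have h1 : lb (fun i : Σ j : B, Fin (s j) => ev i.1) ((halves _ m).symm (x, y)) =
          lb (fun i : Σ j : B, Fin (s j) => ev i.1) x *
            lb (fun i : Σ j : B, Fin (s j) => ev i.1) y := by
        refine (Fin.prod_univ_add _).trans ?_
        unfold lb
        congr 1
        · refine prod_congr rfl fun k _ => ?_
          exact congrArg (fun i : Σ j : B, Fin (s j) => ev i.1) (Fin.append_left x y k)
        · refine prod_congr rfl fun k _ => ?_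
          exact congrArg (fun i : Σ j : B, Fin (s j) => ev i.1) (Fin.append_right x y k)
      rw [h1, hq.1]
      simp
    · have h2 : wt (jw s) ((halves _ m).symm (x, y)) = wt (jw s) x + wt (jw s) y := by
        refine (Fin.sum_univ_add _).trans ?_
        unfold wt
        congr 1
        · refine sum_congr rfl fun k _ => ?_
          exact congrArg (jw s) (Fin.append_left x y k)
        · refine sum_congr rfl fun k _ => ?_
          exact congrArg (jw s) (Fin.append_right x y k)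
      rw [h2, hq.2]
      ring
  · intro z _; exact (halves _ m).symm_apply_apply z
  · rintro ⟨x, y⟩ _
    have := (halves (Σ j : B, Fin (s j)) m).apply_symm_apply (x, y)
    simp only [this]

/-- the labels -/
noncomputable def LS (ev : B → A) (s : B → ℕ) [Fintype (Σ j : B, Fin (s j))] (m : ℕ) : Finset A :=
  univ.image (lb (fun i : Σ j : B, Fin (s j) => ev i.1) : (Fin m → Σ j : B, Fin (s j)) → A)

lemma gl_eq_zero {m : ℕ} {a : A} (h : a ∉ LS ev s m) : gl ev s m a = 0 := by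
  unfold gl
  rw [Nat.cast_eq_zero, card_eq_zero, filter_eq_empty_iff]
  intro x _ hx
  exact h (mem_image.2 ⟨x, mem_univ _, hx⟩)

lemma sum_lb (m : ℕ) (φ : A → ℝ) :
    ∑ x : Fin m → Σ j : B, Fin (s j), φ (lb (fun i : Σ j : B, Fin (s j) => ev i.1) x) =
      ∑ a ∈ LS ev s m, gl ev s m a * φ a := by
  rw [LS, Finset.sum_comp φ (lb (fun i : Σ j : B, Fin (s j) => ev i.1))]
  exact sum_congr rfl fun a _ => nsmul_eq_mul _ _

lemma gl_double (m : ℕ) (a : A) : gl ev s (m + m) a =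
    ∑ c ∈ LS ev s m, gl ev s m c * gl ev s m (a * c⁻¹) := by
  rw [← sum_lb m fun c => gl ev s m (a * c⁻¹), ← tsum_cl]
  have h1 : ∀ v, cl ev s (m + m) a v = ∑ x : Fin m → Σ j : B, Fin (s j),
      cl ev s m (a * (lb (fun i : Σ j : B, Fin (s j) => ev i.1) x)⁻¹) (v - wt (jw s) x) :=
    fun v => cl_double m a v
  rw [tsum_congr h1, Summable.tsum_finsetSum]
  · refine sum_congr rfl fun x _ => ?_
    rw [← tsum_cl]
    have := tsum_shift (fun v => cl ev s m
      (a * (lb (fun i : Σ j : B, Fin (s j) => ev i.1) x)⁻¹) v) (-(wt (jw s) x))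
    rw [← this]
    exact tsum_congr fun v => by rw [sub_eq_add_neg]
  · intro x _
    exact sm (fs_shift (cl_fin m _) (-(wt (jw s) x)))

/-- the tuples of even length with weight `v` -/
lemma cl_double_one (hτ : Function.Injective τ) (hτe : ∀ i, ev (τ i).1 = (ev i.1)⁻¹)
    (hτw : ∀ i, jw s (τ i) = jw s i) (m : ℕ) (v : ℤ) : cl ev s (m + m) 1 v =
    ∑ a ∈ LS ev s m, cv (cl ev s m a) (cl ev s m a) v := by
  rw [cl_double]
  have h1 : ∀ x ∈ (univ : Finset (Fin m → Σ j : B, Fin (s j))),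
      cl ev s m (1 * (lb (fun i : Σ j : B, Fin (s j) => ev i.1) x)⁻¹) (v - wt (jw s) x) =
        cl ev s m (lb (fun i : Σ j : B, Fin (s j) => ev i.1) x) (v - wt (jw s) x) := by
    intro x _
    rw [one_mul, cl_inv hτ hτe hτw]
  rw [sum_congr rfl h1, ← sum_fiberwise_of_maps_to (t := LS ev s m)
    (g := lb (fun i : Σ j : B, Fin (s j) => ev i.1)) fun x _ => mem_image_of_mem _ (mem_univ x)]
  refine sum_congr rfl fun a _ => ?_
  have h2 := sum_cl (ev := ev) (s := s) m a fun u => cl ev s m a (v - u)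
  unfold cv
  rw [← h2]
  refine sum_congr rfl fun x hx => ?_
  rw [(mem_filter.1 hx).2]

/-- **The lower bound in the even case.** -/
lemma even_case (hτ : Function.Injective τ) (hτe : ∀ i, ev (τ i).1 = (ev i.1)⁻¹)
    (hτw : ∀ i, jw s (τ i) = jw s i) {b : ℕ} (hb : ∀ i, |jw s i| ≤ b) (m : ℕ) {S : ℕ}
    (hS : 6 * (m * b ^ 2 : ℝ) + 2 ≤ (S : ℝ) ^ 2) :
    gl ev s (m + m) 1 ≤ 6 * (S : ℝ) ^ 3 * (cl ev s (m + m) 1 0 - cl ev s (m + m) 1 2) := by
  have h1 : gl ev s (m + m) 1 = ∑ a ∈ LS ev s m, gl ev s m a ^ 2 := by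
    rw [gl_double]
    refine sum_congr rfl fun a _ => ?_
    rw [one_mul, gl_inv hτ hτe hτw, sq]
  rw [h1, cl_double_one hτ hτe hτw, cl_double_one hτ hτe hτw, ← sum_sub_distrib, mul_sum]
  refine sum_le_sum fun a _ => ?_
  have hsu := cl_su (ev := ev) (s := s) m a
  rw [cv_diff hsu.fin hsu.fin hsu.symm hsu.symm]
  have h2 := key hsu (cl_nonneg m a) (second m a hb) hS
  rw [tsum_cl] at h2
  refine h2.trans (le_of_eq ?_)
  have h3 : ∑' u, (cl ev s m a u - cl ev s m a (u + 2)) ^ 2 =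
      ∑' u, (cl ev s m a u - cl ev s m a (u + 2)) * (cl ev s m a u - cl ev s m a (u + 2)) :=
    tsum_congr fun u => sq _
  rw [h3]
  ring

/-- the label `1` is the most frequent one -/
lemma gl_le (hτ : Function.Injective τ) (hτe : ∀ i, ev (τ i).1 = (ev i.1)⁻¹)
    (hτw : ∀ i, jw s (τ i) = jw s i) (m : ℕ) (a : A) :
    gl ev s (m + m) a ≤ gl ev s (m + m) 1 := by
  have h1 : gl ev s (m + m) 1 = ∑ a ∈ LS ev s m, gl ev s m a ^ 2 := by
    rw [gl_double]
    refine sum_congr rfl fun a _ => ?_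
    rw [one_mul, gl_inv hτ hτe hτw, sq]
  have h2 : ∑ c ∈ LS ev s m, gl ev s m (a * c⁻¹) ^ 2 ≤ ∑ c ∈ LS ev s m, gl ev s m c ^ 2 := by
    have hinj : Function.Injective fun c : A => a * c⁻¹ := fun c d h => by
      have : c⁻¹ = d⁻¹ := mul_left_cancel h
      exact inv_injective this
    rw [← sum_image (f := fun c => gl ev s m c ^ 2) (s := LS ev s m) (g := fun c => a * c⁻¹)
      hinj.injOn]
    have h3 : ∑ c ∈ (LS ev s m).image (fun c => a * c⁻¹), gl ev s m c ^ 2 =
        ∑ c ∈ (LS ev s m).image (fun c => a * c⁻¹) with c ∈ LS ev s m, gl ev s m c ^ 2 := by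
      symm
      refine sum_subset (filter_subset _ _) fun c hc hc' => ?_
      rw [mem_filter, not_and] at hc'
      rw [gl_eq_zero (hc' hc)]
      norm_num
    rw [h3]
    refine sum_le_sum_of_subset_of_nonneg (fun c hc => (mem_filter.1 hc).2)
      fun c _ _ => sq_nonneg _
  rw [gl_double]
  have h3 : ∑ c ∈ LS ev s m, gl ev s m c * gl ev s m (a * c⁻¹) ≤
      ∑ c ∈ LS ev s m, (gl ev s m c ^ 2 / 2 + gl ev s m (a * c⁻¹) ^ 2 / 2) := by
    refine sum_le_sum fun c _ => ?_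
    nlinarith [sq_nonneg (gl ev s m c - gl ev s m (a * c⁻¹))]
  refine h3.trans ?_
  rw [sum_add_distrib, ← sum_div, ← sum_div, h1]
  linarith

/-- adding a coordinate -/
lemma cl_succ (m : ℕ) (a : A) (v : ℤ) : cl ev s (m + 1) a v =
    ∑ i : Σ j : B, Fin (s j), cl ev s m (a * (ev i.1)⁻¹) (v - jw s i) := by
  unfold cl
  rw [← Nat.cast_sum, ← card_sigma]
  congr 1
  refine card_bij' (fun z _ => ⟨(sn _ m z).2, (sn _ m z).1⟩)
    (fun q _ => (sn _ m).symm (q.2, q.1)) ?_ ?_ ?_ ?_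
  · intro z hz
    rw [mem_filter] at hz
    simp only [mem_sigma, mem_univ, mem_filter, true_and]
    have h1 := lb_sn (lab := fun i : Σ j : B, Fin (s j) => ev i.1) z
    have h2 := wt_sn (w := jw s) z
    rw [← hz.2.1, ← hz.2.2, h1, h2]
    refine ⟨?_, by ring⟩
    rw [mul_inv_cancel_right]
  · rintro ⟨i, x⟩ hq
    simp only [mem_sigma, mem_univ, mem_filter, true_and] at hq
    rw [mem_filter]
    have h1 := lb_sn (lab := fun i : Σ j : B, Fin (s j) => ev i.1) ((sn _ m).symm (x, i))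
    have h2 := wt_sn (w := jw s) ((sn _ m).symm (x, i))
    rw [Equiv.apply_symm_apply] at h1 h2
    refine ⟨mem_univ _, ?_, ?_⟩
    · rw [h1, hq.1]
      simp
    · rw [h2, hq.2]
      ring
  · intro z _; exact (sn _ m).symm_apply_apply z
  · rintro ⟨i, x⟩ _
    have := (sn (Σ j : B, Fin (s j)) m).apply_symm_apply (x, i)
    simp only [this]

lemma gl_succ (m : ℕ) (a : A) : gl ev s (m + 1) a =
    ∑ i : Σ j : B, Fin (s j), gl ev s m (a * (ev i.1)⁻¹) := by
  rw [← tsum_cl, tsum_congr fun v => cl_succ m a v, Summable.tsum_finsetSum]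
  · refine sum_congr rfl fun x _ => ?_
    rw [← tsum_cl]
    have := tsum_shift (fun v => cl ev s m (a * (ev x.1)⁻¹) v) (-(jw s x))
    rw [← this]
    exact tsum_congr fun v => by rw [sub_eq_add_neg]
  · intro x _
    exact sm (fs_shift (cl_fin m _) (-(jw s x)))

/-- adding a trivial block -/
lemma cl_diff_succ {j₀ : B} (hs : s j₀ = 1) (he : ev j₀ = 1) (m : ℕ) :
    cl ev s m 1 0 - cl ev s m 1 2 ≤ cl ev s (m + 1) 1 0 - cl ev s (m + 1) 1 2 := by
  rw [cl_succ, cl_succ, ← sum_sub_distrib, ← sum_fiberwise_of_maps_to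
    (t := (univ : Finset (Σ j : B, Fin (s j))).image Sigma.fst) (g := Sigma.fst)
    fun x _ => mem_image_of_mem _ (mem_univ x)]
  have hblock : ∀ j : B, ∑ i : Σ j : B, Fin (s j) with i.1 = j,
      (cl ev s m (1 * (ev i.1)⁻¹) (0 - jw s i) - cl ev s m (1 * (ev i.1)⁻¹) (2 - jw s i)) =
        cl ev s m (ev j)⁻¹ (0 - s j + 1) - cl ev s m (ev j)⁻¹ (0 - s j + 1 + 2 * s j) := by
    intro j
    rw [← tele]
    symm
    refine sum_bij (fun (p : Fin (s j)) _ => (⟨j, p⟩ : Σ j : B, Fin (s j))) ?_ ?_ ?_ ?_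
    · intro p _
      rw [mem_filter]
      exact ⟨mem_univ _, rfl⟩
    · intro p _ q _ h
      simpa using h
    · rintro ⟨j', p⟩ h
      rw [mem_filter] at h
      obtain ⟨-, rfl⟩ := h
      exact ⟨p, mem_univ _, rfl⟩
    · intro p _
      rw [one_mul]
      rfl
  have hnn : ∀ j ∈ (univ : Finset (Σ j : B, Fin (s j))).image Sigma.fst,
      0 ≤ ∑ i : Σ j : B, Fin (s j) with i.1 = j,
      (cl ev s m (1 * (ev i.1)⁻¹) (0 - jw s i) - cl ev s m (1 * (ev i.1)⁻¹) (2 - jw s i)) := by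
    intro j _
    rw [hblock, sub_nonneg]
    exact (cl_su (ev := ev) (s := s) m _).le (s j) _ (by omega)
  have hj : j₀ ∈ (univ : Finset (Σ j : B, Fin (s j))).image Sigma.fst :=
    mem_image.2 ⟨⟨j₀, ⟨0, by omega⟩⟩, mem_univ _, rfl⟩
  refine le_trans (le_of_eq ?_) (single_le_sum hnn hj)
  rw [hblock, he, hs, inv_one]
  norm_num

/-- **The lower bound.** -/
theorem lower3 {b : ℕ} (hI : Fintype.card (Σ j : B, Fin (s j)) = b) (hτ : Function.Injective τ)
    (hτe : ∀ i, ev (τ i).1 = (ev i.1)⁻¹) (hτw : ∀ i, jw s (τ i) = jw s i) {j₀ : B}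
    (hs : s j₀ = 1) (he : ev j₀ = 1) {n : ℕ} (hn : 1 ≤ n) :
    (#(OK (fun i : Σ j : B, Fin (s j) => ev i.1) n) : ℝ) ≤ 384 * b ^ 4 * Real.sqrt n ^ 3 *
      ((cnt (jw s) (fun i : Σ j : B, Fin (s j) => ev i.1) n 0 : ℝ) -
        cnt (jw s) (fun i : Σ j : B, Fin (s j) => ev i.1) n 2) := by
  have hb1 : 1 ≤ b := by
    rw [← hI]
    exact Fintype.card_pos_iff.2 ⟨⟨j₀, ⟨0, by omega⟩⟩⟩
  have hbR : (1 : ℝ) ≤ b := by exact_mod_cast hb1
  have hb : ∀ i, |jw s i| ≤ b := fun i => by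
    rw [← hI]
    exact abs_jw s i
  have hnR : (1 : ℝ) ≤ n := by exact_mod_cast hn
  have hn1 : 1 ≤ Real.sqrt n := by rw [Real.one_le_sqrt]; exact hnR
  have e1 : (#(OK (fun i : Σ j : B, Fin (s j) => ev i.1) n) : ℝ) = gl ev s n 1 := rfl
  rw [e1, cnt_eq_cl, cnt_eq_cl]
  -- the number of steps
  have hmain : ∀ m : ℕ, m ≤ n → gl ev s (m + m) 1 ≤ 384 * b ^ 3 * Real.sqrt n ^ 3 *
      (cl ev s (m + m) 1 0 - cl ev s (m + m) 1 2) := by
    intro m hm
    set S : ℕ := Nat.sqrt (6 * (m * b ^ 2) + 2) + 1 with hS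
    have h1 : 6 * (m * b ^ 2 : ℝ) + 2 ≤ (S : ℝ) ^ 2 := by
      have := (Nat.lt_succ_sqrt' (6 * (m * b ^ 2) + 2)).le
      rw [hS]
      exact_mod_cast this
    have h2 : (S : ℝ) ≤ 4 * b * Real.sqrt n := by
      have h3 : ((Nat.sqrt (6 * (m * b ^ 2) + 2) : ℕ) : ℝ) ^ 2 ≤ 6 * (m * b ^ 2) + 2 := by
        have := Nat.sqrt_le' (6 * (m * b ^ 2) + 2)
        exact_mod_cast this
      have hmR : (m : ℝ) ≤ n := by exact_mod_cast hm
      have hb2 : (1 : ℝ) ≤ (b : ℝ) ^ 2 := one_le_pow₀ hbR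
      have h4 : ((Nat.sqrt (6 * (m * b ^ 2) + 2) : ℕ) : ℝ) ^ 2 ≤ (3 * b * Real.sqrt n) ^ 2 := by
        rw [mul_pow, Real.sq_sqrt (by positivity)]
        have h5 : (m : ℝ) * b ^ 2 ≤ n * b ^ 2 := by gcongr
        have h6 : (1 : ℝ) ≤ n * b ^ 2 := by nlinarith
        nlinarith
      have h5 := (pow_le_pow_iff_left₀ (by positivity) (by positivity) two_ne_zero).1 h4
      have h6 : (1 : ℝ) ≤ b * Real.sqrt n := by nlinarith
      rw [hS]
      push_cast
      linarith
    have h3 := even_case hτ hτe hτw hb m h1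
    have h4 : 0 ≤ cl ev s (m + m) 1 0 - cl ev s (m + m) 1 2 := by
      have := (cl_su (ev := ev) (s := s) (m + m) 1).mono 0 (by norm_num)
      rw [zero_add] at this
      linarith
    refine h3.trans ?_
    apply mul_le_mul_of_nonneg_right _ h4
    calc 6 * (S : ℝ) ^ 3 ≤ 6 * (4 * b * Real.sqrt n) ^ 3 := by gcongr
      _ = 384 * b ^ 3 * Real.sqrt n ^ 3 := by ring
  have hnn : ∀ n, 0 ≤ cl ev s n 1 0 - cl ev s n 1 2 := by
    intro n
    have := (cl_su (ev := ev) (s := s) n 1).mono 0 (by norm_num)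
    rw [zero_add] at this
    linarith
  have hb34 : 384 * (b : ℝ) ^ 3 ≤ 384 * b ^ 4 := by
    have : (b : ℝ) ^ 3 ≤ b ^ 4 := pow_le_pow_right₀ hbR (by norm_num)
    linarith
  rcases Nat.even_or_odd' n with ⟨m, hm | hm⟩
  · have h1 := hmain m (by omega)
    rw [← two_mul, ← hm] at h1
    refine h1.trans ?_
    have := hnn n
    gcongr
  · have h1 := hmain m (by omega)
    have h2 : gl ev s n 1 ≤ b * gl ev s (m + m) 1 := by
      rw [hm, two_mul, gl_succ]
      refine (sum_le_sum fun i _ => gl_le hτ hτe hτw m _).trans ?_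
      rw [sum_const, card_univ, hI, nsmul_eq_mul]
    have h3 := cl_diff_succ (ev := ev) (s := s) hs he (m + m)
    rw [← two_mul, ← hm, two_mul] at h3
    have h4 := hnn (m + m)
    calc gl ev s n 1 ≤ b * gl ev s (m + m) 1 := h2
      _ ≤ b * (384 * b ^ 3 * Real.sqrt n ^ 3 *
          (cl ev s (m + m) 1 0 - cl ev s (m + m) 1 2)) := by gcongr
      _ ≤ b * (384 * b ^ 3 * Real.sqrt n ^ 3 * (cl ev s n 1 0 - cl ev s n 1 2)) := by gcongr
      _ = _ := by ring

end

end Pool.Agent.K1H13.G
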