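import Mathlib

/-!
# Matrices with an `sl₂`-triple: the fixed vectors of a unipotent matrix
-/

set_option autoImplicit false
set_option linter.unusedSectionVars false

open Finset Matrix

namespace Pool.Agent.K1H13.G

section

variable {K : Type*} [Field K] [CharZero K] {J A : Type*} [Fintype J] [DecidableEq J]

/-- An `sl₂`-triple of matrices, with given weights. -/
structure MTrip (ω : J → ℤ) (lam : J → A) (M f : Matrix J J K) : Prop where
  hM : ∀ y x, M y x ≠ 0 → ω y = ω x + 2 ∧ lam y = lam x
  hf : ∀ y x, f y x ≠ 0 → ω y = ω x - 2 ∧ lam y = lam x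
  comm : M * f - f * M = diagonal fun x => (ω x : K)

/-- The vectors supported on the set `p`. -/
def Sup (K : Type*) [Field K] {J : Type*} (p : J → Prop) : Submodule K (J → K) where
  carrier := {x | ∀ j, x j ≠ 0 → p j}
  zero_mem' := fun j h => absurd rfl h
  add_mem' := by
    intro a b ha hb j h
    by_contra hc
    have h1 : a j = 0 := by_contra fun h' => hc (ha j h')
    have h2 : b j = 0 := by_contra fun h' => hc (hb j h')
    exact h (by simp [h1, h2])
  smul_mem' := by
    intro c a ha j h
    apply ha j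
    intro h'
    exact h (by simp [h'])

lemma mem_Sup {p : J → Prop} {x : J → K} : x ∈ Sup K p ↔ ∀ j, x j ≠ 0 → p j := Iff.rfl

lemma Sup_mono {p q : J → Prop} (h : ∀ j, p j → q j) : Sup K p ≤ Sup K q :=
  fun _ hx j hj => h j (hx j hj)

open scoped Classical in
/-- the coordinates -/
noncomputable def supEquiv (p : J → Prop) : Sup K p ≃ₗ[K] ({j // p j} → K) where
  toFun x := fun j => x.1 j.1
  invFun y := ⟨fun j => if h : p j then y ⟨j, h⟩ else 0, fun j hj => by
    by_contra hc
    simp [hc] at hj⟩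
  left_inv := by
    rintro ⟨x, hx⟩
    apply Subtype.ext
    funext j
    by_cases h : p j
    · simp [h]
    · have : x j = 0 := by_contra fun h' => h (hx j h')
      simp [h, this]
  right_inv := by
    intro y
    funext j
    simp [j.2]
  map_add' := fun x y => rfl
  map_smul' := fun c x => rfl

open scoped Classical in
/-- the number of the elements with the property `p` -/
noncomputable def nS (p : J → Prop) : ℕ := #{j | p j}

lemma nS_add {p q r : J → Prop} (h : ∀ j, p j ↔ q j ∨ r j) (hd : ∀ j, q j → ¬ r j) :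
    nS p = nS q + nS r := by
  classical
  unfold nS
  rw [card_filter, card_filter, card_filter, ← sum_add_distrib]
  refine sum_congr rfl fun j _ => ?_
  by_cases hq : q j
  · have h1 := (h j).2 (Or.inl hq)
    simp [hq, h1, hd j hq]
  · by_cases hr : r j
    · have h1 := (h j).2 (Or.inr hr)
      simp [hq, h1, hr]
    · have h1 : ¬ p j := fun h2 => by
        rcases (h j).1 h2 with h3 | h3
        · exact hq h3
        · exact hr h3
      simp [hq, h1, hr]

lemma finrank_Sup (p : J → Prop) : Module.finrank K (Sup K p) = nS p := by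
  classical
  rw [(supEquiv p).finrank_eq, Module.finrank_fintype_fun_eq_card, Fintype.card_subtype, nS]

open scoped Classical in
/-- restriction of a vector to a set -/
noncomputable def res (p : J → Prop) (x : J → K) : J → K := fun j => if p j then x j else 0

lemma res_mem (p : J → Prop) (x : J → K) : res p x ∈ Sup K p := by
  intro j hj
  by_contra hc
  simp [res, hc] at hj

variable {ω : J → ℤ} {lam : J → A} {M f : Matrix J J K}

lemma MTrip.M_mem (h : MTrip ω lam M f) {v : ℤ} {x : J → K} (hx : x ∈ Sup K fun j => ω j = v) :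
    M *ᵥ x ∈ Sup K fun j => ω j = v + 2 := by
  intro y hy
  rw [mulVec, dotProduct] at hy
  obtain ⟨j, -, hj⟩ := exists_ne_zero_of_sum_ne_zero hy
  have h1 := (h.hM y j (left_ne_zero_of_mul hj)).1
  have h2 : ω j = v := hx j (right_ne_zero_of_mul hj)
  omega

lemma MTrip.f_mem (h : MTrip ω lam M f) {v : ℤ} {x : J → K} (hx : x ∈ Sup K fun j => ω j = v) :
    f *ᵥ x ∈ Sup K fun j => ω j = v - 2 := by
  intro y hy
  rw [mulVec, dotProduct] at hy
  obtain ⟨j, -, hj⟩ := exists_ne_zero_of_sum_ne_zero hy
  have h1 := (h.hf y j (left_ne_zero_of_mul hj)).1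
  have h2 : ω j = v := hx j (right_ne_zero_of_mul hj)
  omega

lemma MTrip.comm_apply (h : MTrip ω lam M f) {v : ℤ} {x : J → K}
    (hx : x ∈ Sup K fun j => ω j = v) : M *ᵥ (f *ᵥ x) = (v : K) • x + f *ᵥ (M *ᵥ x) := by
  have h1 : (M * f - f * M) *ᵥ x = (v : K) • x := by
    rw [h.comm]
    funext j
    rw [mulVec_diagonal, Pi.smul_apply, smul_eq_mul]
    by_cases hj : x j = 0
    · rw [hj, mul_zero, mul_zero]
    · have : ω j = v := hx j hj
      rw [this]
  rw [sub_mulVec, ← mulVec_mulVec, ← mulVec_mulVec] at h1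
  rw [← h1]
  abel

lemma MTrip.inj' (h : MTrip ω lam M f) {v : ℤ} (hv : v < 0) {x : J → K}
    (hx : x ∈ Sup K fun j => ω j = v) (h0 : f *ᵥ (M *ᵥ x) = 0) : x = 0 := by
  -- the vectors `f ^ k x`
  let y : ℕ → J → K := fun k => Nat.rec x (fun _ z => f *ᵥ z) k
  have hy0 : y 0 = x := rfl
  have hys : ∀ k, y (k + 1) = f *ᵥ y k := fun k => rfl
  have hyw : ∀ k : ℕ, y k ∈ Sup K fun j => ω j = v - 2 * k := by
    intro k
    induction k with
    | zero => simpa [hy0] using hx
    | succ k ih =>
      rw [hys]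
      have := h.f_mem ih
      convert this using 3
      push_cast
      ring
  have hMy : ∀ k : ℕ, M *ᵥ y (k + 1) = (((k + 1 : ℕ) : K) * ((v - k : ℤ) : K)) • y k := by
    intro k
    induction k with
    | zero =>
      rw [hys, h.comm_apply (hyw 0), hy0, h0, add_zero]
      push_cast
      congr 1
      ring
    | succ k ih =>
      rw [hys, h.comm_apply (hyw (k + 1)), ih, mulVec_smul, ← hys, ← add_smul]
      push_cast
      congr 1
      ring
  by_contra hx0
  have hne : ∀ k, y k ≠ 0 := by
    intro k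
    induction k with
    | zero => exact hx0
    | succ k ih =>
      intro hc
      have h1 := hMy k
      rw [hc, mulVec_zero] at h1
      have h2 := (smul_eq_zero.1 h1.symm).resolve_right ih
      rcases mul_eq_zero.1 h2 with h3 | h3
      · exact Nat.cast_ne_zero.2 (Nat.succ_ne_zero k) h3
      · have h4 : v - k = 0 := by exact_mod_cast h3
        omega
  -- the weights are bounded below
  obtain ⟨B, hB⟩ : ∃ B : ℤ, ∀ j, B ≤ ω j := by
    rcases isEmpty_or_nonempty J with hJ | hJ
    · exact ⟨0, fun j => hJ.elim j⟩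
    · obtain ⟨j, hj⟩ := Finite.exists_min ω
      exact ⟨ω j, hj⟩
  obtain ⟨j, hj⟩ := Function.ne_iff.1 (hne ((v - B).toNat + 1))
  have h1 : ω j = v - 2 * (((v - B).toNat + 1 : ℕ) : ℤ) := hyw _ j hj
  have h2 := hB j
  push_cast at h1
  omega

/-- The raising operator is injective on the negative weights. -/
lemma MTrip.inj (h : MTrip ω lam M f) {v : ℤ} (hv : v < 0) {x : J → K}
    (hx : x ∈ Sup K fun j => ω j = v) (h0 : M *ᵥ x = 0) : x = 0 :=
  h.inj' hv hx (by rw [h0, mulVec_zero])

/-- The square of the raising operator is injective on the weight `-2`. -/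
lemma MTrip.inj2 (h : MTrip ω lam M f) {x : J → K} (hx : x ∈ Sup K fun j => ω j = -2)
    (h0 : M *ᵥ (M *ᵥ x) = 0) : x = 0 := by
  have h1 : M *ᵥ x ∈ Sup K fun j => ω j = 0 := fun j hj => by
    have h9 : ω j = -2 + 2 := h.M_mem hx j hj
    omega
  have h2 := h.comm_apply h1
  rw [h0, mulVec_zero, add_zero, Int.cast_zero, zero_smul] at h2
  have h3 : f *ᵥ (M *ᵥ x) ∈ Sup K fun j => ω j = -2 := fun j hj => by
    have h9 : ω j = 0 - 2 := h.f_mem h1 j hj
    omega
  exact h.inj' (by norm_num) hx (h.inj (by norm_num) h3 h2)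

lemma MTrip.transpose (h : MTrip ω lam M f) :
    MTrip (fun j => - ω j) lam Mᵀ fᵀ where
  hM := by
    intro y x hyx
    rw [transpose_apply] at hyx
    have := h.hM x y hyx
    exact ⟨by omega, this.2.symm⟩
  hf := by
    intro y x hyx
    rw [transpose_apply] at hyx
    have := h.hf x y hyx
    exact ⟨by omega, this.2.symm⟩
  comm := by
    rw [← transpose_mul, ← transpose_mul, ← transpose_sub, ← neg_sub, h.comm, transpose_neg,
      diagonal_transpose, diagonal_neg]
    congr 1
    funext j
    push_cast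
    rfl

/-- The raising operator is surjective onto the positive weights. -/
lemma MTrip.surj (h : MTrip ω lam M f) {v : ℤ} (hv : -1 ≤ v) {a : A} {y : J → K}
    (hy : y ∈ Sup K fun j => ω j = v + 2 ∧ lam j = a) :
    ∃ x ∈ Sup K fun j => ω j = v ∧ lam j = a, M *ᵥ x = y := by
  classical
  set R : Submodule K (J → K) := (Sup K fun j => ω j = v ∧ lam j = a).map M.mulVecLin with hR
  by_contra hcon
  have hyR : y ∉ R := by
    rintro ⟨x, hx, hxy⟩
    exact hcon ⟨x, hx, hxy⟩
  obtain ⟨ψ, hψ, hψR⟩ := Submodule.exists_le_ker_of_notMem hyR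
  set c : J → K := fun j => ψ (Pi.single j 1) with hc
  have hψc : ∀ z, ψ z = ∑ j, c j * z j := by
    intro z
    rw [LinearMap.pi_apply_eq_sum_univ ψ z]
    refine sum_congr rfl fun j _ => ?_
    rw [smul_eq_mul, mul_comm, hc]
    congr 2
    funext i
    simp [Pi.single_apply, eq_comm]
  set c' : J → K := res (fun j => ω j = v + 2 ∧ lam j = a) c with hc'
  have hc'm : c' ∈ Sup K fun j => ω j = v + 2 ∧ lam j = a := res_mem _ _
  have h1 : Mᵀ *ᵥ c' = 0 := by
    funext x
    rw [mulVec, dotProduct, Pi.zero_apply]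
    by_cases hx : ω x = v ∧ lam x = a
    · have h2 : ψ (M *ᵥ Pi.single x 1) = 0 := by
        apply hψR
        refine ⟨Pi.single x 1, ?_, rfl⟩
        intro j hj
        by_cases hjx : j = x
        · rw [hjx]; exact hx
        · simp [hjx] at hj
      rw [hψc] at h2
      rw [← h2]
      refine sum_congr rfl fun y _ => ?_
      rw [transpose_apply, mulVec_single_one, col_apply]
      by_cases hyx : M y x = 0
      · rw [hyx, zero_mul, mul_zero]
      · have h3 := h.hM y x hyx
        have h4 : ω y = v + 2 ∧ lam y = a := ⟨by omega, by rw [h3.2]; exact hx.2⟩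
        rw [hc', res, if_pos h4, mul_comm]
    · refine sum_eq_zero fun y _ => ?_
      rw [transpose_apply]
      by_contra hne
      have h3 := h.hM y x (left_ne_zero_of_mul hne)
      have h4 := hc'm y (right_ne_zero_of_mul hne)
      exact hx ⟨by omega, by rw [← h3.2]; exact h4.2⟩
  have h2 : c' = 0 := by
    refine h.transpose.inj (v := -(v + 2)) (by omega) ?_ h1
    intro j hj
    have := (hc'm j hj).1
    omega
  apply hψ
  rw [hψc]
  refine sum_eq_zero fun j _ => ?_
  by_cases hj : y j = 0
  · rw [hj, mul_zero]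
  · have h3 : c' j = 0 := congrFun h2 j
    rw [hc', res, if_pos (hy j hj)] at h3
    rw [h3, zero_mul]

/-- the number of the indices with given weight and label -/
noncomputable def num (ω : J → ℤ) (lam : J → A) (a : A) (v : ℤ) : ℕ :=
  nS fun j => ω j = v ∧ lam j = a

lemma MTrip.M_mem' (h : MTrip ω lam M f) {v : ℤ} {a : A} {x : J → K}
    (hx : x ∈ Sup K fun j => ω j = v ∧ lam j = a) :
    M *ᵥ x ∈ Sup K fun j => ω j = v + 2 ∧ lam j = a := by
  intro y hy
  rw [mulVec, dotProduct] at hy
  obtain ⟨j, -, hj⟩ := exists_ne_zero_of_sum_ne_zero hy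
  have h1 := h.hM y j (left_ne_zero_of_mul hj)
  have h2 := hx j (right_ne_zero_of_mul hj)
  exact ⟨by omega, by rw [h1.2]; exact h2.2⟩

/-- the restriction of `M` -/
noncomputable def MTrip.rM (h : MTrip ω lam M f) (v : ℤ) (a : A) :
    (Sup K fun j => ω j = v ∧ lam j = a) →ₗ[K] (Sup K fun j => ω j = v + 2 ∧ lam j = a) :=
  M.mulVecLin.restrict fun _ hx => h.M_mem' hx

lemma MTrip.num_le_up (h : MTrip ω lam M f) {v : ℤ} (hv : v < 0) (a : A) :
    num ω lam a v ≤ num ω lam a (v + 2) := by
  unfold num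
  rw [← finrank_Sup (K := K), ← finrank_Sup (K := K)]
  apply LinearMap.finrank_le_finrank_of_injective (f := h.rM v a)
  rw [injective_iff_map_eq_zero]
  intro x hx
  apply Subtype.ext
  refine h.inj hv (Sup_mono (fun j hj => hj.1) x.2) ?_
  exact congrArg Subtype.val hx

lemma MTrip.num_le_down (h : MTrip ω lam M f) {v : ℤ} (hv : -1 ≤ v) (a : A) :
    num ω lam a (v + 2) ≤ num ω lam a v := by
  unfold num
  rw [← finrank_Sup (K := K), ← finrank_Sup (K := K)]
  have hs : Function.Surjective (h.rM v a) := by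
    rintro ⟨y, hy⟩
    obtain ⟨x, hx, hxy⟩ := h.surj hv hy
    exact ⟨⟨x, hx⟩, Subtype.ext hxy⟩
  have h1 := LinearMap.finrank_range_add_finrank_ker (h.rM v a)
  rw [LinearMap.range_eq_top.2 hs, finrank_top] at h1
  omega

/-- **Unimodality.** -/
lemma MTrip.num_le (h : MTrip ω lam M f) (a : A) (v : ℤ) :
    num ω lam a v ≤ num ω lam a 0 + num ω lam a 1 := by
  have hup : ∀ k : ℕ, ∀ v : ℤ, v < 2 → 2 - v ≤ k → num ω lam a v ≤
      num ω lam a 0 + num ω lam a 1 := by
    intro k
    induction k with
    | zero => intro v h1 h2; omega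
    | succ k ih =>
      intro v h1 h2
      by_cases h0 : v < 0
      · exact (h.num_le_up h0 a).trans (ih _ (by omega) (by push_cast at h2; omega))
      · have : v = 0 ∨ v = 1 := by omega
        rcases this with rfl | rfl
        · exact Nat.le_add_right _ _
        · exact Nat.le_add_left _ _
  have hdown : ∀ k : ℕ, ∀ v : ℤ, 0 ≤ v → v ≤ k → num ω lam a v ≤
      num ω lam a 0 + num ω lam a 1 := by
    intro k
    induction k with
    | zero =>
      intro v h1 h2
      have : v = 0 := by push_cast at h2; omega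
      rw [this]
      exact Nat.le_add_right _ _
    | succ k ih =>
      intro v h1 h2
      by_cases h0 : 2 ≤ v
      · have h3 := h.num_le_down (v := v - 2) (by omega) a
        rw [sub_add_cancel] at h3
        exact h3.trans (ih _ (by omega) (by push_cast at h2; omega))
      · have : v = 0 ∨ v = 1 := by omega
        rcases this with rfl | rfl
        · exact Nat.le_add_right _ _
        · exact Nat.le_add_left _ _
  rcases lt_or_ge v 0 with hv | hv
  · exact hup (2 - v).toNat v (by omega) (by omega)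
  · exact hdown v.toNat v hv (by omega)

/-- A unipotent matrix whose leading part is the raising operator. -/
structure Uni (ω : J → ℤ) (lam : J → A) (M U : Matrix J J K) : Prop where
  high : ∀ y x, (U - 1 - M) y x ≠ 0 → ω x + 4 ≤ ω y ∧ lam y = lam x

variable {U : Matrix J J K}

lemma Uni.sub_apply (hU : Uni ω lam M U) (x : J → K) :
    (U - 1) *ᵥ x = M *ᵥ x + (U - 1 - M) *ᵥ x := by
  rw [← add_mulVec]
  congr 1
  abel

/-- fixed vectors have weights at least `0` -/
lemma Uni.fixed (hU : Uni ω lam M U) (h : MTrip ω lam M f) {x : J → K} (hx : (U - 1) *ᵥ x = 0) :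
    x ∈ Sup K fun j => 0 ≤ ω j := by
  classical
  by_contra hcon
  rw [mem_Sup] at hcon
  push Not at hcon
  obtain ⟨j₀, hj₀, hj₀'⟩ := hcon
  obtain ⟨j, hj, hmin⟩ := exists_min_image (univ.filter fun j => x j ≠ 0) ω
    ⟨j₀, mem_filter.2 ⟨mem_univ _, hj₀⟩⟩
  have hjx := (mem_filter.1 hj).2
  have hmin' : ∀ i, x i ≠ 0 → ω j ≤ ω i := fun i hi => hmin i (mem_filter.2 ⟨mem_univ _, hi⟩)
  have hneg : ω j < 0 := (hmin' j₀ hj₀).trans_lt hj₀'
  set z : J → K := res (fun i => ω i = ω j) x with hz
  have hzm : z ∈ Sup K fun i => ω i = ω j := res_mem _ _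
  have h1 : M *ᵥ z = 0 := by
    funext y
    by_cases hy : ω y = ω j + 2
    · have h2 : (M *ᵥ z) y = ((U - 1) *ᵥ x) y := by
        rw [hU.sub_apply, Pi.add_apply]
        have h3 : ((U - 1 - M) *ᵥ x) y = 0 := by
          rw [mulVec, dotProduct]
          refine sum_eq_zero fun i _ => ?_
          by_contra hne
          have h4 := (hU.high y i (left_ne_zero_of_mul hne)).1
          have h5 := hmin' i (right_ne_zero_of_mul hne)
          omega
        rw [h3, add_zero, mulVec, mulVec, dotProduct, dotProduct]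
        refine sum_congr rfl fun i _ => ?_
        by_cases hyi : M y i = 0
        · rw [hyi, zero_mul, zero_mul]
        · have h4 := (h.hM y i hyi).1
          have h5 : ω i = ω j := by omega
          rw [hz, res, if_pos h5]
      rw [h2, hx]
    · by_contra hne
      exact hy (h.M_mem hzm y hne)
  have h2 := h.inj hneg hzm h1
  have h3 : z j = 0 := by rw [h2]; rfl
  rw [hz, res, if_pos rfl] at h3
  exact hjx h3

lemma Uni.mem (hU : Uni ω lam M U) (h : MTrip ω lam M f) {v : ℤ} {a : A} {x : J → K}
    (hx : x ∈ Sup K fun j => v ≤ ω j ∧ lam j = a) :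
    (U - 1) *ᵥ x ∈ Sup K fun j => v + 2 ≤ ω j ∧ lam j = a := by
  rw [hU.sub_apply]
  apply Submodule.add_mem
  · intro y hy
    rw [mulVec, dotProduct] at hy
    obtain ⟨j, -, hj⟩ := exists_ne_zero_of_sum_ne_zero hy
    have h1 := h.hM y j (left_ne_zero_of_mul hj)
    have h2 := hx j (right_ne_zero_of_mul hj)
    exact ⟨by omega, by rw [h1.2]; exact h2.2⟩
  · intro y hy
    rw [mulVec, dotProduct] at hy
    obtain ⟨j, -, hj⟩ := exists_ne_zero_of_sum_ne_zero hy
    have h1 := hU.high y j (left_ne_zero_of_mul hj)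
    have h2 := hx j (right_ne_zero_of_mul hj)
    exact ⟨by omega, by rw [h1.2]; exact h2.2⟩

lemma Uni.surj (hU : Uni ω lam M U) (h : MTrip ω lam M f) (a : A) :
    ∀ {v : ℤ}, 1 ≤ v → ∀ {y : J → K}, y ∈ (Sup K fun j => v ≤ ω j ∧ lam j = a) →
      ∃ x ∈ Sup K fun j => v - 2 ≤ ω j ∧ lam j = a, (U - 1) *ᵥ x = y := by
  classical
  obtain ⟨B, hB⟩ : ∃ B : ℤ, ∀ j, ω j ≤ B := by
    rcases isEmpty_or_nonempty J with hJ | hJ
    · exact ⟨0, fun j => hJ.elim j⟩
    · obtain ⟨j, hj⟩ := Finite.exists_max ω
      exact ⟨ω j, hj⟩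
  have key : ∀ k : ℕ, ∀ v : ℤ, 1 ≤ v → B + 1 - v ≤ k → ∀ y : J → K,
      y ∈ (Sup K fun j => v ≤ ω j ∧ lam j = a) →
      ∃ x ∈ Sup K fun j => v - 2 ≤ ω j ∧ lam j = a, (U - 1) *ᵥ x = y := by
    intro k
    induction k with
    | zero =>
      intro v _ hv y hy
      have hy0 : y = 0 := by
        funext j
        by_contra hne
        have h1 := hy j hne
        have h2 := hB j
        push_cast at hv
        omega
      exact ⟨0, Submodule.zero_mem _, by rw [mulVec_zero, hy0]⟩
    | succ k ih =>
      intro v hv2 hv y hy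
      set y0 : J → K := res (fun j => ω j = v) y with hy0
      have hy0m : y0 ∈ Sup K fun j => ω j = v - 2 + 2 ∧ lam j = a := by
        intro j hj
        have h1 : ω j = v := res_mem _ _ j hj
        have h2 : y j ≠ 0 := by
          intro h3
          apply hj
          rw [hy0, res, if_pos h1, h3]
        exact ⟨by omega, (hy j h2).2⟩
      obtain ⟨x0, hx0, hx0y⟩ := h.surj (v := v - 2) (by omega) hy0m
      have h1 : y - (U - 1) *ᵥ x0 ∈ Sup K fun j => v + 1 ≤ ω j ∧ lam j = a := by
        rw [hU.sub_apply, hx0y]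
        have h2 : y - (y0 + (U - 1 - M) *ᵥ x0) = (y - y0) - (U - 1 - M) *ᵥ x0 := by abel
        rw [h2]
        apply Submodule.sub_mem
        · intro j hj
          have h3 : ω j ≠ v := by
            intro h4
            apply hj
            rw [Pi.sub_apply, hy0, res, if_pos h4, sub_self]
          have h4 : y j ≠ 0 := by
            intro h5
            apply hj
            rw [Pi.sub_apply, hy0, res, if_neg h3, h5, sub_zero]
          have h5 := hy j h4
          exact ⟨by omega, h5.2⟩
        · intro i hi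
          rw [mulVec, dotProduct] at hi
          obtain ⟨j, -, hj⟩ := exists_ne_zero_of_sum_ne_zero hi
          have h3 := hU.high i j (left_ne_zero_of_mul hj)
          have h4 := hx0 j (right_ne_zero_of_mul hj)
          exact ⟨by omega, by rw [h3.2]; exact h4.2⟩
      obtain ⟨x1, hx1, hx1y⟩ := ih (v + 1) (by omega) (by push_cast at hv; omega) _ h1
      refine ⟨x0 + x1, Submodule.add_mem _ ?_ ?_, ?_⟩
      · exact Sup_mono (fun j hj => ⟨by omega, hj.2⟩) hx0
      · exact Sup_mono (fun j hj => ⟨by omega, hj.2⟩) hx1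
      · rw [mulVec_add, hx1y]
        abel
  intro v hv y hy
  exact key (B + 1 - v).toNat v hv (by omega) y hy

/-- The fixed vectors of `U` with label `a`. -/
def fixU (U : Matrix J J K) (lam : J → A) (a : A) : Submodule K (J → K) :=
  LinearMap.ker (U - 1).mulVecLin ⊓ Sup K fun j => lam j = a

/-- **The dimension of the space of the fixed vectors.** -/
theorem Uni.finrank_fix (hU : Uni ω lam M U) (h : MTrip ω lam M f) (a : A) :
    Module.finrank K (fixU U lam a) = num ω lam a 0 + num ω lam a 1 := by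
  classical
  let T : (Sup K fun j => 0 ≤ ω j ∧ lam j = a) →ₗ[K] (Sup K fun j => 2 ≤ ω j ∧ lam j = a) :=
    (U - 1).mulVecLin.restrict fun x hx => by
      have := hU.mem h hx
      rwa [zero_add] at this
  have hT : ∀ x, (T x : J → K) = (U - 1) *ᵥ x := fun x => rfl
  have hs : Function.Surjective T := by
    rintro ⟨y, hy⟩
    obtain ⟨x, hx, hxy⟩ := hU.surj h a (by norm_num) hy
    exact ⟨⟨x, by simpa using hx⟩, Subtype.ext hxy⟩
  have h1 := LinearMap.finrank_range_add_finrank_ker T
  rw [LinearMap.range_eq_top.2 hs, finrank_top, finrank_Sup, finrank_Sup] at h1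
  have h2 : Module.finrank K (LinearMap.ker T) = Module.finrank K (fixU U lam a) := by
    have e : (LinearMap.ker T).map (Sup K fun j => 0 ≤ ω j ∧ lam j = a).subtype =
        fixU U lam a := by
      ext x
      constructor
      · rintro ⟨z, hz, rfl⟩
        refine ⟨?_, fun j hj => (z.2 j hj).2⟩
        have : T z = 0 := hz
        have h3 := congrArg Subtype.val this
        exact h3
      · rintro ⟨hx1, hx2⟩
        have h3 := hU.fixed h (show (U - 1) *ᵥ x = 0 from hx1)
        refine ⟨⟨x, fun j hj => ⟨h3 j hj, hx2 j hj⟩⟩, ?_, rfl⟩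
        exact Subtype.ext hx1
    rw [← e, Submodule.finrank_map_subtype_eq]
  rw [← h2]
  have h3 : nS (fun j => 0 ≤ ω j ∧ lam j = a) =
      nS (fun j => 2 ≤ ω j ∧ lam j = a) + (num ω lam a 0 + num ω lam a 1) := by
    rw [nS_add (p := fun j => 0 ≤ ω j ∧ lam j = a) (q := fun j => 2 ≤ ω j ∧ lam j = a)
      (r := fun j => (ω j = 0 ∧ lam j = a) ∨ (ω j = 1 ∧ lam j = a)) (fun j => ?_) (fun j => ?_)]
    · congr 1
      exact nS_add (fun j => Iff.rfl) fun j h4 h5 => by omega
    · constructor
      · rintro ⟨h4, h5⟩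
        by_cases h6 : 2 ≤ ω j
        · exact Or.inl ⟨h6, h5⟩
        · have : ω j = 0 ∨ ω j = 1 := by omega
          rcases this with h7 | h7
          · exact Or.inr (Or.inl ⟨h7, h5⟩)
          · exact Or.inr (Or.inr ⟨h7, h5⟩)
      · rintro (⟨h4, h5⟩ | ⟨h4, h5⟩ | ⟨h4, h5⟩)
        · exact ⟨by omega, h5⟩
        · exact ⟨by omega, h5⟩
        · exact ⟨by omega, h5⟩
    · rintro ⟨h4, h5⟩ (⟨h6, h7⟩ | ⟨h6, h7⟩) <;> omega
  omega

end

end Pool.Agent.K1H13.G
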