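import Pool.Agent.K1H13.G.Abs

/-!
# The operator itself
-/

set_option autoImplicit false
set_option linter.unusedSectionVars false

open Finset Matrix Module

universe v

namespace Pool.Agent.K1H13.G

namespace JD

variable {K V : Type v} [Field K] [AddCommGroup V] [Module K V] {V₀ V₁ : Submodule K V}
  {F : Module.End K V} (D : JD V₀ V₁ F)

/-- the even part in coordinates -/
lemma mem_V₀ (hc : IsCompl V₀ V₁) (z : V) :
    z ∈ V₀ ↔ ∀ x, D.b.repr z x ≠ 0 → D.par x.1 = 1 := by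
  classical
  constructor
  · intro hz
    set z₁ : V := ∑ x : Σ j : D.B, Fin (D.s j) with ¬ D.par x.1 = 1, D.b.repr z x • D.b x with hz₁
    have h1 : z₁ ∈ V₁ := Submodule.sum_mem _ fun x hx =>
      Submodule.smul_mem _ _ (D.par1 x (mem_filter.1 hx).2)
    have h2 : z₁ ∈ V₀ := by
      have h3 : z = (∑ x : Σ j : D.B, Fin (D.s j) with D.par x.1 = 1, D.b.repr z x • D.b x) +
          z₁ := by
        rw [hz₁, sum_filter_add_sum_filter_not, D.b.sum_repr]
      have h4 : z₁ = z - ∑ x : Σ j : D.B, Fin (D.s j) with D.par x.1 = 1,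
          D.b.repr z x • D.b x := by
        rw [eq_sub_iff_add_eq, add_comm]; exact h3.symm
      rw [h4]
      refine Submodule.sub_mem _ hz (Submodule.sum_mem _ fun x hx => ?_)
      exact Submodule.smul_mem _ _ (D.par0 x (mem_filter.1 hx).2)
    have h3 : z₁ = 0 := by
      have := (Submodule.disjoint_def.1 hc.disjoint) z₁ h2 h1
      exact this
    intro x hx
    by_contra hp
    apply hx
    have h4 : D.b.repr z₁ x = D.b.repr z x := by
      rw [hz₁, map_sum, Finsupp.finset_sum_apply, sum_eq_single x]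
      · rw [map_smul, Finsupp.smul_apply, Basis.repr_self, Finsupp.single_eq_same, smul_eq_mul,
          mul_one]
      · intro y _ hy
        rw [map_smul, Finsupp.smul_apply, Basis.repr_self, Finsupp.single_eq_of_ne hy.symm,
          smul_zero]
      · intro h
        exact absurd (show x ∈ univ.filter (fun x : Σ j : D.B, Fin (D.s j) => ¬ D.par x.1 = 1)
          from mem_filter.2 ⟨mem_univ x, hp⟩) h
    rw [← h4, h3, map_zero]
    rfl
  · intro h
    rw [← D.b.sum_repr z]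
    refine Submodule.sum_mem _ fun x _ => ?_
    by_cases hx : D.b.repr z x = 0
    · rw [hx, zero_smul]; exact Submodule.zero_mem _
    · exact Submodule.smul_mem _ _ (D.par0 x (h x hx))

variable [CharZero K]

/-- **The coordinates for the operator itself.** -/
theorem exists_cd1 (hc : IsCompl V₀ V₁) :
    ∃ C : CD V₀ F (Σ j : D.B, Fin (D.s j)) (LG K), C.ω = jw D.s ∧ C.lam = D.lab ∧
      C.U = 1 + jN K D.s ∧ C.c = D.b := by
  classical
  have htor : ∀ (x : Σ j : D.B, Fin (D.s j)) (m : ℕ), 0 < m → D.par x.1 = 1 →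
      (D.ev x.1 : K) ^ m = 1 → D.lab x = 1 := by
    intro x m hm h1 h2
    refine Prod.ext ?_ h1
    show (QuotientGroup.mk (D.ev x.1) : Kˣ ⧸ CommGroup.torsion Kˣ) = 1
    rw [QuotientGroup.eq_one_iff, CommGroup.mem_torsion, isOfFinOrder_iff_pow_eq_one]
    refine ⟨m, hm, ?_⟩
    apply Units.ext
    rw [Units.val_pow_eq_pow_val, Units.val_one]
    exact h2
  have htor2 : ∀ x : Σ j : D.B, Fin (D.s j), D.lab x = 1 → D.par x.1 = 1 ∧
      IsOfFinOrder (D.ev x.1) := by
    intro x hx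
    obtain ⟨h1, h2⟩ := Prod.mk.inj (show (QuotientGroup.mk (D.ev x.1), D.par x.1)
      = ((1 : Kˣ ⧸ CommGroup.torsion Kˣ), (1 : Multiplicative (ZMod 2))) from hx)
    refine ⟨h2, ?_⟩
    rwa [QuotientGroup.eq_one_iff, CommGroup.mem_torsion] at h1
  set s : ℕ := ∏ x ∈ (univ : Finset (Σ j : D.B, Fin (D.s j))).filter
    (fun x => D.lab x = 1), orderOf (D.ev x.1) with hs
  have hs0 : 0 < s := by
    rw [hs]
    refine prod_pos fun x hx => ?_
    rw [orderOf_pos_iff]
    exact (htor2 x (mem_filter.1 hx).2).2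
  have hs1 : ∀ x : Σ j : D.B, Fin (D.s j), D.lab x = 1 → (D.ev x.1 : K) ^ s = 1 := by
    intro x hx
    have h1 : orderOf (D.ev x.1) ∣ s := dvd_prod_of_mem
      (fun x : Σ j : D.B, Fin (D.s j) => orderOf (D.ev x.1))
      (mem_filter.2 ⟨mem_univ _, hx⟩)
    have h2 := orderOf_dvd_iff_pow_eq_one.1 h1
    rw [← Units.val_pow_eq_pow_val, h2, Units.val_one]
  have hM := jtrip (K := K) D.s D.lj
  have hU := juni (K := K) D.s D.lj
  have hU2 := juni (K := K) D.s (fun j => (D.ev j, D.par j))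
  have hM2 := jtrip (K := K) D.s (fun j => (D.ev j, D.par j))
  refine ⟨{
    c := D.b
    ω := jw D.s
    lam := D.lab
    M := jN K D.s
    f := jg K D.s
    U := 1 + jN K D.s
    al := fun x => (D.ev x.1 : K)
    P := fun x => D.par x.1 = 1
    s := s
    trip := hM
    uni := hU
    pres := fun y x hne => by
      have := (hU2.low hM2 hne).2
      exact congrArg (fun u : Kˣ => (u : K)) (Prod.mk.inj this).1
    hP := fun x y hne => by
      have := (Prod.mk.inj (hU2.low hM2 hne).2).2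
      exact ⟨fun h => this.trans h, fun h => this.symm.trans h⟩
    hs0 := hs0
    hs := fun x => ⟨fun h => ⟨(htor2 x h).1, hs1 x h⟩, fun h => htor x s hs0 h.1 h.2⟩
    htor := htor
    hΦ := D.toMatrix_eq
    h₀ := D.mem_V₀ hc }, rfl, rfl, rfl, rfl⟩

/-- **A trivial block.** -/
theorem exists_j₀ (hc : IsCompl V₀ V₁) {β : V →ₗ[K] V →ₗ[K] K}
    (hβ : ∀ x y, β (F x) (F y) = β x y)
    (h : ∃ x ∈ tateS V₀ F, ∃ y ∈ tateS V₀ F, β x y ≠ 0) :
    ∃ j₀ : D.B, D.s j₀ = 1 ∧ D.lj j₀ = 1 := by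
  obtain ⟨C, hω, hlam, hU, -⟩ := D.exists_cd1 hc
  obtain ⟨x, hx, y, hy, hxy⟩ := h
  by_contra hcon
  push Not at hcon
  apply hxy
  set β' : ((Σ j : D.B, Fin (D.s j)) → K) →ₗ[K] ((Σ j : D.B, Fin (D.s j)) → K) →ₗ[K] K :=
    β.compl₁₂ (C.c.equivFun.symm : _ →ₗ[K] V) (C.c.equivFun.symm : _ →ₗ[K] V) with hβ'
  have hb : ∀ x y, β' (C.c.equivFun x) (C.c.equivFun y) = β x y := by
    intro x y
    show β (C.c.equivFun.symm (C.c.equivFun x)) (C.c.equivFun.symm (C.c.equivFun y)) = _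
    rw [C.c.equivFun.symm_apply_apply, C.c.equivFun.symm_apply_apply]
  have hiso : ∀ x y, β' ((C.U * diagonal C.al) *ᵥ x) ((C.U * diagonal C.al) *ᵥ y) = β' x y := by
    intro x y
    obtain ⟨x, rfl⟩ := C.c.equivFun.surjective x
    obtain ⟨y, rfl⟩ := C.c.equivFun.surjective y
    rw [← C.repr_apply, ← C.repr_apply, hb, hb, hβ]
  have hx' := (C.tate_iff x).1 hx
  rw [← hb]
  refine rad_upper C.uni C.trip C.pres C.hs0 (fun x hx => ((C.hs x).1 hx).2) hiso ?_
    ((C.tate_iff y).1 hy)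
  intro i hi
  refine ⟨?_, hx'.2 i hi⟩
  have h0 : 0 ≤ C.ω i := C.uni.fixed C.trip hx'.1 i hi
  have h1 : C.lam i = 1 := hx'.2 i hi
  by_contra h2
  have h3 : jw D.s i = 0 := by
    rw [hω] at h0 h2
    have : ¬ 1 ≤ jw D.s i := h2
    omega
  have h4 : D.s i.1 ≠ 1 := by
    intro h5
    refine hcon i.1 h5 ?_
    rw [hlam] at h1
    exact h1
  unfold jw at h3
  have h5 := i.2.2
  have h6 : i.2.val + 1 < D.s i.1 := by omega
  have h7 : ((C.U - 1) *ᵥ C.c.equivFun x) ⟨i.1, ⟨i.2.val + 1, h6⟩⟩ = C.c.equivFun x i := by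
    rw [hU, add_sub_cancel_left, mulVec, dotProduct, sum_eq_single i]
    · unfold jN
      rw [if_pos ⟨rfl, rfl⟩, one_mul]
    · intro k _ hk
      unfold jN
      rw [if_neg, zero_mul]
      rintro ⟨h8, h9⟩
      refine hk (sig_ext D.s h8.symm ?_)
      simp only at h9
      omega
    · intro h8
      exact absurd (mem_univ _) h8
  have h8 : (C.U - 1) *ᵥ C.c.equivFun x = 0 := hx'.1
  rw [h8] at h7
  exact hi h7.symm

/-- the operator is diagonal if there is no nontrivial block -/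
theorem apply_eq (h : ∀ i, jw D.s i = 0) (i : Σ j : D.B, Fin (D.s j)) :
    F (D.b i) = (D.ev i.1 : K) • D.b i := by
  obtain ⟨j, p⟩ := i
  have h1 := h ⟨j, p⟩
  unfold jw at h1
  have h0 : D.s j = 1 := by
    have h2 := h ⟨j, ⟨0, by have := p.2; omega⟩⟩
    unfold jw at h2
    simp only at h2
    omega
  rw [D.hb j p, dif_neg (by have := p.2; omega), add_zero]

end JD

end Pool.Agent.K1H13.G
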