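import Pool.Agent.K1H13.G.Mat

/-!
# The radical of an invariant form on the fixed vectors
-/

set_option autoImplicit false
set_option linter.unusedSectionVars false

open Finset Matrix

namespace Pool.Agent.K1H13.G

section

variable {K : Type*} [Field K] [CharZero K] {J A : Type*} [Fintype J] [DecidableEq J]
  {ω : J → ℤ} {lam : J → A} {M f U : Matrix J J K}

/-- fixed vectors of weights at least `v` -/
lemma Uni.finrank_ge (hU : Uni ω lam M U) (h : MTrip ω lam M f) (a : A) {v : ℤ} (hv : -1 ≤ v) :
    Module.finrank K ((LinearMap.ker (U - 1).mulVecLin ⊓ Sup K fun j => v ≤ ω j ∧ lam j = a :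
      Submodule K (J → K))) = num ω lam a v + num ω lam a (v + 1) := by
  classical
  let T : (Sup K fun j => v ≤ ω j ∧ lam j = a) →ₗ[K] (Sup K fun j => v + 2 ≤ ω j ∧ lam j = a) :=
    (U - 1).mulVecLin.restrict fun x hx => hU.mem h hx
  have hs : Function.Surjective T := by
    rintro ⟨y, hy⟩
    obtain ⟨x, hx, hxy⟩ := hU.surj h a (by omega) hy
    refine ⟨⟨x, ?_⟩, Subtype.ext hxy⟩
    rwa [add_sub_cancel_right] at hx
  have h1 := LinearMap.finrank_range_add_finrank_ker T
  rw [LinearMap.range_eq_top.2 hs, finrank_top, finrank_Sup, finrank_Sup] at h1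
  have h2 : Module.finrank K (LinearMap.ker T) = Module.finrank K
      ((LinearMap.ker (U - 1).mulVecLin ⊓ Sup K fun j => v ≤ ω j ∧ lam j = a :
        Submodule K (J → K))) := by
    have e : (LinearMap.ker T).map (Sup K fun j => v ≤ ω j ∧ lam j = a).subtype =
        LinearMap.ker (U - 1).mulVecLin ⊓ Sup K fun j => v ≤ ω j ∧ lam j = a := by
      ext x
      constructor
      · rintro ⟨z, hz, rfl⟩
        refine ⟨?_, z.2⟩
        have : T z = 0 := hz
        exact congrArg Subtype.val this
      · rintro ⟨hx1, hx2⟩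
        exact ⟨⟨x, hx2⟩, Subtype.ext hx1, rfl⟩
    rw [← e, Submodule.finrank_map_subtype_eq]
  rw [← h2]
  have h3 : nS (fun j => v ≤ ω j ∧ lam j = a) =
      nS (fun j => v + 2 ≤ ω j ∧ lam j = a) + (num ω lam a v + num ω lam a (v + 1)) := by
    rw [nS_add (p := fun j => v ≤ ω j ∧ lam j = a) (q := fun j => v + 2 ≤ ω j ∧ lam j = a)
      (r := fun j => (ω j = v ∧ lam j = a) ∨ (ω j = v + 1 ∧ lam j = a)) (fun j => ?_)
      (fun j => ?_)]
    · congr 1
      exact nS_add (fun j => Iff.rfl) fun j h4 h5 => by omega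
    · constructor
      · rintro ⟨h4, h5⟩
        by_cases h6 : v + 2 ≤ ω j
        · exact Or.inl ⟨h6, h5⟩
        · have : ω j = v ∨ ω j = v + 1 := by omega
          rcases this with h7 | h7
          · exact Or.inr (Or.inl ⟨h7, h5⟩)
          · exact Or.inr (Or.inr ⟨h7, h5⟩)
      · rintro (⟨h4, h5⟩ | ⟨h4, h5⟩ | ⟨h4, h5⟩)
        · exact ⟨by omega, h5⟩
        · exact ⟨by omega, h5⟩
        · exact ⟨by omega, h5⟩
    · rintro ⟨h4, h5⟩ (⟨h6, h7⟩ | ⟨h6, h7⟩) <;> omega
  omega

/-- a fixed vector in the image of `U - 1` has positive weights -/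
lemma Uni.rad (hU : Uni ω lam M U) (h : MTrip ω lam M f) {x y : J → K}
    (hx : (U - 1) *ᵥ x = 0) (hxy : (U - 1) *ᵥ y = x) : x ∈ Sup K fun j => 1 ≤ ω j := by
  classical
  have hx0 := hU.fixed h hx
  -- the weights of `y` are at least `-2`
  have hy : y ∈ Sup K fun j => -2 ≤ ω j := by
    by_contra hcon
    rw [mem_Sup] at hcon
    push Not at hcon
    obtain ⟨j₀, hj₀, hj₀'⟩ := hcon
    obtain ⟨j, hj, hmin⟩ := exists_min_image (univ.filter fun j => y j ≠ 0) ω
      ⟨j₀, mem_filter.2 ⟨mem_univ _, hj₀⟩⟩
    have hjx := (mem_filter.1 hj).2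
    have hmin' : ∀ i, y i ≠ 0 → ω j ≤ ω i := fun i hi => hmin i (mem_filter.2 ⟨mem_univ _, hi⟩)
    have hneg : ω j < -2 := (hmin' j₀ hj₀).trans_lt hj₀'
    set z : J → K := res (fun i => ω i = ω j) y with hz
    have hzm : z ∈ Sup K fun i => ω i = ω j := res_mem _ _
    have h1 : M *ᵥ z = 0 := by
      funext k
      by_cases hk : ω k = ω j + 2
      · have h2 : (M *ᵥ z) k = ((U - 1) *ᵥ y) k := by
          rw [hU.sub_apply, Pi.add_apply]
          have h3 : ((U - 1 - M) *ᵥ y) k = 0 := by
            rw [mulVec, dotProduct]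
            refine sum_eq_zero fun i _ => ?_
            by_contra hne
            have h4 := (hU.high k i (left_ne_zero_of_mul hne)).1
            have h5 := hmin' i (right_ne_zero_of_mul hne)
            omega
          rw [h3, add_zero, mulVec, mulVec, dotProduct, dotProduct]
          refine sum_congr rfl fun i _ => ?_
          by_cases hyi : M k i = 0
          · rw [hyi, zero_mul, zero_mul]
          · have h4 := (h.hM k i hyi).1
            have h5 : ω i = ω j := by omega
            rw [hz, res, if_pos h5]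
        rw [h2, hxy]
        by_contra hne
        have := hx0 k hne
        omega
      · by_contra hne
        exact hk (h.M_mem hzm k hne)
    have h2 := h.inj (by omega) hzm h1
    have h3 : z j = 0 := by rw [h2]; rfl
    rw [hz, res, if_pos rfl] at h3
    exact hjx h3
  -- the parts of the weights `-2` and `0`
  set z : J → K := res (fun i => ω i = -2) y with hz
  have hzm : z ∈ Sup K fun i => ω i = -2 := res_mem _ _
  set x0 : J → K := res (fun i => ω i = 0) x with hx0d
  have hx0m : x0 ∈ Sup K fun i => ω i = 0 := res_mem _ _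
  have h1 : M *ᵥ z = x0 := by
    funext k
    by_cases hk : ω k = 0
    · have h2 : (M *ᵥ z) k = ((U - 1) *ᵥ y) k := by
        rw [hU.sub_apply, Pi.add_apply]
        have h3 : ((U - 1 - M) *ᵥ y) k = 0 := by
          rw [mulVec, dotProduct]
          refine sum_eq_zero fun i _ => ?_
          by_contra hne
          have h4 := (hU.high k i (left_ne_zero_of_mul hne)).1
          have h5 : -2 ≤ ω i := hy i (right_ne_zero_of_mul hne)
          omega
        rw [h3, add_zero, mulVec, mulVec, dotProduct, dotProduct]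
        refine sum_congr rfl fun i _ => ?_
        by_cases hyi : M k i = 0
        · rw [hyi, zero_mul, zero_mul]
        · have h4 := (h.hM k i hyi).1
          have h5 : ω i = -2 := by omega
          rw [hz, res, if_pos h5]
      rw [h2, hxy, hx0d, res, if_pos hk]
    · have h2 : x0 k = 0 := by rw [hx0d, res, if_neg hk]
      rw [h2]
      by_contra hne
      have : ω k = -2 + 2 := h.M_mem hzm k hne
      omega
  have h2 : M *ᵥ x0 = 0 := by
    funext k
    by_cases hk : ω k = 2
    · have h2 : (M *ᵥ x0) k = ((U - 1) *ᵥ x) k := by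
        rw [hU.sub_apply, Pi.add_apply]
        have h3 : ((U - 1 - M) *ᵥ x) k = 0 := by
          rw [mulVec, dotProduct]
          refine sum_eq_zero fun i _ => ?_
          by_contra hne
          have h4 := (hU.high k i (left_ne_zero_of_mul hne)).1
          have h5 : 0 ≤ ω i := hx0 i (right_ne_zero_of_mul hne)
          omega
        rw [h3, add_zero, mulVec, mulVec, dotProduct, dotProduct]
        refine sum_congr rfl fun i _ => ?_
        by_cases hyi : M k i = 0
        · rw [hyi, zero_mul, zero_mul]
        · have h4 := (h.hM k i hyi).1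
          have h5 : ω i = 0 := by omega
          rw [hx0d, res, if_pos h5]
      rw [h2, hx]
    · by_contra hne
      have : ω k = 0 + 2 := h.M_mem hx0m k hne
      omega
  have h3 : z = 0 := h.inj2 hzm (by rw [h1, h2])
  have h4 : x0 = 0 := by rw [← h1, h3, mulVec_zero]
  intro j hj
  have h5 : 0 ≤ ω j := hx0 j hj
  have h6 : ω j ≠ 0 := by
    intro h7
    have h8 : x0 j = 0 := by rw [h4]; rfl
    rw [hx0d, res, if_pos h7] at h8
    exact hj h8
  show 1 ≤ ω j
  omega

end

end Pool.Agent.K1H13.G
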