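import Pool.Agent.K1H13.G.Tri
import Pool.Agent.K1H13.G.Comb

/-!
# Products of strings
-/

set_option autoImplicit false
set_option linter.unusedSectionVars false

open Finset

namespace Pool.Agent.K1H13.G

section

variable {ι : Type} [Fintype ι] [DecidableEq ι]

/-- the weight of an element of a product of strings -/
def ws (s : ι → ℕ) (x : ∀ k, Fin (s k)) : ℤ := ∑ k, (2 * ((x k : ℕ) : ℤ) + 1 - s k)

/-- the multiplicities of the weights -/
noncomputable def mu (s : ι → ℕ) (v : ℤ) : ℝ := (#{x : ∀ k, Fin (s k) | ws s x = v} : ℕ)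

lemma mu_nonneg (s : ι → ℕ) (v : ℤ) : 0 ≤ mu s v := Nat.cast_nonneg _

lemma mu_fin (s : ι → ℕ) : (mu s).support.Finite := by
  refine (Set.finite_range (ws s)).subset fun v hv => ?_
  rw [Function.mem_support] at hv
  by_contra hc
  apply hv
  unfold mu
  rw [Nat.cast_eq_zero, card_eq_zero, filter_eq_empty_iff]
  intro x _ h
  exact hc ⟨x, h⟩

lemma mu_symm (s : ι → ℕ) (v : ℤ) : mu s (-v) = mu s v := by
  unfold mu
  congr 1
  have h : ∀ x : ∀ k, Fin (s k), ws s (fun k => (x k).rev) = - ws s x := by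
    intro x
    unfold ws
    rw [← sum_neg_distrib]
    refine sum_congr rfl fun k _ => ?_
    rw [Fin.val_rev]
    have := (x k).2
    omega
  refine card_bij' (fun x _ k => (x k).rev) (fun x _ k => (x k).rev) ?_ ?_ ?_ ?_
  · intro x hx
    rw [mem_filter] at hx ⊢
    exact ⟨mem_univ _, by rw [h, hx.2, neg_neg]⟩
  · intro x hx
    rw [mem_filter] at hx ⊢
    exact ⟨mem_univ _, by rw [h, hx.2]⟩
  · intro x _; funext k; exact Fin.rev_rev _
  · intro x _; funext k; exact Fin.rev_rev _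

lemma sum_fib {X : Type*} [Fintype X] (φ : X → ℤ) (g : ℤ → ℝ) :
    ∑ x, g (φ x) = ∑' u, ((#{x | φ x = u} : ℕ) : ℝ) * g u := by
  classical
  rw [tsum_eq_sum (s := univ.image φ), Finset.sum_comp g φ]
  · exact sum_congr rfl fun u _ => by rw [nsmul_eq_mul]
  · intro u hu
    have : #{x | φ x = u} = 0 := by
      rw [card_eq_zero, filter_eq_empty_iff]
      rintro x - h
      exact hu (mem_image.2 ⟨x, mem_univ _, h⟩)
    rw [this, Nat.cast_zero, zero_mul]

lemma mu_split (s : ι → ℕ) (p : ι → Prop) [DecidablePred p] :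
    mu s = cv (mu fun k : {k // p k} => s k) (mu fun k : {k // ¬ p k} => s k) := by
  funext v
  have e1 : cv (mu fun k : {k // p k} => s k) (mu fun k : {k // ¬ p k} => s k) v =
      ∑ a : ∀ k : {k // p k}, Fin (s k), mu (fun k : {k // ¬ p k} => s k)
        (v - ws (fun k : {k // p k} => s k) a) :=
    (sum_fib (ws fun k : {k // p k} => s k)
      (fun u => mu (fun k : {k // ¬ p k} => s k) (v - u))).symm
  rw [e1]
  unfold mu
  rw [← Nat.cast_sum, ← card_sigma]
  congr 1
  refine card_bij' (fun x _ => ⟨fun k => x k, fun k => x k⟩)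
    (fun q _ k => if h : p k then q.1 ⟨k, h⟩ else q.2 ⟨k, h⟩) ?_ ?_ ?_ ?_
  · intro x hx
    rw [mem_filter] at hx
    simp only [mem_sigma, mem_univ, mem_filter, true_and]
    rw [← hx.2]
    unfold ws
    rw [← Fintype.sum_subtype_add_sum_subtype p]
    ring
  · rintro ⟨a, b⟩ hq
    simp only [mem_sigma, mem_univ, mem_filter, true_and] at hq
    rw [mem_filter]
    refine ⟨mem_univ _, ?_⟩
    have h1 : v = ws (fun k : {k // p k} => s k) a + ws (fun k : {k // ¬ p k} => s k) b := by
      rw [hq]; ring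
    rw [h1]
    unfold ws
    rw [← Fintype.sum_subtype_add_sum_subtype p]
    congr 1
    · refine sum_congr rfl fun k _ => ?_
      simp only
      rw [dif_pos k.2]
    · refine sum_congr rfl fun k _ => ?_
      simp only
      rw [dif_neg k.2]
  · intro x _
    funext k
    by_cases h : p k <;> simp [h]
  · rintro ⟨a, b⟩ _
    congr 1
    · funext k
      simp [k.2]
    · funext k
      simp [k.2]

lemma SU.le {G : ℤ → ℝ} (h : SU G) (s : ℕ) : ∀ a : ℤ, 0 ≤ a + s → G (a + 2 * s) ≤ G a := by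
  have h1 : ∀ s : ℕ, ∀ a : ℤ, -1 ≤ a → G (a + 2 * s) ≤ G a := by
    intro s
    induction s with
    | zero => intro a _; simp
    | succ s ih =>
      intro a ha
      refine le_trans ?_ (ih a ha)
      have h2 := h.mono (a + 2 * s) (by omega)
      have h3 : a + 2 * ((s + 1 : ℕ) : ℤ) = a + 2 * s + 2 := by push_cast; ring
      rw [h3]
      exact h2
  intro a ha
  by_cases hc : -1 ≤ a
  · exact h1 s a hc
  · have h2 := h1 (a + s).toNat (-a) (by omega)
    rw [h.symm] at h2
    have h3 : -a + 2 * ((a + s).toNat : ℤ) = a + 2 * s := by omega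
    rwa [h3] at h2

lemma tele (G : ℤ → ℝ) (v : ℤ) (n : ℕ) :
    ∑ p : Fin n, (G (v - (2 * ((p : ℕ) : ℤ) + 1 - n)) - G (v + 2 - (2 * ((p : ℕ) : ℤ) + 1 - n))) =
      G (v - n + 1) - G (v - n + 1 + 2 * n) := by
  have h : ∀ m : ℕ, ∑ p ∈ range m, (G (v - (2 * (p : ℤ) + 1 - n)) -
      G (v + 2 - (2 * (p : ℤ) + 1 - n))) = G (v - 2 * m + n + 1) - G (v + n + 1) := by
    intro m
    induction m with
    | zero =>
      rw [range_zero, sum_empty]
      have : v - 2 * ((0 : ℕ) : ℤ) + n + 1 = v + n + 1 := by push_cast; ring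
      rw [this, sub_self]
    | succ m ih =>
      rw [sum_range_succ, ih]
      have h1 : v - (2 * (m : ℤ) + 1 - n) = v - 2 * ((m + 1 : ℕ) : ℤ) + n + 1 := by
        push_cast; ring
      have h2 : v + 2 - (2 * (m : ℤ) + 1 - n) = v - 2 * (m : ℤ) + n + 1 := by ring
      rw [h1, h2]
      ring
  rw [Fin.sum_univ_eq_sum_range (fun p : ℕ => G (v - (2 * (p : ℤ) + 1 - n)) -
    G (v + 2 - (2 * (p : ℤ) + 1 - n))) n, h n]
  congr 2 <;> ring

/-- adding a string -/
lemma SU.string {G : ℤ → ℝ} (h : SU G) {κ : Type} [Unique κ] [Fintype κ] [DecidableEq κ]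
    (s : κ → ℕ) :
    ∀ v, -1 ≤ v → cv (mu s) G (v + 2) ≤ cv (mu s) G v := by
  intro v hv
  have e : ∀ v, cv (mu s) G v = ∑ p : Fin (s default), G (v - (2 * ((p : ℕ) : ℤ) + 1 - s default)) := by
    intro v
    have e1 : cv (mu s) G v = ∑ a : ∀ k : κ, Fin (s k), G (v - ws s a) :=
      (sum_fib (ws s) (fun u => G (v - u))).symm
    rw [e1]
    refine Fintype.sum_equiv (Equiv.piUnique fun k => Fin (s k)) _ _ fun x => ?_
    congr 2
    unfold ws
    rw [Fintype.sum_unique]
    rfl
  rw [e, e, ← sub_nonneg, ← sum_sub_distrib, tele, sub_nonneg]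
  exact h.le _ _ (by omega)

/-- **Products of strings are unimodal.** -/
theorem mu_su : ∀ (n : ℕ) (ι : Type) [Fintype ι] [DecidableEq ι] (s : ι → ℕ),
    Fintype.card ι = n → SU (mu s) := by
  intro n
  induction n with
  | zero =>
    intro ι _ _ s hι
    refine ⟨mu_fin s, mu_symm s, fun u hu => ?_⟩
    have : mu s (u + 2) = 0 := by
      unfold mu
      rw [Nat.cast_eq_zero, card_eq_zero, filter_eq_empty_iff]
      intro x _ h
      have := Fintype.card_eq_zero_iff.1 hι
      unfold ws at h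
      rw [univ_eq_empty, sum_empty] at h
      omega
    rw [this]
    exact mu_nonneg _ _
  | succ n ih =>
    intro ι _ _ s hι
    refine ⟨mu_fin s, mu_symm s, fun u hu => ?_⟩
    have hne : Nonempty ι := Fintype.card_pos_iff.1 (by omega)
    obtain ⟨k₀⟩ := hne
    have h1 := ih {k // ¬ k = k₀} (fun k => s k) (by
      rw [Fintype.card_subtype_compl, Fintype.card_subtype_eq, hι]
      rfl)
    rw [mu_split s (fun k => k = k₀)]
    exact @SU.string _ h1 {k // k = k₀} _ (Subtype.fintype fun k => k = k₀) _ (fun k => s k) u hu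

lemma exists_perm (s : ℕ) : ∃ π : Equiv.Perm (Fin s), 2 ≤ s → ∀ p, π p ≠ p := by
  refine ⟨finRotate s, fun hs p => ?_⟩
  obtain ⟨m, rfl⟩ : ∃ m, s = m + 2 := ⟨s - 2, by omega⟩
  rw [finRotate_apply]
  intro h
  have h1 : (1 : Fin (m + 2)) = 0 := by
    have := congrArg (fun q => q - p) h
    simp at this
  exact absurd h1 (by simp)

/-- **The bound for the multiplicities.** -/
theorem mu_le (s : ι → ℕ) (v : ℤ) :
    mu s v * Real.sqrt (#{k | 2 ≤ s k} + 1) ≤ ∏ k, (s k : ℝ) := by
  choose π hπ using fun k => exists_perm (s k)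
  set k₀ : ℕ := #{k | 2 ≤ s k} with hk₀
  have hk₀le : k₀ ≤ Fintype.card ι := by
    rw [hk₀]
    exact (card_filter_le _ _).trans (by simp)
  let E : Finset ι → (∀ k, Fin (s k)) ≃ (∀ k, Fin (s k)) := fun ε =>
    Equiv.piCongrRight fun k => if k ∈ ε then π k else 1
  have h1 : ∀ ε : Finset ι, #{x : ∀ k, Fin (s k) | ws s x = v} =
      #{x : ∀ k, Fin (s k) | ws s (E ε x) = v} := by
    intro ε
    symm
    refine card_bij' (fun x _ => E ε x) (fun x _ => (E ε).symm x) ?_ ?_ ?_ ?_
    · intro x hx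
      rw [mem_filter] at hx ⊢
      exact ⟨mem_univ _, hx.2⟩
    · intro x hx
      rw [mem_filter] at hx ⊢
      exact ⟨mem_univ _, by rw [Equiv.apply_symm_apply]; exact hx.2⟩
    · intro x _; exact (E ε).symm_apply_apply x
    · intro x _; exact (E ε).apply_symm_apply x
  have h2 : 2 ^ Fintype.card ι * #{x : ∀ k, Fin (s k) | ws s x = v} =
      ∑ x : ∀ k, Fin (s k), #{ε : Finset ι | ws s (E ε x) = v} := by
    have h3 : ∑ ε : Finset ι, #{x : ∀ k, Fin (s k) | ws s x = v} =
        2 ^ Fintype.card ι * #{x : ∀ k, Fin (s k) | ws s x = v} := by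
      rw [sum_const, card_univ, Fintype.card_finset, smul_eq_mul]
    rw [← h3, sum_congr rfl fun ε _ => h1 ε]
    simp only [card_filter]
    exact sum_comm
  have h3 : ∀ x : ∀ k, Fin (s k), #{ε : Finset ι | ws s (E ε x) = v} ≤
      2 ^ (Fintype.card ι - k₀) * k₀.choose (k₀ / 2) := by
    intro x
    set a : ι → ℤ := fun k => 2 * ((x k : ℕ) : ℤ) - 2 * ((π k (x k) : ℕ) : ℤ) with ha
    have h4 : #{j | a j ≠ 0} = k₀ := by
      rw [hk₀]
      congr 1
      ext k
      simp only [mem_filter, mem_univ, true_and, ha]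
      constructor
      · intro h5
        by_contra h6
        apply h5
        have h7 : x k = π k (x k) := by
          have := (x k).2
          have := (π k (x k)).2
          apply Fin.ext
          omega
        rw [← h7, sub_self]
      · intro h5 h6
        have h7 : π k (x k) = x k := by
          apply Fin.ext
          omega
        exact hπ k h5 _ h7
    have h5 := signs_le a (2 * v - ∑ k, (2 * ((x k : ℕ) : ℤ) + 2 * ((π k (x k) : ℕ) : ℤ) + 2 -
      2 * s k))
    rw [h4] at h5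
    refine le_trans (card_le_card ?_) h5
    intro ε hε
    rw [mem_filter] at hε ⊢
    refine ⟨mem_univ _, ?_⟩
    rw [← hε.2]
    unfold ws
    rw [mul_sum, ← sum_sub_distrib]
    refine sum_congr rfl fun k _ => ?_
    have h6 : E ε x k = (if k ∈ ε then π k else 1) (x k) := rfl
    rw [h6]
    simp only [ha]
    by_cases h7 : k ∈ ε
    · rw [if_pos h7, if_pos h7]
      ring
    · rw [if_neg h7, if_neg h7, Equiv.Perm.one_apply]
      ring
  have h4 : 2 ^ Fintype.card ι * #{x : ∀ k, Fin (s k) | ws s x = v} ≤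
      (∏ k, s k) * (2 ^ (Fintype.card ι - k₀) * k₀.choose (k₀ / 2)) := by
    rw [h2]
    refine (sum_le_sum fun x _ => h3 x).trans ?_
    rw [sum_const, card_univ, Fintype.card_pi, smul_eq_mul]
    simp
  have h5 : (2 : ℝ) ^ Fintype.card ι * mu s v ≤
      (∏ k, (s k : ℝ)) * (2 ^ (Fintype.card ι - k₀) * k₀.choose (k₀ / 2)) := by
    unfold mu
    exact_mod_cast h4
  have h6 := choose_half_le k₀
  have h7 : (2 : ℝ) ^ Fintype.card ι * (mu s v * Real.sqrt (k₀ + 1)) ≤
      2 ^ Fintype.card ι * ∏ k, (s k : ℝ) := by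
    calc (2 : ℝ) ^ Fintype.card ι * (mu s v * Real.sqrt (k₀ + 1))
        = (2 ^ Fintype.card ι * mu s v) * Real.sqrt (k₀ + 1) := by ring
      _ ≤ ((∏ k, (s k : ℝ)) * (2 ^ (Fintype.card ι - k₀) * k₀.choose (k₀ / 2))) *
          Real.sqrt (k₀ + 1) := by gcongr
      _ = (∏ k, (s k : ℝ)) * 2 ^ (Fintype.card ι - k₀) *
          (k₀.choose (k₀ / 2) * Real.sqrt (k₀ + 1)) := by ring
      _ ≤ (∏ k, (s k : ℝ)) * 2 ^ (Fintype.card ι - k₀) * 2 ^ k₀ := by gcongr
      _ = 2 ^ Fintype.card ι * ∏ k, (s k : ℝ) := by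
          rw [mul_assoc, ← pow_add, Nat.sub_add_cancel hk₀le]
          ring
  exact le_of_mul_le_mul_left h7 (by positivity)

end

end Pool.Agent.K1H13.G
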