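import Pool.Agent.K1H13.G.Str

/-!
# The multiplicity of the trivial representation in a product of strings
-/

set_option autoImplicit false
set_option linter.unusedSectionVars false

open Finset

namespace Pool.Agent.K1H13.G

section

variable {ι : Type} [Fintype ι] [DecidableEq ι]

lemma mu_le' {κ : Type} [Fintype κ] [DecidableEq κ] (s : κ → ℕ) {K : ℕ} (hK : K ≤ #{k | 2 ≤ s k})
    (v : ℤ) : mu s v ≤ (∏ k, (s k : ℝ)) / Real.sqrt (K + 1) := by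
  have h1 : (0 : ℝ) < Real.sqrt (K + 1) := Real.sqrt_pos.2 (by positivity)
  rw [le_div_iff₀ h1]
  refine le_trans ?_ (mu_le s v)
  have h2 := mu_nonneg s v
  gcongr

/-- **The multiplicity of the trivial representation.** -/
theorem str3 (s : ι → ℕ) :
    (mu s 0 - mu s 2) * Real.sqrt (#{k | 2 ≤ s k} + 1) ^ 3 ≤ 42 * ∏ k, (s k : ℝ) := by
  set N : Finset ι := {k | 2 ≤ s k} with hN
  set K : ℕ := #N / 3 with hK
  obtain ⟨N₂, hN₂, hc₂⟩ := exists_subset_card_eq (show K ≤ #N by omega)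
  obtain ⟨N₁, hN₁, hc₁⟩ := exists_subset_card_eq (show K ≤ #(N \ N₂) by
    rw [card_sdiff_of_subset hN₂]; omega)
  have e1 := mu_split s (fun k => k ∉ N₂)
  have e2 := mu_split (fun k : {k // k ∉ N₂} => s k) (fun k => k.1 ∈ N₁)
  rw [e2] at e1
  have hp : ∏ k, (s k : ℝ) = (∏ k : {k : {k // k ∉ N₂} // k.1 ∈ N₁}, (s k : ℝ)) *
      (∏ k : {k : {k // k ∉ N₂} // ¬ k.1 ∈ N₁}, (s k : ℝ)) *
        (∏ k : {k // ¬ k ∉ N₂}, (s k : ℝ)) := by
    rw [← Fintype.prod_subtype_mul_prod_subtype (fun k => k ∉ N₂) (fun k => (s k : ℝ)),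
      ← Fintype.prod_subtype_mul_prod_subtype (fun k : {k // k ∉ N₂} => k.1 ∈ N₁)
        (fun k => (s k : ℝ))]
  have hk1 : K ≤ #{k : {k : {k // k ∉ N₂} // k.1 ∈ N₁} | 2 ≤ s k} := by
    rw [← hc₁]
    refine card_le_card_of_surjOn (fun k => k.1.1) ?_
    intro k hk
    have h1 := hN₁ hk
    rw [mem_sdiff] at h1
    have h2 := (mem_filter.1 h1.1).2
    exact ⟨⟨⟨k, h1.2⟩, hk⟩, by simpa using h2, rfl⟩
  have hk2 : K ≤ #{k : {k : {k // k ∉ N₂} // ¬ k.1 ∈ N₁} | 2 ≤ s k} := by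
    have h0 : K ≤ #((N \ N₂) \ N₁) := by
      rw [card_sdiff_of_subset hN₁, card_sdiff_of_subset hN₂]
      omega
    refine h0.trans ?_
    refine card_le_card_of_surjOn (fun k => k.1.1) ?_
    intro k hk
    rw [mem_coe, mem_sdiff, mem_sdiff] at hk
    have h2 := (mem_filter.1 hk.1.1).2
    exact ⟨⟨⟨k, hk.1.2⟩, hk.2⟩, by simpa using h2, rfl⟩
  have hk3 : K ≤ #{k : {k // ¬ k ∉ N₂} | 2 ≤ s k} := by
    rw [← hc₂]
    refine card_le_card_of_surjOn (fun k => k.1) ?_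
    intro k hk
    have h2 := (mem_filter.1 (hN₂ hk)).2
    exact ⟨⟨k, not_not.2 hk⟩, by simpa using h2, rfl⟩
  have key := tri_le
    (mu_su _ _ (fun k : {k : {k // k ∉ N₂} // k.1 ∈ N₁} => s k) rfl)
    (mu_su _ _ (fun k : {k : {k // k ∉ N₂} // ¬ k.1 ∈ N₁} => s k) rfl)
    (mu_su _ _ (fun k : {k // ¬ k ∉ N₂} => s k) rfl)
    (mu_nonneg _) (mu_nonneg _) (mu_nonneg _) (mu_le' _ hk1) (mu_le' _ hk2) (mu_le' _ hk3)
  have e3 : ∀ v, mu s v = cv (cv (mu fun k : {k : {k // k ∉ N₂} // k.1 ∈ N₁} => s k)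
      (mu fun k : {k : {k // k ∉ N₂} // ¬ k.1 ∈ N₁} => s k))
        (mu fun k : {k // ¬ k ∉ N₂} => s k) v := fun v => congrFun e1 v
  rw [← e3, ← e3] at key
  set r : ℝ := Real.sqrt (K + 1) with hr
  set R : ℝ := Real.sqrt (#N + 1) with hR
  have hr0 : 0 < r := Real.sqrt_pos.2 (by positivity)
  have hR0 : 0 < R := Real.sqrt_pos.2 (by positivity)
  have hRr : R ^ 2 ≤ 3 * r ^ 2 := by
    rw [hR, hr, Real.sq_sqrt (by positivity), Real.sq_sqrt (by positivity)]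
    have : #N + 1 ≤ 3 * (K + 1) := by omega
    exact_mod_cast this
  have hRr1 : R ≤ 7 / 4 * r := by
    have h1 : R ^ 2 ≤ (7 / 4 * r) ^ 2 := by nlinarith [sq_nonneg r]
    exact (pow_le_pow_iff_left₀ hR0.le (by positivity) two_ne_zero).1 h1
  have hP0 : 0 ≤ ∏ k, (s k : ℝ) := prod_nonneg fun k _ => Nat.cast_nonneg _
  have key2 : mu s 0 - mu s 2 ≤ 8 * (∏ k, (s k : ℝ)) / r ^ 3 := by
    refine key.trans (le_of_eq ?_)
    rw [hp]
    field_simp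
  have h3 : R ^ 3 ≤ 21 / 4 * r ^ 3 := by
    calc R ^ 3 = R ^ 2 * R := by ring
      _ ≤ (3 * r ^ 2) * (7 / 4 * r) := by gcongr
      _ = _ := by ring
  calc (mu s 0 - mu s 2) * R ^ 3 ≤ (8 * (∏ k, (s k : ℝ)) / r ^ 3) * R ^ 3 := by gcongr
    _ ≤ (8 * (∏ k, (s k : ℝ)) / r ^ 3) * (21 / 4 * r ^ 3) := by gcongr
    _ = 42 * ∏ k, (s k : ℝ) := by
        field_simp
        ring

end

end Pool.Agent.K1H13.G
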