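import Pool.Agent.K1H13.G.Dat

/-!
# Self-dual operators
-/

set_option autoImplicit false
set_option linter.unusedSectionVars false

open Finset Matrix Module

universe v

namespace Pool.Agent.K1H13.G

section Dual

variable {K V : Type v} [Field K] [AddCommGroup V] [Module K V] [Module.Finite K V]
  {β : V →ₗ[K] V →ₗ[K] K} {F : Module.End K V}

/-- adjoint operators have kernels of the same dimension -/
lemma adj_ker {A A' : Module.End K V} (hβ : ∀ x, (∀ y, β x y = 0) → x = 0)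
    (h : ∀ x y, β (A x) y = β x (A' y)) :
    finrank K (LinearMap.ker A) = finrank K (LinearMap.ker A') := by
  have hinj : Function.Injective β := by
    rw [injective_iff_map_eq_zero]
    intro x hx
    exact hβ x fun y => by rw [hx]; rfl
  have e : β ∘ₗ A = A'.dualMap ∘ₗ β := by
    ext x y
    exact h x y
  have hd : finrank K V = finrank K (Module.Dual K V) := Subspace.dual_finrank_eq.symm
  have hsurj : Function.Surjective β :=
    (LinearMap.injective_iff_surjective_of_finrank_eq_finrank hd).1 hinj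
  have h1 : finrank K (LinearMap.range A) = finrank K (LinearMap.range A') := by
    have h2 : finrank K (LinearMap.range (β ∘ₗ A)) = finrank K (LinearMap.range A) := by
      rw [LinearMap.range_comp]
      exact (Submodule.equivMapOfInjective β hinj (LinearMap.range A)).finrank_eq.symm
    have h3 : LinearMap.range (A'.dualMap ∘ₗ β) = LinearMap.range A'.dualMap := by
      rw [LinearMap.range_comp, LinearMap.range_eq_top.2 hsurj, Submodule.map_top]
    rw [← h2, e, h3, LinearMap.finrank_range_dualMap_eq_finrank_range]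
  have h4 := LinearMap.finrank_range_add_finrank_ker A
  have h5 := LinearMap.finrank_range_add_finrank_ker A'
  omega

lemma iso_inj (hβ : ∀ x, (∀ y, β x y = 0) → x = 0) (hF : ∀ x y, β (F x) (F y) = β x y) :
    Function.Injective F := by
  rw [injective_iff_map_eq_zero]
  intro x hx
  refine hβ x fun y => ?_
  rw [← hF, hx, map_zero]
  rfl

/-- **The duality of the generalised eigenspaces.** -/
lemma iso_ker (hβ : ∀ x, (∀ y, β x y = 0) → x = 0) (hF : ∀ x y, β (F x) (F y) = β x y)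
    (α : Kˣ) (k : ℕ) :
    finrank K (LinearMap.ker ((F - (α : K) • (1 : Module.End K V)) ^ k)) =
      finrank K (LinearMap.ker ((F - ((α⁻¹ : Kˣ) : K) • (1 : Module.End K V)) ^ k)) := by
  have hinj := iso_inj hβ hF
  have hbij : Function.Bijective F := ⟨hinj, LinearMap.surjective_of_injective hinj⟩
  let e := LinearEquiv.ofBijective F hbij
  set G : Module.End K V := (e.symm : V →ₗ[K] V) with hG
  have hFG : ∀ x, F (G x) = x := fun x => e.apply_symm_apply x
  have hGF : ∀ x, G (F x) = x := fun x => e.symm_apply_apply x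
  have hadj : ∀ x y, β (F x) y = β x (G y) := fun x y => by rw [← hF x (G y), hFG]
  have hadj2 : ∀ (k : ℕ) (x y : V), β (((F - (α : K) • (1 : Module.End K V)) ^ k) x) y =
      β x (((G - (α : K) • (1 : Module.End K V)) ^ k) y) := by
    intro k
    induction k with
    | zero => intro x y; simp
    | succ k ih =>
      intro x y
      rw [pow_succ, pow_succ', Module.End.mul_apply, Module.End.mul_apply, ih]
      simp only [LinearMap.sub_apply, LinearMap.smul_apply, Module.End.one_apply, map_sub,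
        map_smul, smul_eq_mul, hadj]
  rw [adj_ker hβ (hadj2 k)]
  have hcomm : Commute G (F - ((α⁻¹ : Kˣ) : K) • (1 : Module.End K V)) := by
    ext x
    simp only [Module.End.mul_apply, LinearMap.sub_apply, LinearMap.smul_apply,
      Module.End.one_apply, map_sub, map_smul, hFG, hGF]
  have e1 : G - (α : K) • (1 : Module.End K V) =
      (-(α : K)) • (G * (F - ((α⁻¹ : Kˣ) : K) • (1 : Module.End K V))) := by
    ext x
    simp only [Module.End.mul_apply, LinearMap.sub_apply, LinearMap.smul_apply,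
      Module.End.one_apply, map_sub, map_smul, hGF]
    rw [smul_sub, smul_smul, neg_mul, Units.mul_inv, neg_smul, neg_smul, one_smul]
    abel
  have hGinj : Function.Injective (G ^ k) := by
    rw [Module.End.coe_pow]
    exact e.symm.injective.iterate k
  have e2 : LinearMap.ker ((G - (α : K) • (1 : Module.End K V)) ^ k) =
      LinearMap.ker ((F - ((α⁻¹ : Kˣ) : K) • (1 : Module.End K V)) ^ k) := by
    rw [e1, smul_pow, hcomm.mul_pow]
    ext x
    rw [LinearMap.mem_ker, LinearMap.mem_ker, LinearMap.smul_apply, Module.End.mul_apply,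
      smul_eq_zero_iff_right (pow_ne_zero k (neg_ne_zero.2 α.ne_zero))]
    constructor
    · intro h
      exact hGinj (by rw [h, map_zero])
    · intro h
      rw [h, map_zero]
  rw [e2]

variable [CharZero K] [IsAlgClosed K]

/-- **The data of a self-dual operator.** -/
theorem exists_sd (hβ : ∀ x, (∀ y, β x y = 0) → x = 0) (hF : ∀ x y, β (F x) (F y) = β x y) :
    ∃ (B : Type v) (s : B → ℕ) (_ : Fintype (Σ j : B, Fin (s j)))
      (b : Basis (Σ j : B, Fin (s j)) K V) (ev : B → Kˣ)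
      (τ : (Σ j : B, Fin (s j)) → (Σ j : B, Fin (s j))),
      (∀ (j : B) (p : Fin (s j)), F (b ⟨j, p⟩) =
        (ev j : K) • (b ⟨j, p⟩ + if h : p.1 + 1 < s j then b ⟨j, ⟨p.1 + 1, h⟩⟩ else 0)) ∧
      Function.Injective τ ∧ (∀ i, ev (τ i).1 = (ev i.1)⁻¹) ∧ ∀ i, jw s (τ i) = jw s i := by
  obtain ⟨B, s, ft, b, ev, h1, h2⟩ := exists_dat F (iso_inj hβ hF)
  obtain ⟨τ, hτ⟩ := exists_tau (s := s) (ev := ev) (iv := fun a => a⁻¹) inv_injective
    (fun a k => by rw [h2, h2, iso_ker hβ hF])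
  exact ⟨B, s, ft, b, ev, τ, h1, hτ⟩

end Dual

/-- The data of a self-dual operator which preserves a parity. -/
structure JD {K V : Type v} [Field K] [AddCommGroup V] [Module K V] (V₀ V₁ : Submodule K V)
    (F : Module.End K V) where
  /-- the blocks -/
  B : Type v
  /-- the sizes -/
  s : B → ℕ
  /-- finiteness -/
  ft : Fintype (Σ j : B, Fin (s j))
  /-- the basis -/
  b : Basis (Σ j : B, Fin (s j)) K V
  /-- the eigenvalues -/
  ev : B → Kˣ
  /-- the parities -/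
  par : B → Multiplicative (ZMod 2)
  /-- the duality -/
  τ : (Σ j : B, Fin (s j)) → (Σ j : B, Fin (s j))
  hb : ∀ (j : B) (p : Fin (s j)), F (b ⟨j, p⟩) =
    (ev j : K) • (b ⟨j, p⟩ + if h : p.1 + 1 < s j then b ⟨j, ⟨p.1 + 1, h⟩⟩ else 0)
  par0 : ∀ i : Σ j : B, Fin (s j), par i.1 = 1 → b i ∈ V₀
  par1 : ∀ i : Σ j : B, Fin (s j), par i.1 ≠ 1 → b i ∈ V₁
  hτ : Function.Injective τ
  hτe : ∀ i, ev (τ i).1 = (ev i.1)⁻¹
  hτp : ∀ i, par (τ i).1 = (par i.1)⁻¹
  hτw : ∀ i, jw s (τ i) = jw s i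

section Par

variable {K V : Type v} [Field K] [AddCommGroup V] [Module K V] [Module.Finite K V]
  {β : V →ₗ[K] V →ₗ[K] K} {F : Module.End K V} [CharZero K] [IsAlgClosed K]
  {V₀ V₁ : Submodule K V}

/-- **The data of a self-dual operator which preserves a parity.** -/
theorem exists_JD (hc : IsCompl V₀ V₁) (hβ : ∀ x, (∀ y, β x y = 0) → x = 0)
    (hF : ∀ x y, β (F x) (F y) = β x y) (h0 : ∀ x ∈ V₀, F x ∈ V₀) (h1 : ∀ x ∈ V₁, F x ∈ V₁)
    (h01 : ∀ x ∈ V₀, ∀ y ∈ V₁, β x y = 0) (h10 : ∀ x ∈ V₁, ∀ y ∈ V₀, β x y = 0) :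
    Nonempty (JD V₀ V₁ F) := by
  classical
  -- the two parts
  have key : ∀ (W W' : Submodule K V) (_ : IsCompl W W') (hW : ∀ x ∈ W, F x ∈ W)
      (_ : ∀ x ∈ W, ∀ y ∈ W', β x y = 0), ∃ (B : Type v) (s : B → ℕ)
      (_ : Fintype (Σ j : B, Fin (s j)))
      (b : Basis (Σ j : B, Fin (s j)) K W) (ev : B → Kˣ)
      (τ : (Σ j : B, Fin (s j)) → (Σ j : B, Fin (s j))),
      (∀ (j : B) (p : Fin (s j)), (F.restrict hW) (b ⟨j, p⟩) =
        (ev j : K) • (b ⟨j, p⟩ + if h : p.1 + 1 < s j then b ⟨j, ⟨p.1 + 1, h⟩⟩ else 0)) ∧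
      Function.Injective τ ∧ (∀ i, ev (τ i).1 = (ev i.1)⁻¹) ∧ ∀ i, jw s (τ i) = jw s i := by
    intro W W' hWW hW hort
    refine exists_sd (β := β.domRestrict₁₂ W W) ?_ ?_
    · intro x hx
      apply Subtype.ext
      refine hβ x fun y => ?_
      obtain ⟨w, hw, w', hw', rfl⟩ := Submodule.mem_sup.1
        (show y ∈ W ⊔ W' by rw [hWW.sup_eq_top]; exact Submodule.mem_top)
      rw [map_add, hort x x.2 w' hw', add_zero]
      exact hx ⟨w, hw⟩
    · intro x y
      exact hF x y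
  obtain ⟨B₀, s₀, ft₀, b₀, ev₀, τ₀, a1, a2, a3, a4⟩ := key V₀ V₁ hc h0 h01
  obtain ⟨B₁, s₁, ft₁, b₁, ev₁, τ₁, c1, c2, c3, c4⟩ := key V₁ V₀ hc.symm h1 h10
  let E : (Σ j : B₀ ⊕ B₁, Fin (Sum.elim s₀ s₁ j)) ≃ (Σ j, Fin (s₀ j)) ⊕ (Σ j, Fin (s₁ j)) :=
    Equiv.sumSigmaDistrib (fun j => Fin (Sum.elim s₀ s₁ j))
  let b : Basis (Σ j : B₀ ⊕ B₁, Fin (Sum.elim s₀ s₁ j)) K V :=
    ((b₀.prod b₁).map (V₀.prodEquivOfIsCompl V₁ hc)).reindex E.symm
  have hbl : ∀ (j : B₀) (p : Fin (s₀ j)), b ⟨Sum.inl j, p⟩ = (b₀ ⟨j, p⟩ : V) := by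
    intro j p
    rw [Basis.reindex_apply, Basis.map_apply, Submodule.coe_prodEquivOfIsCompl']
    show (((b₀.prod b₁) (Sum.inl ⟨j, p⟩)).1 : V) + ((b₀.prod b₁) (Sum.inl ⟨j, p⟩)).2 = _
    rw [Basis.prod_apply_inl_fst, Basis.prod_apply_inl_snd]
    simp
  have hbr : ∀ (j : B₁) (p : Fin (s₁ j)), b ⟨Sum.inr j, p⟩ = (b₁ ⟨j, p⟩ : V) := by
    intro j p
    rw [Basis.reindex_apply, Basis.map_apply, Submodule.coe_prodEquivOfIsCompl']
    show (((b₀.prod b₁) (Sum.inr ⟨j, p⟩)).1 : V) + ((b₀.prod b₁) (Sum.inr ⟨j, p⟩)).2 = _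
    rw [Basis.prod_apply_inr_fst, Basis.prod_apply_inr_snd]
    simp
  have hpar : (Multiplicative.ofAdd (1 : ZMod 2)) ≠ 1 := by decide
  refine ⟨{
    B := B₀ ⊕ B₁
    s := Sum.elim s₀ s₁
    ft := Fintype.ofEquiv _ E.symm
    b := b
    ev := Sum.elim ev₀ ev₁
    par := Sum.elim (fun _ => 1) (fun _ => Multiplicative.ofAdd 1)
    τ := fun i => match i with
      | ⟨Sum.inl j, p⟩ => ⟨Sum.inl (τ₀ ⟨j, p⟩).1, (τ₀ ⟨j, p⟩).2⟩
      | ⟨Sum.inr j, p⟩ => ⟨Sum.inr (τ₁ ⟨j, p⟩).1, (τ₁ ⟨j, p⟩).2⟩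
    hb := ?_
    par0 := ?_
    par1 := ?_
    hτ := ?_
    hτe := ?_
    hτp := ?_
    hτw := ?_ }⟩
  · rintro (j | j) p
    · refine (congrArg F (hbl j p)).trans ((congrArg Subtype.val (a1 j p)).trans ?_)
      show (ev₀ j : K) • ((b₀ ⟨j, p⟩ : V) +
        ((if h : p.1 + 1 < s₀ j then b₀ ⟨j, ⟨p.1 + 1, h⟩⟩ else 0 : V₀) : V)) = (ev₀ j : K) • _
      refine congrArg (fun z => (ev₀ j : K) • z) (congrArg₂ (· + ·) (hbl j p).symm ?_)
      by_cases h : p.1 + 1 < s₀ j
      · refine (congrArg Subtype.val (dif_pos h)).trans (Eq.symm ?_)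
        exact (dif_pos h).trans (hbl j ⟨p.1 + 1, h⟩)
      · refine (congrArg Subtype.val (dif_neg h)).trans (Eq.symm ?_)
        exact dif_neg h
    · refine (congrArg F (hbr j p)).trans ((congrArg Subtype.val (c1 j p)).trans ?_)
      show (ev₁ j : K) • ((b₁ ⟨j, p⟩ : V) +
        ((if h : p.1 + 1 < s₁ j then b₁ ⟨j, ⟨p.1 + 1, h⟩⟩ else 0 : V₁) : V)) = (ev₁ j : K) • _
      refine congrArg (fun z => (ev₁ j : K) • z) (congrArg₂ (· + ·) (hbr j p).symm ?_)
      by_cases h : p.1 + 1 < s₁ j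
      · refine (congrArg Subtype.val (dif_pos h)).trans (Eq.symm ?_)
        exact (dif_pos h).trans (hbr j ⟨p.1 + 1, h⟩)
      · refine (congrArg Subtype.val (dif_neg h)).trans (Eq.symm ?_)
        exact dif_neg h
  · rintro ⟨j | j, p⟩ h
    · exact Set.mem_of_eq_of_mem (hbl j p) (b₀ ⟨j, p⟩).2
    · exact absurd h hpar
  · rintro ⟨j | j, p⟩ h
    · exact absurd rfl h
    · exact Set.mem_of_eq_of_mem (hbr j p) (b₁ ⟨j, p⟩).2
  · rintro ⟨j | j, p⟩ ⟨j' | j', p'⟩ h
    · have h2 : τ₀ ⟨j, p⟩ = τ₀ ⟨j', p'⟩ := by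
        have h3 := congrArg E h
        exact Sum.inl_injective h3
      have h4 := a2 h2
      injection h4 with h5 h6
      subst h5
      rw [eq_of_heq h6]
    · have h3 := congrArg E h
      exact absurd h3 (by intro h9; exact Sum.inl_ne_inr h9)
    · have h3 := congrArg E h
      exact absurd h3 (by intro h9; exact Sum.inr_ne_inl h9)
    · have h2 : τ₁ ⟨j, p⟩ = τ₁ ⟨j', p'⟩ := by
        have h3 := congrArg E h
        exact Sum.inr_injective h3
      have h4 := c2 h2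
      injection h4 with h5 h6
      subst h5
      rw [eq_of_heq h6]
  · rintro ⟨j | j, p⟩
    · exact a3 ⟨j, p⟩
    · exact c3 ⟨j, p⟩
  · rintro ⟨j | j, p⟩
    · show (1 : Multiplicative (ZMod 2)) = 1⁻¹
      rw [inv_one]
    · show Multiplicative.ofAdd (1 : ZMod 2) = (Multiplicative.ofAdd (1 : ZMod 2))⁻¹
      decide
  · rintro ⟨j | j, p⟩
    · exact a4 ⟨j, p⟩
    · exact c4 ⟨j, p⟩

end Par

end Pool.Agent.K1H13.G
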