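import Pool.Agent.K1H13.G.One

/-!
# The law for the tensor powers of a space with an isometry
-/

set_option autoImplicit false
set_option linter.unusedSectionVars false

open Finset Matrix Module
open scoped TensorProduct

universe v

namespace Pool.Agent.K1H13.G

section Rank

variable {K W : Type v} [Field K] [AddCommGroup W] [Module K W]

/-- the rank of a form on a subspace -/
noncomputable def rankOn (β : W →ₗ[K] W →ₗ[K] K) (Z : Submodule K W) : ℕ :=
  finrank K (LinearMap.range (β.domRestrict₁₂ Z Z))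

lemma rankOn_mono [Module.Finite K W] (β : W →ₗ[K] W →ₗ[K] K) {Z T : Submodule K W} (h : Z ≤ T) :
    rankOn β Z ≤ rankOn β T := by
  unfold rankOn
  have e : β.domRestrict₁₂ Z Z = ((Submodule.inclusion h).dualMap ∘ₗ β.domRestrict₁₂ T T) ∘ₗ
      Submodule.inclusion h := by
    ext x y
    rfl
  rw [e]
  refine (Submodule.finrank_mono (LinearMap.range_comp_le_range _ _)).trans ?_
  rw [LinearMap.range_comp]
  exact Submodule.finrank_map_le _ _

lemma rankOn_add [Module.Finite K W] (β : W →ₗ[K] W →ₗ[K] K) (Z : Submodule K W) :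
    rankOn β Z + Set.finrank K {z | z ∈ Z ∧ ∀ y ∈ Z, β z y = 0} = finrank K Z := by
  have h := LinearMap.finrank_range_add_finrank_ker (β.domRestrict₁₂ Z Z)
  have e : {z | z ∈ Z ∧ ∀ y ∈ Z, β z y = 0} =
      ((LinearMap.ker (β.domRestrict₁₂ Z Z)).map Z.subtype : Set W) := by
    ext z
    constructor
    · rintro ⟨h1, h2⟩
      refine ⟨⟨z, h1⟩, ?_, rfl⟩
      apply LinearMap.mem_ker.2
      ext y
      exact h2 y y.2
    · rintro ⟨z, hz, rfl⟩
      refine ⟨z.2, fun y hy => ?_⟩
      have := congrArg (fun g => g ⟨y, hy⟩) (LinearMap.mem_ker.1 hz)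
      exact this
  rw [Set.finrank, e, Submodule.span_eq, Submodule.finrank_map_subtype_eq]
  exact h

lemma rankOn_span [Module.Finite K W] [CharZero K] {W₀ : Submodule K W} {Φ : Module.End K W}
    {J A : Type v} [Fintype J] [DecidableEq J] [CommGroup A] (C : CD W₀ Φ J A)
    (β : W →ₗ[K] W →ₗ[K] K) : rankOn β (Submodule.span K (tateS W₀ Φ)) +
      Set.finrank K (radS W₀ Φ β) = Set.finrank K (tateS W₀ Φ) := by
  have e : ∀ z, z ∈ Submodule.span K (tateS W₀ Φ) ↔ z ∈ tateS W₀ Φ := by
    have h1 : tateS W₀ Φ = ((fixU C.U C.lam 1).map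
        (C.c.equivFun.symm : (J → K) →ₗ[K] W) : Set W) := by
      ext z
      rw [C.tate_iff]
      constructor
      · intro hz
        exact ⟨C.c.equivFun z, hz, C.c.equivFun.symm_apply_apply z⟩
      · rintro ⟨y, hy, rfl⟩
        rwa [show C.c.equivFun ((C.c.equivFun.symm : (J → K) →ₗ[K] W) y) = y from
          C.c.equivFun.apply_symm_apply y]
    intro z
    rw [h1, Submodule.span_eq]
    rfl
  have h := rankOn_add β (Submodule.span K (tateS W₀ Φ))
  have e2 : {z | z ∈ Submodule.span K (tateS W₀ Φ) ∧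
      ∀ y ∈ Submodule.span K (tateS W₀ Φ), β z y = 0} = radS W₀ Φ β := by
    ext z
    show (_ ∧ _) ↔ (_ ∧ _)
    rw [e]
    refine and_congr_right fun _ => ?_
    exact forall_congr' fun y => by rw [e]
  rw [e2] at h
  exact h

end Rank

section Tens

variable {K V : Type v} [Field K] [AddCommGroup V] [Module K V]

/-- the operator on the tensor power -/
noncomputable def frT (F : Module.End K V) (n : ℕ) : Module.End K (⨂[K] (_ : Fin n), V) :=
  PiTensorProduct.map fun _ => F

/-- the form on the tensor power -/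
noncomputable def foT (β : V →ₗ[K] V →ₗ[K] K) (n : ℕ) :
    (⨂[K] (_ : Fin n), V) →ₗ[K] (⨂[K] (_ : Fin n), V) →ₗ[K] K :=
  PiTensorProduct.dualDistrib ∘ₗ PiTensorProduct.map fun _ => β

lemma foT_tprod (β : V →ₗ[K] V →ₗ[K] K) {n : ℕ} (x y : Fin n → V) :
    foT β n (PiTensorProduct.tprod K x) (PiTensorProduct.tprod K y) = ∏ i, β (x i) (y i) := by
  rw [foT, LinearMap.comp_apply, PiTensorProduct.map_tprod, PiTensorProduct.dualDistrib_apply]

lemma frT_tprod (F : Module.End K V) {n : ℕ} (x : Fin n → V) :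
    frT F n (PiTensorProduct.tprod K x) = PiTensorProduct.tprod K fun i => F (x i) :=
  PiTensorProduct.map_tprod _ _

lemma foT_frT {β : V →ₗ[K] V →ₗ[K] K} {F : Module.End K V} (h : ∀ x y, β (F x) (F y) = β x y)
    (n : ℕ) (x y : ⨂[K] (_ : Fin n), V) : foT β n (frT F n x) (frT F n y) = foT β n x y := by
  have e : (foT β n).compl₁₂ (frT F n) (frT F n) = foT β n := by
    ext x y
    simp only [LinearMap.compMultilinearMap_apply, LinearMap.compl₁₂_apply, frT_tprod, foT_tprod,
      h]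
  exact congrArg (fun g => g x y) e

variable [Module.Finite K V]

lemma foT_nondeg {β : V →ₗ[K] V →ₗ[K] K} (hβ : ∀ x, (∀ y, β x y = 0) → x = 0) (n : ℕ)
    {z : ⨂[K] (_ : Fin n), V} (h : ∀ x, foT β n x z = 0) : z = 0 := by
  have hinj : Function.Injective β := by
    rw [injective_iff_map_eq_zero]
    intro x hx
    exact hβ x fun y => by rw [hx]; rfl
  have hsurj : Function.Surjective β :=
    (LinearMap.injective_iff_surjective_of_finrank_eq_finrank
      Subspace.dual_finrank_eq.symm).1 hinj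
  let e : V ≃ₗ[K] Module.Dual K V := LinearEquiv.ofBijective β ⟨hinj, hsurj⟩
  have h1 : ∀ f : Module.Dual K (⨂[K] (_ : Fin n), V), f z = 0 := by
    intro f
    obtain ⟨g, rfl⟩ := (PiTensorProduct.dualDistribEquiv (R := K)
      (M := fun _ : Fin n => V)).surjective f
    obtain ⟨x, rfl⟩ := (PiTensorProduct.congr fun _ : Fin n => e).surjective g
    exact h x
  exact (Module.forall_dual_apply_eq_zero_iff K z).1 h1

variable [CharZero K]

/-- the coordinates on the tensor power -/
lemma exists_cdT {F : Module.End K V} (D : JD (⊤ : Submodule K V) ⊥ F) (n : ℕ) :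
    ∃ C : CD (⊤ : Submodule K (⨂[K] (_ : Fin n), V)) (frT F n)
      (Fin n → Σ j : D.B, Fin (D.s j)) (LG K), C.ω = wt (jw D.s) ∧ C.lam = lb D.lab := by
  classical
  refine D.exists_cd (Basis.piTensorProduct fun _ => D.b) ?_ ?_
  · ext y x
    rw [LinearMap.toMatrix_apply, Basis.piTensorProduct_apply, frT_tprod,
      Basis.piTensorProduct_repr_tprod_apply, powMat]
    refine prod_congr rfl fun k _ => ?_
    rw [LinearMap.toMatrix_apply]
  · intro z
    refine ⟨fun _ x _ => ?_, fun _ => Submodule.mem_top⟩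
    refine prod_eq_one fun k _ => ?_
    by_contra hp
    have := D.par1 (x k) hp
    rw [Submodule.mem_bot] at this
    exact D.b.ne_zero _ this

lemma JD.semisimple {V₀ V₁ : Submodule K V} {F : Module.End K V} (D : JD V₀ V₁ F)
    (h : ∀ i, jw D.s i = 0) (α : K) : F.maxGenEigenspace α = F.eigenspace α := by
  refine le_antisymm ?_ ((F.genEigenspace α).mono le_top)
  intro x hx
  rw [Module.End.mem_maxGenEigenspace] at hx
  obtain ⟨k, hk⟩ := hx
  have h1 : ∀ (k : ℕ) (x : V) (i : Σ j : D.B, Fin (D.s j)),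
      D.b.repr (((F - α • (1 : Module.End K V)) ^ k) x) i =
        ((D.ev i.1 : K) - α) ^ k * D.b.repr x i := by
    have h2 : ∀ (x : V) (i : Σ j : D.B, Fin (D.s j)),
        D.b.repr ((F - α • (1 : Module.End K V)) x) i = ((D.ev i.1 : K) - α) * D.b.repr x i := by
      intro x i
      have e : (D.b.coord i) ∘ₗ (F - α • (1 : Module.End K V)) =
          ((D.ev i.1 : K) - α) • D.b.coord i := by
        refine D.b.ext fun j => ?_
        rw [LinearMap.comp_apply, LinearMap.sub_apply, LinearMap.smul_apply,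
          Module.End.one_apply, D.apply_eq h, ← sub_smul, map_smul, LinearMap.smul_apply,
          Basis.coord_apply, Basis.repr_self]
        by_cases hij : j = i
        · rw [hij]
        · rw [Finsupp.single_eq_of_ne (Ne.symm hij), smul_zero, smul_zero]
      exact congrArg (fun g => g x) e
    intro k
    induction k with
    | zero => intro x i; simp
    | succ k ih => intro x i; rw [pow_succ, Module.End.mul_apply, ih, h2, pow_succ]; ring
  rw [Module.End.mem_eigenspace_iff]
  apply D.b.repr.injective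
  ext i
  have h2 := h1 k x i
  rw [hk, map_zero, Finsupp.zero_apply] at h2
  have h3 := h1 1 x i
  rw [pow_one, pow_one, LinearMap.sub_apply, map_sub, Finsupp.sub_apply, LinearMap.smul_apply,
    Module.End.one_apply] at h3
  have h4 : ((D.ev i.1 : K) - α) * D.b.repr x i = 0 := by
    rcases mul_eq_zero.1 h2.symm with h5 | h5
    · have hk0 : k ≠ 0 := by
        rintro rfl
        rw [pow_zero] at h5; exact absurd h5 one_ne_zero
      rw [pow_eq_zero_iff hk0] at h5
      rw [h5, zero_mul]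
    · rw [h5, mul_zero]
  rw [h4, sub_eq_zero] at h3
  exact h3

lemma JD.not_semisimple {V₀ V₁ : Submodule K V} {F : Module.End K V} (D : JD V₀ V₁ F)
    (h : ∀ α, F.maxGenEigenspace α = F.eigenspace α) (i : Σ j : D.B, Fin (D.s j)) :
    jw D.s i = 0 := by
  obtain ⟨j, p⟩ := i
  by_contra hne
  unfold jw at hne
  simp only at hne
  have h1 : 2 ≤ D.s j := by have := p.2; omega
  have e1 := D.hb j ⟨D.s j - 2, by omega⟩
  rw [dif_pos (show D.s j - 2 + 1 < D.s j by omega)] at e1
  have e2 := D.hb j ⟨D.s j - 2 + 1, by omega⟩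
  rw [dif_neg (show ¬ D.s j - 2 + 1 + 1 < D.s j by omega), add_zero] at e2
  set u := D.b ⟨j, ⟨D.s j - 2, by omega⟩⟩ with hu
  set w := D.b ⟨j, ⟨D.s j - 2 + 1, by omega⟩⟩ with hw
  have h2 : u ∈ F.maxGenEigenspace (D.ev j : K) := by
    rw [Module.End.mem_maxGenEigenspace]
    refine ⟨2, ?_⟩
    have e3 : (F - (D.ev j : K) • (1 : Module.End K V)) u = (D.ev j : K) • w := by
      rw [LinearMap.sub_apply, LinearMap.smul_apply, Module.End.one_apply, e1, smul_add,
        add_sub_cancel_left]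
    have e4 : (F - (D.ev j : K) • (1 : Module.End K V)) w = 0 := by
      rw [LinearMap.sub_apply, LinearMap.smul_apply, Module.End.one_apply, e2, sub_self]
    rw [pow_two, Module.End.mul_apply, e3, map_smul, e4, smul_zero]
  rw [h, Module.End.mem_eigenspace_iff, e1, smul_add] at h2
  have h3 : (D.ev j : K) • w = 0 := by
    have := congrArg (fun z => z - (D.ev j : K) • u) h2
    simpa using this
  exact (smul_ne_zero (D.ev j).ne_zero (D.b.ne_zero _)) h3

variable [IsAlgClosed K]

/-- **The law for the tensor powers.** -/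
theorem ten_ss {β : V →ₗ[K] V →ₗ[K] K} {F : Module.End K V}
    (hβ : ∀ x, (∀ y, β x y = 0) → x = 0) (hF : ∀ x y, β (F x) (F y) = β x y)
    (hss : ∀ α, F.maxGenEigenspace α = F.eigenspace α) (n : ℕ) :
    Set.finrank K (genS ⊤ (frT F n)) = Set.finrank K (tateS ⊤ (frT F n)) ∧
    rankOn (foT β n) (Submodule.span K (tateS ⊤ (frT F n))) =
      Set.finrank K (tateS ⊤ (frT F n)) := by
  classical
  obtain ⟨D⟩ := exists_JD (β := β) (F := F) (V₀ := ⊤) (V₁ := ⊥) isCompl_top_bot hβ hF
    (fun x _ => Submodule.mem_top) (fun x hx => by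
      rw [Submodule.mem_bot] at hx ⊢; rw [hx, map_zero])
    (fun x _ y hy => by rw [Submodule.mem_bot] at hy; rw [hy, map_zero])
    (fun x hx y _ => by rw [Submodule.mem_bot] at hx; rw [hx, map_zero]; rfl)
  obtain ⟨C, hω, hlam⟩ := exists_cdT D n
  have hw : ∀ x : Fin n → Σ j : D.B, Fin (D.s j), wt (jw D.s) x = 0 := fun x =>
    sum_eq_zero fun k _ => D.not_semisimple hss _
  have hn0 : ∀ v : ℤ, v ≠ 0 → num C.ω C.lam 1 v = 0 := by
    intro v hv
    unfold num nS
    refine card_eq_zero.2 (eq_empty_of_forall_notMem fun x hx => ?_)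
    simp only [mem_filter] at hx
    have h1 := hx.2.1
    rw [hω, hw] at h1
    exact hv h1.symm
  have hn1 : num C.ω C.lam 1 0 = nS fun x => C.lam x = 1 := by
    unfold num nS
    congr 1
    ext x
    simp only [mem_filter, mem_univ, true_and, hω, hw]
  have h1 : Module.Finite K (⨂[K] (_ : Fin n), V) := Module.Finite.of_basis C.c
  have h2 := rankOn_span C (foT β n)
  rw [C.finrank_rad (foT_frT hF n) (fun z _ h => foT_nondeg hβ n fun x => h x Submodule.mem_top),
    hn0 1 one_ne_zero, hn0 2 two_ne_zero, add_zero, add_zero] at h2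
  refine ⟨?_, h2⟩
  rw [C.finrank_gen, C.finrank_tate, hn0 1 one_ne_zero, add_zero, hn1]

/-- **The law for the tensor powers.** -/
theorem ten_law (b : ℕ) : ∃ C : ℝ, 0 < C ∧ ∀ {K V : Type v} [Field K] [CharZero K] [IsAlgClosed K]
    [AddCommGroup V] [Module K V] [Module.Finite K V] {β : V →ₗ[K] V →ₗ[K] K}
    {F : Module.End K V}, finrank K V = b → (∀ x, (∀ y, β x y = 0) → x = 0) →
    (∀ x y, β (F x) (F y) = β x y) → (∃ x ∈ tateS ⊤ F, ∃ y ∈ tateS ⊤ F, β x y ≠ 0) →
    (¬ ∀ α, F.maxGenEigenspace α = F.eigenspace α) → ∀ n : ℕ, 1 ≤ n →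
    (Set.finrank K (genS ⊤ (frT F n)) : ℝ) ≤
      C * Real.sqrt n * Set.finrank K (tateS ⊤ (frT F n)) ∧
    (Set.finrank K (tateS ⊤ (frT F n)) : ℝ) * Real.sqrt n ≤
      C * Set.finrank K (genS ⊤ (frT F n)) ∧
    (Set.finrank K (genS ⊤ (frT F n)) : ℝ) ≤ C * Real.sqrt n ^ 3 *
      rankOn (foT β n) (Submodule.span K (tateS ⊤ (frT F n))) ∧
    (rankOn (foT β n) (Submodule.span K (tateS ⊤ (frT F n))) : ℝ) * Real.sqrt n ^ 3 ≤
      C * Set.finrank K (genS ⊤ (frT F n)) := by
  obtain ⟨C, hC0, hC⟩ := jd_law.{v} b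
  refine ⟨C, hC0, ?_⟩
  intro K V _ _ _ _ _ _ β F hb hβ hF hxy hns n hn
  obtain ⟨D⟩ := exists_JD (β := β) (F := F) (V₀ := ⊤) (V₁ := ⊥) isCompl_top_bot hβ hF
    (fun x _ => Submodule.mem_top) (fun x hx => by
      rw [Submodule.mem_bot] at hx ⊢; rw [hx, map_zero])
    (fun x _ y hy => by rw [Submodule.mem_bot] at hy; rw [hy, map_zero])
    (fun x hx y _ => by rw [Submodule.mem_bot] at hx; rw [hx, map_zero]; rfl)
  obtain ⟨C', hω, hlam⟩ := exists_cdT D n
  obtain ⟨j₀, h1, h2⟩ := D.exists_j₀ isCompl_top_bot hF hxy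
  have hcard : Fintype.card (Σ j : D.B, Fin (D.s j)) = b := by
    rw [← hb, finrank_eq_card_basis D.b]
  have hne : ∃ i, jw D.s i ≠ 0 := by
    by_contra hcon
    push Not at hcon
    exact hns (D.semisimple hcon)
  have h3 := hC D hcard hne h1 h2 n hn (β := foT β n) C' hω hlam (foT_frT hF n)
    (fun z _ h => foT_nondeg hβ n fun x => h x Submodule.mem_top)
  have h4 : Module.Finite K (⨂[K] (_ : Fin n), V) := Module.Finite.of_basis C'.c
  have h5 : (Set.finrank K (tateS ⊤ (frT F n)) : ℝ) - Set.finrank K (radS ⊤ (frT F n) (foT β n)) =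
      rankOn (foT β n) (Submodule.span K (tateS ⊤ (frT F n))) := by
    rw [← rankOn_span C' (foT β n)]
    push_cast
    ring
  rw [h5] at h3
  exact h3

/-- **The growth of the spaces of the generalised Tate classes.** -/
theorem ten_growth {β : V →ₗ[K] V →ₗ[K] K} {F : Module.End K V}
    (hβ : ∀ x, (∀ y, β x y = 0) → x = 0) (hF : ∀ x y, β (F x) (F y) = β x y)
    (hxy : ∃ x ∈ tateS ⊤ F, ∃ y ∈ tateS ⊤ F, β x y ≠ 0) (n : ℕ) :
    finrank K V ^ n ≤ finrank K V * (n + 1) ^ finrank K V *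
      Set.finrank K (genS ⊤ (frT F n)) := by
  classical
  obtain ⟨D⟩ := exists_JD (β := β) (F := F) (V₀ := ⊤) (V₁ := ⊥) isCompl_top_bot hβ hF
    (fun x _ => Submodule.mem_top) (fun x hx => by
      rw [Submodule.mem_bot] at hx ⊢; rw [hx, map_zero])
    (fun x _ y hy => by rw [Submodule.mem_bot] at hy; rw [hy, map_zero])
    (fun x hx y _ => by rw [Submodule.mem_bot] at hx; rw [hx, map_zero]; rfl)
  obtain ⟨C', hω, hlam⟩ := exists_cdT D n
  obtain ⟨j₀, h1, h2⟩ := D.exists_j₀ isCompl_top_bot hF hxy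
  have h3 := growth (lab := fun i : Σ j : D.B, Fin (D.s j) => D.lj i.1) D.hτ
    (fun i => Prod.ext (by
      show (QuotientGroup.mk (D.ev (D.τ i).1) : Kˣ ⧸ CommGroup.torsion Kˣ) = _
      rw [D.hτe]
      rfl) (D.hτp i)) ⟨⟨j₀, ⟨0, by omega⟩⟩, h2⟩ n
  have e3 : Set.finrank K (genS ⊤ (frT F n)) =
      #(OK (fun i : Σ j : D.B, Fin (D.s j) => D.lj i.1) n) := by
    rw [C'.finrank_gen, hlam]
    congr 1
  rw [e3, finrank_eq_card_basis D.b]
  exact h3

end Tens

end Pool.Agent.K1H13.G
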