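import Mathlib

/-!
# Convolutions of symmetric unimodal functions on the integers
-/

set_option autoImplicit false
set_option linter.unusedSectionVars false

open Finset

namespace Pool.Agent.K1H13.G

lemma tsum_shift (f : ℤ → ℝ) (c : ℤ) : ∑' u, f (u + c) = ∑' u, f u :=
  (Equiv.addRight c).tsum_eq f

lemma tsum_refl (f : ℤ → ℝ) (c : ℤ) : ∑' u, f (c - u) = ∑' u, f u :=
  (Equiv.subLeft c).tsum_eq f

lemma fs_shift {f : ℤ → ℝ} (hf : f.support.Finite) (c : ℤ) :
    (fun u => f (u + c)).support.Finite := by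
  have h : (fun u => f (u + c)).support = (Equiv.addRight c) ⁻¹' f.support := rfl
  rw [h]
  exact hf.preimage (Equiv.addRight c).injective.injOn

lemma fs_refl {f : ℤ → ℝ} (hf : f.support.Finite) (c : ℤ) :
    (fun u => f (c - u)).support.Finite := by
  have h : (fun u => f (c - u)).support = (Equiv.subLeft c) ⁻¹' f.support := rfl
  rw [h]
  exact hf.preimage (Equiv.subLeft c).injective.injOn

lemma fs_mul {f : ℤ → ℝ} (hf : f.support.Finite) (g : ℤ → ℝ) :
    (fun u => g u * f u).support.Finite := by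
  refine hf.subset fun u hu => ?_
  rw [Function.mem_support] at hu ⊢
  exact right_ne_zero_of_mul hu

lemma fs_sub {f g : ℤ → ℝ} (hf : f.support.Finite) (hg : g.support.Finite) :
    (fun u => f u - g u).support.Finite := by
  refine (hf.union hg).subset fun u hu => ?_
  rw [Function.mem_support] at hu
  by_contra hc
  rw [Set.mem_union, not_or, Function.notMem_support, Function.notMem_support] at hc
  rw [hc.1, hc.2, sub_zero] at hu
  exact hu rfl

lemma sm {f : ℤ → ℝ} (hf : f.support.Finite) : Summable f := summable_of_finite_support hf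

/-- summation by parts -/
lemma abel (θ : ℤ → ℝ) {G : ℤ → ℝ} (hG : G.support.Finite) :
    ∑' u, θ u * (G u - G (u + 2)) = ∑' u, (θ u - θ (u - 2)) * G u := by
  have h1 : ∑' u, θ u * (G u - G (u + 2)) = ∑' u, θ u * G u - ∑' u, θ u * G (u + 2) := by
    rw [← (sm (fs_mul hG θ)).tsum_sub (sm (fs_mul (fs_shift hG 2) θ))]
    exact tsum_congr fun u => by ring
  have h2 : ∑' u, θ u * G (u + 2) = ∑' u, θ (u - 2) * G u := by
    rw [← tsum_shift (fun u => θ (u - 2) * G u) 2]
    exact tsum_congr fun u => by rw [add_sub_cancel_right]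
  have h3 : ∑' u, (θ u - θ (u - 2)) * G u = ∑' u, θ u * G u - ∑' u, θ (u - 2) * G u := by
    rw [← (sm (fs_mul hG θ)).tsum_sub (sm (fs_mul hG fun u => θ (u - 2)))]
    exact tsum_congr fun u => by ring
  rw [h1, h2, h3]

/-- symmetric unimodal functions -/
structure SU (G : ℤ → ℝ) : Prop where
  fin : G.support.Finite
  symm : ∀ u, G (-u) = G u
  mono : ∀ u, -1 ≤ u → G (u + 2) ≤ G u

/-- the total variation -/
lemma SU.tv {G : ℤ → ℝ} (h : SU G) : ∑' u, |G u - G (u + 2)| = 2 * G 0 + 2 * G 1 := by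
  set θ : ℤ → ℝ := fun u => if u < -1 then -1 else if u = -1 then 0 else 1 with hθ
  have h1 : ∀ u, |G u - G (u + 2)| = θ u * (G u - G (u + 2)) := by
    intro u
    simp only [hθ]
    split_ifs with h1 h2
    · have h3 := h.mono (-u - 2) (by omega)
      have h4 : G (-u - 2 + 2) = G u := by rw [sub_add_cancel, h.symm]
      have h5 : G (-u - 2) = G (u + 2) := by rw [← h.symm (u + 2)]; congr 1; ring
      rw [h4, h5] at h3
      rw [abs_of_nonpos (by linarith)]
      ring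
    · subst h2
      have h4 : G (-1 + 2) = G (-1) := by rw [h.symm 1]; norm_num
      rw [h4, sub_self, abs_zero, zero_mul]
    · have h3 := h.mono u (by omega)
      rw [abs_of_nonneg (by linarith), one_mul]
  rw [tsum_congr h1, abel θ h.fin, tsum_eq_sum (s := {-1, 0, 1})]
  · rw [sum_insert (by decide), sum_insert (by decide), sum_singleton, h.symm 1]
    simp only [hθ]
    norm_num
    ring
  · intro u hu
    simp only [mem_insert, mem_singleton, not_or] at hu
    have h2 : θ u - θ (u - 2) = 0 := by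
      simp only [hθ]
      obtain ⟨h3, h4, h5⟩ := hu
      rcases lt_or_gt_of_ne h4 with h6 | h6
      · rw [if_pos (by omega), if_pos (by omega)]
        ring
      · rw [if_neg (by omega), if_neg (by omega), if_neg (by omega), if_neg (by omega)]
        ring
    rw [h2, zero_mul]

/-- the convolution -/
noncomputable def cv (f g : ℤ → ℝ) (v : ℤ) : ℝ := ∑' u, f u * g (v - u)

/-- **The first difference of a convolution at the origin.** -/
lemma cv_diff {F G : ℤ → ℝ} (hF : F.support.Finite) (hG : G.support.Finite)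
    (hFs : ∀ u, F (-u) = F u) (hGs : ∀ u, G (-u) = G u) :
    cv F G 0 - cv F G 2 = 1 / 2 * ∑' u, (F u - F (u + 2)) * (G u - G (u + 2)) := by
  have e0 : cv F G 0 = ∑' u, F u * G u := tsum_congr fun u => by rw [zero_sub, hGs]
  have e1 : cv F G 2 = ∑' u, F (u + 2) * G u := by
    unfold cv
    rw [← tsum_shift (fun u => F u * G (2 - u)) 2]
    exact tsum_congr fun u => by rw [← hGs u]; congr 2; ring
  have e2 : cv F G 2 = ∑' u, F u * G (u + 2) := by
    unfold cv
    rw [← tsum_refl (fun u => F u * G (2 - u)) 0]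
    exact tsum_congr fun u => by rw [zero_sub, hFs]; congr 2; ring
  have e3 : ∑' u, F u * G u = ∑' u, F (u + 2) * G (u + 2) :=
    (tsum_shift (fun u => F u * G u) 2).symm
  have h1 : ∑' u, (F u - F (u + 2)) * (G u - G (u + 2)) =
      (∑' u, F u * G u - ∑' u, F u * G (u + 2)) -
        (∑' u, F (u + 2) * G u - ∑' u, F (u + 2) * G (u + 2)) := by
    rw [← (sm (fs_mul hG F)).tsum_sub (sm (fs_mul (fs_shift hG 2) F)),
      ← (sm (fs_mul hG fun u => F (u + 2))).tsum_sub
        (sm (fs_mul (fs_shift hG 2) fun u => F (u + 2))),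
      ← (sm (fs_sub (fs_mul hG F) (fs_mul (fs_shift hG 2) F))).tsum_sub
        (sm (fs_sub (fs_mul hG fun u => F (u + 2))
          (fs_mul (fs_shift hG 2) fun u => F (u + 2))))]
    exact tsum_congr fun u => by ring
  rw [h1, ← e0, ← e2, ← e1, ← e3, ← e0]
  ring

lemma cv_fin {f g : ℤ → ℝ} (hf : f.support.Finite) (hg : g.support.Finite) :
    (cv f g).support.Finite := by
  have h : (cv f g).support ⊆ (fun p : ℤ × ℤ => p.1 + p.2) '' (f.support ×ˢ g.support) := by
    intro v hv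
    by_contra hc
    apply hv
    unfold cv
    have : ∀ u, f u * g (v - u) = 0 := by
      intro u
      by_contra hne
      apply hc
      exact ⟨(u, v - u), ⟨left_ne_zero_of_mul hne, right_ne_zero_of_mul hne⟩, by simp⟩
    rw [tsum_congr this, tsum_zero]
  exact ((hf.prod hg).image _).subset h

lemma cv_symm {f g : ℤ → ℝ} (hf : ∀ u, f (-u) = f u) (hg : ∀ u, g (-u) = g u) (v : ℤ) :
    cv f g (-v) = cv f g v := by
  unfold cv
  rw [← tsum_refl (fun u => f u * g (-v - u)) 0]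
  exact tsum_congr fun u => by rw [zero_sub, hf, ← hg (v - u)]; congr 2; ring

/-- the first differences of a convolution -/
lemma cv_diff_le {f g : ℤ → ℝ} (hf0 : ∀ u, 0 ≤ f u) {m : ℝ} (hm : ∀ u, f u ≤ m)
    (hf : f.support.Finite) (hg : SU g) (v : ℤ) :
    |cv f g v - cv f g (v + 2)| ≤ m * (2 * g 0 + 2 * g 1) := by
  have h1 : cv f g v - cv f g (v + 2) = ∑' u, f u * (g (v - u) - g (v + 2 - u)) := by
    unfold cv
    rw [← (sm (fs_mul (fs_refl hg.fin v) f)).tsum_sub (sm (fs_mul (fs_refl hg.fin (v + 2)) f))]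
    exact tsum_congr fun u => by ring
  have hd : (fun u => |g (v - u) - g (v + 2 - u)|).support.Finite := by
    refine (fs_sub (fs_refl hg.fin v) (fs_refl hg.fin (v + 2))).subset fun u hu => ?_
    rw [Function.mem_support] at hu ⊢
    intro h0
    apply hu
    rw [h0, abs_zero]
  rw [h1]
  have hsum : Summable fun u => f u * (g (v - u) - g (v + 2 - u)) :=
    sm (fs_mul (fs_sub (fs_refl hg.fin v) (fs_refl hg.fin (v + 2))) f)
  have h2 : |∑' u, f u * (g (v - u) - g (v + 2 - u))| ≤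
      ∑' u, |f u * (g (v - u) - g (v + 2 - u))| := by
    have := norm_tsum_le_tsum_norm (f := fun u => f u * (g (v - u) - g (v + 2 - u))) hsum.norm
    simpa [Real.norm_eq_abs] using this
  refine h2.trans ?_
  have h3 : ∑' u, |f u * (g (v - u) - g (v + 2 - u))| ≤
      ∑' u, m * |g (v - u) - g (v + 2 - u)| := by
    refine (hsum.abs).tsum_le_tsum (fun u => ?_) (sm (fs_mul hd fun _ => m))
    rw [abs_mul, abs_of_nonneg (hf0 u)]
    exact mul_le_mul_of_nonneg_right (hm u) (abs_nonneg _)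
  refine h3.trans (le_of_eq ?_)
  rw [tsum_mul_left, ← hg.tv, ← tsum_refl (fun u => |g u - g (u + 2)|) v]
  congr 1
  exact tsum_congr fun u => by congr 3; ring

/-- **The first difference of a triple convolution.** -/
theorem tri_le {f₁ f₂ f₃ : ℤ → ℝ} (h₁ : SU f₁) (h₂ : SU f₂) (h₃ : SU f₃) (p₁ : ∀ u, 0 ≤ f₁ u)
    (p₂ : ∀ u, 0 ≤ f₂ u) (p₃ : ∀ u, 0 ≤ f₃ u)
    {m₁ m₂ m₃ : ℝ} (hm₁ : ∀ u, f₁ u ≤ m₁) (hm₂ : ∀ u, f₂ u ≤ m₂) (hm₃ : ∀ u, f₃ u ≤ m₃) :
    cv (cv f₁ f₂) f₃ 0 - cv (cv f₁ f₂) f₃ 2 ≤ 8 * (m₁ * m₂ * m₃) := by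
  have hm1 : 0 ≤ m₁ := (p₁ 0).trans (hm₁ 0)
  have hm2 : 0 ≤ m₂ := (p₂ 0).trans (hm₂ 0)
  have hF := cv_fin h₁.fin h₂.fin
  rw [cv_diff hF h₃.fin (cv_symm h₁.symm h₂.symm) h₃.symm]
  have hd : (fun u => |f₃ u - f₃ (u + 2)|).support.Finite := by
    refine (fs_sub h₃.fin (fs_shift h₃.fin 2)).subset fun u hu => ?_
    rw [Function.mem_support] at hu ⊢
    intro h0
    apply hu
    rw [h0, abs_zero]
  have h1 : ∑' u, (cv f₁ f₂ u - cv f₁ f₂ (u + 2)) * (f₃ u - f₃ (u + 2)) ≤
      ∑' u, (4 * (m₁ * m₂)) * |f₃ u - f₃ (u + 2)| := by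
    refine (sm (fs_mul (fs_sub h₃.fin (fs_shift h₃.fin 2)) _)).tsum_le_tsum (fun u => ?_)
      (sm (fs_mul hd fun _ => 4 * (m₁ * m₂)))
    have h2 := cv_diff_le p₁ hm₁ h₁.fin h₂ u
    have h3 : m₁ * (2 * f₂ 0 + 2 * f₂ 1) ≤ 4 * (m₁ * m₂) := by
      nlinarith [hm₂ 0, hm₂ 1]
    calc (cv f₁ f₂ u - cv f₁ f₂ (u + 2)) * (f₃ u - f₃ (u + 2))
        ≤ |(cv f₁ f₂ u - cv f₁ f₂ (u + 2)) * (f₃ u - f₃ (u + 2))| := le_abs_self _
      _ = |cv f₁ f₂ u - cv f₁ f₂ (u + 2)| * |f₃ u - f₃ (u + 2)| := abs_mul _ _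
      _ ≤ _ := mul_le_mul_of_nonneg_right (h2.trans h3) (abs_nonneg _)
  rw [tsum_mul_left, h₃.tv] at h1
  have h4 : 4 * (m₁ * m₂) * (2 * f₃ 0 + 2 * f₃ 1) ≤ 4 * (m₁ * m₂) * (4 * m₃) := by
    have : 0 ≤ 4 * (m₁ * m₂) := by positivity
    apply mul_le_mul_of_nonneg_left _ this
    linarith [hm₃ 0, hm₃ 1]
  linarith

end Pool.Agent.K1H13.G
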