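import Pool.Agent.K1H13.S.HomSS
import Pool.Agent.K1H13.G.One

/-!
# The normalised Frobenius endomorphism on the cohomology of the powers of a variety
-/

set_option autoImplicit false
set_option linter.unusedSectionVars false

open CategoryTheory AlgebraicGeometry

universe u v

namespace Pool.Agent.K1H13.G

open Module Matrix
open Pool.Agent.H914 Pool.Agent.H914.VarClass Pool.Agent.H914.VarClass.Obj
  Pool.Agent.H914.WeilCohomology Pool.Agent.W534 Pool.Agent.H281R3.HT Pool.Agent.Y133.Half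
  Pool.Agent.K1H13.S

variable {k : Type u} [Field k] {𝒱 : VarClass k} {ops : CycleOps 𝒱}
  {W : WeilCohomology.{u, v} ops} {X Y Z : 𝒱.Obj} {p : ℕ} (Φ : FrobSystem W p)

/-- the operator preserves the degrees -/
def Dg (T : Module.End W.K (W.H Z)) : Prop := ∀ i, ∀ x ∈ W.gr Z i, T x ∈ W.gr Z i

lemma Dg.mul {S T : Module.End W.K (W.H Z)} (hS : Dg S) (hT : Dg T) : Dg (S * T) :=
  fun i x hx => hS i _ (hT i x hx)

lemma Dg.pow {T : Module.End W.K (W.H Z)} (hT : Dg T) (n : ℕ) : Dg (T ^ n) := by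
  induction n with
  | zero => exact fun i x hx => by rw [pow_zero]; exact hx
  | succ n ih => rw [pow_succ]; exact ih.mul hT

lemma Dg.proj {T : Module.End W.K (W.H Z)} (hT : Dg T) (i : ℕ) (x : W.H Z) :
    proj (W.isInternal Z) i (T x) = T (proj (W.isInternal Z) i x) := by
  refine gr_induction (W.isInternal Z) (p := fun x => H914.proj (W.isInternal Z) i (T x) =
    T (H914.proj (W.isInternal Z) i x)) ?_ ?_ x
  · intro j a ha
    by_cases h : j = i
    · subst h
      rw [proj_same _ ha, proj_same _ (hT _ _ ha)]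
    · rw [proj_ne _ ha h, proj_ne _ (hT _ _ ha) h, map_zero]
  · intro a b ha hb
    rw [map_add, map_add, ha, hb, map_add, map_add]

/-- multiplication by `c ^ i` in degree `i` -/
noncomputable def sc (W : WeilCohomology.{u, v} ops) (Z : 𝒱.Obj) (c : W.K) :
    Module.End W.K (W.H Z) :=
  scal (W.isInternal Z) fun i => c ^ i

lemma sc_apply {c : W.K} {i : ℕ} {x : W.H Z} (hx : x ∈ W.gr Z i) : sc W Z c x = c ^ i • x :=
  scal_apply _ _ hx

lemma sc_mul (c d : W.K) : sc W Z c * sc W Z d = sc W Z (c * d) := by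
  rw [sc, sc, scal_mul]
  congr 1
  funext i
  rw [mul_pow]

lemma sc_one : sc W Z 1 = 1 := by
  rw [sc, ← scal_one (W.isInternal Z)]
  congr 1
  funext i
  rw [one_pow]

lemma sc_pow (c : W.K) (n : ℕ) : sc W Z c ^ n = sc W Z (c ^ n) := by
  induction n with
  | zero => rw [pow_zero, pow_zero, sc_one]
  | succ n ih => rw [pow_succ, ih, sc_mul, pow_succ]

lemma sc_dg (c : W.K) : Dg (sc W Z c) := fun i x hx => by
  rw [sc_apply hx]
  exact Submodule.smul_mem _ _ hx

lemma sc_comm (c : W.K) {T : Module.End W.K (W.H Z)} (hT : Dg T) : Commute (sc W Z c) T := by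
  apply LinearMap.ext
  intro x
  refine gr_induction (W.isInternal Z) (p := fun x => (sc W Z c * T) x = (T * sc W Z c) x) ?_ ?_ x
  · intro j a ha
    rw [Module.End.mul_apply, Module.End.mul_apply, sc_apply ha, sc_apply (hT _ _ ha), map_smul]
  · intro a b ha hb
    rw [map_add, ha, hb, map_add]

lemma sc_prod (c : W.K) : sc W (Y.prod Z) c = extOp W (sc W Y c) (sc W Z c) := by
  apply LinearMap.ext
  intro x
  refine W.kunneth_induction (p := fun x => sc W (Y.prod Z) c x =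
    extOp W (sc W Y c) (sc W Z c) x) ?_ ?_ x
  · intro a b ha hb
    rw [map_add, ha, hb, map_add]
  · intro i j a ha b hb
    rw [extOp_tmul, sc_apply ha, sc_apply hb, map_smul, map_smul, smul_mul_assoc, mul_smul_comm,
      smul_smul, ← pow_add, sc_apply (W.mul_mem (W.map_mem _ ha) (W.map_mem _ hb))]

lemma Dg.ext {S : Module.End W.K (W.H Y)} {T : Module.End W.K (W.H Z)} (hS : Dg S) (hT : Dg T) :
    Dg (extOp W S T) := by
  intro i x hx
  have key : ∀ x : W.H (Y.prod Z), H914.proj (W.isInternal _) i (extOp W S T x) =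
      extOp W S T (H914.proj (W.isInternal _) i x) := by
    intro x
    refine W.kunneth_induction (p := fun x => H914.proj (W.isInternal _) i (extOp W S T x) =
      extOp W S T (H914.proj (W.isInternal _) i x)) ?_ ?_ x
    · intro a b ha hb
      rw [map_add, map_add, ha, hb, map_add, map_add]
    · intro j l a ha b hb
      have h1 := W.mul_mem (W.map_mem (fst Y Z) ha) (W.map_mem (snd Y Z) hb)
      have h2 := W.mul_mem (W.map_mem (fst Y Z) (hS _ _ ha)) (W.map_mem (snd Y Z) (hT _ _ hb))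
      rw [extOp_tmul]
      by_cases h : j + l = i
      · subst h
        rw [proj_same _ h1, proj_same _ h2, extOp_tmul]
      · rw [proj_ne _ h1 h, proj_ne _ h2 h, map_zero]
  have h1 := key x
  rw [proj_same _ hx] at h1
  rw [← h1]
  exact proj_mem _ _ _

lemma extOp_pow (S : Module.End W.K (W.H Y)) (T : Module.End W.K (W.H Z)) (n : ℕ) :
    extOp W S T ^ n = extOp W (S ^ n) (T ^ n) := by
  induction n with
  | zero => rw [pow_zero, pow_zero, pow_zero, extOp_one]
  | succ n ih => rw [pow_succ, ih, extOp_mul, pow_succ, pow_succ]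

/-- the normalised Frobenius endomorphism -/
noncomputable def nf (X : 𝒱.Obj) (r : W.K) : Module.End W.K (W.H X) :=
  sc W X r⁻¹ * frob Φ X 1

lemma frob_dg (s : ℕ) : Dg (frob Φ Z s) := fun _ _ hx => W.map_mem _ hx

lemma nf_dg (r : W.K) : Dg (nf Φ X r) := (sc_dg _).mul (frob_dg Φ 1)

lemma frob_eq_pow (s : ℕ) : frob Φ Z s = frob Φ Z 1 ^ s := by
  rw [← frob_mul_eq, one_mul]

lemma nf_pow {r : W.K} (hr : r ≠ 0) (t : ℕ) :
    frob Φ X t = sc W X (r ^ t) * nf Φ X r ^ t := by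
  rw [nf, (sc_comm (r⁻¹) (frob_dg Φ 1)).mul_pow, sc_pow, ← mul_assoc, sc_mul, ← mul_pow,
    mul_inv_cancel₀ hr, one_pow, sc_one, one_mul, frob_eq_pow]

/-- the normalised Frobenius endomorphism on the powers -/
noncomputable def nfp (X : 𝒱.Obj) (r : W.K) : ∀ n, Module.End W.K (W.H (pw X n))
  | 0 => nf Φ X r
  | n + 1 => extOp W (nfp X r n) (nf Φ X r)

lemma nfp_dg (r : W.K) : ∀ n, Dg (nfp Φ X r n)
  | 0 => nf_dg Φ r
  | n + 1 => (nfp_dg r n).ext (nf_dg Φ r)

/-- the Frobenius endomorphism of a product -/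
theorem frob_step {r : W.K} (hr : r ≠ 0) {S : Module.End W.K (W.H Y)} {a m : ℕ}
    (ha : 0 < a) (hm : 0 < m) (ham : a * Φ.e Y = m * Φ.e X)
    (h : ∀ t, frob Φ Y (a * t) = sc W Y (r ^ (m * t)) * S ^ (m * t)) :
    ∃ a' m', 0 < a' ∧ 0 < m' ∧ a' * Φ.e (Y.prod X) = m' * Φ.e X ∧
      ∀ t, frob Φ (Y.prod X) (a' * t) = sc W (Y.prod X) (r ^ (m' * t)) *
        extOp W S (nf Φ X r) ^ (m' * t) := by
  obtain ⟨a₁, b₁, ha₁, hb₁, hab₁, h₁⟩ := frob_comm Φ (fst Y X)
  obtain ⟨a₂, b₂, ha₂, hb₂, hab₂, h₂⟩ := frob_comm Φ (snd Y X)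
  have heX := Φ.e_pos X
  have hb : m * (b₁ * a₂) = b₂ * a₁ * a := by
    apply Nat.eq_of_mul_eq_mul_right heX
    calc m * (b₁ * a₂) * Φ.e X = (m * Φ.e X) * (b₁ * a₂) := by ring
      _ = (a * Φ.e Y) * (b₁ * a₂) := by rw [ham]
      _ = (b₁ * Φ.e Y) * (a * a₂) := by ring
      _ = (a₁ * Φ.e (Y.prod X)) * (a * a₂) := by rw [hab₁]
      _ = (a₂ * Φ.e (Y.prod X)) * (a₁ * a) := by ring
      _ = (b₂ * Φ.e X) * (a₁ * a) := by rw [hab₂]
      _ = _ := by ring
  refine ⟨a₁ * a₂ * a, m * (b₁ * a₂), by positivity, by positivity, ?_, fun t => ?_⟩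
  · calc a₁ * a₂ * a * Φ.e (Y.prod X) = (a₁ * Φ.e (Y.prod X)) * (a₂ * a) := by ring
      _ = (b₁ * Φ.e Y) * (a₂ * a) := by rw [hab₁]
      _ = (a * Φ.e Y) * (b₁ * a₂) := by ring
      _ = _ := by rw [ham]; ring
  · have e : frob Φ (Y.prod X) (a₁ * a₂ * a * t) =
        extOp W (frob Φ Y (a * (b₁ * a₂ * t))) (frob Φ X (b₂ * a₁ * a * t)) := by
      apply ext_kunneth_lin
      intro x y
      have e1 := h₁ (a₂ * a * t) x
      have e2 := h₂ (a₁ * a * t) y
      rw [extOp_tmul, frob_apply]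
      rw [show a₁ * (a₂ * a * t) = a₁ * a₂ * a * t by ring,
        show b₁ * (a₂ * a * t) = a * (b₁ * a₂ * t) by ring] at e1
      rw [show a₂ * (a₁ * a * t) = a₁ * a₂ * a * t by ring,
        show b₂ * (a₁ * a * t) = b₂ * a₁ * a * t by ring] at e2
      rw [map_mul, e1, e2]
      rfl
    rw [e, h, nf_pow Φ hr, ← extOp_mul, sc_prod, extOp_pow, hb,
      show m * (b₁ * a₂ * t) = b₂ * a₁ * a * t by rw [← hb]; ring]

/-- **The Frobenius endomorphisms of the powers.** -/
theorem frob_pw {r : W.K} (hr : r ≠ 0) : ∀ n, ∃ a m, 0 < a ∧ 0 < m ∧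
    a * Φ.e (pw X n) = m * Φ.e X ∧ ∀ t, frob Φ (pw X n) (a * t) =
      sc W (pw X n) (r ^ (m * t)) * nfp Φ X r n ^ (m * t)
  | 0 => ⟨1, 1, one_pos, one_pos, rfl, fun t => by rw [one_mul]; exact nf_pow Φ hr t⟩
  | n + 1 => by
    obtain ⟨a, m, ha, hm, ham, h⟩ := frob_pw hr n
    exact frob_step Φ hr ha hm ham h

end Pool.Agent.K1H13.G
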