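import Pool.Agent.K1H13.G.Wei
import Pool.Agent.K1H13.G.Ten

/-!
# Tate classes and the normalised Frobenius endomorphism
-/

set_option autoImplicit false
set_option linter.unusedSectionVars false

open CategoryTheory AlgebraicGeometry

universe u v

namespace Pool.Agent.K1H13.G

open Module Matrix
open Pool.Agent.H914 Pool.Agent.H914.VarClass Pool.Agent.H914.VarClass.Obj
  Pool.Agent.H914.WeilCohomology Pool.Agent.W534 Pool.Agent.H281R3.HT Pool.Agent.Y133.Half
  Pool.Agent.K1H13.S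

variable {k : Type u} [Field k] {𝒱 : VarClass k} {ops : CycleOps 𝒱}
  {W : WeilCohomology.{u, v} ops} {X Y Z : 𝒱.Obj} {p : ℕ} (Φ : FrobSystem W p)

/-- the operator is the normalised Frobenius endomorphism -/
structure Nrm (Z : 𝒱.Obj) (r : W.K) (T : Module.End W.K (W.H Z)) (a m : ℕ) : Prop where
  hr : r ≠ 0
  ha : 0 < a
  hm : 0 < m
  dg : Dg T
  hcard : ∀ t, (card Φ Z (a * t) : W.K) = r ^ (2 * (m * t))
  heq : ∀ t, frob Φ Z (a * t) = sc W Z (r ^ (m * t)) * T ^ (m * t)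

variable {Φ}

lemma pow_fix {K V : Type*} [Field K] [AddCommGroup V] [Module K V] {T : Module.End K V} {s : ℕ}
    {x : V} (h : (T ^ s) x = x) (m : ℕ) : (T ^ (m * s)) x = x := by
  induction m with
  | zero => rw [zero_mul, pow_zero, Module.End.one_apply]
  | succ m ih => rw [add_mul, one_mul, pow_add, Module.End.mul_apply, h, ih]

lemma pow_gen {K V : Type*} [Field K] [AddCommGroup V] [Module K V] {T : Module.End K V} {s k : ℕ}
    {x : V} (h : ((T ^ s - 1) ^ k) x = 0) (m : ℕ) : ((T ^ (m * s) - 1) ^ k) x = 0 := by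
  have h1 : T ^ s - 1 ∣ T ^ (m * s) - 1 := by
    rw [mul_comm, pow_mul]
    exact sub_one_dvd_pow_sub_one _ _
  have h2 : Commute (T ^ s - 1) (T ^ (m * s) - 1) :=
    ((Commute.pow_pow_self T _ _).sub_left (Commute.one_left _)).sub_right (Commute.one_right _)
  obtain ⟨G, hG⟩ : ∃ G, T ^ (m * s) - 1 = G * (T ^ s - 1) ∧ Commute G (T ^ s - 1) := by
    refine ⟨∑ i ∈ Finset.range m, (T ^ s) ^ i, ?_, ?_⟩
    · rw [geom_sum_mul, mul_comm m s, pow_mul]
    · exact Commute.sum_left _ _ _ fun i _ =>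
        ((Commute.refl (T ^ s)).pow_left i).sub_right (Commute.one_right _)
  rw [hG.1, hG.2.mul_pow, Module.End.mul_apply, h, map_zero]

namespace Nrm

variable {r : W.K} {T : Module.End W.K (W.H Z)} {a m : ℕ} (N : Nrm Φ Z r T a m)
include N

lemma on {j : ℕ} {x : W.H Z} (hx : x ∈ W.gr Z (2 * j)) (t : ℕ) :
    frob Φ Z (a * t) x = ((card Φ Z (a * t) : W.K) ^ j) • (T ^ (m * t)) x := by
  rw [N.heq, Module.End.mul_apply, sc_apply (N.dg.pow _ _ _ hx), N.hcard, ← pow_mul, ← pow_mul]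
  congr 2
  ring

lemma tate_iff {j : ℕ} {x : W.H Z} (hx : x ∈ W.gr Z (2 * j)) :
    IsTate Φ Z j x ↔ ∃ s, 0 < s ∧ (T ^ s) x = x := by
  rw [isTate_iff]
  constructor
  · rintro ⟨-, s, hs, h⟩
    refine ⟨m * s, Nat.mul_pos N.hm hs, ?_⟩
    have h1 := eig_mul' h a
    rw [N.on hx] at h1
    exact smul_right_injective _ (pow_ne_zero _ (card_ne Φ _)) h1
  · rintro ⟨s, hs, h⟩
    refine ⟨hx, a * s, Nat.mul_pos N.ha hs, ?_⟩
    rw [N.on hx, pow_fix h]

lemma on_gen {j : ℕ} (t n : ℕ) {x : W.H Z} (hx : x ∈ W.gr Z (2 * j)) :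
    ((frob Φ Z (a * t) - ((card Φ Z (a * t) : W.K) ^ j) • (1 : Module.End W.K (W.H Z))) ^ n) x =
      (((card Φ Z (a * t) : W.K) ^ j) ^ n) • ((T ^ (m * t) - 1) ^ n) x := by
  induction n generalizing x with
  | zero => rw [pow_zero, pow_zero, pow_zero, one_smul]
  | succ n ih =>
    have h1 : (T ^ (m * t) - 1) x ∈ W.gr Z (2 * j) := by
      rw [LinearMap.sub_apply, Module.End.one_apply]
      exact Submodule.sub_mem _ (N.dg.pow _ _ _ hx) hx
    rw [pow_succ, Module.End.mul_apply, LinearMap.sub_apply, LinearMap.smul_apply,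
      Module.End.one_apply, N.on hx, ← smul_sub, map_smul,
      show (T ^ (m * t)) x - x = (T ^ (m * t) - 1) x from rfl, ih h1, smul_smul, ← pow_succ',
      pow_succ (T ^ (m * t) - 1), Module.End.mul_apply]

lemma gen_iff {j : ℕ} {x : W.H Z} (hx : x ∈ W.gr Z (2 * j)) :
    (∃ s, 0 < s ∧ x ∈ genTate Φ Z s j) ↔ ∃ s, 0 < s ∧ ∃ n : ℕ, ((T ^ s - 1) ^ n) x = 0 := by
  constructor
  · rintro ⟨s, hs, h⟩
    obtain ⟨⟨n, h1⟩, -⟩ := (mem_genTate Φ).1 (genTate_mono' Φ s a j h)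
    refine ⟨m * s, Nat.mul_pos N.hm hs, n, ?_⟩
    rw [N.on_gen s n hx] at h1
    exact (smul_eq_zero_iff_right (pow_ne_zero _ (pow_ne_zero _ (card_ne Φ _)))).1 h1
  · rintro ⟨s, hs, n, h⟩
    refine ⟨a * s, Nat.mul_pos N.ha hs, (mem_genTate Φ).2 ⟨⟨n, ?_⟩, hx⟩⟩
    rw [N.on_gen s n hx, pow_gen h, smul_zero]

omit N in
lemma sum_proj_eq (x : W.H Z) :
    ∑ i ∈ Finset.range (2 * Z.dim + 1), proj (W.isInternal Z) i x = x := by
  have := congrArg (fun f => f x) (sum_proj (W.isInternal Z) (N := 2 * Z.dim + 1)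
    fun i hi => W.gr_eq_bot Z i (by omega))
  simpa using this

omit N in
lemma proj_odd {x : W.H Z} (hx : x ∈ PH W Z 0) {i : ℕ} (hi : i % 2 = 1) :
    proj (W.isInternal Z) i x = 0 := by
  refine PH.ind (p := fun x => H914.proj (W.isInternal Z) i x = 0) ?_ ?_ ?_ hx
  · intro j hj x hx
    exact proj_ne _ hx (by omega)
  · rw [map_zero]
  · intro a b ha hb
    rw [map_add, ha, hb, add_zero]

omit N in
/-- a property of the components -/
lemma span_of (N' : Set (W.H Z)) {x : W.H Z} (hx : x ∈ PH W Z 0)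
    (h : ∀ j, proj (W.isInternal Z) (2 * j) x ∈ Submodule.span W.K N') :
    x ∈ Submodule.span W.K N' := by
  rw [← sum_proj_eq x]
  refine Submodule.sum_mem _ fun i _ => ?_
  rcases Nat.even_or_odd' i with ⟨j, rfl | rfl⟩
  · exact h j
  · rw [proj_odd hx (by omega)]
    exact Submodule.zero_mem _

lemma span_tate : Submodule.span W.K (tateSet Φ Z) =
    Submodule.span W.K (tateS (PH W Z 0) T) := by
  apply le_antisymm
  · rw [Submodule.span_le]
    rintro x ⟨j, hx⟩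
    refine Submodule.subset_span ⟨PH.of' (by omega) hx.1, (N.tate_iff hx.1).1 hx⟩
  · rw [Submodule.span_le]
    rintro x ⟨hx, s, hs, h⟩
    refine span_of _ hx fun j => Submodule.subset_span ⟨j, ?_⟩
    have h1 := proj_mem (W.isInternal Z) (2 * j) x
    refine (N.tate_iff h1).2 ⟨s, hs, ?_⟩
    rw [← (N.dg.pow s).proj, h]

lemma span_gen : Submodule.span W.K (genTateSet Φ Z) =
    Submodule.span W.K (genS (PH W Z 0) T) := by
  apply le_antisymm
  · rw [Submodule.span_le]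
    rintro x ⟨s, j, hs, hx⟩
    have h1 : x ∈ W.gr Z (2 * j) := hx.2
    exact Submodule.subset_span ⟨PH.of' (by omega) h1, (N.gen_iff h1).1 ⟨s, hs, hx⟩⟩
  · rw [Submodule.span_le]
    rintro x ⟨hx, s, hs, n, h⟩
    refine span_of _ hx fun j => Submodule.subset_span ?_
    have h1 := proj_mem (W.isInternal Z) (2 * j) x
    have h2 : Dg (W := W) ((T ^ s - 1) ^ n) := by
      refine Dg.pow (fun i y hy => ?_) n
      rw [LinearMap.sub_apply, Module.End.one_apply]
      exact Submodule.sub_mem _ (N.dg.pow _ _ _ hy) hy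
    obtain ⟨s', hs', h3⟩ := (N.gen_iff h1).2 ⟨s, hs, n, by rw [← h2.proj, h, map_zero]⟩
    exact ⟨s', j, hs', h3⟩

end Nrm

end Pool.Agent.K1H13.G
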