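import Pool.Agent.K1H13.G.Wei2

/-!
# Coordinates on the cohomology of the powers of a variety
-/

set_option autoImplicit false
set_option linter.unusedSectionVars false

open CategoryTheory AlgebraicGeometry

universe u v

namespace Pool.Agent.K1H13.G

open Module Matrix
open Pool.Agent.H914 Pool.Agent.H914.VarClass Pool.Agent.H914.VarClass.Obj
  Pool.Agent.H914.WeilCohomology Pool.Agent.W534 Pool.Agent.H281R3.HT Pool.Agent.Y133.Half
  Pool.Agent.K1H13.S

section Lin

variable {K V : Type*} [Field K] [AddCommGroup V] [Module K V]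

/-- An operator with a spanning set of eigenvectors is semisimple. -/
lemma semisimple_of_eig [Module.Finite K V] {T : Module.End K V} (S : Finset K) (N : Set V)
    (hN : Submodule.span K N = ⊤) (h : ∀ x ∈ N, ∃ α ∈ S, T x = α • x) : T.IsSemisimple := by
  classical
  refine Module.End.isSemisimple_of_squarefree_aeval_eq_zero
    (p := ∏ α ∈ S, (Polynomial.X - Polynomial.C α)) ?_ ?_
  · apply Polynomial.Separable.squarefree
    rw [Polynomial.separable_prod_X_sub_C_iff']
    exact fun x _ y _ h => h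
  · apply LinearMap.ext_on hN
    intro x hx
    obtain ⟨α, hα, h1⟩ := h x hx
    rw [← Finset.prod_erase_mul _ _ hα, map_mul, Module.End.mul_apply]
    rw [show (Polynomial.aeval T (Polynomial.X - Polynomial.C α)) x = T x - α • x by
      rw [map_sub, Polynomial.aeval_X, Polynomial.aeval_C, LinearMap.sub_apply,
        Module.algebraMap_end_apply], h1, sub_self, map_zero]
    rfl

lemma mem_iff_of_basis {J : Type*} [Fintype J] {V₀ V₁ : Submodule K V} (hc : IsCompl V₀ V₁)
    (bn : Basis J K V) (P : J → Prop) (h0 : ∀ x, P x → bn x ∈ V₀) (h1 : ∀ x, ¬ P x → bn x ∈ V₁)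
    (z : V) : z ∈ V₀ ↔ ∀ x, bn.repr z x ≠ 0 → P x := by
  classical
  constructor
  · intro hz
    set z₁ : V := ∑ x with ¬ P x, bn.repr z x • bn x with hz₁
    have e1 : z₁ ∈ V₁ := Submodule.sum_mem _ fun x hx =>
      Submodule.smul_mem _ _ (h1 x (Finset.mem_filter.1 hx).2)
    have e2 : z₁ ∈ V₀ := by
      have e3 : z = ∑ x with P x, bn.repr z x • bn x + z₁ := by
        rw [hz₁, Finset.sum_filter_add_sum_filter_not, bn.sum_repr]
      have e4 : z₁ = z - ∑ x with P x, bn.repr z x • bn x := by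
        rw [eq_sub_iff_add_eq, add_comm]; exact e3.symm
      rw [e4]
      exact Submodule.sub_mem _ hz (Submodule.sum_mem _ fun x hx =>
        Submodule.smul_mem _ _ (h0 x (Finset.mem_filter.1 hx).2))
    have e3 : z₁ = 0 := by
      have := Submodule.disjoint_def.1 hc.disjoint z₁ e2 e1
      exact this
    intro x hx
    by_contra hP
    apply hx
    have e4 : bn.repr z₁ x = bn.repr z x := by
      rw [hz₁, map_sum, Finsupp.finsetSum_apply, Finset.sum_eq_single x]
      · rw [map_smul, Finsupp.smul_apply, Basis.repr_self, Finsupp.single_eq_same, smul_eq_mul,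
          mul_one]
      · intro y _ hy
        rw [map_smul, Finsupp.smul_apply, Basis.repr_self, Finsupp.single_eq_of_ne (Ne.symm hy),
          smul_zero]
      · intro hx'
        exact absurd (Finset.mem_filter.2 ⟨Finset.mem_univ x, hP⟩) hx'
    rw [← e4, e3, map_zero, Finsupp.zero_apply]
  · intro h
    rw [← bn.sum_repr z]
    refine Submodule.sum_mem _ fun x _ => ?_
    by_cases hx : bn.repr z x = 0
    · rw [hx, zero_smul]; exact Submodule.zero_mem _
    · exact Submodule.smul_mem _ _ (h0 x (h x hx))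

end Lin

variable {k : Type u} [Field k] {𝒱 : VarClass k} {ops : CycleOps 𝒱}
  {W : WeilCohomology.{u, v} ops} {X Y Z : 𝒱.Obj} {p : ℕ} (Φ : FrobSystem W p)

/-- the form `tr (x y)` -/
noncomputable def trB (W : WeilCohomology.{u, v} ops) (Z : 𝒱.Obj) :
    W.H Z →ₗ[W.K] W.H Z →ₗ[W.K] W.K :=
  (LinearMap.mul W.K (W.H Z)).compr₂ (W.tr Z)

lemma trB_apply (x y : W.H Z) : trB W Z x y = W.tr Z (x * y) := rfl

lemma PH.compl (W : WeilCohomology.{u, v} ops) (Z : 𝒱.Obj) : IsCompl (PH W Z 0) (PH W Z 1) := by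
  refine IsCompl.of_le ?_ ?_
  · rintro x ⟨h0, h1⟩
    rw [Submodule.mem_bot, ← Nrm.sum_proj_eq x]
    refine Finset.sum_eq_zero fun i _ => ?_
    rcases Nat.mod_two_eq_zero_or_one i with hi | hi
    · refine PH.ind (p := fun x => H914.proj (W.isInternal Z) i x = 0) ?_ ?_ ?_ h1
      · intro j hj x hx
        exact proj_ne _ hx (by omega)
      · rw [map_zero]
      · intro a b ha hb
        rw [map_add, ha, hb, add_zero]
    · exact Nrm.proj_odd h0 hi
  · intro x _
    rw [← Nrm.sum_proj_eq x]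
    refine Submodule.sum_mem _ fun i _ => ?_
    rcases Nat.mod_two_eq_zero_or_one i with hi | hi
    · exact Submodule.mem_sup_left (PH.of' (by omega) (proj_mem _ _ _))
    · exact Submodule.mem_sup_right (PH.of' (by omega) (proj_mem _ _ _))

lemma Dg.ph {T : Module.End W.K (W.H Z)} (hT : Dg T) (b : ℕ) : ∀ x ∈ PH W Z b, T x ∈ PH W Z b := by
  intro x hx
  refine PH.ind (p := fun x => T x ∈ PH W Z b) ?_ ?_ ?_ hx
  · intro i hi x hx
    exact PH.of' hi (hT i x hx)
  · rw [map_zero]; exact Submodule.zero_mem _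
  · intro a b ha hb
    rw [map_add]; exact Submodule.add_mem _ ha hb

lemma trB_odd {x y : W.H Z} {a b : ℕ} (hx : x ∈ PH W Z a) (hy : y ∈ PH W Z b)
    (h : (a + b) % 2 = 1) : trB W Z x y = 0 := by
  rw [trB_apply]
  exact PH.tr_odd (PH.mul hx hy) h

lemma trB_nondeg_even {z : W.H Z} (hz : z ∈ PH W Z 0) (h : ∀ x ∈ PH W Z 0, trB W Z x z = 0) :
    z = 0 := by
  refine W.nondeg z fun b => ?_
  obtain ⟨b₀, h₀, b₁, h₁, rfl⟩ := Submodule.mem_sup.1
    (show b ∈ PH W Z 0 ⊔ PH W Z 1 by rw [(PH.compl W Z).sup_eq_top]; exact Submodule.mem_top)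
  rw [mul_add, map_add, ← trB_apply z b₁, trB_odd hz h₁ (by norm_num), add_zero,
    PH.even_comm hz]
  exact h b₀ h₀

/-- the operator is an isometry -/
def Iso (T : Module.End W.K (W.H Z)) : Prop := ∀ x y, trB W Z (T x) (T y) = trB W Z x y

lemma trB_prod {a c : W.H Y} {b d : W.H Z} {i j : ℕ} (hb : b ∈ W.gr Z i) (hc : c ∈ W.gr Y j) :
    trB W (Y.prod Z) (W.map (fst Y Z) a * W.map (snd Y Z) b)
      (W.map (fst Y Z) c * W.map (snd Y Z) d) =
      (-1 : W.K) ^ (i * j) * (trB W Y a c * trB W Z b d) := by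
  rw [trB_apply, trB_apply, trB_apply, mul_assoc, ← mul_assoc (W.map (snd Y Z) b),
    W.comm (W.map_mem (snd Y Z) hb) (W.map_mem (fst Y Z) hc), smul_mul_assoc, mul_smul_comm,
    map_smul, mul_assoc (W.map (fst Y Z) c), ← mul_assoc (W.map (fst Y Z) a), ← map_mul, ← map_mul,
    W.tr_prod, smul_eq_mul]

lemma Iso.ext {S : Module.End W.K (W.H Y)} {T : Module.End W.K (W.H Z)} (hS : Iso S) (hT : Iso T)
    (dS : Dg S) (dT : Dg T) : Iso (extOp W S T) := by
  intro x y
  refine W.kunneth_induction (p := fun x => trB W (Y.prod Z) (extOp W S T x) (extOp W S T y) =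
    trB W (Y.prod Z) x y) ?_ ?_ x
  · intro a b ha hb
    rw [map_add, map_add, LinearMap.add_apply, ha, hb, map_add, LinearMap.add_apply]
  · intro i j a _ b hb
    refine W.kunneth_induction (p := fun y => trB W (Y.prod Z) (extOp W S T
      (W.map (fst Y Z) a * W.map (snd Y Z) b)) (extOp W S T y) =
      trB W (Y.prod Z) (W.map (fst Y Z) a * W.map (snd Y Z) b) y) ?_ ?_ y
    · intro c d hc hd
      rw [map_add, map_add, hc, hd, map_add]
    · intro l m c hc d _
      rw [extOp_tmul, extOp_tmul, trB_prod (dT _ _ hb) (dS _ _ hc), trB_prod hb hc, hS, hT]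

lemma nf_iso {r : W.K} (hr : r ≠ 0) (hq : r ^ 2 = (p : W.K) ^ Φ.e X) : Iso (nf Φ X r) := by
  intro x y
  refine gr_induction (W.isInternal X) (p := fun x => trB W X (nf Φ X r x) (nf Φ X r y) =
    trB W X x y) ?_ ?_ x
  · intro i a ha
    refine gr_induction (W.isInternal X) (p := fun y => trB W X (nf Φ X r a) (nf Φ X r y) =
      trB W X a y) ?_ ?_ y
    · intro j b hb
      rw [nf, Module.End.mul_apply, Module.End.mul_apply, sc_apply (frob_dg Φ 1 _ _ ha),
        sc_apply (frob_dg Φ 1 _ _ hb), map_smul, map_smul, LinearMap.smul_apply, trB_apply,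
        trB_apply, ← Pool.Agent.W458.MF.frob_mul_apply Φ]
      by_cases h : i + j = 2 * X.dim
      · have h1 : frob Φ X 1 (a * b) = ((p : W.K) ^ (Φ.e X * X.dim)) • (a * b) := by
          have h2 : a * b ∈ W.gr X (2 * X.dim) := by rw [← h]; exact W.mul_mem ha hb
          rw [← Φ.deg h2, frob_apply, W534.map_iter]
          rfl
        rw [h1, map_smul, smul_eq_mul, smul_eq_mul, smul_eq_mul, pow_mul, ← hq, ← mul_assoc,
          ← mul_assoc, ← pow_add, add_comm j i, h, inv_pow, ← pow_mul, inv_mul_cancel₀ (by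
            exact pow_ne_zero _ hr), one_mul]
      · rw [W.tr_eq_zero (W.mul_mem ha hb) h,
          W.tr_eq_zero (frob_dg Φ 1 _ _ (W.mul_mem ha hb)) h, smul_zero, smul_zero]
    · intro c d hc hd
      rw [map_add, map_add, hc, hd, map_add]
  · intro c d hc hd
    rw [map_add, map_add, LinearMap.add_apply, hc, hd, map_add, LinearMap.add_apply]

lemma nfp_iso {r : W.K} (hr : r ≠ 0) (hq : r ^ 2 = (p : W.K) ^ Φ.e X) : ∀ n, Iso (nfp Φ X r n)
  | 0 => nf_iso Φ hr hq
  | n + 1 => (nfp_iso hr hq n).ext (nf_iso Φ hr hq) (nfp_dg Φ r n) (nf_dg Φ r)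

/-- **The normalised Frobenius endomorphisms of the powers.** -/
theorem exists_nrm {r : W.K} (hr : r ≠ 0) (hq : r ^ 2 = (p : W.K) ^ Φ.e X) (n : ℕ) :
    ∃ a m, Nrm Φ (pw X n) r (nfp Φ X r n) a m := by
  obtain ⟨a, m, ha, hm, ham, h⟩ := frob_pw Φ (X := X) hr n
  refine ⟨a, m, hr, ha, hm, nfp_dg Φ r n, fun t => ?_, h⟩
  rw [W534.card, Nat.cast_pow, show Φ.e (pw X n) * (a * t) = Φ.e X * (m * t) by
    calc Φ.e (pw X n) * (a * t) = (a * Φ.e (pw X n)) * t := by ring
      _ = (m * Φ.e X) * t := by rw [ham]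
      _ = _ := by ring, pow_mul, ← hq, ← pow_mul]

end Pool.Agent.K1H13.G
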