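import Pool.Agent.K1H13.G.Wei3

/-!
# The law for the powers of a variety
-/

set_option autoImplicit false
set_option linter.unusedSectionVars false

open CategoryTheory AlgebraicGeometry

universe u v

namespace Pool.Agent.K1H13.G

open Module Matrix
open Pool.Agent.H914 Pool.Agent.H914.VarClass Pool.Agent.H914.VarClass.Obj
  Pool.Agent.H914.WeilCohomology Pool.Agent.W534 Pool.Agent.H281R3.HT Pool.Agent.Y133.Half
  Pool.Agent.K1H13.S

variable {k : Type u} [Field k] {𝒱 : VarClass k} {ops : CycleOps 𝒱}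
  {W : WeilCohomology.{u, v} ops} {X Y Z : 𝒱.Obj} {p : ℕ} (Φ : FrobSystem W p)

section Basis

variable {J : Type v} [Fintype J] [DecidableEq J]

/-- the basis of the cohomology of a product -/
noncomputable def bst {n : ℕ} (b' : Basis (Fin n → J) W.K (W.H Y)) (b : Basis J W.K (W.H X)) :
    Basis (Fin (n + 1) → J) W.K (W.H (Y.prod X)) :=
  ((b'.tensorProduct b).map (kappa W Y X)).reindex (sn J n).symm

lemma bst_apply {n : ℕ} (b' : Basis (Fin n → J) W.K (W.H Y)) (b : Basis J W.K (W.H X))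
    (x : Fin (n + 1) → J) : bst b' b x = W.map (fst Y X) (b' (Fin.init x)) *
      W.map (snd Y X) (b (x (Fin.last _))) := by
  rw [bst, Basis.reindex_apply, Basis.map_apply, Basis.tensorProduct_apply']
  exact kappa_tmul _ _

lemma bst_repr {n : ℕ} (b' : Basis (Fin n → J) W.K (W.H Y)) (b : Basis J W.K (W.H X))
    (y : W.H Y) (z : W.H X) (x : Fin (n + 1) → J) : (bst b' b).repr (W.map (fst Y X) y *
      W.map (snd Y X) z) x = b'.repr y (Fin.init x) * b.repr z (x (Fin.last _)) := by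
  have h1 : W.map (fst Y X) y * W.map (snd Y X) z =
      kappa W Y X (TensorProduct.tmul W.K y z) := (kappa_tmul _ _).symm
  rw [h1]
  have h2 : (bst b' b).repr (kappa W Y X (TensorProduct.tmul W.K y z)) x =
      (b'.tensorProduct b).repr (TensorProduct.tmul W.K y z) (sn J n x) := by
    rw [bst, Basis.repr_reindex_apply, Basis.map_repr]
    simp only [LinearEquiv.trans_apply, LinearEquiv.symm_apply_apply, Equiv.symm_symm]
  rw [h2]
  exact (Basis.tensorProduct_repr_tmul_apply b' b y z (Fin.init x) (x (Fin.last n))).trans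
    (mul_comm _ _)

lemma bst_mat {n : ℕ} (b' : Basis (Fin n → J) W.K (W.H Y)) (b : Basis J W.K (W.H X))
    {S : Module.End W.K (W.H Y)} {F : Module.End W.K (W.H X)}
    (h : LinearMap.toMatrix b' b' S = powMat (LinearMap.toMatrix b b F) n) :
    LinearMap.toMatrix (bst b' b) (bst b' b) (extOp W S F) =
      powMat (LinearMap.toMatrix b b F) (n + 1) := by
  ext y x
  have h := congrFun (congrFun h (Fin.init y)) (Fin.init x)
  rw [LinearMap.toMatrix_apply] at h
  rw [LinearMap.toMatrix_apply, bst_apply, extOp_tmul, bst_repr, h, ← LinearMap.toMatrix_apply b b,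
    powMat, powMat, Fin.prod_univ_castSucc]
  rfl

lemma exists_bpw (b : Basis J W.K (W.H X)) (d : J → ℕ) (hb : ∀ i, b i ∈ PH W X (d i)) (r : W.K) :
    ∀ n : ℕ, ∃ bn : Basis (Fin (n + 1) → J) W.K (W.H (pw X n)),
      LinearMap.toMatrix bn bn (nfp Φ X r n) =
        powMat (LinearMap.toMatrix b b (nf Φ X r)) (n + 1) ∧
      ∀ x, bn x ∈ PH W (pw X n) (∑ k, d (x k))
  | 0 => by
    refine ⟨(b.reindex (Equiv.funUnique (Fin 1) J).symm :
      Basis (Fin 1 → J) W.K (W.H X)), ?_, fun x => ?_⟩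
    · change LinearMap.toMatrix (b.reindex (Equiv.funUnique (Fin 1) J).symm)
        (b.reindex (Equiv.funUnique (Fin 1) J).symm) (nf Φ X r) = _
      ext y x
      rw [LinearMap.toMatrix_apply, Basis.reindex_apply, Basis.repr_reindex_apply, powMat,
        Fin.prod_univ_one, LinearMap.toMatrix_apply]
      rfl
    · change (b.reindex (Equiv.funUnique (Fin 1) J).symm) x ∈ PH W X (∑ k : Fin 1, d (x k))
      rw [Basis.reindex_apply, Fin.sum_univ_one]
      exact hb _
  | n + 1 => by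
    obtain ⟨bn, h1, h2⟩ := exists_bpw b d hb r n
    refine ⟨bst bn b, bst_mat bn b h1, fun x => ?_⟩
    change bst bn b x ∈ PH W ((pw X n).prod X) (∑ k, d (x k))
    rw [bst_apply, Fin.sum_univ_castSucc]
    exact PH.mul (PH.map _ (h2 _)) (PH.map _ (hb _))

end Basis

/-- a class of degree `2 dim X` with trace `≠ 0` -/
lemma exists_pt (X : 𝒱.Obj) [Nontrivial (W.H X)] : ∃ y ∈ W.gr X (2 * X.dim), W.tr X y ≠ 0 := by
  by_contra hcon
  push Not at hcon
  have h1 : ∀ x : W.H X, W.tr X x = 0 := by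
    intro x
    refine gr_induction (W.isInternal X) (p := fun x => W.tr X x = 0) ?_ ?_ x
    · intro i a ha
      by_cases h : i = 2 * X.dim
      · subst h; exact hcon a ha
      · exact W.tr_eq_zero ha h
    · intro a b ha hb
      rw [map_add, ha, hb, add_zero]
  exact one_ne_zero (W.nondeg (1 : W.H X) fun b => h1 _)

lemma frob_one_eq : frob Φ X 1 = (W.map (Φ.Fr X)).toLinearMap := by
  apply LinearMap.ext
  intro x
  rw [frob_apply, W534.map_iter]
  rfl

/-- Scaling in each degree is semisimple. -/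
lemma sc_semisimple (c : W.K) : (sc W Z c).IsSemisimple := by
  classical
  refine semisimple_of_eig ((Finset.range (2 * Z.dim + 1)).image fun i => c ^ i)
    {x | ∃ i ∈ Finset.range (2 * Z.dim + 1), x ∈ W.gr Z i} ?_ ?_
  · rw [eq_top_iff]
    intro x _
    rw [← Nrm.sum_proj_eq x]
    exact Submodule.sum_mem _ fun i hi => Submodule.subset_span ⟨i, hi, proj_mem _ _ _⟩
  · rintro x ⟨i, hi, hx⟩
    exact ⟨c ^ i, Finset.mem_image_of_mem _ hi, sc_apply hx⟩

lemma trivial_pairing {r : W.K} (hr : r ≠ 0) (hq : r ^ 2 = (p : W.K) ^ Φ.e X)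
    [Nontrivial (W.H X)] : ∃ x ∈ tateS (PH W X 0) (nf Φ X r), ∃ y ∈ tateS (PH W X 0) (nf Φ X r),
      trB W X x y ≠ 0 := by
  obtain ⟨y, hy, hy2⟩ := exists_pt (W := W) X
  refine ⟨1, ⟨PH.of' rfl (W.one_mem X), 1, one_pos, ?_⟩, y, ⟨PH.of' (by omega) hy, 1, one_pos, ?_⟩,
    by rw [trB_apply, one_mul]; exact hy2⟩
  · rw [pow_one, nf, Module.End.mul_apply, frob_one_eq, AlgHom.toLinearMap_apply, map_one,
      sc_apply (W.one_mem X), pow_zero, one_smul]
  · rw [pow_one, nf, Module.End.mul_apply, sc_apply (frob_dg Φ 1 _ _ hy), frob_one_eq,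
      AlgHom.toLinearMap_apply, Φ.deg hy, smul_smul, pow_mul (p : W.K), ← hq, ← pow_mul, inv_pow,
      inv_mul_cancel₀ (pow_ne_zero _ hr), one_smul]

variable [IsAlgClosed W.K]

/-- the data of the normalised Frobenius endomorphism -/
theorem exists_dataW (X : 𝒱.Obj) : ∃ r : W.K, r ≠ 0 ∧ r ^ 2 = (p : W.K) ^ Φ.e X ∧
    Nonempty (JD (PH W X 0) (PH W X 1) (nf Φ X r)) := by
  obtain ⟨r, hr⟩ := IsAlgClosed.exists_pow_nat_eq ((p : W.K) ^ Φ.e X) (n := 2) two_pos
  have hp : (p : W.K) ^ Φ.e X ≠ 0 := pow_ne_zero _ (Nat.cast_ne_zero.2 Φ.p_pos.ne')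
  have hr0 : r ≠ 0 := by
    rintro rfl
    rw [zero_pow two_ne_zero] at hr
    exact hp hr.symm
  refine ⟨r, hr0, hr, ?_⟩
  exact exists_JD (β := trB W X) (PH.compl W X) (fun x hx => W.nondeg x hx)
    (nf_iso Φ hr0 hr) ((nf_dg Φ r).ph 0) ((nf_dg Φ r).ph 1)
    (fun x hx y hy => trB_odd hx hy rfl) (fun x hx y hy => trB_odd hx hy rfl)

/-- the coordinates on the powers -/
theorem exists_cdW {r : W.K} (D : JD (PH W X 0) (PH W X 1) (nf Φ X r)) (n : ℕ) :
    ∃ C : CD (PH W (pw X n) 0) (nfp Φ X r n) (Fin (n + 1) → Σ j : D.B, Fin (D.s j)) (LG W.K),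
      C.ω = wt (jw D.s) ∧ C.lam = lb D.lab := by
  classical
  set d : (Σ j : D.B, Fin (D.s j)) → ℕ := fun i => if D.par i.1 = 1 then 0 else 1 with hd
  have hb : ∀ i, D.b i ∈ PH W X (d i) := by
    intro i
    by_cases h : D.par i.1 = 1
    · rw [hd]; simp only [h, if_true]; exact D.par0 i h
    · rw [hd]; simp only [h, if_false]; exact D.par1 i h
  have hpar : ∀ i : Σ j : D.B, Fin (D.s j), D.par i.1 = Multiplicative.ofAdd ((d i : ℕ) : ZMod 2) := by
    intro i
    by_cases h : D.par i.1 = 1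
    · rw [hd]; simp only [h, if_true]; rfl
    · rw [hd]; simp only [h, if_false]
      generalize D.par i.1 = t at h
      revert t; decide
  obtain ⟨bn, h1, h2⟩ := exists_bpw Φ D.b d hb r n
  refine D.exists_cd bn h1 fun z => ?_
  have key : ∀ x : Fin (n + 1) → Σ j : D.B, Fin (D.s j),
      (∏ k, D.par (x k).1 = 1 ↔ (∑ k, d (x k)) % 2 = 0) := by
    intro x
    have e : ∏ k, D.par (x k).1 = Multiplicative.ofAdd ((∑ k, d (x k) : ℕ) : ZMod 2) := by
      rw [Nat.cast_sum, ofAdd_sum]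
      exact Finset.prod_congr rfl fun k _ => hpar _
    rw [e, ← ofAdd_zero, Multiplicative.ofAdd.injective.eq_iff, ZMod.natCast_eq_zero_iff]
    exact Nat.dvd_iff_mod_eq_zero
  refine mem_iff_of_basis (PH.compl W _) bn (fun x => ∏ k, D.par (x k).1 = 1) (fun x hx => ?_)
    (fun x hx => ?_) z
  · exact PH.congr (by rw [(key x).1 hx]) (h2 x)
  · have : (∑ k, d (x k)) % 2 ≠ 0 := fun h => hx ((key x).2 h)
    exact PH.congr (by omega) (h2 x)

lemma not_semisimple_data {r : W.K} (hr : r ≠ 0) (D : JD (PH W X 0) (PH W X 1) (nf Φ X r))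
    (hns : ¬ FrobSemisimple Φ X) : ∃ i, jw D.s i ≠ 0 := by
  classical
  by_contra hcon
  push Not at hcon
  apply hns
  have := D.ft
  have h1 : (nf Φ X r).IsSemisimple := by
    refine semisimple_of_eig (Finset.univ.image fun i : Σ j : D.B, Fin (D.s j) =>
      (D.ev i.1 : W.K)) (Set.range D.b) D.b.span_eq ?_
    rintro x ⟨i, rfl⟩
    exact ⟨D.ev i.1, Finset.mem_image_of_mem _ (Finset.mem_univ i), D.apply_eq hcon i⟩
  have h2 := nf_pow Φ (X := X) hr 1
  rw [pow_one, pow_one, frob_one_eq] at h2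
  rw [FrobSemisimple, h2]
  exact (sc_semisimple r).mul_of_commute (sc_comm r (nf_dg Φ r)) h1

end Pool.Agent.K1H13.G
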