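import Pool.Agent.Y133.Half.TateHalfDefs
import Pool.Agent.Y133.Half.DDefs

/-!
# The rank of the intersection form on the Tate classes: definitions
-/

open CategoryTheory AlgebraicGeometry

universe u v

namespace Pool.Agent.K1H13.G

open Pool.Agent.H914 Pool.Agent.H914.VarClass Pool.Agent.H914.VarClass.Obj
  Pool.Agent.H914.WeilCohomology Pool.Agent.W534 Pool.Agent.Y133.Half

variable {k : Type u} [Field k] {𝒱 : VarClass k} {ops : CycleOps 𝒱}
  {W : WeilCohomology.{u, v} ops} {p : ℕ}

/-- The linear combinations of Tate classes on `Y` whose intersection numbers with all Tate classes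
vanish. -/
def tateNull (Φ : FrobSystem W p) (Y : 𝒱.Obj) : Set (W.H Y) :=
  {c | c ∈ Submodule.span W.K (tateSet Φ Y) ∧ ∀ d ∈ tateSet Φ Y, W.tr Y (c * d) = 0}

/-- The rank of the intersection form on the space of the Tate classes of all degrees on `Y`. -/
noncomputable def tateFormRank (Φ : FrobSystem W p) (Y : 𝒱.Obj) : ℕ :=
  tateDim Φ Y - dimOf W (tateNull Φ Y)

end Pool.Agent.K1H13.G
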