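import Pool.Agent.K1H13.G.Wei4
import Pool.Agent.K1H13.G.WeiDefs

/-!
# The law for the powers of a variety
-/

set_option autoImplicit false
set_option linter.unusedSectionVars false

open CategoryTheory AlgebraicGeometry

universe u v

namespace Pool.Agent.K1H13.G

open Module Matrix
open Pool.Agent.H914 Pool.Agent.H914.VarClass Pool.Agent.H914.VarClass.Obj
  Pool.Agent.H914.WeilCohomology Pool.Agent.W534 Pool.Agent.H281R3.HT Pool.Agent.Y133.Half
  Pool.Agent.K1H13.S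

variable {k : Type u} [Field k] {𝒱 : VarClass k} {ops : CycleOps 𝒱}
  {W : WeilCohomology.{u, v} ops} {X Y Z : 𝒱.Obj} {p : ℕ} (Φ : FrobSystem W p)

lemma tateNull_eq : tateNull Φ Y = ((trueTateSys Φ).Num Y : Set (W.H Y)) := by
  ext c
  constructor
  · rintro ⟨h1, h2⟩
    refine ⟨h1, fun d hd => ?_⟩
    have hd' : d ∈ TSpan Φ Y := hd
    refine TSpan.ind (q := fun d => W.tr Y (c * d) = 0) ?_ ?_ ?_ ?_ hd'
    · intro j x hx; exact h2 x ⟨j, hx⟩
    · rw [mul_zero, map_zero]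
    · intro a b ha hb; rw [mul_add, map_add, ha, hb, add_zero]
    · intro r a ha; rw [mul_smul_comm, map_smul, ha, smul_zero]
  · rintro ⟨h1, h2⟩
    exact ⟨h1, fun d hd => h2 d (Submodule.subset_span hd)⟩

lemma tateFormRank_eq : tateFormRank Φ Y = (trueTateSys Φ).a Y := by
  have h := (trueTateSys Φ).a_add_num Y
  have h1 : dimOf W (tateNull Φ Y) = finrank W.K ((trueTateSys Φ).Num Y) := by
    rw [dimOf, Set.finrank, tateNull_eq, Submodule.span_eq]
  have h2 : tateDim Φ Y = finrank W.K ((trueTateSys Φ).C Y) := rfl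
  rw [tateFormRank, h1, h2]
  exact (Nat.eq_sub_of_add_eq h).symm

/-- the rank of the form in terms of the form -/
lemma rankOn_num (S : Sys W) (Y : 𝒱.Obj) : rankOn (trB W Y) (S.C Y) = S.a Y := by
  have h1 := rankOn_add (trB W Y) (S.C Y)
  have h2 := S.a_add_num Y
  have h3 : {z | z ∈ S.C Y ∧ ∀ y ∈ S.C Y, trB W Y z y = 0} = (S.Num Y : Set (W.H Y)) := rfl
  rw [h3, Set.finrank, Submodule.span_eq] at h1
  omega

lemma cycRank_le (Y : 𝒱.Obj) : cycRank ops Y ≤ tateFormRank Φ Y := by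
  rw [← numDim_eq_cycRank W, tateFormRank_eq, ← rankOn_num, ← rankOn_num]
  exact rankOn_mono _ (alg_le_trueTate Φ Y)

lemma algDim_le (Y : 𝒱.Obj) : algDim W Y ≤ tateDim Φ Y := by
  rw [algDim_eq, tateDim_eq]
  exact Submodule.finrank_mono (alg_le_trueTate Φ Y)

/-- The semisimple case. -/
theorem ss_law (h : FrobSemisimple Φ X) (n : ℕ) :
    tateDim Φ (pw X n) = genTateDim Φ (pw X n) ∧
      tateFormRank Φ (pw X n) = genTateDim Φ (pw X n) := by
  have h1 : tateDim Φ (pw X n) = genTateDim Φ (pw X n) := by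
    rw [tateDim_eq, genTateDim_eq, TSpan_eq Φ h n]
  refine ⟨h1, ?_⟩
  rw [← h1, tateFormRank]
  have h2 : dimOf W (tateNull Φ (pw X n)) = 0 := by
    have h3 : (trueTateSys Φ).Num (pw X n) = ⊥ := by
      rw [eq_bot_iff]
      rintro c ⟨hc, hc'⟩
      rw [Submodule.mem_bot]
      have hc2 : c ∈ TSpan Φ (pw X n) := hc
      refine TC.nondeg (Φ := Φ) (TSpan_le Φ _ hc2) fun y hy => hc' y ?_
      rw [← TSpan_eq Φ h n] at hy
      exact hy
    rw [dimOf, Set.finrank, tateNull_eq, Submodule.span_eq, h3, finrank_bot]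
  rw [h2, Nat.sub_zero]

section

variable {r : W.K} {T : Module.End W.K (W.H Z)} {a m : ℕ} (N : Nrm Φ Z r T a m)
include N

lemma Nrm.tateDim : tateDim Φ Z = Set.finrank W.K (tateS (PH W Z 0) T) := by
  rw [Y133.Half.tateDim, dimOf, Set.finrank, N.span_tate]
  rfl

lemma Nrm.genTateDim : genTateDim Φ Z = Set.finrank W.K (genS (PH W Z 0) T) := by
  rw [Y133.Half.genTateDim, dimOf, Set.finrank, N.span_gen]
  rfl

lemma Nrm.formRank {J A : Type v} [Fintype J] [DecidableEq J] [CommGroup A]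
    (C : CD (PH W Z 0) T J A) : (tateFormRank Φ Z : ℝ) =
      (Set.finrank W.K (tateS (PH W Z 0) T) : ℝ) -
        Set.finrank W.K (radS (PH W Z 0) T (trB W Z)) := by
  have h1 := rankOn_span C (trB W Z)
  rw [← N.span_tate] at h1
  have h2 : rankOn (trB W Z) (Submodule.span W.K (tateSet Φ Z)) = tateFormRank Φ Z := by
    rw [tateFormRank_eq, ← rankOn_num]
    rfl
  rw [h2] at h1
  rw [← h1]
  push_cast
  ring

end

/-- **The law if Frobenius is not semisimple.** -/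
theorem ns_law (b : ℕ) : ∃ C : ℝ, 0 < C ∧ ∀ {k : Type u} [Field k] {𝒱 : VarClass k}
    {ops : CycleOps 𝒱} {W : WeilCohomology.{u, v} ops} [IsAlgClosed W.K] {p : ℕ}
    (Φ : FrobSystem W p) {X : 𝒱.Obj}, finrank W.K (W.H X) = b → ¬ FrobSemisimple Φ X → ∀ n : ℕ,
    ((genTateDim Φ (pw X n) : ℝ) ≤ C * Real.sqrt (n + 1) * tateDim Φ (pw X n) ∧
    (tateDim Φ (pw X n) : ℝ) * Real.sqrt (n + 1) ≤ C * genTateDim Φ (pw X n) ∧
    (genTateDim Φ (pw X n) : ℝ) ≤ C * Real.sqrt (n + 1) ^ 3 * tateFormRank Φ (pw X n) ∧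
    (tateFormRank Φ (pw X n) : ℝ) * Real.sqrt (n + 1) ^ 3 ≤ C * genTateDim Φ (pw X n)) ∧
    b ^ (n + 1) ≤ b * (n + 2) ^ b * genTateDim Φ (pw X n) := by
  obtain ⟨C, hC0, hC⟩ := jd_law.{v} b
  refine ⟨C, hC0, ?_⟩
  intro k _ 𝒱 ops W _ p Φ X hb hns n
  classical
  have hnt : Nontrivial (W.H X) := by
    by_contra hcon
    rw [not_nontrivial_iff_subsingleton] at hcon
    apply hns
    have : (W.map (Φ.Fr X)).toLinearMap = 0 := LinearMap.ext fun x => Subsingleton.elim _ _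
    rw [FrobSemisimple, this]
    refine semisimple_of_eig {0} Set.univ Submodule.span_univ fun x _ => ⟨0, by simp, ?_⟩
    exact Subsingleton.elim _ _
  obtain ⟨r, hr, hq, ⟨D⟩⟩ := exists_dataW Φ X
  obtain ⟨a, m, N⟩ := exists_nrm Φ hr hq n
  obtain ⟨C', hω, hlam⟩ := exists_cdW Φ D n
  obtain ⟨j₀, h1, h2⟩ := D.exists_j₀ (PH.compl W X) (nf_iso Φ hr hq) (trivial_pairing Φ hr hq)
  have hcard : Fintype.card (Σ j : D.B, Fin (D.s j)) = b := by
    rw [← hb, finrank_eq_card_basis D.b]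
  have h3 := hC D hcard (not_semisimple_data Φ hr D hns) h1 h2 (n + 1) (by omega)
    (β := trB W (pw X n)) C' hω hlam (nfp_iso Φ hr hq n) fun z hz h => trB_nondeg_even hz h
  rw [← N.genTateDim, ← N.formRank Φ C', ← N.tateDim] at h3
  refine ⟨by exact_mod_cast h3, ?_⟩
  have h4 := growth (lab := fun i : Σ j : D.B, Fin (D.s j) => D.lj i.1) D.hτ
    (fun i => Prod.ext (by
      show (QuotientGroup.mk (D.ev (D.τ i).1) : W.Kˣ ⧸ CommGroup.torsion W.Kˣ) = _
      rw [D.hτe]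
      rfl) (D.hτp i)) ⟨⟨j₀, ⟨0, by omega⟩⟩, h2⟩ (n + 1)
  have e3 : genTateDim Φ (pw X n) =
      Finset.card (OK (fun i : Σ j : D.B, Fin (D.s j) => D.lj i.1) (n + 1)) := by
    rw [N.genTateDim, C'.finrank_gen, hlam]
    congr 1
  rw [e3, ← hcard]
  exact h4

end Pool.Agent.K1H13.G
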